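import Mathlib
import Pool.Agent.Helper11.QR.SgLaw
import Pool.Agent.Helper6.MR.Iface2

/-!
# Project AS (MP_e0aac0_nt): almost all shifts

Goal: for all `k`, in ordinary averages, at every scale `N`, in total variation,
`(Ω(n + h₁), ..., Ω(n + h_k))` is close to `k` independent copies of `Ω`, for almost all
`(h₁, ..., h_k) ∈ [1, H]^k`, `H → ∞` arbitrarily slowly; more precisely (`star`), for EVERY fixed
tuple `a` of `k` distinct shifts and almost all `h ≤ H` the coordinate `Ω(n + h)` is independent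
of `(Ω(n + a₁), ..., Ω(n + a_k))`.

The library `Helper13.Om` (expectation `EE` for product weights, `Ep k N F` = mean of `F` at `k`
independent values of `Ω`, `CpN`, `K0`, `PP`, `sg`, `Es`) is used.
-/

set_option autoImplicit false

namespace AS

open Finset Helper13.Om Helper11.QR

/-- The number of primes of `P` dividing `m + τ i`. -/
def sv {ι : Type} (τ : ι → ℕ) (P : Finset ℕ) (m : ℕ) (i : ι) : ℕ :=
  (P.filter (fun q => q ∣ m + τ i)).card

/-- The number of primes `p ≤ h` dividing `x`. -/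
def sm (h x : ℕ) : ℕ := ((Finset.range (h + 1)).filter (fun p => p.Prime ∧ p ∣ x)).card

/-- The vectors of nonnegative integers with sum at most `S`. -/
def Wn (ι : Type) [Fintype ι] [DecidableEq ι] (S : ℕ) : Finset (ι → ℕ) :=
  (Fintype.piFinset (fun _ : ι => Finset.range (S + 1))).filter (fun w => ∑ v, w v ≤ S)

/-- The sites of a window: the left vertex `i` has the sites `σ i + a c`, the right vertex `i` has
the site `θ i`. -/
def pos {k q : ℕ} (a : Fin k → ℕ) (σ θ : Fin q → ℕ) (v : Fin q × Option (Fin k)) : ℕ :=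
  v.2.elim (θ v.1) (fun c => σ v.1 + a c)

/-- The edges `i < j`. -/
def edg (q : ℕ) : Finset (Fin q × Fin q) := Finset.univ.filter (fun e => e.1 < e.2)

/-- The window sum. -/
noncomputable def Zs {k q : ℕ} (R : ℕ → (Fin k → ℕ) → ℕ → ℕ → ℝ) (σ θ : Fin q → ℕ)
    (ℓ : Fin q × Option (Fin k) → ℕ) : ℝ :=
  ∑ e ∈ edg q, R (σ e.1) (fun c => ℓ (e.1, some c)) (θ e.2) (ℓ (e.2, none))

/-- `R` is `δ`-small against all products `f(s, y) g(t, x)`. -/
def CutA (k N H : ℕ) (δ : ℝ) (R : ℕ → (Fin k → ℕ) → ℕ → ℕ → ℝ) : Prop :=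
  ∀ (f : ℕ → (Fin k → ℕ) → ℝ) (g : ℕ → ℕ → ℝ), (∀ s y, |f s y| ≤ 1) → (∀ t x, |g t x| ≤ 1) →
    |1 / (H : ℝ) ^ 2 * ∑ s ∈ Finset.Icc 1 H, ∑ t ∈ Finset.Icc 1 H,
      Ep (k + 1) N (fun ℓ => R s (fun c => ℓ c.castSucc) t (ℓ (Fin.last k)) *
        (f s (fun c => ℓ c.castSucc) * g t (ℓ (Fin.last k))))| ≤ δ

/-- The probability that `Ω(n + a c) = y c` for all `c` and `Ω(n + t) = x`. -/
noncomputable def jnt {k : ℕ} (N : ℕ) (a : Fin k → ℕ) (t : ℕ) (y : Fin k → ℕ) (x : ℕ) : ℝ :=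
  (((Finset.Icc 1 N).filter (fun n => (∀ c, ArithmeticFunction.cardFactors (n + a c) = y c) ∧
    ArithmeticFunction.cardFactors (n + t) = x)).card : ℝ) / (N : ℝ)

/-- The probability that `Ω(n + a c) = y c` for all `c`. -/
noncomputable def lwv {k : ℕ} (N : ℕ) (a : Fin k → ℕ) (y : Fin k → ℕ) : ℝ :=
  (((Finset.Icc 1 N).filter
    (fun n => ∀ c, ArithmeticFunction.cardFactors (n + a c) = y c)).card : ℝ) / (N : ℝ)

/-- The probability that `Ω(n) = x`. -/
noncomputable def lw (N x : ℕ) : ℝ :=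
  (((Finset.Icc 1 N).filter
    (fun n => ArithmeticFunction.cardFactors n = x)).card : ℝ) / (N : ℝ)

end AS
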