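import Mathlib
import Pool.Agent.Helper6.MR.Iface2
import Pool.Agent.Helper33.MRC.X02

/-!
# AS-06: fixed function, free coefficients

From `EXPx` (exponential sums, supremum over the frequency outside) to arbitrary coefficients
`c t`.

PROOF.  Let `ε ≤ 1` without loss, `ε₁ = (ε ^ 2 / 40) ^ 2`; `H00` = the `H0` of `EXPx` for `ε₁`,
`H0 = max 1 H00`.  Let `H ≥ H0`, `H' = 2 H`, `Q = 4 H`.  For `N` large, `β n = b (Om n) - mx N b`
(`|β| ≤ 2`), `W n r = ∑_{t ∈ Icc 1 H'} β(n+t) eC (t r / Q)`, `|W| ≤ 2 H'`.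
(1) `S r := (1/N) ∑_{n ∈ Icc 1 N} ‖W n r‖^2 ≤ 2 H' ε₁ H'` for every `r < Q` (`EXPx` for `H'`).
(2) Orthogonality modulo `Q`: `∑_{r<Q} ‖W n r‖^2 = Q ∑_{t ∈ Icc 1 H'} β(n+t)^2 ≤ 4 Q H'`
(`parseval_Icc` in Helper33/MRB or MRC/X02), so `∑_r S r ^ 2 ≤ 2 ε₁ H'^2 * 4 Q H'`.
(3) `S r = ∑_{t,t' ∈ Icc 1 H'} Γ(t,t') eC ((t - t') r / Q)`, `Γ(t,t') = (1/N) ∑_n β(n+t) β(n+t')`.
All `|t - t'| < H' ≤ Q/2`, so the differences are distinct modulo `Q` and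
`∑_r S r ^ 2 = Q ∑_{|d| < H'} g(d)^2`, `g(d) = ∑_{t - t' = d} Γ(t,t')` (integers `d`).  Hence
`∑_{|d|<H'} g(d)^2 ≤ 8 ε₁ H'^3`.
(4) `γ(d) = (1/N) ∑_n β(n) β(n+d)` for `d ≥ 0`: `|Γ(t,t+d) - γ(d)| ≤ 8 H' / N` (shift of `n` by
`t ≤ H'`: at most `2 t` changed terms of size `≤ 4`).  For `0 ≤ d < H`: there are `H' - d ≥ H` pairs, so
`H |γ(d)| ≤ |g(d)| + 8 H'^2 / N`, and `∑_{0 ≤ d<H} γ(d)^2 ≤ (2/H^2) (8 ε₁ H'^3 + small) ≤ 130 ε₁ H`
for `N` large.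
(5) `(1/N) ∑_n |∑_{t ≤ H} c t β(n+t)|^2 = ∑_{t,t' ≤ H} c t c t' Γ(t,t') ≤
2 H ∑_{0≤d<H} |γ(d)| + small ≤ 2 H √H √(130 ε₁ H) + small ≤ 24 √ε₁ H^2`, so dividing by `H^2` and
Cauchy-Schwarz in `n`: the mean in the claim is at most `√(24 √ε₁) ≤ √(24 ε^2/40) ≤ ε`.
(Any other arrangement is fine; only the statement matters.)
-/

set_option autoImplicit false

namespace AS

open Finset MRP

private theorem fiber_sq {ι : Type*} [DecidableEq ι] (I : Finset ι) (ν : ι → ℤ) (g : ι → ℝ)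
    (T : Finset ℤ) :
    ∑ s ∈ T, (∑ x ∈ I.filter (fun x => ν x = s), g x) ^ 2 ≤
      ∑ x ∈ I, ∑ y ∈ I, if ν x = ν y then g x * g y else 0 := by
  have h1 : ∑ x ∈ I, ∑ y ∈ I, (if ν x = ν y then g x * g y else 0) =
      ∑ s ∈ T ∪ I.image ν, (∑ x ∈ I.filter (fun x => ν x = s), g x) ^ 2 := by
    have hmaps : ∀ x ∈ I, ν x ∈ T ∪ I.image ν := fun x hx =>
      Finset.mem_union_right _ (Finset.mem_image_of_mem ν hx)
    rw [← Finset.sum_fiberwise_of_maps_to hmaps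
      (fun x => ∑ y ∈ I, (if ν x = ν y then g x * g y else 0))]
    refine Finset.sum_congr rfl fun s _ => ?_
    rw [sq, Finset.sum_mul]
    refine Finset.sum_congr rfl fun x hx => ?_
    rw [Finset.mem_filter] at hx
    rw [Finset.mul_sum, Finset.sum_filter]
    refine Finset.sum_congr rfl fun y _ => ?_
    rw [hx.2]
    by_cases h : s = ν y
    · rw [if_pos h, if_pos h.symm]
    · rw [if_neg h, if_neg (fun h' => h h'.symm)]
  rw [h1]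
  exact Finset.sum_le_sum_of_subset_of_nonneg Finset.subset_union_left fun _ _ _ => sq_nonneg _

private theorem tele (g : ℕ → ℝ) (N : ℕ) :
    ∑ n ∈ Finset.Icc 1 N, g (n + 1) - ∑ n ∈ Finset.Icc 1 N, g n = g (N + 1) - g 1 := by
  induction N with
  | zero => simp
  | succ N ih =>
    rw [Finset.sum_Icc_succ_top (by omega), Finset.sum_Icc_succ_top (by omega)]
    linarith

private theorem shift_le {f : ℕ → ℝ} {C : ℝ} (hf : ∀ n, |f n| ≤ C) (N t : ℕ) :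
    |∑ n ∈ Finset.Icc 1 N, f (n + t) - ∑ n ∈ Finset.Icc 1 N, f n| ≤ 2 * C * t := by
  induction t with
  | zero => simp
  | succ t ih =>
    have h := tele (fun n => f (n + t)) N
    have h1 : ∑ n ∈ Finset.Icc 1 N, f (n + (t + 1)) = ∑ n ∈ Finset.Icc 1 N, f (n + 1 + t) :=
      Finset.sum_congr rfl fun n _ => by
        congr 1
        omega
    have h2 := hf (N + 1 + t)
    have h3 := hf (1 + t)
    rw [h1]
    rw [abs_le] at ih h2 h3 ⊢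
    push_cast
    constructor <;> nlinarith [ih.1, ih.2, h2.1, h2.2, h3.1, h3.2, h]

/-- the correlations -/
private noncomputable def AA (β : ℕ → ℝ) (N t t' : ℕ) : ℝ := ∑ n ∈ Finset.Icc 1 N, β (n + t) * β (n + t')

private noncomputable def GG (β : ℕ → ℝ) (N d : ℕ) : ℝ := ∑ n ∈ Finset.Icc 1 N, β n * β (n + d)

private theorem AA_symm (β : ℕ → ℝ) (N t t' : ℕ) : AA β N t t' = AA β N t' t :=
  Finset.sum_congr rfl fun _ _ => mul_comm _ _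

private theorem AA_le {β : ℕ → ℝ} (hβ : ∀ n, |β n| ≤ 2) (N t d : ℕ) :
    |AA β N (t + d) t - GG β N d| ≤ 8 * t := by
  have h := shift_le (f := fun n => β n * β (n + d)) (C := 4) (fun n => by
    rw [abs_mul]
    have h1 := hβ n
    have h2 := hβ (n + d)
    nlinarith [abs_nonneg (β n), abs_nonneg (β (n + d))]) N t
  have e : AA β N (t + d) t = ∑ n ∈ Finset.Icc 1 N, (fun n => β n * β (n + d)) (n + t) := by
    unfold AA
    refine Finset.sum_congr rfl fun n _ => ?_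
    simp only
    rw [mul_comm, show n + (t + d) = n + t + d by omega]
  rw [e]
  unfold GG
  refine h.trans (le_of_eq ?_)
  ring

private theorem AA_dist {β : ℕ → ℝ} (hβ : ∀ n, |β n| ≤ 2) {N H t t' : ℕ} (ht : t ≤ H) (ht' : t' ≤ H) :
    |AA β N t t'| ≤ |GG β N (if t' ≤ t then t - t' else t' - t)| + 8 * H := by
  split_ifs with h
  · have h1 := AA_le hβ N t' (t - t')
    rw [show t' + (t - t') = t by omega] at h1
    have h2 : (t' : ℝ) ≤ H := by exact_mod_cast ht'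
    have h3 := abs_sub_abs_le_abs_sub (AA β N t t') (GG β N (t - t'))
    linarith
  · have h1 := AA_le hβ N t (t' - t)
    rw [show t + (t' - t) = t' by omega, AA_symm] at h1
    have h2 : (t : ℝ) ≤ H := by exact_mod_cast ht
    have h3 := abs_sub_abs_le_abs_sub (AA β N t t') (GG β N (t' - t))
    linarith

private theorem inj_sum {F : Finset ℕ} {i : ℕ → ℕ} {H : ℕ} {φ : ℕ → ℝ} (hφ : ∀ d, 0 ≤ φ d)
    (hi : ∀ x ∈ F, ∀ y ∈ F, i x = i y → x = y) (hm : ∀ x ∈ F, i x < H) :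
    ∑ x ∈ F, φ (i x) ≤ ∑ d ∈ Finset.range H, φ d := by
  rw [← Finset.sum_image (f := φ) (g := i) (fun x hx y hy h => hi x hx y hy h)]
  refine Finset.sum_le_sum_of_subset_of_nonneg ?_ fun _ _ _ => hφ _
  intro d hd
  rw [Finset.mem_image] at hd
  obtain ⟨x, hx, rfl⟩ := hd
  exact Finset.mem_range.2 (hm x hx)

private theorem row_sum {φ : ℕ → ℝ} (hφ : ∀ d, 0 ≤ φ d) {H t : ℕ} (ht : t ∈ Finset.Icc 1 H) :
    ∑ t' ∈ Finset.Icc 1 H, φ (if t' ≤ t then t - t' else t' - t) ≤ 2 * ∑ d ∈ Finset.range H, φ d := by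
  rw [Finset.mem_Icc] at ht
  rw [← Finset.sum_filter_add_sum_filter_not (Finset.Icc 1 H) (fun t' => t' ≤ t)]
  have h1 : ∑ t' ∈ (Finset.Icc 1 H).filter (fun t' => t' ≤ t), φ (if t' ≤ t then t - t' else t' - t) =
      ∑ t' ∈ (Finset.Icc 1 H).filter (fun t' => t' ≤ t), φ (t - t') :=
    Finset.sum_congr rfl fun t' h => by
      rw [Finset.mem_filter] at h
      rw [if_pos h.2]
  have h2 : ∑ t' ∈ (Finset.Icc 1 H).filter (fun t' => ¬ t' ≤ t), φ (if t' ≤ t then t - t' else t' - t) =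
      ∑ t' ∈ (Finset.Icc 1 H).filter (fun t' => ¬ t' ≤ t), φ (t' - t) :=
    Finset.sum_congr rfl fun t' h => by
      rw [Finset.mem_filter] at h
      rw [if_neg h.2]
  rw [h1, h2]
  have h3 := inj_sum (F := (Finset.Icc 1 H).filter (fun t' => t' ≤ t)) (i := fun t' => t - t') (H := H) hφ
    (fun x hx y hy h => by
      rw [Finset.mem_filter, Finset.mem_Icc] at hx hy
      omega) (fun x hx => by
      rw [Finset.mem_filter, Finset.mem_Icc] at hx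
      omega)
  have h4 := inj_sum (F := (Finset.Icc 1 H).filter (fun t' => ¬ t' ≤ t)) (i := fun t' => t' - t) (H := H) hφ
    (fun x hx y hy h => by
      rw [Finset.mem_filter, Finset.mem_Icc] at hx hy
      omega) (fun x hx => by
      rw [Finset.mem_filter, Finset.mem_Icc] at hx
      omega)
  linarith

/-- the short exponential sums -/
private noncomputable def WW (β : ℕ → ℝ) (H n r : ℕ) : ℂ :=
  ∑ j ∈ Finset.Icc 1 (2 * H), ((β (n + j) : ℝ) : ℂ) * eC ((j : ℝ) * ((r : ℝ) / ((4 * H : ℕ) : ℝ)))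

private theorem WW_le {β : ℕ → ℝ} (hβ : ∀ n, |β n| ≤ 2) (H n r : ℕ) : ‖WW β H n r‖ ≤ 4 * H := by
  unfold WW
  refine (norm_sum_le _ _).trans ?_
  have h : ∀ j ∈ Finset.Icc 1 (2 * H),
      ‖((β (n + j) : ℝ) : ℂ) * eC ((j : ℝ) * ((r : ℝ) / ((4 * H : ℕ) : ℝ)))‖ ≤ 2 := by
    intro j _
    rw [norm_mul, MRB.norm_eC, mul_one, Complex.norm_real, Real.norm_eq_abs]
    exact hβ _
  refine (Finset.sum_le_sum h).trans (le_of_eq ?_)
  rw [Finset.sum_const, Nat.card_Icc, nsmul_eq_mul, Nat.add_sub_cancel]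
  push_cast
  ring

/-- the second moment -/
private noncomputable def SS (β : ℕ → ℝ) (H N r : ℕ) : ℝ := ∑ n ∈ Finset.Icc 1 N, ‖WW β H n r‖ ^ 2

private theorem SS_nonneg (β : ℕ → ℝ) (H N r : ℕ) : 0 ≤ SS β H N r :=
  Finset.sum_nonneg fun _ _ => sq_nonneg _

private theorem SS_le {β : ℕ → ℝ} (hβ : ∀ n, |β n| ≤ 2) {H N : ℕ} {e1 : ℝ}
    (hexp : ∀ r : ℕ, ∑ n ∈ Finset.Icc 1 N, ‖WW β H n r‖ ≤ e1 * (2 * H) * N) (r : ℕ) :
    SS β H N r ≤ 8 * e1 * (H : ℝ) ^ 2 * N := by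
  have h1 : SS β H N r ≤ ∑ n ∈ Finset.Icc 1 N, 4 * H * ‖WW β H n r‖ := by
    refine Finset.sum_le_sum fun n _ => ?_
    rw [sq]
    exact mul_le_mul_of_nonneg_right (WW_le hβ H n r) (norm_nonneg _)
  rw [← Finset.mul_sum] at h1
  have h2 := mul_le_mul_of_nonneg_left (hexp r) (by positivity : (0 : ℝ) ≤ 4 * H)
  calc SS β H N r ≤ _ := h1
    _ ≤ _ := h2
    _ = _ := by ring

private theorem SS_sum {β : ℕ → ℝ} (hβ : ∀ n, |β n| ≤ 2) {H N : ℕ} (hH : 1 ≤ H) :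
    ∑ r ∈ Finset.range (4 * H), SS β H N r ≤ 32 * (H : ℝ) ^ 2 * N := by
  unfold SS
  rw [Finset.sum_comm]
  have hHr : (0 : ℝ) < H := by exact_mod_cast hH
  have h : ∀ n ∈ Finset.Icc 1 N, ∑ r ∈ Finset.range (4 * H), ‖WW β H n r‖ ^ 2 ≤ 32 * (H : ℝ) ^ 2 := by
    intro n _
    have hp := MRC.parseval_Icc (2 * H) (4 * H) (by omega) (by omega) (fun j => β (n + j))
    have h1 : ∑ j ∈ Finset.Icc 1 (2 * H), (β (n + j)) ^ 2 ≤ 8 * H := by
      have h2 : ∀ j ∈ Finset.Icc 1 (2 * H), (β (n + j)) ^ 2 ≤ 4 := by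
        intro j _
        have := hβ (n + j)
        rw [← sq_abs]
        nlinarith [abs_nonneg (β (n + j))]
      refine (Finset.sum_le_sum h2).trans (le_of_eq ?_)
      rw [Finset.sum_const, Nat.card_Icc, nsmul_eq_mul, Nat.add_sub_cancel]
      push_cast
      ring
    have h3 : (1 / ((4 * H : ℕ) : ℝ)) * ∑ r ∈ Finset.range (4 * H), ‖WW β H n r‖ ^ 2 ≤ 8 * H := by
      refine le_trans (le_of_eq ?_) h1
      rw [← hp]
      rfl
    rw [one_div, inv_mul_le_iff₀ (by push_cast; positivity)] at h3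
    refine h3.trans (le_of_eq ?_)
    push_cast
    ring
  refine (Finset.sum_le_sum h).trans (le_of_eq ?_)
  rw [Finset.sum_const, Nat.card_Icc, nsmul_eq_mul]
  simp
  ring

private theorem SS_eq (β : ℕ → ℝ) (H N r : ℕ) :
    ((SS β H N r : ℝ) : ℂ) = ∑ x ∈ Finset.Icc 1 (2 * H) ×ˢ Finset.Icc 1 (2 * H),
      ((AA β N x.1 x.2 : ℝ) : ℂ) *
        eC ((((x.1 : ℤ) - (x.2 : ℤ) : ℤ) : ℝ) * ((r : ℝ) / ((4 * H : ℕ) : ℝ))) := by
  unfold SS
  have h1 : ∀ n, ((‖WW β H n r‖ ^ 2 : ℝ) : ℂ) =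
      ∑ x ∈ Finset.Icc 1 (2 * H) ×ˢ Finset.Icc 1 (2 * H),
      ((β (n + x.1) * β (n + x.2) : ℝ) : ℂ) *
        eC ((((x.1 : ℤ) - (x.2 : ℤ) : ℤ) : ℝ) * ((r : ℝ) / ((4 * H : ℕ) : ℝ))) := by
    intro n
    have h2 : ((‖WW β H n r‖ ^ 2 : ℝ) : ℂ) = WW β H n r * starRingEnd ℂ (WW β H n r) := by
      rw [Complex.mul_conj, Complex.normSq_eq_norm_sq]
    rw [h2]
    unfold WW
    rw [map_sum, Finset.sum_mul_sum, ← Finset.sum_product']
    refine Finset.sum_congr rfl fun x _ => ?_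
    have h3 : eC ((((x.1 : ℤ) - (x.2 : ℤ) : ℤ) : ℝ) * ((r : ℝ) / ((4 * H : ℕ) : ℝ))) =
        eC ((x.1 : ℝ) * ((r : ℝ) / ((4 * H : ℕ) : ℝ))) *
          eC (-((x.2 : ℝ) * ((r : ℝ) / ((4 * H : ℕ) : ℝ)))) := by
      rw [← MRB.eC_add]
      congr 1
      push_cast
      ring
    rw [map_mul, MRB.conj_eC, Complex.conj_ofReal, h3]
    push_cast
    ring
  push_cast
  rw [Finset.sum_congr rfl fun n _ => by
    have := h1 n
    push_cast at this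
    exact this]
  rw [Finset.sum_comm]
  refine Finset.sum_congr rfl fun x _ => ?_
  unfold AA
  push_cast
  rw [Finset.sum_mul]

/-- the fourth moment gives the correlations -/
private theorem corr_le {β : ℕ → ℝ} (hβ : ∀ n, |β n| ≤ 2) {H N : ℕ} (hH : 1 ≤ H) {e1 : ℝ} (he1 : 0 ≤ e1)
    (hexp : ∀ r : ℕ, ∑ n ∈ Finset.Icc 1 N, ‖WW β H n r‖ ≤ e1 * (2 * H) * N) :
    ∑ d ∈ Finset.range H, (∑ x ∈ (Finset.Icc 1 (2 * H) ×ˢ Finset.Icc 1 (2 * H)).filter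
      (fun x => ((x.1 : ℤ) - (x.2 : ℤ)) = (d : ℤ)), AA β N x.1 x.2) ^ 2 ≤ 64 * e1 * (H : ℝ) ^ 3 * (N : ℝ) ^ 2 := by
  have hHr : (0 : ℝ) < H := by exact_mod_cast hH
  have hd := MRB.dft_sq (Finset.Icc 1 (2 * H) ×ˢ Finset.Icc 1 (2 * H)) (4 * H) (by omega)
    (fun x : ℕ × ℕ => (x.1 : ℤ) - (x.2 : ℤ)) (fun x => ((AA β N x.1 x.2 : ℝ) : ℂ)) (by
    intro x hx y hy
    rw [Finset.mem_product, Finset.mem_Icc, Finset.mem_Icc] at hx hy
    rw [abs_lt]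
    constructor <;> (push_cast; omega))
  have h1 : (∑ i ∈ Finset.Icc 1 (2 * H) ×ˢ Finset.Icc 1 (2 * H),
      ∑ j ∈ Finset.Icc 1 (2 * H) ×ˢ Finset.Icc 1 (2 * H),
      if (i.1 : ℤ) - (i.2 : ℤ) = (j.1 : ℤ) - (j.2 : ℤ) then
        ((AA β N i.1 i.2 : ℝ) : ℂ) * starRingEnd ℂ ((AA β N j.1 j.2 : ℝ) : ℂ) else 0).re =
      ∑ i ∈ Finset.Icc 1 (2 * H) ×ˢ Finset.Icc 1 (2 * H),
      ∑ j ∈ Finset.Icc 1 (2 * H) ×ˢ Finset.Icc 1 (2 * H),
      if (i.1 : ℤ) - (i.2 : ℤ) = (j.1 : ℤ) - (j.2 : ℤ) then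
        AA β N i.1 i.2 * AA β N j.1 j.2 else 0 := by
    rw [Complex.re_sum]
    refine Finset.sum_congr rfl fun x _ => ?_
    rw [Complex.re_sum]
    refine Finset.sum_congr rfl fun y _ => ?_
    split_ifs
    · rw [Complex.conj_ofReal, ← Complex.ofReal_mul, Complex.ofReal_re]
    · rfl
  have h2 : ∀ r ∈ Finset.range (4 * H), ‖∑ i ∈ Finset.Icc 1 (2 * H) ×ˢ Finset.Icc 1 (2 * H),
      ((AA β N i.1 i.2 : ℝ) : ℂ) *
        eC ((((i.1 : ℤ) - (i.2 : ℤ) : ℤ) : ℝ) * ((r : ℝ) / ((4 * H : ℕ) : ℝ)))‖ ^ 2 = SS β H N r ^ 2 := by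
    intro r _
    rw [← SS_eq, Complex.norm_real, Real.norm_eq_abs, sq_abs]
  rw [Finset.sum_congr rfl h2, h1] at hd
  have h3 : ∑ r ∈ Finset.range (4 * H), SS β H N r ^ 2 ≤ 256 * e1 * (H : ℝ) ^ 4 * (N : ℝ) ^ 2 := by
    calc ∑ r ∈ Finset.range (4 * H), SS β H N r ^ 2
        ≤ ∑ r ∈ Finset.range (4 * H), 8 * e1 * (H : ℝ) ^ 2 * N * SS β H N r := by
          refine Finset.sum_le_sum fun r _ => ?_
          rw [sq]
          exact mul_le_mul_of_nonneg_right (SS_le hβ hexp r) (SS_nonneg _ _ _ _)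
      _ = 8 * e1 * (H : ℝ) ^ 2 * N * ∑ r ∈ Finset.range (4 * H), SS β H N r := by
          rw [Finset.mul_sum]
      _ ≤ 8 * e1 * (H : ℝ) ^ 2 * N * (32 * (H : ℝ) ^ 2 * N) :=
          mul_le_mul_of_nonneg_left (SS_sum hβ hH) (by positivity)
      _ = _ := by ring
  have h4 := fiber_sq (Finset.Icc 1 (2 * H) ×ˢ Finset.Icc 1 (2 * H)) (fun x : ℕ × ℕ => (x.1 : ℤ) - (x.2 : ℤ))
    (fun x => AA β N x.1 x.2) ((Finset.range H).image (fun d : ℕ => (d : ℤ)))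
  rw [Finset.sum_image (fun a _ b _ hab => by exact_mod_cast hab)] at h4
  refine h4.trans ?_
  rw [← hd]
  calc 1 / ((4 * H : ℕ) : ℝ) * ∑ r ∈ Finset.range (4 * H), SS β H N r ^ 2
      ≤ 1 / ((4 * H : ℕ) : ℝ) * (256 * e1 * (H : ℝ) ^ 4 * (N : ℝ) ^ 2) :=
        mul_le_mul_of_nonneg_left h3 (by positivity)
    _ = 64 * e1 * (H : ℝ) ^ 3 * (N : ℝ) ^ 2 := by
        push_cast
        field_simp
        ring

private theorem diag_sum {β : ℕ → ℝ} (N : ℕ) {H d : ℕ} (hd : d < H) :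
    ∑ x ∈ (Finset.Icc 1 (2 * H) ×ˢ Finset.Icc 1 (2 * H)).filter
      (fun x => ((x.1 : ℤ) - (x.2 : ℤ)) = (d : ℤ)), AA β N x.1 x.2 =
    ∑ t ∈ Finset.Icc 1 (2 * H - d), AA β N (t + d) t := by
  refine Finset.sum_nbij' (fun x => x.2) (fun t => (t + d, t)) ?_ ?_ ?_ ?_ ?_
  · intro x hx
    rw [Finset.mem_filter, Finset.mem_product, Finset.mem_Icc, Finset.mem_Icc] at hx
    rw [Finset.mem_Icc]
    omega
  · intro t ht
    rw [Finset.mem_Icc] at ht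
    rw [Finset.mem_filter, Finset.mem_product, Finset.mem_Icc, Finset.mem_Icc]
    refine ⟨⟨⟨?_, ?_⟩, ⟨?_, ?_⟩⟩, ?_⟩
    · change 1 ≤ t + d
      omega
    · change t + d ≤ 2 * H
      omega
    · change 1 ≤ t
      omega
    · change t ≤ 2 * H
      omega
    · change (((t + d : ℕ) : ℤ)) - t = d
      push_cast
      ring
  · intro x hx
    rw [Finset.mem_filter] at hx
    obtain ⟨j, q⟩ := x
    have h3 : (j : ℤ) - q = d := hx.2
    ext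
    · change q + d = j
      omega
    · rfl
  · intro t _
    rfl
  · intro x hx
    rw [Finset.mem_filter] at hx
    obtain ⟨j, q⟩ := x
    have h3 : (j : ℤ) - q = d := hx.2
    change AA β N j q = AA β N (q + d) q
    congr 1
    omega

private theorem gam_le {β : ℕ → ℝ} (hβ : ∀ n, |β n| ≤ 2) (N : ℕ) {H d : ℕ} (hd : d < H) :
    (H : ℝ) ^ 2 * (GG β N d) ^ 2 ≤ 2 * (∑ x ∈ (Finset.Icc 1 (2 * H) ×ˢ Finset.Icc 1 (2 * H)).filter
      (fun x => ((x.1 : ℤ) - (x.2 : ℤ)) = (d : ℤ)), AA β N x.1 x.2) ^ 2 + 2048 * (H : ℝ) ^ 4 := by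
  rw [diag_sum N hd]
  set g := ∑ t ∈ Finset.Icc 1 (2 * H - d), AA β N (t + d) t with hg
  set m : ℝ := ((2 * H - d : ℕ) : ℝ) with hm
  have hm1 : (H : ℝ) ≤ m := by
    rw [hm]
    exact_mod_cast (by omega : H ≤ 2 * H - d)
  have hm2 : m ≤ 2 * H := by
    rw [hm]
    exact_mod_cast (by omega : 2 * H - d ≤ 2 * H)
  have hH0 : (0 : ℝ) ≤ H := Nat.cast_nonneg _
  have h1 : |g - m * GG β N d| ≤ 32 * (H : ℝ) ^ 2 := by
    have e1 : m * GG β N d = ∑ t ∈ Finset.Icc 1 (2 * H - d), GG β N d := by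
      rw [Finset.sum_const, Nat.card_Icc, nsmul_eq_mul, hm]
      simp
    rw [e1, hg, ← Finset.sum_sub_distrib]
    refine (Finset.abs_sum_le_sum_abs _ _).trans ?_
    have h2 : ∀ t ∈ Finset.Icc 1 (2 * H - d), |AA β N (t + d) t - GG β N d| ≤ 16 * H := by
      intro t ht
      rw [Finset.mem_Icc] at ht
      have h3 : (t : ℝ) ≤ 2 * H := by exact_mod_cast (by omega : t ≤ 2 * H)
      have h4 := AA_le hβ N t d
      linarith
    refine (Finset.sum_le_sum h2).trans ?_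
    rw [Finset.sum_const, Nat.card_Icc, nsmul_eq_mul]
    have e2 : ((2 * H - d + 1 - 1 : ℕ) : ℝ) = m := by
      rw [hm]
      simp
    rw [e2]
    nlinarith
  have h5 : H * |GG β N d| ≤ |g| + 32 * (H : ℝ) ^ 2 := by
    have h6 : |m * GG β N d| ≤ |g| + 32 * (H : ℝ) ^ 2 := by
      have := abs_sub_abs_le_abs_sub (m * GG β N d) g
      rw [abs_sub_comm] at this
      linarith
    rw [abs_mul, abs_of_nonneg (by linarith : 0 ≤ m)] at h6
    have h7 : H * |GG β N d| ≤ m * |GG β N d| := mul_le_mul_of_nonneg_right hm1 (abs_nonneg _)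
    linarith
  have h8 : 0 ≤ H * |GG β N d| := by positivity
  have h9 : (H * |GG β N d|) ^ 2 ≤ (|g| + 32 * (H : ℝ) ^ 2) ^ 2 := pow_le_pow_left₀ h8 h5 2
  rw [mul_pow, sq_abs] at h9
  have h10 : (|g| + 32 * (H : ℝ) ^ 2) ^ 2 ≤ 2 * g ^ 2 + 2048 * (H : ℝ) ^ 4 := by
    have : g ^ 2 = |g| ^ 2 := (sq_abs g).symm
    rw [this]
    nlinarith [sq_nonneg (|g| - 32 * (H : ℝ) ^ 2)]
  exact h9.trans h10

private theorem G1_le {β : ℕ → ℝ} (hβ : ∀ n, |β n| ≤ 2) {H N : ℕ} (hH : 1 ≤ H) {e1 : ℝ} (he1 : 0 ≤ e1)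
    (hexp : ∀ r : ℕ, ∑ n ∈ Finset.Icc 1 N, ‖WW β H n r‖ ≤ e1 * (2 * H) * N) :
    (∑ d ∈ Finset.range H, |GG β N d|) ^ 2 ≤ 128 * e1 * (H : ℝ) ^ 2 * (N : ℝ) ^ 2 + 2048 * (H : ℝ) ^ 4 := by
  have hHr : (0 : ℝ) < H := by exact_mod_cast hH
  have h1 : (H : ℝ) ^ 2 * ∑ d ∈ Finset.range H, (GG β N d) ^ 2 ≤
      128 * e1 * (H : ℝ) ^ 3 * (N : ℝ) ^ 2 + 2048 * (H : ℝ) ^ 5 := by
    rw [Finset.mul_sum]
    refine (Finset.sum_le_sum fun d hd => gam_le hβ N (Finset.mem_range.1 hd)).trans ?_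
    rw [Finset.sum_add_distrib, ← Finset.mul_sum, Finset.sum_const, Finset.card_range, nsmul_eq_mul]
    have h2 := corr_le hβ hH he1 hexp
    have h3 : (H : ℝ) * (2048 * (H : ℝ) ^ 4) = 2048 * (H : ℝ) ^ 5 := by ring
    rw [h3]
    linarith
  have h4 : (∑ d ∈ Finset.range H, |GG β N d|) ^ 2 ≤ (H : ℝ) * ∑ d ∈ Finset.range H, |GG β N d| ^ 2 := by
    have := sq_sum_le_card_mul_sum_sq (s := Finset.range H) (f := fun d => |GG β N d|)
    rwa [Finset.card_range] at this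
  simp only [sq_abs] at h4
  have h5 : (H : ℝ) * ((H : ℝ) * ∑ d ∈ Finset.range H, (GG β N d) ^ 2) ≤
      (H : ℝ) * (128 * e1 * (H : ℝ) ^ 2 * (N : ℝ) ^ 2 + 2048 * (H : ℝ) ^ 4) := by
    calc (H : ℝ) * ((H : ℝ) * ∑ d ∈ Finset.range H, (GG β N d) ^ 2)
        = (H : ℝ) ^ 2 * ∑ d ∈ Finset.range H, (GG β N d) ^ 2 := by ring
      _ ≤ _ := h1
      _ = _ := by ring
  exact h4.trans (le_of_mul_le_mul_left h5 hHr)

private theorem sq_le {β : ℕ → ℝ} (hβ : ∀ n, |β n| ≤ 2) {c : ℕ → ℝ} (hc : ∀ t, |c t| ≤ 1) (H N : ℕ) :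
    ∑ n ∈ Finset.Icc 1 N, (∑ t ∈ Finset.Icc 1 H, c t * β (n + t)) ^ 2 ≤
      2 * H * (∑ d ∈ Finset.range H, |GG β N d|) + 8 * (H : ℝ) ^ 3 := by
  have h1 : ∑ n ∈ Finset.Icc 1 N, (∑ t ∈ Finset.Icc 1 H, c t * β (n + t)) ^ 2 =
      ∑ t ∈ Finset.Icc 1 H, ∑ t' ∈ Finset.Icc 1 H, c t * c t' * AA β N t t' := by
    have h2 : ∀ n ∈ Finset.Icc 1 N, (∑ t ∈ Finset.Icc 1 H, c t * β (n + t)) ^ 2 =
        ∑ t ∈ Finset.Icc 1 H, ∑ t' ∈ Finset.Icc 1 H, c t * c t' * (β (n + t) * β (n + t')) := by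
      intro n _
      rw [sq, Finset.sum_mul_sum]
      exact Finset.sum_congr rfl fun t _ => Finset.sum_congr rfl fun t' _ => by ring
    rw [Finset.sum_congr rfl h2, Finset.sum_comm]
    refine Finset.sum_congr rfl fun t _ => ?_
    rw [Finset.sum_comm]
    refine Finset.sum_congr rfl fun t' _ => ?_
    unfold AA
    rw [Finset.mul_sum]
  rw [h1]
  have h3 : ∀ t ∈ Finset.Icc 1 H, ∑ t' ∈ Finset.Icc 1 H, c t * c t' * AA β N t t' ≤
      2 * (∑ d ∈ Finset.range H, |GG β N d|) + 8 * (H : ℝ) ^ 2 := by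
    intro t ht
    have h4 : ∀ t' ∈ Finset.Icc 1 H, c t * c t' * AA β N t t' ≤
        |GG β N (if t' ≤ t then t - t' else t' - t)| + 8 * H := by
      intro t' ht'
      rw [Finset.mem_Icc] at ht ht'
      refine (le_abs_self _).trans ?_
      rw [abs_mul, abs_mul]
      have h5 : |c t| * |c t'| ≤ 1 := mul_le_one₀ (hc t) (abs_nonneg _) (hc t')
      have h6 : |c t| * |c t'| * |AA β N t t'| ≤ |AA β N t t'| := by
        have := mul_le_mul_of_nonneg_right h5 (abs_nonneg (AA β N t t'))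
        rwa [one_mul] at this
      exact h6.trans (AA_dist hβ ht.2 ht'.2)
    refine (Finset.sum_le_sum h4).trans ?_
    rw [Finset.sum_add_distrib, Finset.sum_const, Nat.card_Icc, nsmul_eq_mul]
    have h7 := row_sum (φ := fun d => |GG β N d|) (fun d => abs_nonneg _) ht
    have h8 : ((H + 1 - 1 : ℕ) : ℝ) * (8 * H) = 8 * (H : ℝ) ^ 2 := by
      simp
      ring
    rw [h8]
    linarith
  refine (Finset.sum_le_sum h3).trans (le_of_eq ?_)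
  rw [Finset.sum_const, Nat.card_Icc, nsmul_eq_mul]
  simp
  ring

private theorem abs_mx {N : ℕ} (hN : 1 ≤ N) {b : ℕ → ℝ} (hb : ∀ m, |b m| ≤ 1) : |mx N b| ≤ 1 := by
  unfold mx
  have hNr : (0 : ℝ) < N := by exact_mod_cast hN
  rw [abs_div, abs_of_pos hNr, div_le_one hNr]
  refine (Finset.abs_sum_le_sum_abs _ _).trans ?_
  refine (Finset.sum_le_sum fun n _ => hb (Om n)).trans (le_of_eq ?_)
  rw [Finset.sum_const, Nat.card_Icc, nsmul_eq_mul]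
  simp

theorem freeCoef (hE : MRP.EXPx) : ∀ ε : ℝ, 0 < ε → ∃ H0 : ℕ, ∀ H : ℕ, H0 ≤ H → ∃ N0 : ℕ,
    ∀ N : ℕ, N0 ≤ N → ∀ b c : ℕ → ℝ, (∀ m, |b m| ≤ 1) → (∀ t, |c t| ≤ 1) →
      1 / (N : ℝ) * ∑ n ∈ Finset.Icc 1 N,
        |1 / (H : ℝ) * ∑ t ∈ Finset.Icc 1 H, c t * (b (Om (n + t)) - mx N b)| ≤ ε := by
  intro ε hε
  obtain ⟨H00, hH00⟩ := hE (ε ^ 4 / 1600) (by positivity)
  refine ⟨max 1 H00, fun H hH => ?_⟩
  have hH1 : 1 ≤ H := (le_max_left _ _).trans hH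
  have hH2 : H00 ≤ 2 * H := by
    have := (le_max_right 1 H00).trans hH
    omega
  obtain ⟨x0, hx0⟩ := hH00 (2 * H) hH2
  refine ⟨max (max 1 x0) (⌈500 * H / ε ^ 2⌉₊), fun N hN b c hb hc => ?_⟩
  have hN1 : 1 ≤ N := ((le_max_left _ _).trans (le_max_left _ _)).trans hN
  have hNx : x0 ≤ N := ((le_max_right _ _).trans (le_max_left _ _)).trans hN
  have hNr : (0 : ℝ) < N := by exact_mod_cast hN1
  have hHr : (0 : ℝ) < H := by exact_mod_cast hH1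
  have hNε : 500 * H ≤ ε ^ 2 * N := by
    have h1 : 500 * H / ε ^ 2 ≤ N := by
      refine (Nat.le_ceil _).trans ?_
      exact_mod_cast (le_max_right _ _).trans hN
    rw [div_le_iff₀ (by positivity)] at h1
    linarith
  set β : ℕ → ℝ := fun n => b (Om n) - mx N b with hβdef
  have hβ : ∀ n, |β n| ≤ 2 := by
    intro n
    have h1 := hb (Om n)
    have h2 := abs_mx hN1 hb
    calc |β n| ≤ |b (Om n)| + |mx N b| := abs_sub _ _
      _ ≤ 2 := by linarith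
  have hexp : ∀ r : ℕ, ∑ n ∈ Finset.Icc 1 N, ‖WW β H n r‖ ≤ ε ^ 4 / 1600 * (2 * H) * N := by
    intro r
    have h := hx0 N hNx b hb ((r : ℝ) / ((4 * H : ℕ) : ℝ))
    refine le_trans (le_of_eq ?_) (h.trans (le_of_eq ?_))
    · rfl
    · push_cast
      ring
  set G := ∑ d ∈ Finset.range H, |GG β N d| with hG
  have hG0 : 0 ≤ G := Finset.sum_nonneg fun _ _ => abs_nonneg _
  have hG2 : G ≤ 3 / 10 * ε ^ 2 * H * N := by
    have h1 := G1_le hβ hH1 (by positivity : 0 ≤ ε ^ 4 / 1600) hexp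
    refine abs_le_of_sq_le_sq' ?_ (by positivity) |>.2
    refine h1.trans ?_
    have h2 : (500 * (H : ℝ)) ^ 2 ≤ (ε ^ 2 * N) ^ 2 := pow_le_pow_left₀ (by positivity) hNε 2
    have h3 : 0 < (H : ℝ) ^ 2 := by positivity
    nlinarith
  have hsq := sq_le hβ hc H N
  set M := 1 / (N : ℝ) * ∑ n ∈ Finset.Icc 1 N,
        |1 / (H : ℝ) * ∑ t ∈ Finset.Icc 1 H, c t * (b (Om (n + t)) - mx N b)| with hM
  have hM0 : 0 ≤ M := by positivity
  have hMe : M = 1 / (N * H) * ∑ n ∈ Finset.Icc 1 N, |∑ t ∈ Finset.Icc 1 H, c t * β (n + t)| := by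
    rw [hM, Finset.mul_sum, Finset.mul_sum]
    refine Finset.sum_congr rfl fun n _ => ?_
    rw [abs_mul, abs_of_pos (by positivity : (0 : ℝ) < 1 / H)]
    have : (1 : ℝ) / (N * H) = 1 / N * (1 / H) := by
      rw [one_div_mul_one_div]
    rw [this, mul_assoc]
  have hcs : (∑ n ∈ Finset.Icc 1 N, |∑ t ∈ Finset.Icc 1 H, c t * β (n + t)|) ^ 2 ≤
      N * ∑ n ∈ Finset.Icc 1 N, (∑ t ∈ Finset.Icc 1 H, c t * β (n + t)) ^ 2 := by
    have h := sq_sum_le_card_mul_sum_sq (s := Finset.Icc 1 N)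
      (f := fun n => |∑ t ∈ Finset.Icc 1 H, c t * β (n + t)|)
    simp only [sq_abs, Nat.card_Icc] at h
    simpa using h
  have hfin : M ^ 2 ≤ ε ^ 2 := by
    rw [hMe, mul_pow]
    have h1 : (∑ n ∈ Finset.Icc 1 N, |∑ t ∈ Finset.Icc 1 H, c t * β (n + t)|) ^ 2 ≤
        N * (2 * H * (3 / 10 * ε ^ 2 * H * N) + 8 * (H : ℝ) ^ 3) := by
      refine hcs.trans (mul_le_mul_of_nonneg_left (hsq.trans ?_) hNr.le)
      gcongr
    have h2 : (1 / ((N : ℝ) * H)) ^ 2 * (N * (2 * H * (3 / 10 * ε ^ 2 * H * N) + 8 * (H : ℝ) ^ 3)) =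
        6 / 10 * ε ^ 2 + 8 * H / N := by
      field_simp
      ring
    have h3 : 8 * (H : ℝ) / N ≤ 4 / 10 * ε ^ 2 := by
      rw [div_le_iff₀ hNr]
      linarith
    calc (1 / ((N : ℝ) * H)) ^ 2 * (∑ n ∈ Finset.Icc 1 N, |∑ t ∈ Finset.Icc 1 H, c t * β (n + t)|) ^ 2
        ≤ (1 / ((N : ℝ) * H)) ^ 2 * (N * (2 * H * (3 / 10 * ε ^ 2 * H * N) + 8 * (H : ℝ) ^ 3)) :=
          mul_le_mul_of_nonneg_left h1 (by positivity)
      _ = 6 / 10 * ε ^ 2 + 8 * H / N := h2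
      _ ≤ ε ^ 2 := by linarith
  exact (abs_le_of_sq_le_sq' hfin hε.le).2

end AS
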