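import Mathlib
import Pool.Agent.Helper11.QR.Reg

/-!
# AS-07: weak regularity for two different probability spaces

PROOF.  As `regBox` in Helper11/QR/Reg.lean (which is the case of `k` equal spaces).  Without loss
`δ ≤ 1`.  For finite families `a`, `b` of subsets (decidable predicates) of `X` and `Y` let `F_{a,b}`
be the conditional expectation of `F` given the partition generated by `a` (in `x`) and `b` (in
`y`), i.e. `ce` of Helper11/QR/Reg on `X ×ˢ Y` with weights `μ x * ν y` and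
`G (x, y) = (memberships)`; cells of weight zero get the value `0`.  If
`|∑ μ ν (F - F_{a,b}) f g| > δ` for some `|f|, |g| ≤ 1` then (layer cake `f = ∫ sign`, or as in
`form_le`: `f = f⁺ - f⁻`, `[0,1]`-valued functions are averages of indicators) there are subsets
`A, B` with `|∑ μ ν (F - F_{a,b}) 1_A 1_B| > δ / 4`; adding `A`, `B` to the families increases the
energy `∑ μ ν F_{a,b}^2 ≤ 1` by at least `δ^2/16` (`ce_incr`).  So after `m ≤ 16/δ^2 + 1` steps the
claim holds with `2^(2m)` cells: `F_{a,b} = ∑_{cells} c 1_{cell of a} 1_{cell of b}`, take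
`φ = c 1_{cell}`, `ψ = 1_{cell}`; pad with zeros to exactly `J = C` terms if convenient.
Pointwise `|F_{a,b}| ≤ 1` (`ce_abs`).  `J ≤ C = C(δ)`.
-/

set_option autoImplicit false

namespace AS

open Finset Helper13.Om Helper11.QR

private lemma form1 {α : Type} (X : Finset α) (w : α → ℝ) (c : ℝ)
    (h : ∀ u : α → ℝ, (∀ x, u x = 0 ∨ u x = 1) → |∑ x ∈ X, u x * w x| ≤ c) (f : α → ℝ)
    (hf : ∀ x, |f x| ≤ 1) : |∑ x ∈ X, f x * w x| ≤ 2 * c := by
  classical
  have h1 := h (fun t => if 0 ≤ w t then 1 else 0) (fun t => by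
    by_cases h : 0 ≤ w t <;> simp [h])
  have h2 := h (fun t => if 0 ≤ w t then 0 else 1) (fun t => by
    by_cases h : 0 ≤ w t <;> simp [h])
  calc |∑ x ∈ X, f x * w x| ≤ ∑ x ∈ X, |f x * w x| := Finset.abs_sum_le_sum_abs _ _
    _ ≤ ∑ x ∈ X, ((if 0 ≤ w x then (1 : ℝ) else 0) * w x - (if 0 ≤ w x then (0 : ℝ) else 1) * w x) := by
        refine Finset.sum_le_sum fun t _ => ?_
        rw [abs_mul]
        have h3 : |f t| * |w t| ≤ 1 * |w t| := mul_le_mul_of_nonneg_right (hf t) (abs_nonneg _)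
        refine h3.trans ?_
        split_ifs with h
        · rw [abs_of_nonneg h]; simp
        · rw [abs_of_neg (not_le.1 h)]; simp
    _ = ∑ x ∈ X, (if 0 ≤ w x then (1 : ℝ) else 0) * w x - ∑ x ∈ X, (if 0 ≤ w x then (0 : ℝ) else 1) * w x := by
        rw [Finset.sum_sub_distrib]
    _ ≤ 2 * c := by
        have h3 := (abs_le.1 h1).2
        have h4 := (abs_le.1 h2).1
        linarith

private lemma form2 {α β : Type} (X : Finset α) (Y : Finset β) (R : α → β → ℝ) (c : ℝ)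
    (h : ∀ (u : α → ℝ) (v : β → ℝ), (∀ x, u x = 0 ∨ u x = 1) → (∀ y, v y = 0 ∨ v y = 1) →
      |∑ x ∈ X, ∑ y ∈ Y, R x y * (u x * v y)| ≤ c) (f : α → ℝ) (g : β → ℝ)
    (hf : ∀ x, |f x| ≤ 1) (hg : ∀ y, |g y| ≤ 1) :
    |∑ x ∈ X, ∑ y ∈ Y, R x y * (f x * g y)| ≤ 4 * c := by
  have e1 : ∀ (u : α → ℝ) (v : β → ℝ), ∑ x ∈ X, ∑ y ∈ Y, R x y * (u x * v y) =
      ∑ x ∈ X, u x * ∑ y ∈ Y, R x y * v y := by
    intro u v
    refine Finset.sum_congr rfl fun x _ => ?_
    rw [Finset.mul_sum]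
    exact Finset.sum_congr rfl fun y _ => by ring
  have e2 : ∀ (u : α → ℝ) (v : β → ℝ), ∑ x ∈ X, ∑ y ∈ Y, R x y * (u x * v y) =
      ∑ y ∈ Y, v y * ∑ x ∈ X, R x y * u x := by
    intro u v
    rw [Finset.sum_comm]
    refine Finset.sum_congr rfl fun y _ => ?_
    rw [Finset.mul_sum]
    exact Finset.sum_congr rfl fun x _ => by ring
  have h1 : ∀ v : β → ℝ, (∀ y, v y = 0 ∨ v y = 1) →
      |∑ x ∈ X, ∑ y ∈ Y, R x y * (f x * v y)| ≤ 2 * c := by
    intro v hv
    rw [e1]
    refine form1 X _ c (fun u hu => ?_) f hf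
    rw [← e1]
    exact h u v hu hv
  rw [e2]
  have h2 := form1 Y (fun y => ∑ x ∈ X, R x y * f x) (2 * c) (fun v hv => by
    rw [← e2]
    exact h1 v hv) g hg
  linarith

theorem regBip (δ : ℝ) (hδ : 0 < δ) : ∃ C : ℕ, ∀ {α β : Type} [DecidableEq α] [DecidableEq β]
    (X : Finset α) (Y : Finset β) (μ : α → ℝ) (ν : β → ℝ), (∀ x, 0 ≤ μ x) → (∀ y, 0 ≤ ν y) →
    (∑ x ∈ X, μ x = 1) → (∑ y ∈ Y, ν y = 1) → ∀ F : α → β → ℝ, (∀ x y, |F x y| ≤ 1) →
    ∃ (J : ℕ) (φ : Fin J → α → ℝ) (ψ : Fin J → β → ℝ), J ≤ C ∧ (∀ j x, |φ j x| ≤ 1) ∧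
      (∀ j y, |ψ j y| ≤ 1) ∧ (∀ x y, |∑ j, φ j x * ψ j y| ≤ 1) ∧
      ∀ (f : α → ℝ) (g : β → ℝ), (∀ x, |f x| ≤ 1) → (∀ y, |g y| ≤ 1) →
        |∑ x ∈ X, ∑ y ∈ Y, μ x * ν y * ((F x y - ∑ j, φ j x * ψ j y) * (f x * g y))| ≤ δ := by
  classical
  set δ' : ℝ := δ / 4 with hδ'
  have hδ'0 : 0 < δ' := by positivity
  obtain ⟨n, hn⟩ : ∃ n : ℕ, 1 / δ' ^ 2 < n := exists_nat_gt _
  refine ⟨2 ^ n * 2 ^ n, ?_⟩
  intro α β _ _ X Y μ ν hμ hν hμ1 hν1 F hF
  set Ω : Finset (α × β) := X ×ˢ Y with hΩ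
  set m2 : α × β → ℝ := fun p => μ p.1 * ν p.2 with hm2
  set F2 : α × β → ℝ := fun p => F p.1 p.2 with hF2
  have hm : ∀ p, 0 ≤ m2 p := fun p => mul_nonneg (hμ _) (hν _)
  have hm1 : ∑ p ∈ Ω, m2 p = 1 := by
    rw [hΩ, Finset.sum_product]
    simp only [hm2]
    simp_rw [← Finset.mul_sum]
    rw [hν1]
    simpa using hμ1
  have hF2b : ∀ p, |F2 p| ≤ 1 := fun p => hF _ _
  set GG : (α → ℕ) × (β → ℕ) → α × β → ℕ × ℕ := fun g p => (g.1 p.1, g.2 p.2) with hGG
  set good : (α → ℕ) × (β → ℕ) → Prop := fun g => ∀ (u : α → ℝ) (v : β → ℝ),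
    (∀ x, u x = 0 ∨ u x = 1) → (∀ y, v y = 0 ∨ v y = 1) →
    |∑ p ∈ Ω, m2 p * ((F2 p - RegAux.ce Ω m2 F2 (GG g) (GG g p)) * (u p.1 * v p.2))| ≤ δ' with hgood
  have hiter : ∀ n : ℕ, (∃ m ≤ n, ∃ g : (α → ℕ) × (β → ℕ), (∀ x, g.1 x < 2 ^ m) ∧
      (∀ y, g.2 y < 2 ^ m) ∧ good g) ∨
      (∃ g : (α → ℕ) × (β → ℕ), (∀ x, g.1 x < 2 ^ n) ∧ (∀ y, g.2 y < 2 ^ n) ∧
        n * δ' ^ 2 ≤ ∑ p ∈ Ω, m2 p * RegAux.ce Ω m2 F2 (GG g) (GG g p) ^ 2) := by
    intro n
    induction n with
    | zero =>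
      right
      refine ⟨(fun _ => 0, fun _ => 0), fun _ => by simp, fun _ => by simp, ?_⟩
      simp only [Nat.cast_zero, zero_mul]
      exact Finset.sum_nonneg fun x _ => mul_nonneg (hm x) (sq_nonneg _)
    | succ n ih =>
      rcases ih with ⟨m, hm, h⟩ | ⟨g, hg1, hg2, hE⟩
      · exact Or.inl ⟨m, hm.trans (Nat.le_succ n), h⟩
      · by_cases hgg : good g
        · exact Or.inl ⟨n, Nat.le_succ n, g, hg1, hg2, hgg⟩
        · right
          simp only [hgood] at hgg
          push Not at hgg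
          obtain ⟨u, v, hu, hv, hlt⟩ := hgg
          set g' : (α → ℕ) × (β → ℕ) := (fun x => 2 * g.1 x + (if u x = 1 then 1 else 0),
            fun y => 2 * g.2 y + (if v y = 1 then 1 else 0)) with hg'
          have b1 : ∀ x, (if u x = 1 then 1 else 0 : ℕ) ≤ 1 := fun x => by split_ifs <;> simp
          have b2 : ∀ y, (if v y = 1 then 1 else 0 : ℕ) ≤ 1 := fun y => by split_ifs <;> simp
          refine ⟨g', ?_, ?_, ?_⟩
          · intro x
            have h1 := hg1 x
            have h2 := b1 x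
            have h3 : g'.1 x = 2 * g.1 x + (if u x = 1 then 1 else 0 : ℕ) := rfl
            rw [h3, pow_succ]
            omega
          · intro y
            have h1 := hg2 y
            have h2 := b2 y
            have h3 : g'.2 y = 2 * g.2 y + (if v y = 1 then 1 else 0 : ℕ) := rfl
            rw [h3, pow_succ]
            omega
          · have hφ : ∀ p, GG g p = (fun a : ℕ × ℕ => (a.1 / 2, a.2 / 2)) (GG g' p) := by
              intro p
              have h1 := b1 p.1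
              have h2 := b2 p.2
              have h3 : GG g' p = (2 * g.1 p.1 + (if u p.1 = 1 then 1 else 0 : ℕ),
                2 * g.2 p.2 + (if v p.2 = 1 then 1 else 0 : ℕ)) := rfl
              have h4 : GG g p = (g.1 p.1, g.2 p.2) := rfl
              rw [h3, h4]
              simp only [Prod.mk.injEq]
              constructor <;> omega
            have hh : ∀ p : α × β, u p.1 * v p.2 =
                (fun a : ℕ × ℕ => ((a.1 % 2 : ℕ) : ℝ) * ((a.2 % 2 : ℕ) : ℝ)) (GG g' p) := by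
              intro p
              have h3 : GG g' p = (2 * g.1 p.1 + (if u p.1 = 1 then 1 else 0 : ℕ),
                2 * g.2 p.2 + (if v p.2 = 1 then 1 else 0 : ℕ)) := rfl
              rw [h3]
              simp only
              congr 1
              · rcases hu p.1 with h | h
                · rw [h, if_neg (by norm_num), Nat.add_zero, Nat.mul_mod_right]
                  simp
                · rw [h, if_pos rfl, Nat.mul_add_mod]
                  simp
              · rcases hv p.2 with h | h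
                · rw [h, if_neg (by norm_num), Nat.add_zero, Nat.mul_mod_right]
                  simp
                · rw [h, if_pos rfl, Nat.mul_add_mod]
                  simp
            have hb : ∀ p, |(fun a : ℕ × ℕ => ((a.1 % 2 : ℕ) : ℝ) * ((a.2 % 2 : ℕ) : ℝ)) (GG g' p)| ≤ 1 := by
              intro p
              rw [← hh p]
              rcases hu p.1 with h | h <;> rcases hv p.2 with h' | h' <;> simp [h, h']
            have hinc := RegAux.ce_incr (F := F2) hm hm1 (GG g) (GG g')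
              (fun a : ℕ × ℕ => (a.1 / 2, a.2 / 2)) hφ
              (fun a : ℕ × ℕ => ((a.1 % 2 : ℕ) : ℝ) * ((a.2 % 2 : ℕ) : ℝ)) hb
            have hs : ∑ p ∈ Ω, m2 p * ((F2 p - RegAux.ce Ω m2 F2 (GG g) (GG g p)) *
                (fun a : ℕ × ℕ => ((a.1 % 2 : ℕ) : ℝ) * ((a.2 % 2 : ℕ) : ℝ)) (GG g' p)) =
                ∑ p ∈ Ω, m2 p * ((F2 p - RegAux.ce Ω m2 F2 (GG g) (GG g p)) * (u p.1 * v p.2)) :=
              Finset.sum_congr rfl fun p _ => by rw [← hh p]
            rw [hs] at hinc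
            have h5 : δ' ^ 2 ≤ (∑ p ∈ Ω, m2 p * ((F2 p - RegAux.ce Ω m2 F2 (GG g) (GG g p)) *
                (u p.1 * v p.2))) ^ 2 := by
              rw [← sq_abs (∑ p ∈ Ω, _)]
              exact pow_le_pow_left₀ hδ'0.le hlt.le 2
            push_cast
            linarith
  have hfin : ∃ m ≤ n, ∃ g : (α → ℕ) × (β → ℕ), (∀ x, g.1 x < 2 ^ m) ∧
      (∀ y, g.2 y < 2 ^ m) ∧ good g := by
    rcases hiter n with h | ⟨g, _, _, hE⟩
    · exact h
    · exfalso
      have h1 : ∑ p ∈ Ω, m2 p * RegAux.ce Ω m2 F2 (GG g) (GG g p) ^ 2 ≤ 1 := by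
        rw [← hm1]
        refine Finset.sum_le_sum fun p _ => mul_le_of_le_one_right (hm p) ?_
        rw [← sq_abs]
        exact pow_le_one₀ (abs_nonneg _) (RegAux.ce_abs hm hF2b _ _)
      have h2 : 1 < n * δ' ^ 2 := by
        rw [div_lt_iff₀ (by positivity)] at hn
        exact hn
      linarith
  obtain ⟨m, hmn, g, hg1, hg2, hgg⟩ := hfin
  set a : Fin (2 ^ m * 2 ^ m) → ℕ × ℕ := fun j =>
    (((finProdFinEquiv.symm j).1 : ℕ), ((finProdFinEquiv.symm j).2 : ℕ)) with ha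
  set φ : Fin (2 ^ m * 2 ^ m) → α → ℝ := fun j x =>
    RegAux.ce Ω m2 F2 (GG g) (a j) * (if g.1 x = (a j).1 then 1 else 0) with hφd
  set ψ : Fin (2 ^ m * 2 ^ m) → β → ℝ := fun j y => if g.2 y = (a j).2 then 1 else 0 with hψd
  have hS : ∀ x y, ∑ j, φ j x * ψ j y = RegAux.ce Ω m2 F2 (GG g) (g.1 x, g.2 y) := by
    intro x y
    rw [Finset.sum_eq_single (finProdFinEquiv ((⟨g.1 x, hg1 x⟩ : Fin (2 ^ m)), (⟨g.2 y, hg2 y⟩ : Fin (2 ^ m))))]
    · simp only [hφd, hψd, ha, Equiv.symm_apply_apply]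
      simp
    · intro j _ hj
      by_cases h1 : g.1 x = (a j).1
      · by_cases h2 : g.2 y = (a j).2
        · exfalso
          apply hj
          rw [← Equiv.symm_apply_eq]
          apply Prod.ext
          · apply Fin.ext
            exact h1.symm
          · apply Fin.ext
            exact h2.symm
        · simp only [hψd, if_neg h2, mul_zero]
      · simp only [hφd, if_neg h1, mul_zero, zero_mul]
    · intro h
      exact absurd (Finset.mem_univ _) h
  refine ⟨2 ^ m * 2 ^ m, φ, ψ, ?_, ?_, ?_, ?_, ?_⟩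
  · exact Nat.mul_le_mul (Nat.pow_le_pow_right (by norm_num) hmn) (Nat.pow_le_pow_right (by norm_num) hmn)
  · intro j x
    simp only [hφd]
    split_ifs
    · rw [mul_one]
      exact RegAux.ce_abs hm hF2b _ _
    · simp
  · intro j y
    simp only [hψd]
    split_ifs <;> simp
  · intro x y
    rw [hS]
    exact RegAux.ce_abs hm hF2b _ _
  · intro f h hf hh
    have h1 := form2 X Y (fun x y => μ x * ν y * (F x y - RegAux.ce Ω m2 F2 (GG g) (g.1 x, g.2 y))) δ'
      (fun u v hu hv => by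
        have h2 := hgg u v hu hv
        rw [hΩ, Finset.sum_product] at h2
        refine le_trans (le_of_eq ?_) h2
        congr 1
        refine Finset.sum_congr rfl fun x _ => Finset.sum_congr rfl fun y _ => ?_
        simp only [hm2, hF2, hGG]
        ring) f h hf hh
    refine le_trans (le_of_eq ?_) (h1.trans (by rw [hδ']; linarith))
    congr 1
    refine Finset.sum_congr rfl fun x _ => Finset.sum_congr rfl fun y _ => ?_
    rw [hS x y]
    ring

end AS
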