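import Mathlib
import Pool.Agent.Helper6.AS.Defs
import Pool.Agent.Helper11.QR.Model
import Pool.Agent.Helper11.QR.EdgeCut

/-!
# AS-01: the model of independent counts at arbitrary distinct sites

Generalises `Helper11.QR.model` (consecutive sites) to sites `τ i ≤ D`, for primes `q > D`.

PROOF.  Let `kT q m : Option (Fin (n + 1))` be `some i.succ` if `q ∣ m + τ i` for some `i`
(`Classical.choose`), else `none`.  For `q ∈ P` the `τ i` are distinct modulo `q` (`τ i ≤ D < q`,
`τ` injective), so `kT q m = some i.succ ↔ q ∣ m + τ i`, and `kT q m ≠ some 0` always.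
`kT q m` depends on `m % q` only.
(1) `kubP` (file Helper11/QR/KubP) with `t = n + 1`, `Y = Option (Fin (n + 1))`,
`φ q m = kT q (Q * m + a)`, `y₀ = none`, exactly as in the proof of `kubRes` (Helper11/QR/Model):
`hper` because `Q * m + a ≡ Q * (m % q) + a`, `hcard`: at most `n` residues (`card_affine`).
(2) The densities agree with those of `kap (n + 1) 0`: `rho_affine` (`¬ q ∣ Q`) gives
`rho φ q y = rho kT q y`, and `rho kT q (some i.succ) = 1 / q = rho (kap (n + 1) 0) q (some i.succ)`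
(`rho_kap_some` in Helper13/Om/Smooth; exactly one `r < q` with `q ∣ r + τ i`),
`rho _ q (some 0) = 0` for both (`rho_kap_some₀`), and the value at `none` follows because the sum
over `Y` is one for both.  Hence `Enu P φ F = Enu P (kap (n + 1) 0) F` for every `F`.
(3) For `F y = G (fun i => vec (n + 1) P y i.succ)` (`vec` counts the `q ∈ P` with
`y q = some i`): `vec (n + 1) P (fun q => kT q m) i.succ = sv τ P m i`.  `decouple`
(Helper13/Om/Indep, `k = n + 1`, `i₀ = 0`) compares `Enu P (kap (n + 1) 0) F` with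
`EE (tauL (n + 1) 0 P L) (fun ℓ => G (fun i => (ℓ i.succ : ℕ)))` up to
`2 (n+1)^2 ∑ 1/q^2`, and `marginal` (Helper11/QR/EdgeCut, `ι = Fin.succ`) turns the last expression
into `EE (fun _ : Fin n => sg P L) (fun ℓ => G (fun i => (ℓ i : ℕ)))`.
-/

set_option autoImplicit false

namespace AS

open Finset Helper13.Om Helper11.QR

open Classical in
private noncomputable def kT {n : ℕ} (τ : Fin n → ℕ) (q m : ℕ) : Option (Fin (n + 1)) :=
  if h : ∃ i : Fin n, q ∣ m + τ i then some h.choose.succ else none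

private lemma kT_some {n : ℕ} {τ : Fin n → ℕ} (hτ : Function.Injective τ) {D : ℕ}
    (hD : ∀ i, τ i ≤ D) {q : ℕ} (hq : D < q) (m : ℕ) (i : Fin n) :
    kT τ q m = some i.succ ↔ q ∣ m + τ i := by
  unfold kT
  constructor
  · intro h
    split_ifs at h with h1
    rw [Option.some.injEq, Fin.succ_inj] at h
    rw [← h]
    exact h1.choose_spec
  · intro h
    have h1 : ∃ i : Fin n, q ∣ m + τ i := ⟨i, h⟩
    rw [dif_pos h1, Option.some.injEq, Fin.succ_inj]
    have h2 := h1.choose_spec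
    apply hτ
    have h3 : m + τ h1.choose ≡ m + τ i [MOD q] :=
      ((Nat.modEq_zero_iff_dvd).2 h2).trans ((Nat.modEq_zero_iff_dvd).2 h).symm
    have h4 : τ h1.choose ≡ τ i [MOD q] := Nat.ModEq.add_left_cancel' m h3
    exact Nat.ModEq.eq_of_lt_of_lt h4 (lt_of_le_of_lt (hD _) hq) (lt_of_le_of_lt (hD _) hq)

private lemma kT_zero {n : ℕ} (τ : Fin n → ℕ) (q m : ℕ) : kT τ q m ≠ some 0 := by
  unfold kT
  split_ifs with h
  · intro h1
    rw [Option.some.injEq] at h1
    exact Fin.succ_ne_zero _ h1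
  · simp

private lemma kT_congr {n : ℕ} (τ : Fin n → ℕ) (q m m' : ℕ) (h : m % q = m' % q) :
    kT τ q m = kT τ q m' := by
  unfold kT
  have : ∀ i : Fin n, q ∣ m + τ i ↔ q ∣ m' + τ i := by
    intro i
    rw [Nat.dvd_iff_mod_eq_zero, Nat.dvd_iff_mod_eq_zero, Nat.add_mod m, Nat.add_mod m', h]
  simp only [this]

private lemma kT_card {n : ℕ} {τ : Fin n → ℕ} (hτ : Function.Injective τ) {D : ℕ}
    (hD : ∀ i, τ i ≤ D) {q : ℕ} (hqp : q.Prime) (hq : D < q) (i : Fin n) :
    ((Finset.range q).filter (fun r => kT τ q r = some i.succ)).card = 1 := by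
  have h1 : (Finset.range q).filter (fun r => kT τ q r = some i.succ) =
      (Finset.range q).filter (fun r => (fun x => x = 0) ((1 * r + τ i) % q)) := by
    refine Finset.filter_congr fun r _ => ?_
    rw [kT_some hτ hD hq r i, one_mul, Nat.dvd_iff_mod_eq_zero]
  rw [h1, card_affine q 1 (τ i) hqp (fun h => hqp.one_lt.ne' (Nat.dvd_one.mp h))
    (fun x => x = 0), Finset.card_eq_one]
  refine ⟨0, ?_⟩
  ext x
  simp only [Finset.mem_filter, Finset.mem_range, Finset.mem_singleton]
  exact ⟨fun h => h.2, fun h => ⟨h ▸ hqp.pos, h⟩⟩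

private lemma kT_card_bad {n : ℕ} {τ : Fin n → ℕ} (hτ : Function.Injective τ) {D : ℕ}
    (hD : ∀ i, τ i ≤ D) {q : ℕ} (hqp : q.Prime) (hq : D < q) :
    ((Finset.range q).filter (fun r => kT τ q r ≠ none)).card ≤ n + 1 := by
  classical
  have h1 : (Finset.range q).filter (fun r => kT τ q r ≠ none) ⊆
      (Finset.univ : Finset (Fin n)).biUnion
        (fun i => (Finset.range q).filter (fun r => kT τ q r = some i.succ)) := by
    intro r hr
    rw [Finset.mem_filter] at hr
    obtain ⟨i, hi⟩ := Option.ne_none_iff_exists'.mp hr.2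
    rw [Finset.mem_biUnion]
    have hi0 : i ≠ 0 := by
      rintro rfl
      exact kT_zero τ q r hi
    obtain ⟨j, rfl⟩ := Fin.exists_succ_eq.2 hi0
    exact ⟨j, Finset.mem_univ _, by rw [Finset.mem_filter]; exact ⟨hr.1, hi⟩⟩
  refine (Finset.card_le_card h1).trans (Finset.card_biUnion_le.trans ?_)
  rw [Finset.sum_congr rfl fun i _ => kT_card hτ hD hqp hq i]
  simp

private lemma rho_kT {n : ℕ} {τ : Fin n → ℕ} (hτ : Function.Injective τ) {D : ℕ}
    (hD : ∀ i, τ i ≤ D) {q : ℕ} (hqp : q.Prime) (hq : D < q) (hn : n + 1 ≤ q)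
    (y : Option (Fin (n + 1))) : rho (kT τ) q y = rho (kap (n + 1) 0) q y := by
  have hs : ∀ i : Fin (n + 1), rho (kT τ) q (some i) = rho (kap (n + 1) 0) q (some i) := by
    intro i
    rcases Fin.eq_zero_or_eq_succ i with rfl | ⟨j, rfl⟩
    · rw [rho_kap_some₀ (n + 1) 0 q hn]
      unfold rho
      have : (Finset.range q).filter (fun r => kT τ q r = some 0) = ∅ := by
        rw [Finset.filter_eq_empty_iff]
        intro r _ h
        exact kT_zero τ q r h
      rw [this]
      simp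
    · rw [rho_kap_some (n + 1) 0 q hqp hn j.succ (Fin.succ_ne_zero j)]
      unfold rho
      rw [kT_card hτ hD hqp hq j]
      norm_num
  rcases y with _ | i
  · have h1 := rho_sum (kT τ) q hqp.pos
    have h2 := rho_sum (kap (n + 1) 0) q hqp.pos
    rw [Fintype.sum_option] at h1 h2
    rw [Finset.sum_congr rfl fun i _ => hs i] at h1
    linarith
  · exact hs i

private lemma vec_kT {n : ℕ} {τ : Fin n → ℕ} (hτ : Function.Injective τ) {D : ℕ}
    (hD : ∀ i, τ i ≤ D) (P : Finset ℕ) (hP : ∀ q ∈ P, D < q) (m : ℕ) (i : Fin n) :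
    vec (n + 1) P (fun q => kT τ q m) i.succ = sv τ P m i := by
  unfold vec cnt sv
  rw [Finset.card_filter, Finset.card_filter]
  rw [← Finset.sum_coe_sort P (fun q => if q ∣ m + τ i then 1 else 0)]
  refine Finset.sum_congr rfl fun q _ => ?_
  have := kT_some hτ hD (hP q q.2) m i
  by_cases h : (q : ℕ) ∣ m + τ i
  · rw [if_pos h, if_pos (this.2 h)]
  · rw [if_neg h, if_neg (fun h' => h (this.1 h'))]

theorem modelT (n : ℕ) (τ : Fin n → ℕ) (hτ : Function.Injective τ) (D : ℕ) (hD : ∀ i, τ i ≤ D)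
    (P : Finset ℕ) (hP : ∀ q ∈ P, q.Prime ∧ n + 2 ≤ q ∧ D < q) (Q a : ℕ)
    (hQ : ∀ q ∈ P, ¬ q ∣ Q) (E : ℕ) (hE1 : 1 ≤ E) (hE : ∀ q ∈ P, Nat.log 2 q ≤ E) (M L : ℕ)
    (hM : 2 ≤ M) (hL : P.card ≤ L + 1) (G : (Fin n → ℕ) → ℝ) (hG : ∀ s, |G s| ≤ 1) :
    |(∑ m ∈ Finset.Icc 1 M, G (sv τ P (Q * m + a))) / M -
      EE (fun _ : Fin n => sg P L) (fun ℓ => G (fun i => (ℓ i : ℕ)))| ≤
      (CpN (n + 1) : ℝ) * E / Nat.log 2 M +
        2 * ((n + 1 : ℕ) : ℝ) ^ 2 * ∑ q ∈ P, (1 : ℝ) / (q : ℝ) ^ 2 := by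
  classical
  have hP1 : ∀ q ∈ P, n + 1 ≤ q := fun q hq => by
    have := (hP q hq).2.1
    omega
  set H : (P → Option (Fin (n + 1))) → ℝ := fun y => G (fun i => vec (n + 1) P y i.succ) with hH
  have h := kubP (n + 1) (Option (Fin (n + 1))) P (fun q hq => (hP q hq).1)
    (fun q m => kT τ q (Q * m + a)) none (fun q hq => by
      have := (hP q hq).2.1
      omega) (fun q hq => by
      rw [Fintype.card_option, Fintype.card_fin]
      exact (hP q hq).2.1) (fun q _ m => by
      refine kT_congr _ _ _ _ ?_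
      rw [Nat.add_mod, Nat.mul_mod, Nat.add_mod (Q * (m % q)), Nat.mul_mod Q (m % q),
        Nat.mod_mod]) (fun q hq => by
      have h1 : (Finset.range q).filter (fun r => kT τ q (Q * r + a) ≠ none) =
          (Finset.range q).filter
            (fun r => (fun x => kT τ q x ≠ none) ((Q * r + a) % q)) := by
        refine Finset.filter_congr fun r _ => ?_
        beta_reduce
        rw [kT_congr τ q (Q * r + a) ((Q * r + a) % q) (Nat.mod_mod _ _).symm]
      rw [h1, card_affine q Q a (hP q hq).1 (hQ q hq) (fun x => kT τ q x ≠ none)]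
      exact kT_card_bad hτ hD (hP q hq).1 (hP q hq).2.2) E hE1 hE M hM H (fun y => hG _)
  have e : Enu P (fun q m => kT τ q (Q * m + a)) H = Enu P (kap (n + 1) 0) H := by
    unfold Enu
    refine Finset.sum_congr rfl fun y _ => ?_
    congr 1
    refine Finset.prod_congr rfl fun q _ => ?_
    rw [rho_affine (kT τ) q Q a (hP q q.2).1 (hQ q q.2)
      (fun m => kT_congr τ q m (m % q) (Nat.mod_mod _ _).symm) (y q)]
    exact rho_kT hτ hD (hP q q.2).1 (hP q q.2).2.2 (hP1 q q.2) (y q)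
  rw [e] at h
  have h2 := decouple (n + 1) 0 P (fun q hq => ⟨(hP q hq).1, hP1 q hq⟩) L hL
    (fun s => G (fun i => s i.succ)) (fun s => hG _)
  have h3 := marginal n n L P (fun q hq => (hP q hq).1) Fin.succ (Fin.succ_injective n)
    (fun i => Fin.succ_ne_zero i) (fun y => G (fun i => (y i : ℕ)))
  rw [← h3]
  have h4 : ∑ m ∈ Finset.Icc 1 M, G (sv τ P (Q * m + a)) =
      ∑ m ∈ Finset.Icc 1 M, H (fun q : P => kT τ q (Q * m + a)) := by
    refine Finset.sum_congr rfl fun m _ => ?_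
    simp only [hH]
    congr 1
    funext i
    exact (vec_kT hτ hD P (fun q hq => (hP q hq).2.2) (Q * m + a) i).symm
  rw [h4]
  exact (abs_sub_le _ (Enu P (kap (n + 1) 0) H) _).trans (add_le_add h h2)

end AS
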