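import Mathlib
import Pool.Agent.Helper6.AS.Defs
import Pool.Agent.Helper11.QR.WMean

/-!
# AS-03: the remaining prime factors

`Ω(m + v) - #{q ∈ PP h E : q ∣ m + v} - sm h (m + v)` is nonnegative and has bounded mean,
with a bound which does not depend on `h`.

PROOF.  `E = Nat.log 2 N / u`.  For `N` large (`h < 2 ^ E`) the set `PP 0 E` (all primes
`< 2 ^ (E+1)`) is the disjoint union of `PP h E` and the primes `≤ h`, so for every `x`
`#{q ∈ PP 0 E : q ∣ x} = #{q ∈ PP h E : q ∣ x} + sm h x`.  The first claim is `wMean 0 u D`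
(Helper11/QR/WMean), the second is `card_dvd_le` (same file) for `P = PP 0 E`.
-/

set_option autoImplicit false

namespace AS

open Finset Helper13.Om Helper11.QR

private theorem card_split (h E x : ℕ) (hE : h < 2 ^ (E + 1)) :
    ((PP 0 E).filter (fun q => q ∣ x)).card = ((PP h E).filter (fun q => q ∣ x)).card + sm h x := by
  classical
  unfold sm
  rw [← Finset.card_union_of_disjoint]
  · congr 1
    ext q
    simp only [Finset.mem_filter, Finset.mem_union, mem_PP, Finset.mem_range]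
    constructor
    · rintro ⟨⟨h1, h2, h3⟩, h4⟩
      by_cases h5 : h < q
      · exact Or.inl ⟨⟨h1, h2, h5⟩, h4⟩
      · exact Or.inr ⟨by omega, h2, h4⟩
    · rintro (⟨⟨h1, h2, h3⟩, h4⟩ | ⟨h1, h2, h4⟩)
      · exact ⟨⟨h1, h2, by omega⟩, h4⟩
      · exact ⟨⟨by omega, h2, h2.pos⟩, h4⟩
  · rw [Finset.disjoint_left]
    intro q h1 h2
    simp only [Finset.mem_filter, mem_PP, Finset.mem_range] at h1 h2
    omega

theorem wSmall (h u D : ℕ) (hu : 1 ≤ u) : ∃ N₀ : ℕ, ∀ N ≥ N₀,
    (∀ v ≤ D, ∑ m ∈ Finset.Icc 1 N, ((ArithmeticFunction.cardFactors (m + v) : ℝ) -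
      (((PP h (Nat.log 2 N / u)).filter (fun q => q ∣ m + v)).card : ℝ) - (sm h (m + v) : ℝ)) ≤
        K0 0 u * N) ∧
    (∀ x : ℕ, 1 ≤ x → ((PP h (Nat.log 2 N / u)).filter (fun q => q ∣ x)).card + sm h x ≤
      ArithmeticFunction.cardFactors x) := by
  obtain ⟨N1, hN1⟩ := wMean 0 u D hu
  refine ⟨max N1 (2 ^ (h * u)), fun N hN => ?_⟩
  have hNa : N1 ≤ N := (le_max_left _ _).trans hN
  have hNb : 2 ^ (h * u) ≤ N := (le_max_right _ _).trans hN
  have hE : h < 2 ^ (Nat.log 2 N / u + 1) := by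
    have h1 : h * u ≤ Nat.log 2 N := Nat.le_log_of_pow_le (by norm_num) hNb
    have h2 : h ≤ Nat.log 2 N / u := (Nat.le_div_iff_mul_le hu).2 h1
    calc h < 2 ^ h := Nat.lt_two_pow_self
      _ ≤ 2 ^ (Nat.log 2 N / u + 1) := Nat.pow_le_pow_right (by norm_num) (by omega)
  refine ⟨fun v hv => ?_, fun x hx => ?_⟩
  · refine le_trans (le_of_eq (Finset.sum_congr rfl fun m _ => ?_)) (hN1 N hNa v hv)
    rw [card_split h _ (m + v) hE]
    push_cast
    ring
  · rw [← card_split h _ x hE]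
    exact card_dvd_le _ (fun q hq => ((mem_PP _ _ _).1 hq).2.1) x hx

end AS
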