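import Mathlib
import Pool.Agent.Helper6.AS.S02
import Pool.Agent.Helper6.AS.S03

/-!
# AS-04: the site bound

For a nonnegative function `G ≤ 1` of the values of `Ω` at `n = card ι` distinct sites, the mean
of `G` is at most the model mean of a majorant `Ĝ` of all translates `G (· + w)`,
`w ∈ Wn ι (K n)`, up to small errors.

PROOF.  Let `n = card ι`, `e : Fin n ≃ ι`; everything may be transported to `Fin n`
(`EE` over `ι` and over `Fin n` agree: `ec_marginal` in Helper11/QR/EdgeCut is private, so reprove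
it with `Equiv.sum_comp (Equiv.piCongrLeft ..)` / `Fintype.sum_equiv` and `Equiv.prod_comp`).
Let `Q = h!`, `E = Nat.log 2 N / u`, `P = PP h E`.
(1) For `m ∈ Icc 1 N` put `w_m i = Ω(m + τ i) - #{q ∈ P : q ∣ m + τ i} - sm h (m + τ i)` (a natural
number by `wSmall`).  `∑_m ∑_i w_m i ≤ n K0 N`, so by Markov `#{m ≤ N : ∑ w_m > K n} ≤ K0 N / K`.
(2) If `∑_i w_m i ≤ K n` then `w_m ∈ Wn ι (K n)` and
`G (Ω(m + τ ·)) = G ((sv τ P m + sm h (m + τ ·)) + w_m) ≤ Ĝ (sv τ P m + sm h (m + τ ·))`.  Since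
every prime `p ≤ h` divides `Q = h!`, `sm h (m + v) = sm h (m % Q + v)`.  So in all cases
`G (Ω(m + τ ·)) ≤ 1[∑ w_m > K n] + G' (m % Q) (sv τ P m)`, `G' a s = Ĝ (s + sm h (a + τ ·))`.
(3) `residueT` for `G'`: the primes of `P` are `> h ≥ max (n + 2, D)`, do not divide `h!`, and
`Nat.log 2 q ≤ E` for `q < 2 ^ (E + 1)`; `N ≥ 8 Q ^ 2`.  `2 CpN E / log2 N ≤ 2 CpN / u`
(`E ≤ log2 N / u`), `∑_{q ∈ P} 1/q^2 ≤ 1/h` (`sum_inv_sq_le` in Helper11/QR or Helper13/Om; else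
telescoping `1/q^2 ≤ 1/(q-1) - 1/q`), so the error is at most
`2 CpN / u + 2 (n+1)^2 / h + Q / N ≤ 2 CpN / u + 4 (n+1)^2 / h` for `N ≥ Q h`.
-/

set_option autoImplicit false

namespace AS

open Finset Helper13.Om Helper11.QR

private lemma s04_transport {ι Y : Type} [Fintype ι] [DecidableEq ι] [Fintype Y] [DecidableEq Y]
    {n : ℕ} (e : Fin n ≃ ι) (σ : Y → ℝ) (H : (ι → Y) → ℝ) :
    EE (fun _ : Fin n => σ) (fun y => H (fun i => y (e.symm i))) = EE (fun _ : ι => σ) H := by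
  unfold EE
  refine Fintype.sum_equiv (Equiv.arrowCongr e (Equiv.refl Y)) _ _ ?_
  intro y
  have h1 : ∀ i, (Equiv.arrowCongr e (Equiv.refl Y)) y i = y (e.symm i) := fun i => rfl
  have h2 : ∏ i, σ ((Equiv.arrowCongr e (Equiv.refl Y)) y i) = ∏ i, σ (y i) := by
    simp only [h1]
    exact Equiv.prod_comp e.symm (fun i => σ (y i))
  rw [h2]
  rfl

private lemma s04_sm (h m v : ℕ) : sm h (m % h.factorial + v) = sm h (m + v) := by
  unfold sm
  congr 1
  refine Finset.filter_congr ?_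
  intro p hp
  rw [Finset.mem_range] at hp
  constructor
  · rintro ⟨hpp, hd⟩
    refine ⟨hpp, ?_⟩
    have hQ : p ∣ h.factorial := (Nat.Prime.dvd_factorial hpp).2 (by omega)
    have e : m + v = h.factorial * (m / h.factorial) + (m % h.factorial + v) := by
      have := Nat.div_add_mod m h.factorial
      omega
    rw [e]
    exact dvd_add (Dvd.dvd.mul_right hQ _) hd
  · rintro ⟨hpp, hd⟩
    refine ⟨hpp, ?_⟩
    have hQ : p ∣ h.factorial := (Nat.Prime.dvd_factorial hpp).2 (by omega)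
    have e : m + v = h.factorial * (m / h.factorial) + (m % h.factorial + v) := by
      have := Nat.div_add_mod m h.factorial
      omega
    rw [e] at hd
    exact (Nat.dvd_add_right (Dvd.dvd.mul_right hQ _)).1 hd

theorem siteBound (ι : Type) [Fintype ι] [DecidableEq ι] (hn : 1 ≤ Fintype.card ι)
    (u K h D : ℕ) (hu : 1 ≤ u) (hK : 1 ≤ K) (hh : Fintype.card ι + 2 ≤ h) (hD : D ≤ h) :
    ∃ N₀ : ℕ, ∀ N ≥ N₀, ∀ L : ℕ, (PP h (Nat.log 2 N / u)).card ≤ L + 1 →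
      ∀ τ : ι → ℕ, Function.Injective τ → (∀ i, τ i ≤ D) →
      ∀ G Gm : (ι → ℕ) → ℝ, (∀ ℓ, 0 ≤ G ℓ ∧ G ℓ ≤ 1) → (∀ ℓ, 0 ≤ Gm ℓ ∧ Gm ℓ ≤ 1) →
      (∀ ℓ, ∀ w ∈ Wn ι (K * Fintype.card ι), G (fun i => ℓ i + w i) ≤ Gm ℓ) →
        1 / (N : ℝ) * ∑ m ∈ Finset.Icc 1 N,
          G (fun i => ArithmeticFunction.cardFactors (m + τ i)) ≤
        1 / (h.factorial : ℝ) * ∑ a ∈ Finset.range h.factorial,
          EE (fun _ : ι => sg (PP h (Nat.log 2 N / u)) L)
            (fun ℓ => Gm (fun i => (ℓ i : ℕ) + sm h (a + τ i))) +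
        ((K0 0 u : ℝ) / K + 2 * (CpN (Fintype.card ι + 1) : ℝ) / u +
          4 * ((Fintype.card ι + 1 : ℕ) : ℝ) ^ 2 / h) := by
  classical
  obtain ⟨N₁, hN₁⟩ := wSmall h u D hu
  obtain ⟨n, hn'⟩ : ∃ n, n = Fintype.card ι := ⟨_, rfl⟩
  obtain ⟨Q, hQ⟩ : ∃ Q, Q = h.factorial := ⟨_, rfl⟩
  have hQ1 : 1 ≤ Q := by
    rw [hQ]
    exact Nat.factorial_pos h
  refine ⟨N₁ + 2 ^ u + 8 * Q ^ 2 + Q * h + 2, ?_⟩
  intro N hN L hL τ hτ hτD G Gm hG hGm hGG
  have z1 : 0 ≤ Q * h := Nat.zero_le _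
  have z2 : 0 ≤ Q ^ 2 := Nat.zero_le _
  have z3 : 0 < 2 ^ u := by positivity
  have hN1 : N₁ ≤ N := by omega
  have hN2 : 2 ^ u ≤ N := by omega
  have hN3 : 8 * Q ^ 2 ≤ N := by omega
  have hN4 : Q * h ≤ N := by omega
  have hN5 : 2 ≤ N := by omega
  obtain ⟨hw1, hw2⟩ := hN₁ N hN1
  have hlog : u ≤ Nat.log 2 N := Nat.le_log_of_pow_le (by norm_num) hN2
  obtain ⟨E, hE⟩ : ∃ E, E = Nat.log 2 N / u := ⟨_, rfl⟩
  have hE1 : 1 ≤ E := by
    rw [hE]
    exact (Nat.one_le_div_iff hu).2 hlog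
  rw [← hE] at hL hw1 hw2 ⊢
  rw [← hn'] at hn hh hGG ⊢
  rw [← hQ]
  obtain ⟨P, hP⟩ : ∃ P, P = PP h E := ⟨_, rfl⟩
  rw [← hP] at hL hw1 hw2 ⊢
  have hPm : ∀ q ∈ P, q < 2 ^ (E + 1) ∧ q.Prime ∧ h < q := by
    intro q hq
    rw [hP] at hq
    exact (mem_PP h E q).1 hq
  obtain ⟨e⟩ : Nonempty (Fin n ≃ ι) := by
    rw [hn']
    exact ⟨(Fintype.equivFin ι).symm⟩
  -- the weights
  obtain ⟨w, hw⟩ : ∃ w : ℕ → ι → ℕ, w = fun m i => ArithmeticFunction.cardFactors (m + τ i) -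
      ((P.filter (fun q => q ∣ m + τ i)).card + sm h (m + τ i)) := ⟨_, rfl⟩
  have hweq : ∀ m ∈ Finset.Icc 1 N, ∀ i, (P.filter (fun q => q ∣ m + τ i)).card +
      sm h (m + τ i) + w m i = ArithmeticFunction.cardFactors (m + τ i) := by
    intro m hm i
    rw [Finset.mem_Icc] at hm
    have := hw2 (m + τ i) (by omega)
    simp only [hw]
    omega
  have hwsum : ∀ i, ∑ m ∈ Finset.Icc 1 N, (w m i : ℝ) ≤ K0 0 u * N := by
    intro i
    refine le_trans (le_of_eq ?_) (hw1 (τ i) (hτD i))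
    refine Finset.sum_congr rfl fun m hm => ?_
    rw [← hweq m hm i]
    push_cast
    ring
  -- the indicator
  obtain ⟨b, hb⟩ : ∃ b : ℕ → ℝ, b = fun m => if K * n < ∑ i, w m i then (1 : ℝ) else 0 := ⟨_, rfl⟩
  have hKn : (0 : ℝ) < K * n := by
    have h1 : (0 : ℝ) < K := by exact_mod_cast hK
    have h2 : (0 : ℝ) < n := by exact_mod_cast hn
    positivity
  have hbm : ∀ m, (K * n : ℝ) * b m ≤ ∑ i, (w m i : ℝ) := by
    intro m
    have h0 : (0 : ℝ) ≤ ∑ i, (w m i : ℝ) := Finset.sum_nonneg fun i _ => Nat.cast_nonneg _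
    simp only [hb]
    split_ifs with hc
    · rw [mul_one]
      have h1 : ((K * n : ℕ) : ℝ) < ((∑ i, w m i : ℕ) : ℝ) := by exact_mod_cast hc
      push_cast at h1
      exact h1.le
    · rw [mul_zero]
      exact h0
  have hbsum : ∑ m ∈ Finset.Icc 1 N, b m ≤ (K0 0 u : ℝ) / K * N := by
    have h1 : (K * n : ℝ) * ∑ m ∈ Finset.Icc 1 N, b m ≤ n * (K0 0 u * N) := by
      calc (K * n : ℝ) * ∑ m ∈ Finset.Icc 1 N, b m
          = ∑ m ∈ Finset.Icc 1 N, (K * n : ℝ) * b m := by rw [Finset.mul_sum]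
        _ ≤ ∑ m ∈ Finset.Icc 1 N, ∑ i, (w m i : ℝ) := Finset.sum_le_sum fun m _ => hbm m
        _ = ∑ i, ∑ m ∈ Finset.Icc 1 N, (w m i : ℝ) := Finset.sum_comm
        _ ≤ ∑ _i : ι, (K0 0 u * N : ℝ) := Finset.sum_le_sum fun i _ => hwsum i
        _ = n * (K0 0 u * N) := by
          rw [Finset.sum_const, Finset.card_univ, ← hn', nsmul_eq_mul]
    have hK0 : (0 : ℝ) < K := by exact_mod_cast hK
    have h2 : (K * n : ℝ) * ((K0 0 u : ℝ) / K * N) = n * (K0 0 u * N) := by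
      field_simp
    rw [← h2] at h1
    exact le_of_mul_le_mul_left h1 hKn
  -- the pointwise inequality
  obtain ⟨G', hG'⟩ : ∃ G' : ℕ → (Fin n → ℕ) → ℝ, G' = fun a s =>
      Gm (fun i => s (e.symm i) + sm h (a + τ i)) := ⟨_, rfl⟩
  have hpt : ∀ m ∈ Finset.Icc 1 N, G (fun i => ArithmeticFunction.cardFactors (m + τ i)) ≤
      b m + G' (m % Q) (sv (fun j => τ (e j)) P m) := by
    intro m hm
    have hG'0 : 0 ≤ G' (m % Q) (sv (fun j => τ (e j)) P m) := by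
      simp only [hG']
      exact (hGm _).1
    by_cases hc : K * n < ∑ i, w m i
    · have hb1 : b m = 1 := by
        simp only [hb]
        rw [if_pos hc]
      rw [hb1]
      have := (hG (fun i => ArithmeticFunction.cardFactors (m + τ i))).2
      linarith
    · have hb0 : b m = 0 := by
        simp only [hb]
        rw [if_neg hc]
      rw [hb0, zero_add]
      have hmem : w m ∈ Wn ι (K * n) := by
        unfold Wn
        rw [Finset.mem_filter, Fintype.mem_piFinset]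
        refine ⟨fun i => ?_, not_lt.1 hc⟩
        rw [Finset.mem_range]
        have : w m i ≤ ∑ i, w m i := Finset.single_le_sum (f := fun i => w m i)
          (fun _ _ => Nat.zero_le _) (Finset.mem_univ i)
        omega
      have h1 := hGG (fun i => (P.filter (fun q => q ∣ m + τ i)).card + sm h (m + τ i)) (w m) hmem
      have h2 : (fun i => (P.filter (fun q => q ∣ m + τ i)).card + sm h (m + τ i) + w m i) =
          fun i => ArithmeticFunction.cardFactors (m + τ i) := by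
        funext i
        exact hweq m hm i
      have h3 : G' (m % Q) (sv (fun j => τ (e j)) P m) =
          Gm (fun i => (P.filter (fun q => q ∣ m + τ i)).card + sm h (m + τ i)) := by
        simp only [hG', hQ]
        congr 1
        funext i
        rw [s04_sm]
        unfold sv
        simp
      rw [h3]
      calc G (fun i => ArithmeticFunction.cardFactors (m + τ i))
          = G (fun i => (P.filter (fun q => q ∣ m + τ i)).card + sm h (m + τ i) + w m i) := by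
            rw [h2]
        _ ≤ _ := h1
  -- the residue sum
  have hres := residueT n (fun j => τ (e j)) (hτ.comp e.injective) D (fun j => hτD (e j)) Q hQ1 P
    (fun q hq => ⟨(hPm q hq).2.1, by have := (hPm q hq).2.2; omega, by
      have := (hPm q hq).2.2; omega⟩)
    (fun q hq hdvd => by
      rw [hQ] at hdvd
      have h1 := (Nat.Prime.dvd_factorial (hPm q hq).2.1).1 hdvd
      have h2 := (hPm q hq).2.2
      omega) E hE1
    (fun q hq => by
      have h1 := (hPm q hq).1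
      have h2 : Nat.log 2 q < E + 1 := Nat.log_lt_of_lt_pow (hPm q hq).2.1.pos.ne' h1
      omega) L hL N hN3 G' (fun a s => by simp only [hG']; exact (hGm _).1)
    (fun a s => by simp only [hG']; exact (hGm _).2)
  have htr : ∀ a, EE (fun _ : Fin n => sg P L) (fun ℓ => G' a (fun i => (ℓ i : ℕ))) =
      EE (fun _ : ι => sg P L) (fun ℓ => Gm (fun i => (ℓ i : ℕ) + sm h (a + τ i))) := by
    intro a
    rw [← s04_transport e (sg P L) (fun ℓ => Gm (fun i => (ℓ i : ℕ) + sm h (a + τ i)))]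
    simp only [hG']
  simp only [htr] at hres
  obtain ⟨A, hA⟩ : ∃ A : ℝ, A = 1 / (Q : ℝ) * ∑ a ∈ Finset.range Q,
      EE (fun _ : ι => sg P L) (fun ℓ => Gm (fun i => (ℓ i : ℕ) + sm h (a + τ i))) := ⟨_, rfl⟩
  rw [← hA] at hres ⊢
  -- the sum
  have htot : ∑ m ∈ Finset.Icc 1 N, G (fun i => ArithmeticFunction.cardFactors (m + τ i)) ≤
      (K0 0 u : ℝ) / K * N + (N * (A + (2 * (CpN (n + 1) : ℝ) * E / Nat.log 2 N +
        2 * ((n + 1 : ℕ) : ℝ) ^ 2 * ∑ q ∈ P, (1 : ℝ) / (q : ℝ) ^ 2)) + Q) := by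
    calc ∑ m ∈ Finset.Icc 1 N, G (fun i => ArithmeticFunction.cardFactors (m + τ i))
        ≤ ∑ m ∈ Finset.Icc 1 N, (b m + G' (m % Q) (sv (fun j => τ (e j)) P m)) :=
          Finset.sum_le_sum hpt
      _ = ∑ m ∈ Finset.Icc 1 N, b m +
          ∑ m ∈ Finset.Icc 1 N, G' (m % Q) (sv (fun j => τ (e j)) P m) :=
          Finset.sum_add_distrib
      _ ≤ _ := add_le_add hbsum hres
  have hN0 : (0 : ℝ) < N := by
    have : 0 < N := by omega
    exact_mod_cast this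
  have hh0 : (0 : ℝ) < h := by
    have : 0 < h := by omega
    exact_mod_cast this
  have hu0 : (0 : ℝ) < u := by exact_mod_cast hu
  have hlog0 : (0 : ℝ) < Nat.log 2 N := by
    have : 0 < Nat.log 2 N := by omega
    exact_mod_cast this
  have hx1 : 2 * (CpN (n + 1) : ℝ) * E / Nat.log 2 N ≤ 2 * (CpN (n + 1) : ℝ) / u := by
    rw [div_le_div_iff₀ hlog0 hu0]
    have h1 : (E : ℝ) * u ≤ Nat.log 2 N := by
      have : E * u ≤ Nat.log 2 N := by
        rw [hE]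
        exact Nat.div_mul_le_self _ _
      exact_mod_cast this
    have h2 : (0 : ℝ) ≤ 2 * (CpN (n + 1) : ℝ) := by positivity
    calc 2 * (CpN (n + 1) : ℝ) * E * u = 2 * (CpN (n + 1) : ℝ) * (E * u) := by ring
      _ ≤ 2 * (CpN (n + 1) : ℝ) * Nat.log 2 N := mul_le_mul_of_nonneg_left h1 h2
  have hx2 : 2 * ((n + 1 : ℕ) : ℝ) ^ 2 * ∑ q ∈ P, (1 : ℝ) / (q : ℝ) ^ 2 ≤
      2 * ((n + 1 : ℕ) : ℝ) ^ 2 / h := by
    have h1 := sum_inv_sq_le P h (by omega) (fun q hq => (hPm q hq).2.2)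
    calc 2 * ((n + 1 : ℕ) : ℝ) ^ 2 * ∑ q ∈ P, (1 : ℝ) / (q : ℝ) ^ 2
        ≤ 2 * ((n + 1 : ℕ) : ℝ) ^ 2 * (1 / (h : ℝ)) :=
          mul_le_mul_of_nonneg_left h1 (by positivity)
      _ = _ := by ring
  have hx3 : (Q : ℝ) / N ≤ 2 * ((n + 1 : ℕ) : ℝ) ^ 2 / h := by
    have h1 : (Q : ℝ) / N ≤ 1 / h := by
      rw [div_le_div_iff₀ hN0 hh0]
      have : ((Q * h : ℕ) : ℝ) ≤ (N : ℝ) := by exact_mod_cast hN4
      push_cast at this
      linarith
    have h2 : (1 : ℝ) / h ≤ 2 * ((n + 1 : ℕ) : ℝ) ^ 2 / h := by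
      apply div_le_div_of_nonneg_right _ hh0.le
      have : (1 : ℝ) ≤ ((n + 1 : ℕ) : ℝ) := by
        push_cast
        have : (0 : ℝ) ≤ n := Nat.cast_nonneg _
        linarith
      nlinarith
    exact h1.trans h2
  calc 1 / (N : ℝ) * ∑ m ∈ Finset.Icc 1 N,
        G (fun i => ArithmeticFunction.cardFactors (m + τ i))
      ≤ 1 / (N : ℝ) * ((K0 0 u : ℝ) / K * N + (N * (A + (2 * (CpN (n + 1) : ℝ) * E / Nat.log 2 N +
        2 * ((n + 1 : ℕ) : ℝ) ^ 2 * ∑ q ∈ P, (1 : ℝ) / (q : ℝ) ^ 2)) + Q)) :=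
        mul_le_mul_of_nonneg_left htot (by positivity)
    _ = (K0 0 u : ℝ) / K + A + (2 * (CpN (n + 1) : ℝ) * E / Nat.log 2 N +
        2 * ((n + 1 : ℕ) : ℝ) ^ 2 * ∑ q ∈ P, (1 : ℝ) / (q : ℝ) ^ 2) + Q / N := by
        generalize (2 * (CpN (n + 1) : ℝ) * E / Nat.log 2 N +
          2 * ((n + 1 : ℕ) : ℝ) ^ 2 * ∑ q ∈ P, (1 : ℝ) / (q : ℝ) ^ 2) = X
        generalize (K0 0 u : ℝ) / K = Y
        field_simp
        ring
    _ ≤ A + ((K0 0 u : ℝ) / K + 2 * (CpN (n + 1) : ℝ) / u +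
          4 * ((n + 1 : ℕ) : ℝ) ^ 2 / h) := by
        have h4 : 4 * ((n + 1 : ℕ) : ℝ) ^ 2 / h =
            2 * ((n + 1 : ℕ) : ℝ) ^ 2 / h + 2 * ((n + 1 : ℕ) : ℝ) ^ 2 / h := by ring
        rw [h4]
        linarith

end AS
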