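import Mathlib
import Pool.Agent.Helper6.AS.S04
import Pool.Agent.Helper11.QR.Hybrid
import Pool.Agent.Helper11.QR.LawClose

/-!
# AS-05: domination by the product law, uniformly in the positions of the sites

`C` depends on the number `n` of sites and on `η` only, not on the bound `D` for the positions.

PROOF.  `n = 0`: both means are `G default` (for `N ≥ 1`), `C = 1`.  Let `n ≥ 1`, `η ≤ 1`.
Choose `u ≥ 1` with `2 CpN (n+1) / u ≤ η / 8`, then `K ≥ 1` with `K0 0 u / K ≤ η / 8`.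
`C := card (Wn (Fin n) (K n))`, which is `≥ 1` (it contains `0`).  Given `D`, let `h` be so large
that `h ≥ D`, `h ≥ n + 2`, `4 (n+1)^2 / h ≤ η / 8`.  Apply `siteBound` with
`Gm ℓ = min 1 (∑_{w ∈ Wn} G (ℓ + w))` and `L = (PP ..).card`.
For `a < h!` and `w ∈ Wn`: `EE (fun _ => sg P L) (fun ℓ => G (ℓ + (sm h (a + τ ·) + w)))` is within
`n τ'` of `Ep n N G` by `hybrid` (Helper11/QR/Hybrid; `D = 0`, `B = h + K n`,
`sm h x ≤ h`, `w i ≤ K n`), `hτ` from `lawClose h u 1 B` with `d = 1` (`N / 1 = N`) and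
`τ' = η / (8 n C)`.  Sum over `w`: total `≤ C (Ep n N G + n τ') + 3 η / 8 ≤ C Ep n N G + η`.
-/

set_option autoImplicit false

namespace AS

open Finset Helper13.Om Helper11.QR

private lemma dom_step (n : ℕ) (η : ℝ) (hη : 0 < η) (u K h S N L : ℕ) (hN : 1 ≤ N)
    (hS : S = K * n) (hL : L = (PP h (Nat.log 2 N / u)).card) (C : ℝ) (hC : C = ((Wn (Fin n) S).card : ℝ))
    (hC0 : 0 < C) (hn : 1 ≤ n)
    (hτ : ∀ b ≤ h + 1 + S, ∀ b' ≤ h + 1 + S, ∀ a : ℕ → ℝ, (∀ t, |a t| ≤ 1) →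
      |Es (PP h (Nat.log 2 N / u)) (fun t => a (t + b)) -
        1 / (N : ℝ) * ∑ m ∈ Finset.Icc 1 N, a (ArithmeticFunction.cardFactors m + b')| ≤
        η / (8 * n * C))
    (τ : Fin n → ℕ) (G : (Fin n → ℕ) → ℝ) (hG : ∀ ℓ, 0 ≤ G ℓ ∧ G ℓ ≤ 1) (a : ℕ) :
    EE (fun _ : Fin n => sg (PP h (Nat.log 2 N / u)) L)
      (fun ℓ => min 1 (∑ w ∈ Wn (Fin n) S, G (fun i => ((ℓ i : ℕ) + sm h (a + τ i)) + w i))) ≤
      C * Ep n N G + η / 8 := by
  have hP : ∀ q ∈ PP h (Nat.log 2 N / u), q.Prime := fun q hq => ((mem_PP h _ q).1 hq).2.1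
  have hnR : (0 : ℝ) < n := by exact_mod_cast hn
  have hsm : ∀ x, sm h x ≤ h + 1 := by
    intro x
    unfold sm
    exact (Finset.card_filter_le _ _).trans (by rw [Finset.card_range])
  have h1 : EE (fun _ : Fin n => sg (PP h (Nat.log 2 N / u)) L)
      (fun ℓ => min 1 (∑ w ∈ Wn (Fin n) S, G (fun i => ((ℓ i : ℕ) + sm h (a + τ i)) + w i))) ≤
      EE (fun _ : Fin n => sg (PP h (Nat.log 2 N / u)) L)
      (fun ℓ => ∑ w ∈ Wn (Fin n) S, G (fun i => ((ℓ i : ℕ) + sm h (a + τ i)) + w i)) :=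
    EE_mono _ (fun _ t => sg_nonneg _ hP L t) _ _ (fun y => min_le_right _ _)
  refine h1.trans ?_
  rw [EE_sum (Wn (Fin n) S) (fun _ : Fin n => sg (PP h (Nat.log 2 N / u)) L)
    (fun w ℓ => G (fun i => ((ℓ i : ℕ) + sm h (a + τ i)) + w i))]
  have h2 : ∀ w ∈ Wn (Fin n) S, EE (fun _ : Fin n => sg (PP h (Nat.log 2 N / u)) L)
      (fun ℓ => G (fun i => ((ℓ i : ℕ) + sm h (a + τ i)) + w i)) ≤
      Ep n N G + n * (η / (8 * n * C)) := by
    intro w hw
    have hwS : ∀ i, w i ≤ S := by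
      intro i
      have h3 : ∑ v, w v ≤ S := (Finset.mem_filter.1 hw).2
      exact (Finset.single_le_sum (fun j _ => Nat.zero_le (w j)) (Finset.mem_univ i)).trans h3
    have h3 := hybrid n N L hN (PP h (Nat.log 2 N / u)) hP (by omega) (h + 1 + S)
      (η / (8 * n * C)) hτ (fun i => sm h (a + τ i) + w i)
      (fun i => by
        have := hsm (a + τ i)
        have := hwS i
        show sm h (a + τ i) + w i ≤ h + 1 + S
        omega) 0 (Nat.zero_le _) G (fun ℓ => by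
          rw [abs_of_nonneg (hG ℓ).1]
          exact (hG ℓ).2)
    have h4 : (fun ℓ : Fin n → ℕ => G (fun i => ℓ i + 0)) = G := by
      funext ℓ
      rfl
    rw [h4] at h3
    have h5 : (fun ℓ : Fin n → Fin (L + 2) => G (fun i => ((ℓ i : ℕ) + sm h (a + τ i)) + w i)) =
        fun ℓ => G (fun i => (ℓ i : ℕ) + (sm h (a + τ i) + w i)) := by
      funext ℓ
      congr 1
      funext i
      ring
    rw [h5]
    linarith [(abs_le.1 h3).2]
  have h3 := Finset.sum_le_card_nsmul (Wn (Fin n) S) _ _ h2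
  refine h3.trans (le_of_eq ?_)
  rw [nsmul_eq_mul, ← hC]
  field_simp

theorem dom (n : ℕ) (η : ℝ) (hη : 0 < η) : ∃ C : ℝ, 0 < C ∧ ∀ D : ℕ, ∃ N₀ : ℕ, ∀ N ≥ N₀,
    ∀ τ : Fin n → ℕ, Function.Injective τ → (∀ i, τ i ≤ D) →
    ∀ G : (Fin n → ℕ) → ℝ, (∀ ℓ, 0 ≤ G ℓ ∧ G ℓ ≤ 1) →
      1 / (N : ℝ) * ∑ m ∈ Finset.Icc 1 N,
        G (fun i => ArithmeticFunction.cardFactors (m + τ i)) ≤ C * Ep n N G + η := by
  rcases Nat.eq_zero_or_pos n with rfl | hn
  · refine ⟨1, one_pos, fun D => ⟨1, fun N hN τ _ _ G hG => ?_⟩⟩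
    have hNR : (0 : ℝ) < N := by exact_mod_cast hN
    have h1 : ∀ x : Fin 0 → ℕ, G x = G default := fun x => by rw [Subsingleton.elim x default]
    have h2 : Ep 0 N G = G default := by
      unfold Ep
      rw [Finset.sum_congr rfl fun m _ => h1 _]
      simp
    rw [h2, Finset.sum_congr rfl fun m _ => h1 _, Finset.sum_const, nsmul_eq_mul, Nat.card_Icc]
    have h3 : 1 / (N : ℝ) * (((N + 1 - 1 : ℕ) : ℝ) * G default) = G default := by
      rw [Nat.add_sub_cancel]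
      field_simp
    rw [h3]
    linarith
  have hnR : (0 : ℝ) < n := by exact_mod_cast hn
  -- parameters
  obtain ⟨u, hu⟩ := exists_nat_gt (2 * (CpN (n + 1) : ℝ) * 8 / η)
  have hu0 : 0 < (u : ℝ) := lt_of_le_of_lt (by positivity) hu
  have hu1 : 1 ≤ u := by exact_mod_cast hu0
  have eu : 2 * (CpN (n + 1) : ℝ) / u ≤ η / 8 := by
    rw [div_lt_iff₀ hη] at hu
    rw [div_le_iff₀ hu0]
    linarith
  obtain ⟨K, hK⟩ := exists_nat_gt ((K0 0 u : ℝ) * 8 / η)
  have hK0 : 0 < (K : ℝ) := lt_of_le_of_lt (by positivity) hK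
  have hK1 : 1 ≤ K := by exact_mod_cast hK0
  have eK : (K0 0 u : ℝ) / K ≤ η / 8 := by
    rw [div_lt_iff₀ hη] at hK
    rw [div_le_iff₀ hK0]
    linarith
  set C : ℝ := ((Wn (Fin n) (K * n)).card : ℝ) with hC
  have hC0 : 0 < C := by
    rw [hC]
    have h1 : (fun _ => 0 : Fin n → ℕ) ∈ Wn (Fin n) (K * n) := by
      unfold Wn
      rw [Finset.mem_filter, Fintype.mem_piFinset]
      refine ⟨fun i => Finset.mem_range.2 (Nat.succ_pos _), ?_⟩
      simp
    exact_mod_cast Finset.card_pos.2 ⟨_, h1⟩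
  refine ⟨C, hC0, fun D => ?_⟩
  obtain ⟨h₀, hh₀⟩ := exists_nat_gt (4 * ((n + 1 : ℕ) : ℝ) ^ 2 * 8 / η)
  set h : ℕ := h₀ + (n + 2) + D with hh
  have hhR : (h₀ : ℝ) ≤ (h : ℝ) := by
    rw [hh]
    push_cast
    have : (0 : ℝ) ≤ n := hnR.le
    have : (0 : ℝ) ≤ D := Nat.cast_nonneg D
    linarith
  have hh0 : 0 < (h : ℝ) := by
    rw [hh]
    push_cast
    positivity
  have eh : 4 * ((n + 1 : ℕ) : ℝ) ^ 2 / h ≤ η / 8 := by
    rw [div_lt_iff₀ hη] at hh₀
    rw [div_le_iff₀ hh0]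
    nlinarith
  obtain ⟨N₁, hN₁⟩ := siteBound (Fin n) (by rw [Fintype.card_fin]; exact hn) u K h D hu1 hK1
    (by rw [Fintype.card_fin]; omega) (by omega)
  obtain ⟨N₂, hN₂⟩ := lawClose h u 1 (h + 1 + K * n) hu1 le_rfl (η / (8 * n * C)) (by positivity)
  refine ⟨N₁ + N₂ + 1, fun N hN τ hτinj hτD G hG => ?_⟩
  have hlaw : ∀ b ≤ h + 1 + K * n, ∀ b' ≤ h + 1 + K * n, ∀ a : ℕ → ℝ, (∀ t, |a t| ≤ 1) →
      |Es (PP h (Nat.log 2 N / u)) (fun t => a (t + b)) -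
        1 / (N : ℝ) * ∑ m ∈ Finset.Icc 1 N, a (ArithmeticFunction.cardFactors m + b')| ≤
        η / (8 * n * C) := by
    intro b hb b' hb' a ha
    have := hN₂ N (by omega) 1 le_rfl le_rfl b hb b' hb' a ha
    rwa [Nat.div_one] at this
  set L := (PP h (Nat.log 2 N / u)).card with hL
  have hsite := hN₁ N (by omega) L (by omega) τ hτinj hτD G
    (fun ℓ => min 1 (∑ w ∈ Wn (Fin n) (K * n), G (fun i => ℓ i + w i))) hG
    (fun ℓ => ⟨le_min zero_le_one (Finset.sum_nonneg fun w _ => (hG _).1), min_le_left _ _⟩)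
    (fun ℓ w hw => by
      rw [Fintype.card_fin] at hw
      refine le_min (hG _).2 ?_
      exact Finset.single_le_sum (f := fun w : Fin n → ℕ => G (fun i => ℓ i + w i))
        (fun w _ => (hG _).1) hw)
  refine hsite.trans ?_
  rw [Fintype.card_fin]
  have hstep : ∀ a ∈ Finset.range h.factorial,
      EE (fun _ : Fin n => sg (PP h (Nat.log 2 N / u)) L)
        (fun ℓ => (fun ℓ : Fin n → ℕ => min 1 (∑ w ∈ Wn (Fin n) (K * n), G (fun i => ℓ i + w i)))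
          (fun i => (ℓ i : ℕ) + sm h (a + τ i))) ≤ C * Ep n N G + η / 8 := by
    intro a _
    exact dom_step n η hη u K h (K * n) N L (by omega) rfl hL C hC hC0 hn hlaw τ G hG a
  have hsum := Finset.sum_le_card_nsmul _ _ _ hstep
  rw [Finset.card_range, nsmul_eq_mul] at hsum
  have hf : (0 : ℝ) < (h.factorial : ℝ) := by exact_mod_cast Nat.factorial_pos h
  have hfin : 1 / (h.factorial : ℝ) * ∑ a ∈ Finset.range h.factorial,
      EE (fun _ : Fin n => sg (PP h (Nat.log 2 N / u)) L)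
        (fun ℓ => (fun ℓ : Fin n → ℕ => min 1 (∑ w ∈ Wn (Fin n) (K * n), G (fun i => ℓ i + w i)))
          (fun i => (ℓ i : ℕ) + sm h (a + τ i))) ≤ C * Ep n N G + η / 8 := by
    rw [one_div_mul_eq_div, div_le_iff₀ hf]
    linarith
  linarith

end AS
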