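import Mathlib
import Pool.Agent.Helper6.AS.S05

/-!
# AS-08: families which are small against every fixed function

PROOF.  Let `0 < ε ≤ 1` without loss, `η = ε^2 / 32`, `C = C(η)` from `dom 2 η`, `δ = (ε^2 / (32 (C + 1)))^2`,
`H0 ≥ 8 / ε^2`, `H ≥ H0`, `N` large (also for `dom` with `D = H`).  Write `X m = cardFactors m`,
`⟨f, g⟩ = mx N (f g)`.  By Cauchy-Schwarz in `n` it is enough that
`V = (1/N) ∑_n |(1/H) ∑_t R t (X (n+t))|^2 ≤ ε^2`.
(1) Expand: `V = (1/H^2) ∑_{t,t'} (1/N) ∑_n R t (X (n+t)) R t' (X (n+t'))`.  The terms `t = t'` give at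
most `1/H`.  By symmetry the others are `2 (1/H^2) ∑_{d=1}^{H-1} ∑_{t=1}^{H-d} (...)` with `t' = t + d`.
(2) `|(1/N) ∑_n R t (X (n+t)) R (t+d) (X (n+t+d)) - (1/N) ∑_m R t (X m) R (t+d) (X (m+d))| ≤ 2 t / N`.  So
`V ≤ 1/H + (2/H) ∑_{d=1}^{H-1} (1/N) ∑_m |G_d (X m, X (m+d))| + 4 H / N`,
`G_d (x, y) = (1/H) ∑_{t=1}^{H-d} R t x * R (t+d) y`, `|G_d| ≤ 1`.
(3) `dom 2 η` for the sites `0, d` (`![0, d]`, distinct, `≤ H`) and `G ℓ = |G_d (ℓ 0) (ℓ 1)|`:
`(1/N) ∑_m |G_d| ≤ C Ep 2 N |G_d| + η`.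
(4) `(Ep 2 N |G_d|)^2 ≤ Ep 2 N (G_d^2) = (1/H^2) ∑_{t,t' ≤ H-d} ⟨R t, R t'⟩ ⟨R (t+d), R (t'+d)⟩ ≤
(1/H^2) ∑_{t' ≤ H} ∑_{t ≤ H} |⟨R t, R t'⟩| ≤ δ` (hypothesis with `f = R t'`).  `Ep 2 N` of a product
`f(ℓ 0) g(ℓ 1)` is `mx N f * mx N g` (sum over `piFinset (Icc 1 N)`, `Fin 2`).
(5) `V ≤ 1/H + 2 (C √δ + η) + 4 H / N ≤ ε^2/8 + ε^2/16 + ε^2/16 + small ≤ ε^2`.
-/

set_option autoImplicit false

namespace AS

open Finset Helper13.Om Helper11.QR

private lemma h7_shift1 (f : ℕ → ℝ) (N : ℕ) :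
    ∑ n ∈ Finset.Icc 1 N, f (n + 1) - ∑ n ∈ Finset.Icc 1 N, f n = f (N + 1) - f 1 := by
  induction N with
  | zero => simp
  | succ N ih =>
    rw [Finset.sum_Icc_succ_top (by omega), Finset.sum_Icc_succ_top (by omega)]
    linarith

private lemma h7_shift (f : ℕ → ℝ) (hf : ∀ n, |f n| ≤ 1) (N t : ℕ) :
    |∑ n ∈ Finset.Icc 1 N, f (n + t) - ∑ n ∈ Finset.Icc 1 N, f n| ≤ 2 * t := by
  induction t with
  | zero => simp
  | succ t ih =>
    have h1 := h7_shift1 (fun n => f (n + t)) N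
    have h2 : ∑ n ∈ Finset.Icc 1 N, f (n + (t + 1)) = ∑ n ∈ Finset.Icc 1 N, f (n + 1 + t) :=
      Finset.sum_congr rfl fun n _ => by congr 1; ring
    have h3 := hf (N + 1 + t)
    have h4 := hf (1 + t)
    rw [abs_le] at *
    push_cast
    rw [h2]
    constructor <;> linarith

private lemma h7_cs {J : Type} (S : Finset J) (c : ℝ) (hc : 0 < c) (hS : (S.card : ℝ) = c) (g : J → ℝ) :
    (1 / c * ∑ j ∈ S, |g j|) ^ 2 ≤ 1 / c * ∑ j ∈ S, g j ^ 2 := by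
  have h1 := sq_sum_le_card_mul_sum_sq (s := S) (f := fun j => |g j|)
  simp only [sq_abs] at h1
  rw [hS] at h1
  rw [mul_pow]
  calc (1 / c) ^ 2 * (∑ j ∈ S, |g j|) ^ 2 ≤ (1 / c) ^ 2 * (c * ∑ j ∈ S, g j ^ 2) :=
        mul_le_mul_of_nonneg_left h1 (by positivity)
    _ = _ := by field_simp

private lemma h7_row (H t : ℕ) (a : ℕ → ℝ) :
    ∑ t' ∈ Finset.Icc 1 H, (if t < t' then a t * a t' else 0) =
      ∑ d ∈ Finset.Icc 1 H, (if t + d ≤ H then a t * a (t + d) else 0) := by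
  rw [← Finset.sum_filter, ← Finset.sum_filter]
  refine Finset.sum_nbij' (fun t' => t' - t) (fun d => t + d) ?_ ?_ ?_ ?_ ?_
  · intro t' ht'
    simp only [Finset.mem_filter, Finset.mem_Icc] at ht' ⊢
    omega
  · intro d hd
    simp only [Finset.mem_filter, Finset.mem_Icc] at hd ⊢
    omega
  · intro t' ht'
    simp only [Finset.mem_filter, Finset.mem_Icc] at ht'
    omega
  · intro d hd
    omega
  · intro t' ht'
    simp only [Finset.mem_filter, Finset.mem_Icc] at ht'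
    congr 2
    omega

private lemma h7_sq (H : ℕ) (a : ℕ → ℝ) :
    (∑ t ∈ Finset.Icc 1 H, a t) ^ 2 = ∑ t ∈ Finset.Icc 1 H, a t ^ 2 +
      2 * ∑ d ∈ Finset.Icc 1 H, ∑ t ∈ Finset.Icc 1 H, (if t + d ≤ H then a t * a (t + d) else 0) := by
  have h1 : ∀ t ∈ Finset.Icc 1 H, ∑ t' ∈ Finset.Icc 1 H, a t * a t' = a t ^ 2 +
      (∑ t' ∈ Finset.Icc 1 H, (if t < t' then a t * a t' else 0)) +
      ∑ t' ∈ Finset.Icc 1 H, (if t' < t then a t * a t' else 0) := by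
    intro t ht
    have h2 : ∑ t' ∈ Finset.Icc 1 H, (if t' = t then a t * a t' else 0) = a t ^ 2 := by
      rw [Finset.sum_ite_eq' (Finset.Icc 1 H) t, if_pos ht, sq]
    rw [← h2, ← Finset.sum_add_distrib, ← Finset.sum_add_distrib]
    refine Finset.sum_congr rfl fun t' _ => ?_
    rcases lt_trichotomy t t' with h | h | h
    · rw [if_neg (by omega), if_pos h, if_neg (by omega)]; ring
    · rw [if_pos h.symm, if_neg (by omega), if_neg (by omega)]; ring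
    · rw [if_neg (by omega), if_neg (by omega), if_pos h]; ring
  have h3 : ∑ t ∈ Finset.Icc 1 H, ∑ t' ∈ Finset.Icc 1 H, (if t' < t then a t * a t' else 0) =
      ∑ t ∈ Finset.Icc 1 H, ∑ t' ∈ Finset.Icc 1 H, (if t < t' then a t * a t' else 0) := by
    rw [Finset.sum_comm]
    refine Finset.sum_congr rfl fun t _ => Finset.sum_congr rfl fun t' _ => ?_
    split_ifs <;> ring
  rw [sq, Finset.sum_mul_sum, Finset.sum_congr rfl h1, Finset.sum_add_distrib, Finset.sum_add_distrib, h3,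
    Finset.sum_congr rfl fun t _ => h7_row H t a]
  rw [Finset.sum_comm (s := Finset.Icc 1 H) (t := Finset.Icc 1 H)
    (f := fun t d => (if t + d ≤ H then a t * a (t + d) else 0))]
  ring

private noncomputable def h7_G (H : ℕ) (R : ℕ → ℕ → ℝ) (d x y : ℕ) : ℝ :=
  1 / (H : ℝ) * ∑ t ∈ Finset.Icc 1 H, (if t + d ≤ H then R t x * R (t + d) y else 0)

private lemma h7_G_le (H : ℕ) (hH : 1 ≤ H) (R : ℕ → ℕ → ℝ) (hR : ∀ t x, |R t x| ≤ 1) (d x y : ℕ) :
    |h7_G H R d x y| ≤ 1 := by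
  have hH0 : (0 : ℝ) < H := by exact_mod_cast hH
  unfold h7_G
  rw [abs_mul, abs_of_pos (by positivity : (0 : ℝ) < 1 / (H : ℝ)), one_div_mul_eq_div, div_le_iff₀ hH0, one_mul]
  refine (Finset.abs_sum_le_sum_abs _ _).trans ?_
  have : ∀ t ∈ Finset.Icc 1 H, |(if t + d ≤ H then R t x * R (t + d) y else 0)| ≤ (1 : ℝ) := by
    intro t _
    split_ifs
    · rw [abs_mul]
      exact mul_le_one₀ (hR _ _) (abs_nonneg _) (hR _ _)
    · simp
  refine (Finset.sum_le_card_nsmul _ _ _ this).trans ?_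
  simp

private lemma h7_V (H N : ℕ) (hH : 1 ≤ H) (hN : 1 ≤ N) (R : ℕ → ℕ → ℝ) (hR : ∀ t x, |R t x| ≤ 1) (B : ℝ)
    (hB : ∀ d ∈ Finset.Icc 1 H, 1 / (N : ℝ) * ∑ m ∈ Finset.Icc 1 N,
      |h7_G H R d (ArithmeticFunction.cardFactors m) (ArithmeticFunction.cardFactors (m + d))| ≤ B) :
    1 / (N : ℝ) * ∑ n ∈ Finset.Icc 1 N,
      (1 / (H : ℝ) * ∑ t ∈ Finset.Icc 1 H, R t (ArithmeticFunction.cardFactors (n + t))) ^ 2 ≤
      1 / (H : ℝ) + 2 * B + 4 * H / N := by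
  have hH0 : (0 : ℝ) < H := by exact_mod_cast hH
  have hN0 : (0 : ℝ) < N := by exact_mod_cast hN
  set X : ℕ → ℕ := fun n => ArithmeticFunction.cardFactors n with hX
  have h1 : ∀ n ∈ Finset.Icc 1 N, (1 / (H : ℝ) * ∑ t ∈ Finset.Icc 1 H, R t (X (n + t))) ^ 2 ≤
      1 / (H : ℝ) + 2 * (1 / (H : ℝ)) ^ 2 * ∑ d ∈ Finset.Icc 1 H, ∑ t ∈ Finset.Icc 1 H,
        (if t + d ≤ H then R t (X (n + t)) * R (t + d) (X (n + (t + d))) else 0) := by
    intro n _
    rw [mul_pow, h7_sq H (fun t => R t (X (n + t)))]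
    have h2 : ∑ t ∈ Finset.Icc 1 H, R t (X (n + t)) ^ 2 ≤ H := by
      have : ∀ t ∈ Finset.Icc 1 H, R t (X (n + t)) ^ 2 ≤ (1 : ℝ) := by
        intro t _
        rw [← sq_abs]
        exact pow_le_one₀ (abs_nonneg _) (hR _ _)
      refine (Finset.sum_le_card_nsmul _ _ _ this).trans ?_
      simp
    have h3 : (1 / (H : ℝ)) ^ 2 * ∑ t ∈ Finset.Icc 1 H, R t (X (n + t)) ^ 2 ≤ 1 / (H : ℝ) := by
      calc (1 / (H : ℝ)) ^ 2 * ∑ t ∈ Finset.Icc 1 H, R t (X (n + t)) ^ 2 ≤ (1 / (H : ℝ)) ^ 2 * H :=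
            mul_le_mul_of_nonneg_left h2 (by positivity)
        _ = _ := by field_simp
    rw [mul_add]
    have h4 : (1 / (H : ℝ)) ^ 2 * (2 * ∑ d ∈ Finset.Icc 1 H, ∑ t ∈ Finset.Icc 1 H,
        (if t + d ≤ H then R t (X (n + t)) * R (t + d) (X (n + (t + d))) else 0)) =
        2 * (1 / (H : ℝ)) ^ 2 * ∑ d ∈ Finset.Icc 1 H, ∑ t ∈ Finset.Icc 1 H,
        (if t + d ≤ H then R t (X (n + t)) * R (t + d) (X (n + (t + d))) else 0) := by ring
    rw [h4]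
    linarith
  have h5 : ∀ d ∈ Finset.Icc 1 H, ∀ t ∈ Finset.Icc 1 H, ∑ n ∈ Finset.Icc 1 N,
      (if t + d ≤ H then R t (X (n + t)) * R (t + d) (X (n + (t + d))) else 0) ≤
      (∑ m ∈ Finset.Icc 1 N, (if t + d ≤ H then R t (X m) * R (t + d) (X (m + d)) else 0)) + 2 * H := by
    intro d _ t ht
    rw [Finset.mem_Icc] at ht
    by_cases h : t + d ≤ H
    · simp only [h, if_true]
      have h6 := h7_shift (fun m => R t (X m) * R (t + d) (X (m + d)))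
        (fun m => by rw [abs_mul]; exact mul_le_one₀ (hR _ _) (abs_nonneg _) (hR _ _)) N t
      have h7 : (t : ℝ) ≤ H := by exact_mod_cast ht.2
      have h8 := (abs_le.1 h6).2
      have h9 : ∑ n ∈ Finset.Icc 1 N, R t (X (n + t)) * R (t + d) (X (n + (t + d))) =
          ∑ n ∈ Finset.Icc 1 N, R t (X (n + t)) * R (t + d) (X (n + t + d)) :=
        Finset.sum_congr rfl fun n _ => by rw [add_assoc]
      rw [h9]
      linarith
    · simp only [h, if_false, Finset.sum_const_zero, zero_add]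
      positivity
  have h6 : ∑ n ∈ Finset.Icc 1 N, ∑ d ∈ Finset.Icc 1 H, ∑ t ∈ Finset.Icc 1 H,
      (if t + d ≤ H then R t (X (n + t)) * R (t + d) (X (n + (t + d))) else 0) ≤
      H * (H * (N * B)) + H * (H * (2 * H)) := by
    rw [Finset.sum_comm]
    have h7 : ∀ d ∈ Finset.Icc 1 H, ∑ n ∈ Finset.Icc 1 N, ∑ t ∈ Finset.Icc 1 H,
        (if t + d ≤ H then R t (X (n + t)) * R (t + d) (X (n + (t + d))) else 0) ≤
        H * (N * B) + H * (2 * H) := by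
      intro d hd
      rw [Finset.sum_comm]
      refine (Finset.sum_le_sum (h5 d hd)).trans ?_
      rw [Finset.sum_add_distrib]
      have h8 : ∑ t ∈ Finset.Icc 1 H, (2 * (H : ℝ)) = H * (2 * H) := by simp
      rw [h8]
      refine add_le_add ?_ le_rfl
      rw [Finset.sum_comm]
      have h9 : ∑ m ∈ Finset.Icc 1 N, ∑ t ∈ Finset.Icc 1 H,
          (if t + d ≤ H then R t (X m) * R (t + d) (X (m + d)) else 0) =
          H * ∑ m ∈ Finset.Icc 1 N, h7_G H R d (X m) (X (m + d)) := by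
        unfold h7_G
        rw [← Finset.mul_sum, ← mul_assoc, mul_one_div_cancel hH0.ne', one_mul]
      rw [h9]
      refine mul_le_mul_of_nonneg_left ?_ hH0.le
      have h10 := hB d hd
      rw [one_div_mul_eq_div, div_le_iff₀ hN0] at h10
      calc ∑ m ∈ Finset.Icc 1 N, h7_G H R d (X m) (X (m + d)) ≤
            ∑ m ∈ Finset.Icc 1 N, |h7_G H R d (X m) (X (m + d))| :=
            Finset.sum_le_sum fun m _ => le_abs_self _
        _ ≤ B * N := h10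
        _ = N * B := mul_comm _ _
    refine (Finset.sum_le_sum h7).trans ?_
    rw [Finset.sum_const, Nat.card_Icc, Nat.add_sub_cancel, nsmul_eq_mul]
    apply le_of_eq
    ring
  calc 1 / (N : ℝ) * ∑ n ∈ Finset.Icc 1 N,
      (1 / (H : ℝ) * ∑ t ∈ Finset.Icc 1 H, R t (X (n + t))) ^ 2 ≤
      1 / (N : ℝ) * ∑ n ∈ Finset.Icc 1 N, (1 / (H : ℝ) + 2 * (1 / (H : ℝ)) ^ 2 *
        ∑ d ∈ Finset.Icc 1 H, ∑ t ∈ Finset.Icc 1 H,
        (if t + d ≤ H then R t (X (n + t)) * R (t + d) (X (n + (t + d))) else 0)) :=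
        mul_le_mul_of_nonneg_left (Finset.sum_le_sum h1) (by positivity)
    _ = 1 / (H : ℝ) + 2 * (1 / (H : ℝ)) ^ 2 * (1 / (N : ℝ)) * ∑ n ∈ Finset.Icc 1 N,
        ∑ d ∈ Finset.Icc 1 H, ∑ t ∈ Finset.Icc 1 H,
        (if t + d ≤ H then R t (X (n + t)) * R (t + d) (X (n + (t + d))) else 0) := by
        rw [Finset.sum_add_distrib, ← Finset.mul_sum, Finset.sum_const, Nat.card_Icc, Nat.add_sub_cancel,
          nsmul_eq_mul]
        field_simp
    _ ≤ 1 / (H : ℝ) + 2 * (1 / (H : ℝ)) ^ 2 * (1 / (N : ℝ)) *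
        (H * (H * (N * B)) + H * (H * (2 * H))) :=
        add_le_add le_rfl (mul_le_mul_of_nonneg_left h6 (by positivity))
    _ = _ := by field_simp; ring

private lemma h7_Ep_mul (N : ℕ) (f g : ℕ → ℝ) :
    Ep 2 N (fun ℓ => f (ℓ 0) * g (ℓ 1)) = MRP.mx N f * MRP.mx N g := by
  unfold Ep MRP.mx MRP.Om
  have h1 := Finset.sum_prod_piFinset (ι := Fin 2) (Finset.Icc 1 N)
    (fun (i : Fin 2) (n : ℕ) => if i = 0 then f (ArithmeticFunction.cardFactors n) else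
      g (ArithmeticFunction.cardFactors n))
  simp only [Fin.prod_univ_two, if_true, one_ne_zero, if_false] at h1
  simp only [h1]
  rw [div_mul_div_comm, ← sq, one_div_mul_eq_div]

private lemma h7_Ep_sum {J : Type} (S : Finset J) (N : ℕ) (F : J → (Fin 2 → ℕ) → ℝ) :
    Ep 2 N (fun ℓ => ∑ j ∈ S, F j ℓ) = ∑ j ∈ S, Ep 2 N (F j) := by
  unfold Ep
  rw [Finset.sum_comm, Finset.mul_sum]

private lemma h7_Ep_smul (N : ℕ) (c : ℝ) (F : (Fin 2 → ℕ) → ℝ) :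
    Ep 2 N (fun ℓ => c * F ℓ) = c * Ep 2 N F := by
  unfold Ep
  rw [← Finset.mul_sum]
  ring

private lemma h7_mx_le (N : ℕ) (hN : 1 ≤ N) (f : ℕ → ℝ) (hf : ∀ x, |f x| ≤ 1) : |MRP.mx N f| ≤ 1 := by
  have hN0 : (0 : ℝ) < N := by exact_mod_cast hN
  unfold MRP.mx
  rw [abs_div, abs_of_pos hN0, div_le_iff₀ hN0, one_mul]
  refine (Finset.abs_sum_le_sum_abs _ _).trans ?_
  refine (Finset.sum_le_card_nsmul _ _ _ fun n _ => hf _).trans ?_
  simp

private lemma h7_EpG (H N : ℕ) (hH : 1 ≤ H) (hN : 1 ≤ N) (R : ℕ → ℕ → ℝ) (hR : ∀ t x, |R t x| ≤ 1) (s : ℝ)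
    (hs : 0 ≤ s) (hyp : ∀ f : ℕ → ℝ, (∀ x, |f x| ≤ 1) →
        1 / (H : ℝ) * ∑ t ∈ Finset.Icc 1 H, |MRP.mx N (fun x => R t x * f x)| ≤ s ^ 2) (d : ℕ) :
    Ep 2 N (fun ℓ => |h7_G H R d (ℓ 0) (ℓ 1)|) ≤ s := by
  have hH0 : (0 : ℝ) < H := by exact_mod_cast hH
  have hN0 : (0 : ℝ) < N := by exact_mod_cast hN
  have h1 : (Ep 2 N (fun ℓ => |h7_G H R d (ℓ 0) (ℓ 1)|)) ^ 2 ≤
      Ep 2 N (fun ℓ => h7_G H R d (ℓ 0) (ℓ 1) ^ 2) := by
    unfold Ep
    refine h7_cs _ ((N : ℝ) ^ 2) (by positivity) ?_ _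
    rw [Fintype.card_piFinset]
    simp
  have h2 : Ep 2 N (fun ℓ => h7_G H R d (ℓ 0) (ℓ 1) ^ 2) ≤ s ^ 2 := by
    have h3 : (fun ℓ : Fin 2 → ℕ => h7_G H R d (ℓ 0) (ℓ 1) ^ 2) = fun ℓ =>
        ∑ t' ∈ Finset.Icc 1 H, ∑ t ∈ Finset.Icc 1 H, (1 / (H : ℝ)) ^ 2 *
          ((fun x => if t + d ≤ H ∧ t' + d ≤ H then R t x * R t' x else 0) (ℓ 0) *
            (fun y => R (t + d) y * R (t' + d) y) (ℓ 1)) := by
      funext ℓ
      unfold h7_G
      rw [mul_pow, sq (∑ t ∈ Finset.Icc 1 H, _), Finset.sum_mul_sum, Finset.sum_comm, Finset.mul_sum]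
      refine Finset.sum_congr rfl fun t' _ => ?_
      rw [Finset.mul_sum]
      refine Finset.sum_congr rfl fun t _ => ?_
      congr 1
      by_cases ha : t + d ≤ H <;> by_cases hb : t' + d ≤ H
      · simp only [ha, hb, if_true, and_self]; ring
      · simp only [ha, hb, if_true, if_false, and_false]; ring
      · simp only [ha, hb, if_true, if_false, false_and]; ring
      · simp only [ha, hb, if_false, and_false]; ring
    rw [h3, h7_Ep_sum]
    have h4 : ∀ t' ∈ Finset.Icc 1 H, Ep 2 N (fun ℓ => ∑ t ∈ Finset.Icc 1 H, (1 / (H : ℝ)) ^ 2 *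
          ((fun x => if t + d ≤ H ∧ t' + d ≤ H then R t x * R t' x else 0) (ℓ 0) *
            (fun y => R (t + d) y * R (t' + d) y) (ℓ 1))) ≤ 1 / (H : ℝ) * s ^ 2 := by
      intro t' _
      rw [h7_Ep_sum]
      have h5 := hyp (R t') (hR t')
      calc ∑ t ∈ Finset.Icc 1 H, Ep 2 N (fun ℓ => (1 / (H : ℝ)) ^ 2 *
          ((fun x => if t + d ≤ H ∧ t' + d ≤ H then R t x * R t' x else 0) (ℓ 0) *
            (fun y => R (t + d) y * R (t' + d) y) (ℓ 1)))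
          ≤ ∑ t ∈ Finset.Icc 1 H, (1 / (H : ℝ)) ^ 2 * |MRP.mx N (fun x => R t x * R t' x)| := by
            refine Finset.sum_le_sum fun t _ => ?_
            rw [h7_Ep_smul, h7_Ep_mul N (fun x => if t + d ≤ H ∧ t' + d ≤ H then R t x * R t' x else 0)
              (fun y => R (t + d) y * R (t' + d) y)]
            refine mul_le_mul_of_nonneg_left ?_ (by positivity)
            have h6 := h7_mx_le N hN (fun y => R (t + d) y * R (t' + d) y)
              (fun y => by rw [abs_mul]; exact mul_le_one₀ (hR _ _) (abs_nonneg _) (hR _ _))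
            by_cases h : t + d ≤ H ∧ t' + d ≤ H
            · simp only [h, and_self, if_true]
              refine (le_abs_self _).trans ?_
              rw [abs_mul]
              calc _ ≤ |MRP.mx N (fun x => R t x * R t' x)| * 1 :=
                    mul_le_mul_of_nonneg_left h6 (abs_nonneg _)
                _ = _ := mul_one _
            · simp only [h, if_false]
              have h7 : MRP.mx N (fun _ => 0) = 0 := by
                unfold MRP.mx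
                simp
              rw [h7, zero_mul]
              exact abs_nonneg _
        _ = 1 / (H : ℝ) * (1 / (H : ℝ) * ∑ t ∈ Finset.Icc 1 H, |MRP.mx N (fun x => R t x * R t' x)|) := by
            rw [← Finset.mul_sum]; ring
        _ ≤ _ := mul_le_mul_of_nonneg_left h5 (by positivity)
    refine (Finset.sum_le_sum h4).trans ?_
    rw [Finset.sum_const, Nat.card_Icc, Nat.add_sub_cancel, nsmul_eq_mul, ← mul_assoc,
      mul_one_div_cancel hH0.ne', one_mul]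
  have h3 : 0 ≤ Ep 2 N (fun ℓ => |h7_G H R d (ℓ 0) (ℓ 1)|) := by
    unfold Ep
    exact mul_nonneg (by positivity) (Finset.sum_nonneg fun _ _ => abs_nonneg _)
  exact (sq_le_sq₀ h3 hs).1 (h1.trans h2)

theorem restSmall (ε : ℝ) (hε : 0 < ε) : ∃ δ : ℝ, 0 < δ ∧ ∃ H0 : ℕ, ∀ H : ℕ, H0 ≤ H →
    ∃ N0 : ℕ, ∀ N : ℕ, N0 ≤ N → ∀ R : ℕ → ℕ → ℝ, (∀ t x, |R t x| ≤ 1) →
      (∀ f : ℕ → ℝ, (∀ x, |f x| ≤ 1) →
        1 / (H : ℝ) * ∑ t ∈ Finset.Icc 1 H, |MRP.mx N (fun x => R t x * f x)| ≤ δ) →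
      1 / (N : ℝ) * ∑ n ∈ Finset.Icc 1 N,
        |1 / (H : ℝ) * ∑ t ∈ Finset.Icc 1 H, R t (ArithmeticFunction.cardFactors (n + t))| ≤ ε := by
  obtain ⟨e, he0, he1, heε⟩ : ∃ e : ℝ, 0 < e ∧ e ≤ 1 ∧ e ≤ ε :=
    ⟨min ε 1, by positivity, min_le_right _ _, min_le_left _ _⟩
  obtain ⟨C, hC, hdom⟩ := dom 2 (e ^ 2 / 32) (by positivity)
  set s : ℝ := e ^ 2 / (32 * (C + 1)) with hs
  have hs0 : 0 < s := by positivity
  have hCs : C * s ≤ e ^ 2 / 32 := by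
    rw [hs, ← mul_div_assoc, div_le_div_iff₀ (by positivity) (by norm_num)]
    nlinarith [sq_nonneg e, mul_pos hC he0]
  refine ⟨s ^ 2, by positivity, ?_⟩
  obtain ⟨H0, hH0⟩ := exists_nat_gt (8 / e ^ 2)
  refine ⟨H0 + 1, fun H hH => ?_⟩
  obtain ⟨N₀, hN₀⟩ := hdom H
  obtain ⟨N1, hN1⟩ := exists_nat_gt (32 * H / e ^ 2)
  refine ⟨max N₀ (N1 + 1), fun N hN R hR hyp => ?_⟩
  have hH1 : 1 ≤ H := by omega
  have hN2 : N1 + 1 ≤ N := (le_max_right _ _).trans hN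
  have hN3 : 1 ≤ N := by omega
  have hHp : (0 : ℝ) < H := by exact_mod_cast hH1
  have hNp : (0 : ℝ) < N := by exact_mod_cast hN3
  have hV := h7_V H N hH1 hN3 R hR (C * s + e ^ 2 / 32) (by
    intro d hd
    rw [Finset.mem_Icc] at hd
    have h1 := hN₀ N ((le_max_left _ _).trans hN) ![0, d] (by
      intro i j hij
      fin_cases i <;> fin_cases j
      · rfl
      · simp at hij
        omega
      · simp at hij
        omega
      · rfl) (by
      intro i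
      fin_cases i
      · simp
      · simpa using hd.2) (fun ℓ => |h7_G H R d (ℓ 0) (ℓ 1)|)
      (fun ℓ => ⟨abs_nonneg _, h7_G_le H hH1 R hR d _ _⟩)
    have h2 := h7_EpG H N hH1 hN3 R hR s hs0.le hyp d
    simp only [Matrix.cons_val_zero, Matrix.cons_val_one, add_zero] at h1
    refine h1.trans ?_
    have := mul_le_mul_of_nonneg_left h2 hC.le
    linarith)
  have hcs := h7_cs (Finset.Icc 1 N) (N : ℝ) hNp (by simp)
    (fun n => 1 / (H : ℝ) * ∑ t ∈ Finset.Icc 1 H, R t (ArithmeticFunction.cardFactors (n + t)))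
  have h1 : 1 / (H : ℝ) ≤ e ^ 2 / 8 := by
    have h2 : 8 / e ^ 2 ≤ H := by
      have : (H0 : ℝ) ≤ H := by exact_mod_cast (by omega : H0 ≤ H)
      linarith
    rw [div_le_iff₀ (by positivity)] at h2
    rw [div_le_div_iff₀ hHp (by norm_num)]
    linarith
  have h2 : 4 * (H : ℝ) / N ≤ e ^ 2 / 8 := by
    have h3 : 32 * H / e ^ 2 ≤ N := by
      have : (N1 : ℝ) ≤ N := by exact_mod_cast (by omega : N1 ≤ N)
      linarith
    rw [div_le_iff₀ (by positivity)] at h3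
    rw [div_le_div_iff₀ hNp (by norm_num)]
    linarith
  refine le_trans ?_ heε
  have h3 : (1 / (N : ℝ) * ∑ n ∈ Finset.Icc 1 N,
        |1 / (H : ℝ) * ∑ t ∈ Finset.Icc 1 H, R t (ArithmeticFunction.cardFactors (n + t))|) ^ 2 ≤ e ^ 2 := by
    refine hcs.trans (hV.trans ?_)
    have : 0 < e ^ 2 := by positivity
    linarith
  refine (sq_le_sq₀ ?_ he0.le).1 h3
  exact mul_nonneg (by positivity) (Finset.sum_nonneg fun _ _ => abs_nonneg _)

end AS
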