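import Mathlib
import Pool.Agent.Helper6.AS.S06
import Pool.Agent.Helper6.AS.S07
import Pool.Agent.Helper6.AS.S08

/-!
# AS-09: law of large numbers for arbitrary functions `ψ t` of `Ω(n + t)`

PROOF.  Let `δ`, `H1` be from `restSmall (ε / 8)`, `δ₁ = min δ (ε / 4)`, `C` from `regBip δ₁`,
`ε₁ = ε / (4 (C + 1))`, `H2` from `freeCoef hE ε₁`, `H0 = max 1 (max H1 H2)`.  For given `H`, `N`, `ψ`
apply `regBip` with `α = β = ℕ`, `X = Icc 1 H`, `μ = 1/H`, `Y = range (N + 1)`, `ν x = lw N x`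
(`∑_{x ∈ range (N+1)} lw N x f x = mx N f`, since `Ω n ≤ n ≤ N`; `card_fiberwise`), `F = ψ`.
Let `R t x = ψ t x - ∑_j φ_j t ψ_j x`, `|R| ≤ 2`.
(1) For bounded `f`: `(1/H) ∑_t |mx N (R t f)| ≤ δ₁` (take the signs as function of `t`).  So `R/2`
satisfies the hypothesis of `restSmall`, hence `(1/N) ∑_n |(1/H) ∑_t R t (Ω(n+t))| ≤ 2 ε/8`.
(2) `f = 1` in (1): `(1/H) ∑_t |mx N (R t)| ≤ δ₁ ≤ ε/4`.
(3) `ψ t x - mx N (ψ t) = ∑_j φ_j t (ψ_j x - mx N ψ_j) + R t x - mx N (R t)` (linearity of `mx`), and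
`freeCoef` for each `j` (`b = ψ_j`, `c = φ_j`): total at most `J ε₁ + ε/4 + ε/4 ≤ ε`.
-/

set_option autoImplicit false

namespace AS

open Finset Helper13.Om Helper11.QR

private lemma h45_Om_le (m : ℕ) : ArithmeticFunction.cardFactors m ≤ m := by
  rcases Nat.eq_zero_or_pos m with rfl | hm
  · simp
  · rw [ArithmeticFunction.cardFactors_apply]
    have h1 : 2 ^ m.primeFactorsList.length ≤ m.primeFactorsList.prod :=
      List.pow_card_le_prod _ _ (fun p hp => (Nat.prime_of_mem_primeFactorsList hp).two_le)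
    rw [Nat.prod_primeFactorsList (by omega)] at h1
    exact (Nat.lt_two_pow_self).le.trans h1

private lemma h45_lw_sum (N : ℕ) (f : ℕ → ℝ) :
    ∑ x ∈ Finset.range (N + 1), lw N x * f x = MRP.mx N f := by
  have hmap : ∀ n ∈ Finset.Icc 1 N, MRP.Om n ∈ Finset.range (N + 1) := fun n hn => by
    rw [Finset.mem_range]
    exact Nat.lt_succ_of_le ((h45_Om_le n).trans (Finset.mem_Icc.1 hn).2)
  unfold MRP.mx
  rw [← Finset.sum_fiberwise_of_maps_to hmap, Finset.sum_div]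
  refine Finset.sum_congr rfl fun x _ => ?_
  have h1 : ∑ n ∈ (Finset.Icc 1 N).filter (fun n => MRP.Om n = x), f (MRP.Om n) =
      (((Finset.Icc 1 N).filter (fun n => ArithmeticFunction.cardFactors n = x)).card : ℝ) * f x := by
    rw [← nsmul_eq_mul]
    refine Finset.sum_eq_card_nsmul fun n hn => ?_
    rw [(Finset.mem_filter.1 hn).2]
  rw [h1]
  unfold lw
  ring

private lemma h45_mx_add (N : ℕ) (f g : ℕ → ℝ) :
    MRP.mx N (fun x => f x + g x) = MRP.mx N f + MRP.mx N g := by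
  unfold MRP.mx
  rw [Finset.sum_add_distrib, add_div]

private lemma h45_mx_mul (N : ℕ) (c : ℝ) (f : ℕ → ℝ) :
    MRP.mx N (fun x => c * f x) = c * MRP.mx N f := by
  unfold MRP.mx
  rw [← Finset.mul_sum, mul_div_assoc]

private lemma h45_mx_sum (N : ℕ) {J : ℕ} (f : Fin J → ℕ → ℝ) :
    MRP.mx N (fun x => ∑ j, f j x) = ∑ j, MRP.mx N (f j) := by
  unfold MRP.mx
  rw [Finset.sum_comm, Finset.sum_div]

theorem lln (hE : MRP.EXPx) : ∀ ε : ℝ, 0 < ε → ∃ H0 : ℕ, ∀ H : ℕ, H0 ≤ H → ∃ N0 : ℕ,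
    ∀ N : ℕ, N0 ≤ N → ∀ ψ : ℕ → ℕ → ℝ, (∀ t x, |ψ t x| ≤ 1) →
      1 / (N : ℝ) * ∑ n ∈ Finset.Icc 1 N,
        |1 / (H : ℝ) * ∑ t ∈ Finset.Icc 1 H,
          (ψ t (ArithmeticFunction.cardFactors (n + t)) - MRP.mx N (ψ t))| ≤ ε := by
  intro ε hε
  obtain ⟨δ, hδ, H1, hH1⟩ := restSmall (ε / 8) (by positivity)
  obtain ⟨δ₁, hδ₁⟩ : ∃ δ₁, δ₁ = min δ (ε / 4) := ⟨_, rfl⟩
  have hδ₁0 : 0 < δ₁ := by rw [hδ₁]; exact lt_min hδ (by positivity)
  have hδ₁1 : δ₁ ≤ δ := by rw [hδ₁]; exact min_le_left _ _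
  have hδ₁2 : δ₁ ≤ ε / 4 := by rw [hδ₁]; exact min_le_right _ _
  obtain ⟨C, hC⟩ := regBip δ₁ hδ₁0
  obtain ⟨H2, hH2⟩ := freeCoef hE (ε / (4 * ((C : ℝ) + 1))) (by positivity)
  refine ⟨max 1 (max H1 H2), fun H hH => ?_⟩
  have hHone : 1 ≤ H := (le_max_left _ _).trans hH
  obtain ⟨N1, hN1⟩ := hH1 H (((le_max_left _ _).trans (le_max_right _ _)).trans hH)
  obtain ⟨N2, hN2⟩ := hH2 H (((le_max_right _ _).trans (le_max_right _ _)).trans hH)
  refine ⟨max 1 (max N1 N2), fun N hN ψ hψ => ?_⟩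
  have hNone : 1 ≤ N := (le_max_left _ _).trans hN
  have hN1' := hN1 N (((le_max_left _ _).trans (le_max_right _ _)).trans hN)
  have hN2' := hN2 N (((le_max_right _ _).trans (le_max_right _ _)).trans hN)
  have hH0 : (0 : ℝ) < H := by exact_mod_cast hHone
  have hN0 : (0 : ℝ) < N := by exact_mod_cast hNone
  have hT : ∑ x ∈ Finset.range (N + 1), lw N x = 1 := by
    have h := h45_lw_sum N fun _ => 1
    simp only [mul_one] at h
    rw [h]
    unfold MRP.mx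
    simp [hN0.ne']
  obtain ⟨J, φ, χ, hJ, hφ, hχ, hs, hcut⟩ := hC (Finset.Icc 1 H) (Finset.range (N + 1))
    (fun _ => 1 / (H : ℝ)) (fun x => lw N x) (fun _ => by positivity)
    (fun x => by unfold lw; positivity) (by simp [hH0.ne']) hT ψ hψ
  obtain ⟨R, hR⟩ : ∃ R : ℕ → ℕ → ℝ, R = fun t x => ψ t x - ∑ j, φ j t * χ j x := ⟨_, rfl⟩
  have hR2 : ∀ t x, |R t x| ≤ 2 := fun t x => by
    rw [hR]
    exact (abs_sub _ _).trans (by linarith [hψ t x, hs t x])
  have step1 : ∀ f : ℕ → ℝ, (∀ x, |f x| ≤ 1) →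
      1 / (H : ℝ) * ∑ t ∈ Finset.Icc 1 H, |MRP.mx N (fun x => R t x * f x)| ≤ δ₁ := by
    intro f hf
    obtain ⟨σ, hσ⟩ : ∃ σ : ℕ → ℝ, σ = fun t =>
      if 0 ≤ MRP.mx N (fun x => R t x * f x) then (1 : ℝ) else -1 := ⟨_, rfl⟩
    have hσ1 : ∀ t, |σ t| ≤ 1 := fun t => by
      rw [hσ]
      simp only
      split_ifs <;> simp
    have hσ2 : ∀ t, σ t * MRP.mx N (fun x => R t x * f x) = |MRP.mx N (fun x => R t x * f x)| := by
      intro t
      rw [hσ]
      simp only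
      split_ifs with h
      · rw [abs_of_nonneg h, one_mul]
      · rw [abs_of_neg (not_le.1 h)]
        ring
    have h := hcut σ f hσ1 hf
    have h2 : ∑ t ∈ Finset.Icc 1 H, ∑ x ∈ Finset.range (N + 1),
        1 / (H : ℝ) * lw N x * ((ψ t x - ∑ j, φ j t * χ j x) * (σ t * f x)) =
        1 / (H : ℝ) * ∑ t ∈ Finset.Icc 1 H, |MRP.mx N (fun x => R t x * f x)| := by
      rw [Finset.mul_sum]
      refine Finset.sum_congr rfl fun t _ => ?_
      rw [← hσ2 t, ← h45_lw_sum, Finset.mul_sum, Finset.mul_sum]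
      refine Finset.sum_congr rfl fun x _ => ?_
      rw [hR]
      ring
    rw [h2] at h
    exact (le_abs_self _).trans h
  have step2 : 1 / (N : ℝ) * ∑ n ∈ Finset.Icc 1 N, |1 / (H : ℝ) * ∑ t ∈ Finset.Icc 1 H,
      R t (ArithmeticFunction.cardFactors (n + t))| ≤ ε / 4 := by
    have h := hN1' (fun t x => R t x / 2) (fun t x => by
      rw [abs_div, abs_two]
      linarith [hR2 t x]) (fun f hf => by
      have h1 : ∀ t, |MRP.mx N (fun x => R t x / 2 * f x)| =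
          |MRP.mx N (fun x => R t x * f x)| / 2 := fun t => by
        have e : (fun x => R t x / 2 * f x) = fun x => 1 / 2 * (R t x * f x) := by
          funext x
          ring
        rw [e, h45_mx_mul, abs_mul]
        norm_num
        ring
      simp only [h1]
      rw [← Finset.sum_div, ← mul_div_assoc]
      linarith [step1 f hf])
    have h2 : 1 / (N : ℝ) * ∑ n ∈ Finset.Icc 1 N, |1 / (H : ℝ) * ∑ t ∈ Finset.Icc 1 H,
        R t (ArithmeticFunction.cardFactors (n + t)) / 2| =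
        (1 / (N : ℝ) * ∑ n ∈ Finset.Icc 1 N, |1 / (H : ℝ) * ∑ t ∈ Finset.Icc 1 H,
        R t (ArithmeticFunction.cardFactors (n + t))|) / 2 := by
      rw [mul_div_assoc, Finset.sum_div]
      congr 1
      refine Finset.sum_congr rfl fun n _ => ?_
      rw [← Finset.sum_div, ← mul_div_assoc, abs_div, abs_two]
    rw [h2] at h
    linarith
  have step3 : 1 / (H : ℝ) * ∑ t ∈ Finset.Icc 1 H, |MRP.mx N (R t)| ≤ ε / 4 := by
    have h := step1 (fun _ => 1) (fun _ => by simp)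
    simp only [mul_one] at h
    exact h.trans hδ₁2
  have hpt : ∀ t x, ψ t x - MRP.mx N (ψ t) =
      ∑ j, φ j t * (χ j x - MRP.mx N (χ j)) + R t x - MRP.mx N (R t) := by
    intro t x
    have h1 : MRP.mx N (ψ t) = MRP.mx N (R t) + ∑ j, φ j t * MRP.mx N (χ j) := by
      have e : ψ t = fun x => R t x + ∑ j, φ j t * χ j x := by
        funext x
        rw [hR]
        ring
      conv_lhs => rw [e]
      rw [h45_mx_add, h45_mx_sum]
      congr 1
      exact Finset.sum_congr rfl fun j _ => h45_mx_mul N _ _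
    have h2 : ψ t x = R t x + ∑ j, φ j t * χ j x := by
      rw [hR]
      ring
    have h3 : ∑ j, φ j t * (χ j x - MRP.mx N (χ j)) =
        ∑ j, φ j t * χ j x - ∑ j, φ j t * MRP.mx N (χ j) := by
      rw [← Finset.sum_sub_distrib]
      exact Finset.sum_congr rfl fun j _ => by ring
    rw [h1, h2, h3]
    ring
  have hn : ∀ n, |1 / (H : ℝ) * ∑ t ∈ Finset.Icc 1 H,
      (ψ t (ArithmeticFunction.cardFactors (n + t)) - MRP.mx N (ψ t))| ≤
      (∑ j, |1 / (H : ℝ) * ∑ t ∈ Finset.Icc 1 H,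
        φ j t * (χ j (MRP.Om (n + t)) - MRP.mx N (χ j))|) +
      |1 / (H : ℝ) * ∑ t ∈ Finset.Icc 1 H, R t (ArithmeticFunction.cardFactors (n + t))| +
      1 / (H : ℝ) * ∑ t ∈ Finset.Icc 1 H, |MRP.mx N (R t)| := by
    intro n
    have h1 : 1 / (H : ℝ) * ∑ t ∈ Finset.Icc 1 H,
        (ψ t (ArithmeticFunction.cardFactors (n + t)) - MRP.mx N (ψ t)) =
        (∑ j, 1 / (H : ℝ) * ∑ t ∈ Finset.Icc 1 H,
          φ j t * (χ j (MRP.Om (n + t)) - MRP.mx N (χ j))) +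
        1 / (H : ℝ) * ∑ t ∈ Finset.Icc 1 H, R t (ArithmeticFunction.cardFactors (n + t)) -
        1 / (H : ℝ) * ∑ t ∈ Finset.Icc 1 H, MRP.mx N (R t) := by
      rw [← Finset.mul_sum, Finset.sum_comm, ← mul_add, ← mul_sub, ← Finset.sum_add_distrib,
        ← Finset.sum_sub_distrib]
      congr 1
      exact Finset.sum_congr rfl fun t _ => hpt t _
    rw [h1]
    refine (abs_sub _ _).trans (add_le_add ((abs_add_le _ _).trans (add_le_add ?_ le_rfl)) ?_)
    · exact Finset.abs_sum_le_sum_abs _ _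
    · rw [abs_mul, abs_of_pos (by positivity : (0 : ℝ) < 1 / H)]
      exact mul_le_mul_of_nonneg_left (Finset.abs_sum_le_sum_abs _ _) (by positivity)
  have hsum : 1 / (N : ℝ) * ∑ n ∈ Finset.Icc 1 N, |1 / (H : ℝ) * ∑ t ∈ Finset.Icc 1 H,
      (ψ t (ArithmeticFunction.cardFactors (n + t)) - MRP.mx N (ψ t))| ≤
      (∑ j, 1 / (N : ℝ) * ∑ n ∈ Finset.Icc 1 N, |1 / (H : ℝ) * ∑ t ∈ Finset.Icc 1 H,
        φ j t * (χ j (MRP.Om (n + t)) - MRP.mx N (χ j))|) +
      1 / (N : ℝ) * ∑ n ∈ Finset.Icc 1 N, |1 / (H : ℝ) * ∑ t ∈ Finset.Icc 1 H,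
        R t (ArithmeticFunction.cardFactors (n + t))| +
      1 / (H : ℝ) * ∑ t ∈ Finset.Icc 1 H, |MRP.mx N (R t)| := by
    refine (mul_le_mul_of_nonneg_left (Finset.sum_le_sum fun n _ => hn n)
      (by positivity)).trans_eq ?_
    rw [Finset.sum_add_distrib, Finset.sum_add_distrib, mul_add, mul_add, Finset.sum_comm,
      Finset.mul_sum]
    congr 1
    rw [Finset.sum_const, Nat.card_Icc, Nat.add_sub_cancel, nsmul_eq_mul]
    field_simp
  have hJJ : ∑ j : Fin J, 1 / (N : ℝ) * ∑ n ∈ Finset.Icc 1 N, |1 / (H : ℝ) *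
      ∑ t ∈ Finset.Icc 1 H, φ j t * (χ j (MRP.Om (n + t)) - MRP.mx N (χ j))| ≤ ε / 4 := by
    refine (Finset.sum_le_sum fun j _ => hN2' (χ j) (φ j) (hχ j) (hφ j)).trans ?_
    rw [Finset.sum_const, Finset.card_univ, Fintype.card_fin, nsmul_eq_mul]
    have hJ' : (J : ℝ) ≤ C := by exact_mod_cast hJ
    calc (J : ℝ) * (ε / (4 * ((C : ℝ) + 1))) ≤ ((C : ℝ) + 1) * (ε / (4 * ((C : ℝ) + 1))) :=
          mul_le_mul_of_nonneg_right (by linarith) (by positivity)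
      _ = ε / 4 := by
          field_simp
  linarith

end AS
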