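import Mathlib
import Pool.Agent.Helper6.AS.Defs

/-!
# AS-10a: bookkeeping for expectations over a product alphabet

PROOF.  Unfold `EE`; functions `z : V → A × B × (K → Y)` correspond to triples
`(σ, θ, ℓ)`, `σ : V → A`, `θ : V → B`, `ℓ : V × K → Y` (`Equiv.arrowProdEquivProdArrow` twice and
`Equiv.curry`); the weight `∏ v (α (σ v) * β (θ v) * ∏ κ ρ (ℓ (v, κ)))` splits
(`Finset.prod_mul_distrib`, `Fintype.prod_prod_type`).
-/

set_option autoImplicit false

namespace AS

open Finset Helper13.Om Helper11.QR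

theorem EE_split {V A B K Y : Type} [Fintype V] [DecidableEq V] [Fintype A] [DecidableEq A]
    [Fintype B] [DecidableEq B] [Fintype K] [DecidableEq K] [Fintype Y] [DecidableEq Y]
    (α : A → ℝ) (β : B → ℝ) (ρ : Y → ℝ) (Φ : (V → A) → (V → B) → (V × K → Y) → ℝ) :
    EE (fun (_ : V) (z : A × B × (K → Y)) => α z.1 * β z.2.1 * ∏ κ, ρ (z.2.2 κ))
      (fun z => Φ (fun v => (z v).1) (fun v => (z v).2.1) (fun p => (z p.1).2.2 p.2)) =
    ∑ σ : V → A, ∑ θ : V → B, (∏ v, α (σ v)) * (∏ v, β (θ v)) *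
      EE (fun _ : V × K => ρ) (fun ℓ => Φ σ θ ℓ) := by
  let e : (V → A × B × (K → Y)) ≃ (V → A) × (V → B) × (V × K → Y) :=
    { toFun := fun z => (fun v => (z v).1, fun v => (z v).2.1, fun p => (z p.1).2.2 p.2)
      invFun := fun t v => (t.1 v, t.2.1 v, fun κ => t.2.2 (v, κ))
      left_inv := fun z => rfl
      right_inv := fun t => rfl }
  unfold EE
  have h1 := e.sum_comp (fun t : (V → A) × (V → B) × (V × K → Y) =>
    (∏ v, (α (t.1 v) * β (t.2.1 v) * ∏ κ, ρ (t.2.2 (v, κ)))) * Φ t.1 t.2.1 t.2.2)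
  refine h1.trans ?_
  rw [Fintype.sum_prod_type]
  refine Finset.sum_congr rfl fun σ _ => ?_
  rw [Fintype.sum_prod_type]
  refine Finset.sum_congr rfl fun θ _ => ?_
  rw [Finset.mul_sum]
  refine Finset.sum_congr rfl fun ℓ _ => ?_
  simp only
  rw [Finset.prod_mul_distrib, Finset.prod_mul_distrib, Fintype.prod_prod_type]
  ring

end AS
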