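import Mathlib
import Pool.Agent.Helper6.AS.S10a
import Pool.Agent.Helper11.QR.Hybrid

/-!
# AS-10b: one edge: cut smallness of `R` passes to the model

Alphabet of a vertex: `Fin H × Fin H × (Option (Fin k) → Fin (L + 2))`, i.e. the position of the left
sites, the position of the right site, and the model counts at the `k + 1` sites.

PROOF.  Let `i = e.1 ≠ j = e.2` and `W v z` the weight (a product probability).  Only the vertices `i`, `j`
matter: `EE` of a function of `(z i, z j)` is the sum over the two letters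
(as in `Helper11.QR.ec_marginal` / `EE_resample`; or `EE_push'`), so the left side is
`∑_{z,z'} W z W z' R (s(z)) (y(z) + b) (t(z')) (x(z') + b') f i z f j z'`.
Sum over the second position and the last count of `z` (they occur only in `f i z`): replace `f i` by
`f̃ s y = (1/H) ∑_{t'} ∑_{x'} sg x' f i (s, t', (y, x')) ∈ [-1,1]`; in the same way
`g̃ t x = (1/H) ∑_{s'} ∑_{y'} ∏ sg (y' c) f j (s', t, (y', x))`.  For fixed `(s, t)` we get
`EE (fun _ : Fin (k+1) => sg P L)` of `Ψ (ℓ + w)` with `w c = b s c` for `c < k`, `w k = b' t` and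
`Ψ ℓ = if w ≤ ℓ and ℓ - w < L + 2 then R s (ℓ restricted) t (ℓ last) * (f̃ (ℓ - w) * g̃ (ℓ - w)) else 0`,
which is of the form `R s . t . * (F s . * G t .)` with `F, G : ... → ℝ` bounded by one
(the indicator splits into a factor depending on `s, ℓ restricted` and one depending on `t, ℓ last`).
`hybrid` (`D = 0`): within `(k+1) τ` of `Ep (k+1) N Ψ_{s,t}`; average over `(s, t)` and `CutA`
(positions `s + 1 ∈ Icc 1 H`).
-/

set_option autoImplicit false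

namespace AS

open Finset Helper13.Om Helper11.QR

/-- The weight of a letter. -/
noncomputable def rhoA (k H L : ℕ) (P : Finset ℕ)
    (z : Fin H × Fin H × (Option (Fin k) → Fin (L + 2))) : ℝ :=
  (1 / (H : ℝ)) * (1 / (H : ℝ)) * ∏ κ, sg P L (z.2.2 κ)

private def h7_opt {k : ℕ} {Y : Type} (y : Fin k → Y) (x : Y) : Option (Fin k) → Y := fun o => o.elim x y

private lemma h7_opt_sum {k : ℕ} {Y : Type} [Fintype Y] [DecidableEq Y] (Φ : (Option (Fin k) → Y) → ℝ) :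
    ∑ z, Φ z = ∑ x, ∑ y, Φ (h7_opt y x) := by
  rw [← Equiv.sum_comp (Equiv.piOptionEquivProd (β := fun _ => Y)).symm Φ, Fintype.sum_prod_type]
  refine Finset.sum_congr rfl fun x _ => Finset.sum_congr rfl fun y _ => ?_
  congr 1
  funext o
  cases o <;> rfl

private lemma h7_snoc_sum {k : ℕ} {Y : Type} [Fintype Y] [DecidableEq Y] (ρ : Y → ℝ)
    (Φ : (Fin (k + 1) → Y) → ℝ) :
    EE (fun _ : Fin (k + 1) => ρ) Φ =
      ∑ x, ∑ y : Fin k → Y, ((∏ c, ρ (y c)) * ρ x) * Φ (Fin.snoc (α := fun _ => Y) y x) := by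
  unfold EE
  rw [← Equiv.sum_comp (Fin.snocEquiv (fun _ => Y)), Fintype.sum_prod_type]
  refine Finset.sum_congr rfl fun x _ => Finset.sum_congr rfl fun y _ => ?_
  rw [Fin.prod_univ_castSucc]
  simp [Fin.snocEquiv]

private lemma h7_rho_sum (k H L : ℕ) (hH : 1 ≤ H) (P : Finset ℕ) : ∑ z, rhoA k H L P z = 1 := by
  have hH0 : (0 : ℝ) < H := by exact_mod_cast hH
  have h1 : ∑ Y : Option (Fin k) → Fin (L + 2), ∏ κ, sg P L (Y κ) = 1 :=
    sum_prod_eq_one (fun _ => sg P L) (fun _ => sg_sum P L)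
  rw [Fintype.sum_prod_type]
  have h2 : ∀ s : Fin H, ∑ z : Fin H × (Option (Fin k) → Fin (L + 2)), rhoA k H L P (s, z) =
      H * ((1 / (H : ℝ)) * (1 / (H : ℝ))) := by
    intro s
    rw [Fintype.sum_prod_type]
    have h3 : ∀ t : Fin H, ∑ Y : Option (Fin k) → Fin (L + 2), rhoA k H L P (s, t, Y) =
        (1 / (H : ℝ)) * (1 / (H : ℝ)) := by
      intro t
      unfold rhoA
      rw [← Finset.mul_sum]
      simp only
      rw [h1, mul_one]
    rw [Finset.sum_congr rfl fun t _ => h3 t]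
    simp
  rw [Finset.sum_congr rfl fun s _ => h2 s]
  simp only [Finset.sum_const, Finset.card_univ, Fintype.card_fin, nsmul_eq_mul]
  field_simp

private lemma h7_two {V A : Type} [Fintype V] [DecidableEq V] [Fintype A] [DecidableEq A] (ρ : A → ℝ)
    (h1 : ∑ z, ρ z = 1) (i j : V) (hij : i ≠ j) (Φ : A → A → ℝ) :
    EE (fun _ : V => ρ) (fun z => Φ (z i) (z j)) = ∑ z', ρ z' * ∑ z, ρ z * Φ z z' := by
  have h := EE_resample (fun _ : V => ρ) i h1 ρ (fun z => Φ (z i) (z j))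
  rw [Function.update_eq_self_iff.2 rfl] at h
  rw [h]
  have e : (fun y : V → A => ∑ s, ρ s * Φ ((Function.update y i s) i) ((Function.update y i s) j)) =
      fun y => (fun z' => ∑ s, ρ s * Φ s z') (y j) := by
    funext y
    refine Finset.sum_congr rfl fun s _ => ?_
    rw [Function.update_self, Function.update_of_ne hij.symm]
  rw [e]
  exact EE_single (fun _ : V => ρ) (fun _ => h1) j (fun z' => ∑ s, ρ s * Φ s z')

private lemma h7_L1 (k H L : ℕ) (P : Finset ℕ) (Θ : Fin H → (Fin k → Fin (L + 2)) → ℝ)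
    (φ : (Fin H × Fin H × (Option (Fin k) → Fin (L + 2))) → ℝ) :
    ∑ z, rhoA k H L P z * (Θ z.1 (fun c => z.2.2 (some c)) * φ z) =
    ∑ s, ∑ y, (1 / (H : ℝ)) * (∏ c, sg P L (y c)) *
      (Θ s y * ∑ t, ∑ x, (1 / (H : ℝ)) * sg P L x * φ (s, t, h7_opt y x)) := by
  rw [Fintype.sum_prod_type]
  refine Finset.sum_congr rfl fun s _ => ?_
  rw [Fintype.sum_prod_type]
  have e : ∀ t, ∑ Y : Option (Fin k) → Fin (L + 2),
      rhoA k H L P (s, t, Y) * (Θ s (fun c => Y (some c)) * φ (s, t, Y)) =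
      ∑ x, ∑ y, (1 / (H : ℝ)) * (1 / (H : ℝ)) * (sg P L x * ∏ c, sg P L (y c)) *
        (Θ s y * φ (s, t, h7_opt y x)) := by
    intro t
    rw [h7_opt_sum]
    refine Finset.sum_congr rfl fun x _ => Finset.sum_congr rfl fun y _ => ?_
    unfold rhoA
    rw [Fintype.prod_option]
    rfl
  calc ∑ t, ∑ Y : Option (Fin k) → Fin (L + 2),
      rhoA k H L P (s, t, Y) * (Θ s (fun c => Y (some c)) * φ (s, t, Y))
      = ∑ t, ∑ x, ∑ y, (1 / (H : ℝ)) * (1 / (H : ℝ)) * (sg P L x * ∏ c, sg P L (y c)) *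
        (Θ s y * φ (s, t, h7_opt y x)) := Finset.sum_congr rfl fun t _ => e t
    _ = ∑ t, ∑ y, ∑ x, (1 / (H : ℝ)) * (1 / (H : ℝ)) * (sg P L x * ∏ c, sg P L (y c)) *
        (Θ s y * φ (s, t, h7_opt y x)) := Finset.sum_congr rfl fun t _ => Finset.sum_comm
    _ = ∑ y, ∑ t, ∑ x, (1 / (H : ℝ)) * (1 / (H : ℝ)) * (sg P L x * ∏ c, sg P L (y c)) *
        (Θ s y * φ (s, t, h7_opt y x)) := Finset.sum_comm
    _ = _ := by
      refine Finset.sum_congr rfl fun y _ => ?_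
      simp only [Finset.mul_sum]
      refine Finset.sum_congr rfl fun t _ => Finset.sum_congr rfl fun x _ => ?_
      ring

private lemma h7_L2 (k H L : ℕ) (P : Finset ℕ) (Θ : Fin H → Fin (L + 2) → ℝ)
    (φ : (Fin H × Fin H × (Option (Fin k) → Fin (L + 2))) → ℝ) :
    ∑ z, rhoA k H L P z * (Θ z.2.1 (z.2.2 none) * φ z) =
    ∑ t, ∑ x, (1 / (H : ℝ)) * sg P L x *
      (Θ t x * ∑ s, ∑ y, (1 / (H : ℝ)) * (∏ c, sg P L (y c)) * φ (s, t, h7_opt y x)) := by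
  rw [Fintype.sum_prod_type]
  have e : ∀ s, ∑ z : Fin H × (Option (Fin k) → Fin (L + 2)),
      rhoA k H L P (s, z) * (Θ z.1 (z.2 none) * φ (s, z)) =
      ∑ t, ∑ x, ∑ y, (1 / (H : ℝ)) * (1 / (H : ℝ)) * (sg P L x * ∏ c, sg P L (y c)) *
        (Θ t x * φ (s, t, h7_opt y x)) := by
    intro s
    rw [Fintype.sum_prod_type]
    refine Finset.sum_congr rfl fun t _ => ?_
    rw [h7_opt_sum]
    refine Finset.sum_congr rfl fun x _ => Finset.sum_congr rfl fun y _ => ?_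
    unfold rhoA
    rw [Fintype.prod_option]
    rfl
  calc ∑ s, ∑ z : Fin H × (Option (Fin k) → Fin (L + 2)),
      rhoA k H L P (s, z) * (Θ z.1 (z.2 none) * φ (s, z))
      = ∑ s, ∑ t, ∑ x, ∑ y, (1 / (H : ℝ)) * (1 / (H : ℝ)) * (sg P L x * ∏ c, sg P L (y c)) *
        (Θ t x * φ (s, t, h7_opt y x)) := Finset.sum_congr rfl fun s _ => e s
    _ = ∑ t, ∑ s, ∑ x, ∑ y, (1 / (H : ℝ)) * (1 / (H : ℝ)) * (sg P L x * ∏ c, sg P L (y c)) *
        (Θ t x * φ (s, t, h7_opt y x)) := Finset.sum_comm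
    _ = ∑ t, ∑ x, ∑ s, ∑ y, (1 / (H : ℝ)) * (1 / (H : ℝ)) * (sg P L x * ∏ c, sg P L (y c)) *
        (Θ t x * φ (s, t, h7_opt y x)) := Finset.sum_congr rfl fun t _ => Finset.sum_comm
    _ = _ := by
      refine Finset.sum_congr rfl fun t _ => Finset.sum_congr rfl fun x _ => ?_
      simp only [Finset.mul_sum]
      refine Finset.sum_congr rfl fun s _ => Finset.sum_congr rfl fun y _ => ?_
      ring

private lemma h7_fin (H : ℕ) (φ : ℕ → ℝ) : ∑ s : Fin H, φ ((s : ℕ) + 1) = ∑ s ∈ Finset.Icc 1 H, φ s := by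
  rw [Fin.sum_univ_eq_sum_range (fun s => φ (s + 1)) H]
  induction H with
  | zero => simp
  | succ H ih => rw [Finset.sum_range_succ, ih, Finset.sum_Icc_succ_top (by omega)]

theorem edgeCutA (k q H L N B : ℕ) (hH : 1 ≤ H) (hN : 1 ≤ N) (P : Finset ℕ)
    (hP : ∀ p ∈ P, p.Prime) (hL : P.card ≤ L + 1) (R : ℕ → (Fin k → ℕ) → ℕ → ℕ → ℝ)
    (hR : ∀ s y t x, |R s y t x| ≤ 1) (δ τ : ℝ) (hcut : CutA k N H δ R)
    (hτ : ∀ b ≤ B, ∀ b' ≤ B, ∀ a : ℕ → ℝ, (∀ t, |a t| ≤ 1) →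
      |Es P (fun t => a (t + b)) -
        1 / (N : ℝ) * ∑ n ∈ Finset.Icc 1 N, a (ArithmeticFunction.cardFactors n + b')| ≤ τ)
    (bL : ℕ → Fin k → ℕ) (bR : ℕ → ℕ) (hbL : ∀ s c, bL s c ≤ B) (hbR : ∀ t, bR t ≤ B)
    (i j : Fin q) (hij : i ≠ j)
    (f : Fin q → (Fin H × Fin H × (Option (Fin k) → Fin (L + 2))) → ℝ)
    (hf : ∀ v z, |f v z| ≤ 1) :
    |EE (fun (_ : Fin q) z => rhoA k H L P z) (fun z =>
      R (((z i).1 : ℕ) + 1) (fun c => ((z i).2.2 (some c) : ℕ) + bL (((z i).1 : ℕ) + 1) c)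
        (((z j).2.1 : ℕ) + 1) (((z j).2.2 none : ℕ) + bR (((z j).2.1 : ℕ) + 1)) *
      (f i (z i) * f j (z j)))| ≤ δ + (k + 1 : ℕ) * τ := by
  classical
  have hH0 : (0 : ℝ) < H := by exact_mod_cast hH
  have hsg0 : ∀ t, 0 ≤ sg P L t := fun t => sg_nonneg P hP L t
  have hsgp : ∀ y : Fin k → Fin (L + 2), 0 ≤ ∏ c, sg P L (y c) := fun y => Finset.prod_nonneg fun c _ => hsg0 _
  have hsum1 : ∑ y : Fin k → Fin (L + 2), ∏ c, sg P L (y c) = 1 :=
    sum_prod_eq_one (fun _ => sg P L) (fun _ => sg_sum P L)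
  obtain ⟨F1, hF1⟩ : ∃ F1 : Fin H → (Fin k → Fin (L + 2)) → ℝ, ∀ s y, F1 s y =
    ∑ t, ∑ x, (1 / (H : ℝ)) * sg P L x * f i (s, t, h7_opt y x) := ⟨_, fun _ _ => rfl⟩
  obtain ⟨G1, hG1⟩ : ∃ G1 : Fin H → Fin (L + 2) → ℝ, ∀ t x, G1 t x =
    ∑ s, ∑ y, (1 / (H : ℝ)) * (∏ c, sg P L (y c)) * f j (s, t, h7_opt y x) := ⟨_, fun _ _ => rfl⟩
  have hF1b : ∀ s y, |F1 s y| ≤ 1 := by
    intro s y
    rw [hF1]
    refine (Finset.abs_sum_le_sum_abs _ _).trans ?_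
    have h1 : ∀ t ∈ (Finset.univ : Finset (Fin H)),
        |∑ x, (1 / (H : ℝ)) * sg P L x * f i (s, t, h7_opt y x)| ≤ 1 / (H : ℝ) := by
      intro t _
      refine (Finset.abs_sum_le_sum_abs _ _).trans ?_
      have h2 : ∀ x ∈ (Finset.univ : Finset (Fin (L + 2))),
          |(1 / (H : ℝ)) * sg P L x * f i (s, t, h7_opt y x)| ≤ (1 / (H : ℝ)) * sg P L x := by
        intro x _
        have h3 : 0 ≤ (1 / (H : ℝ)) * sg P L x := mul_nonneg (by positivity) (hsg0 x)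
        rw [abs_mul, abs_of_nonneg h3]
        calc _ ≤ (1 / (H : ℝ)) * sg P L x * 1 := mul_le_mul_of_nonneg_left (hf _ _) h3
          _ = _ := mul_one _
      refine (Finset.sum_le_sum h2).trans ?_
      rw [← Finset.mul_sum, sg_sum, mul_one]
    refine (Finset.sum_le_sum h1).trans ?_
    simp only [Finset.sum_const, Finset.card_univ, Fintype.card_fin, nsmul_eq_mul]
    rw [mul_one_div_cancel hH0.ne']
  have hG1b : ∀ t x, |G1 t x| ≤ 1 := by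
    intro t x
    rw [hG1]
    refine (Finset.abs_sum_le_sum_abs _ _).trans ?_
    have h1 : ∀ s ∈ (Finset.univ : Finset (Fin H)),
        |∑ y, (1 / (H : ℝ)) * (∏ c, sg P L (y c)) * f j (s, t, h7_opt y x)| ≤ 1 / (H : ℝ) := by
      intro s _
      refine (Finset.abs_sum_le_sum_abs _ _).trans ?_
      have h2 : ∀ y ∈ (Finset.univ : Finset (Fin k → Fin (L + 2))),
          |(1 / (H : ℝ)) * (∏ c, sg P L (y c)) * f j (s, t, h7_opt y x)| ≤
          (1 / (H : ℝ)) * ∏ c, sg P L (y c) := by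
        intro y _
        have h3 : 0 ≤ (1 / (H : ℝ)) * ∏ c, sg P L (y c) := mul_nonneg (by positivity) (hsgp y)
        rw [abs_mul, abs_of_nonneg h3]
        calc _ ≤ (1 / (H : ℝ)) * (∏ c, sg P L (y c)) * 1 := mul_le_mul_of_nonneg_left (hf _ _) h3
          _ = _ := mul_one _
      refine (Finset.sum_le_sum h2).trans ?_
      rw [← Finset.mul_sum, hsum1, mul_one]
    refine (Finset.sum_le_sum h1).trans ?_
    simp only [Finset.sum_const, Finset.card_univ, Fintype.card_fin, nsmul_eq_mul]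
    rw [mul_one_div_cancel hH0.ne']
  -- the functions of the cut norm
  set F : ℕ → (Fin k → ℕ) → ℝ := fun s y =>
    if h : (1 ≤ s ∧ s ≤ H) ∧ ∀ c, bL s c ≤ y c ∧ y c - bL s c < L + 2 then
      F1 ⟨s - 1, by omega⟩ (fun c => ⟨y c - bL s c, (h.2 c).2⟩) else 0 with hFdef
  set G : ℕ → ℕ → ℝ := fun t x =>
    if h : (1 ≤ t ∧ t ≤ H) ∧ bR t ≤ x ∧ x - bR t < L + 2 then
      G1 ⟨t - 1, by omega⟩ ⟨x - bR t, h.2.2⟩ else 0 with hGdef
  have hFb : ∀ s y, |F s y| ≤ 1 := by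
    intro s y
    simp only [hFdef]
    split_ifs
    · exact hF1b _ _
    · simp
  have hGb : ∀ t x, |G t x| ≤ 1 := by
    intro t x
    simp only [hGdef]
    split_ifs
    · exact hG1b _ _
    · simp
  have hFe : ∀ (s : Fin H) (y : Fin k → Fin (L + 2)),
      F ((s : ℕ) + 1) (fun c => (y c : ℕ) + bL ((s : ℕ) + 1) c) = F1 s y := by
    intro s y
    have h : (1 ≤ (s : ℕ) + 1 ∧ (s : ℕ) + 1 ≤ H) ∧ ∀ c, bL ((s : ℕ) + 1) c ≤ (y c : ℕ) + bL ((s : ℕ) + 1) c ∧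
        (y c : ℕ) + bL ((s : ℕ) + 1) c - bL ((s : ℕ) + 1) c < L + 2 := by
      refine ⟨⟨by omega, s.2⟩, fun c => ⟨Nat.le_add_left _ _, ?_⟩⟩
      rw [Nat.add_sub_cancel]
      exact (y c).2
    simp only [hFdef]
    rw [dif_pos h]
    congr 1
    funext c
    exact Fin.ext (Nat.add_sub_cancel _ _)
  have hGe : ∀ (t : Fin H) (x : Fin (L + 2)),
      G ((t : ℕ) + 1) ((x : ℕ) + bR ((t : ℕ) + 1)) = G1 t x := by
    intro t x
    have h : (1 ≤ (t : ℕ) + 1 ∧ (t : ℕ) + 1 ≤ H) ∧ bR ((t : ℕ) + 1) ≤ (x : ℕ) + bR ((t : ℕ) + 1) ∧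
        (x : ℕ) + bR ((t : ℕ) + 1) - bR ((t : ℕ) + 1) < L + 2 := by
      refine ⟨⟨by omega, t.2⟩, Nat.le_add_left _ _, ?_⟩
      rw [Nat.add_sub_cancel]
      exact x.2
    simp only [hGdef]
    rw [dif_pos h]
    congr 1
    exact Fin.ext (Nat.add_sub_cancel _ _)
  set Ψ : ℕ → ℕ → (Fin (k + 1) → ℕ) → ℝ := fun s t ℓ =>
    R s (fun c => ℓ c.castSucc) t (ℓ (Fin.last k)) * (F s (fun c => ℓ c.castSucc) * G t (ℓ (Fin.last k)))
    with hΨ
  have hΨb : ∀ s t ℓ, |Ψ s t ℓ| ≤ 1 := by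
    intro s t ℓ
    simp only [hΨ]
    rw [abs_mul, abs_mul]
    exact mul_le_one₀ (hR _ _ _ _) (by positivity) (mul_le_one₀ (hFb _ _) (abs_nonneg _) (hGb _ _))
  set w : ℕ → ℕ → Fin (k + 1) → ℕ := fun s t => Fin.snoc (α := fun _ => ℕ) (bL s) (bR t) with hw
  have hwB : ∀ s t c, w s t c ≤ B := by
    intro s t c
    simp only [hw]
    induction c using Fin.lastCases with
    | last => rw [Fin.snoc_last]; exact hbR t
    | cast c => rw [Fin.snoc_castSucc]; exact hbL s c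
  have hyb : ∀ s t, |EE (fun _ : Fin (k + 1) => sg P L) (fun y => Ψ s t (fun c => (y c : ℕ) + w s t c)) -
      Ep (k + 1) N (Ψ s t)| ≤ (k + 1 : ℕ) * τ := by
    intro s t
    have h := hybrid (k + 1) N L hN P hP hL B τ hτ (w s t) (hwB s t) 0 (Nat.zero_le _) (Ψ s t) (hΨb s t)
    simpa using h
  have hEE : ∀ s t : Fin H, EE (fun _ : Fin (k + 1) => sg P L)
      (fun y => Ψ ((s : ℕ) + 1) ((t : ℕ) + 1) (fun c => (y c : ℕ) + w ((s : ℕ) + 1) ((t : ℕ) + 1) c)) =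
      ∑ x, ∑ y : Fin k → Fin (L + 2), ((∏ c, sg P L (y c)) * sg P L x) *
        (R ((s : ℕ) + 1) (fun c => (y c : ℕ) + bL ((s : ℕ) + 1) c) ((t : ℕ) + 1)
          ((x : ℕ) + bR ((t : ℕ) + 1)) * (F1 s y * G1 t x)) := by
    intro s t
    rw [h7_snoc_sum]
    refine Finset.sum_congr rfl fun x _ => Finset.sum_congr rfl fun y _ => ?_
    congr 1
    simp only [hΨ, hw, Fin.snoc_castSucc, Fin.snoc_last]
    rw [hFe, hGe]
  -- the expectation over the window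
  have hmain : EE (fun (_ : Fin q) z => rhoA k H L P z) (fun z =>
      R (((z i).1 : ℕ) + 1) (fun c => ((z i).2.2 (some c) : ℕ) + bL (((z i).1 : ℕ) + 1) c)
        (((z j).2.1 : ℕ) + 1) (((z j).2.2 none : ℕ) + bR (((z j).2.1 : ℕ) + 1)) *
      (f i (z i) * f j (z j))) =
      (1 / (H : ℝ)) ^ 2 * ∑ s : Fin H, ∑ t : Fin H, EE (fun _ : Fin (k + 1) => sg P L)
      (fun y => Ψ ((s : ℕ) + 1) ((t : ℕ) + 1)
        (fun c => (y c : ℕ) + w ((s : ℕ) + 1) ((t : ℕ) + 1) c)) := by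
    have h1 := h7_two (V := Fin q) (rhoA k H L P) (h7_rho_sum k H L hH P) i j hij (fun z z' =>
      R ((z.1 : ℕ) + 1) (fun c => (z.2.2 (some c) : ℕ) + bL ((z.1 : ℕ) + 1) c)
        ((z'.2.1 : ℕ) + 1) ((z'.2.2 none : ℕ) + bR ((z'.2.1 : ℕ) + 1)) * (f i z * f j z'))
    refine h1.trans ?_
    obtain ⟨Θ, hΘ⟩ : ∃ Θ : Fin H → Fin (L + 2) → ℝ, ∀ t x, Θ t x =
      ∑ s : Fin H, ∑ y : Fin k → Fin (L + 2), (1 / (H : ℝ)) * (∏ c, sg P L (y c)) *
        (R ((s : ℕ) + 1) (fun c => (y c : ℕ) + bL ((s : ℕ) + 1) c) ((t : ℕ) + 1)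
          ((x : ℕ) + bR ((t : ℕ) + 1)) * F1 s y) := ⟨_, fun _ _ => rfl⟩
    have h2 : ∀ z' : Fin H × Fin H × (Option (Fin k) → Fin (L + 2)),
        ∑ z, rhoA k H L P z * (R ((z.1 : ℕ) + 1) (fun c => (z.2.2 (some c) : ℕ) + bL ((z.1 : ℕ) + 1) c)
        ((z'.2.1 : ℕ) + 1) ((z'.2.2 none : ℕ) + bR ((z'.2.1 : ℕ) + 1)) * (f i z * f j z')) =
        Θ z'.2.1 (z'.2.2 none) * f j z' := by
      intro z'
      have h3 := h7_L1 k H L P (fun s y => R ((s : ℕ) + 1) (fun c => (y c : ℕ) + bL ((s : ℕ) + 1) c)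
        ((z'.2.1 : ℕ) + 1) ((z'.2.2 none : ℕ) + bR ((z'.2.1 : ℕ) + 1))) (f i)
      simp only [← hF1] at h3
      rw [hΘ, ← h3, Finset.sum_mul]
      refine Finset.sum_congr rfl fun z _ => ?_
      ring
    rw [Finset.sum_congr rfl fun z' _ => congrArg (fun r => rhoA k H L P z' * r) (h2 z')]
    rw [h7_L2 k H L P Θ (f j)]
    simp only [← hG1]
    have h4 : ∀ t x, (1 / (H : ℝ)) * sg P L x * (Θ t x * G1 t x) = ∑ s : Fin H, ∑ y : Fin k → Fin (L + 2), (1 / (H : ℝ)) ^ 2 *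
        (((∏ c, sg P L (y c)) * sg P L x) *
        (R ((s : ℕ) + 1) (fun c => (y c : ℕ) + bL ((s : ℕ) + 1) c) ((t : ℕ) + 1)
          ((x : ℕ) + bR ((t : ℕ) + 1)) * (F1 s y * G1 t x))) := by
      intro t x
      rw [hΘ, Finset.sum_mul, Finset.mul_sum]
      refine Finset.sum_congr rfl fun s _ => ?_
      rw [Finset.sum_mul, Finset.mul_sum]
      refine Finset.sum_congr rfl fun y _ => ?_
      ring
    calc ∑ t, ∑ x, (1 / (H : ℝ)) * sg P L x * (Θ t x * G1 t x)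
        = ∑ t : Fin H, ∑ x : Fin (L + 2), ∑ s : Fin H, ∑ y : Fin k → Fin (L + 2), (1 / (H : ℝ)) ^ 2 * (((∏ c, sg P L (y c)) * sg P L x) *
        (R ((s : ℕ) + 1) (fun c => (y c : ℕ) + bL ((s : ℕ) + 1) c) ((t : ℕ) + 1)
          ((x : ℕ) + bR ((t : ℕ) + 1)) * (F1 s y * G1 t x))) :=
          Finset.sum_congr rfl fun t _ => Finset.sum_congr rfl fun x _ => h4 t x
      _ = ∑ t : Fin H, ∑ s : Fin H, ∑ x : Fin (L + 2), ∑ y : Fin k → Fin (L + 2), (1 / (H : ℝ)) ^ 2 * (((∏ c, sg P L (y c)) * sg P L x) *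
        (R ((s : ℕ) + 1) (fun c => (y c : ℕ) + bL ((s : ℕ) + 1) c) ((t : ℕ) + 1)
          ((x : ℕ) + bR ((t : ℕ) + 1)) * (F1 s y * G1 t x))) :=
          Finset.sum_congr rfl fun t _ => Finset.sum_comm
      _ = ∑ s : Fin H, ∑ t : Fin H, ∑ x : Fin (L + 2), ∑ y : Fin k → Fin (L + 2), (1 / (H : ℝ)) ^ 2 * (((∏ c, sg P L (y c)) * sg P L x) *
        (R ((s : ℕ) + 1) (fun c => (y c : ℕ) + bL ((s : ℕ) + 1) c) ((t : ℕ) + 1)
          ((x : ℕ) + bR ((t : ℕ) + 1)) * (F1 s y * G1 t x))) := Finset.sum_comm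
      _ = _ := by
        rw [Finset.mul_sum]
        refine Finset.sum_congr rfl fun s _ => ?_
        rw [Finset.mul_sum]
        refine Finset.sum_congr rfl fun t _ => ?_
        rw [hEE, Finset.mul_sum]
        refine Finset.sum_congr rfl fun x _ => ?_
        rw [Finset.mul_sum]
  rw [hmain]
  have hc := hcut F G hFb hGb
  have hc2 : 1 / (H : ℝ) ^ 2 * ∑ s ∈ Finset.Icc 1 H, ∑ t ∈ Finset.Icc 1 H, Ep (k + 1) N (Ψ s t) =
      (1 / (H : ℝ)) ^ 2 * ∑ s : Fin H, ∑ t : Fin H, Ep (k + 1) N (Ψ ((s : ℕ) + 1) ((t : ℕ) + 1)) := by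
    rw [one_div_pow]
    congr 1
    rw [← h7_fin H (fun s => ∑ t ∈ Finset.Icc 1 H, Ep (k + 1) N (Ψ s t))]
    refine Finset.sum_congr rfl fun s _ => ?_
    rw [← h7_fin H (fun t => Ep (k + 1) N (Ψ ((s : ℕ) + 1) t))]
  have hc3 : |(1 / (H : ℝ)) ^ 2 * ∑ s : Fin H, ∑ t : Fin H, Ep (k + 1) N (Ψ ((s : ℕ) + 1) ((t : ℕ) + 1))| ≤ δ := by
    rw [← hc2]
    exact hc
  have hd : |(1 / (H : ℝ)) ^ 2 * (∑ s : Fin H, ∑ t : Fin H, EE (fun _ : Fin (k + 1) => sg P L)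
      (fun y => Ψ ((s : ℕ) + 1) ((t : ℕ) + 1)
        (fun c => (y c : ℕ) + w ((s : ℕ) + 1) ((t : ℕ) + 1) c))) -
      (1 / (H : ℝ)) ^ 2 * ∑ s : Fin H, ∑ t : Fin H, Ep (k + 1) N (Ψ ((s : ℕ) + 1) ((t : ℕ) + 1))| ≤
      (k + 1 : ℕ) * τ := by
    rw [← mul_sub, ← Finset.sum_sub_distrib, abs_mul, abs_of_pos (by positivity : 0 < (1 / (H : ℝ)) ^ 2)]
    have h1 : |∑ s : Fin H, (∑ t : Fin H, EE (fun _ : Fin (k + 1) => sg P L)
      (fun y => Ψ ((s : ℕ) + 1) ((t : ℕ) + 1)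
        (fun c => (y c : ℕ) + w ((s : ℕ) + 1) ((t : ℕ) + 1) c)) -
      ∑ t : Fin H, Ep (k + 1) N (Ψ ((s : ℕ) + 1) ((t : ℕ) + 1)))| ≤ H * (H * ((k + 1 : ℕ) * τ)) := by
      refine (Finset.abs_sum_le_sum_abs _ _).trans ?_
      have h2 : ∀ s ∈ (Finset.univ : Finset (Fin H)), |∑ t : Fin H, EE (fun _ : Fin (k + 1) => sg P L)
        (fun y => Ψ ((s : ℕ) + 1) ((t : ℕ) + 1)
        (fun c => (y c : ℕ) + w ((s : ℕ) + 1) ((t : ℕ) + 1) c)) -
        ∑ t : Fin H, Ep (k + 1) N (Ψ ((s : ℕ) + 1) ((t : ℕ) + 1))| ≤ H * ((k + 1 : ℕ) * τ) := by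
        intro s _
        rw [← Finset.sum_sub_distrib]
        refine (Finset.abs_sum_le_sum_abs _ _).trans ?_
        refine (Finset.sum_le_card_nsmul _ _ _ fun t _ => hyb _ _).trans ?_
        rw [Finset.card_univ, Fintype.card_fin, nsmul_eq_mul]
      refine (Finset.sum_le_card_nsmul _ _ _ h2).trans ?_
      rw [Finset.card_univ, Fintype.card_fin, nsmul_eq_mul]
    calc (1 / (H : ℝ)) ^ 2 * _ ≤ (1 / (H : ℝ)) ^ 2 * (H * (H * ((k + 1 : ℕ) * τ))) :=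
          mul_le_mul_of_nonneg_left h1 (by positivity)
      _ = _ := by field_simp
  have h9 := abs_sub_abs_le_abs_sub ((1 / (H : ℝ)) ^ 2 * (∑ s : Fin H, ∑ t : Fin H,
      EE (fun _ : Fin (k + 1) => sg P L)
      (fun y => Ψ ((s : ℕ) + 1) ((t : ℕ) + 1)
        (fun c => (y c : ℕ) + w ((s : ℕ) + 1) ((t : ℕ) + 1) c))))
      ((1 / (H : ℝ)) ^ 2 * ∑ s : Fin H, ∑ t : Fin H, Ep (k + 1) N (Ψ ((s : ℕ) + 1) ((t : ℕ) + 1)))
  linarith

end AS
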