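import Mathlib
import Pool.Agent.Helper6.AS.S10b
import Pool.Agent.Helper11.QR.Tail

/-!
# AS-11: tail bound for the window sum in the model, random positions

PROOF.  By `EE_split` (`V = Fin q`, `A = B = Fin H`, `K = Option (Fin k)`, `α = β = 1/H`) the left side is
`EE (fun _ z => rhoA k H L P z)` of the indicator of the event
`∃ w ∈ Wn, T ≤ |∑_{e ∈ edg q} φ_w e z|`, where
`φ_w e z = R (σ_i + 1) (ℓ (i, some c) + sm h (a₀ + (σ_i + 1) + a c) + w (i, some c))
(θ_j + 1) (ℓ (j, none) + sm h (a₀ + (θ_j + 1)) + w (j, none))`, `e = (i, j)`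
(`(∏ v 1/H)^2 = 1/H^(2q)`; `pos` of `(i, some c)` is `σ i + a c`).
Union bound over `w ∈ Wn`, and for each `w` `tail` (Helper11/QR/Tail) with `s = edg q`,
`A e = {e.1, e.2}`: `|φ| ≤ 1`; `DepOn`; two different edges `i < j`, `i' < j'` share at most one
vertex; cut condition by `edgeCutA` with `bL s c = sm h (a₀ + s + a c) + w (i, some c)`,
`bR t = sm h (a₀ + t) + w (j, none)`, all `≤ h + S ≤ B` (`sm h x ≤ h`, `w v ≤ S`);
`∏_{v ∈ {i,j}} f v (z v) = f i (z i) * f j (z j)`.
-/

set_option autoImplicit false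

namespace AS

open Finset Helper13.Om Helper11.QR

private lemma s11_sm_le (h x : ℕ) : sm h x ≤ h := by
  unfold sm
  have h1 : ((Finset.range (h + 1)).filter (fun p => p.Prime ∧ p ∣ x)) ⊆ Finset.Icc 1 h := by
    intro p hp
    rw [Finset.mem_filter, Finset.mem_range] at hp
    rw [Finset.mem_Icc]
    exact ⟨hp.2.1.one_lt.le, by omega⟩
  have h2 := Finset.card_le_card h1
  rwa [Nat.card_Icc, Nat.add_sub_cancel] at h2

private lemma s11_inter {q : ℕ} (e e' : Fin q × Fin q) (he : e.1 < e.2) (he' : e'.1 < e'.2)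
    (hne : e ≠ e') :
    (({e.1, e.2} : Finset (Fin q)) ∩ {e'.1, e'.2}).card ≤ 1 := by
  rw [Finset.card_le_one]
  intro x hx y hy
  simp only [Finset.mem_inter, Finset.mem_insert, Finset.mem_singleton] at hx hy
  by_contra hxy
  apply hne
  obtain ⟨i, j⟩ := e
  obtain ⟨i', j'⟩ := e'
  simp only at he he' hx hy
  rcases hx with ⟨rfl | rfl, hx2 | hx2⟩ <;> rcases hy with ⟨rfl | rfl, hy2 | hy2⟩ <;>
    first
      | exact absurd rfl hxy
      | (subst hx2; exact absurd hy2.symm hxy)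
      | (subst hx2; subst hy2; rfl)
      | (subst hx2; subst hy2; exact absurd (he.trans he') (lt_irrefl _))

theorem tailA (k q H L N h a₀ S B : ℕ) (hH : 1 ≤ H) (hN : 1 ≤ N) (P : Finset ℕ)
    (hP : ∀ p ∈ P, p.Prime) (hL : P.card ≤ L + 1) (R : ℕ → (Fin k → ℕ) → ℕ → ℕ → ℝ)
    (hR : ∀ s y t x, |R s y t x| ≤ 1) (δ τ : ℝ) (hδ : 0 ≤ δ) (hτ0 : 0 ≤ τ) (hcut : CutA k N H δ R)
    (hτ : ∀ b ≤ B, ∀ b' ≤ B, ∀ a : ℕ → ℝ, (∀ t, |a t| ≤ 1) →
      |Es P (fun t => a (t + b)) -
        1 / (N : ℝ) * ∑ n ∈ Finset.Icc 1 N, a (ArithmeticFunction.cardFactors n + b')| ≤ τ)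
    (hB : h + S ≤ B) (a : Fin k → ℕ) (T x : ℝ) (hx : 0 ≤ x) :
    1 / (H : ℝ) ^ (2 * q) * ∑ σ : Fin q → Fin H, ∑ θ : Fin q → Fin H,
      EE (fun _ : Fin q × Option (Fin k) => sg P L) (fun ℓ =>
        if ∃ w ∈ Wn (Fin q × Option (Fin k)) S, T ≤
          |Zs R (fun i => (σ i : ℕ) + 1) (fun i => (θ i : ℕ) + 1)
            (fun v => (ℓ v : ℕ) + sm h (a₀ + pos a (fun i => (σ i : ℕ) + 1)
              (fun i => (θ i : ℕ) + 1) v) + w v)| then (1 : ℝ) else 0) ≤
      ((Wn (Fin q × Option (Fin k)) S).card : ℝ) * (2 * Real.exp (-(x * T)) *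
        (Real.exp (x ^ 2 / 2 * (edg q).card) +
          (edg q).card * (δ + (k + 1 : ℕ) * τ) * Real.exp (x * (edg q).card))) := by
  classical
  set ind : (Fin q → Fin H) → (Fin q → Fin H) → (Fin q × Option (Fin k) → Fin (L + 2)) →
      (Fin q × Option (Fin k) → ℕ) → ℝ := fun σ θ ℓ w =>
    if T ≤ |Zs R (fun i => (σ i : ℕ) + 1) (fun i => (θ i : ℕ) + 1)
      (fun v => (ℓ v : ℕ) + sm h (a₀ + pos a (fun i => (σ i : ℕ) + 1)
        (fun i => (θ i : ℕ) + 1) v) + w v)| then (1 : ℝ) else 0 with hind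
  set Φ : (Fin q → Fin H) → (Fin q → Fin H) → (Fin q × Option (Fin k) → Fin (L + 2)) → ℝ :=
    fun σ θ ℓ => if ∃ w ∈ Wn (Fin q × Option (Fin k)) S, T ≤
          |Zs R (fun i => (σ i : ℕ) + 1) (fun i => (θ i : ℕ) + 1)
            (fun v => (ℓ v : ℕ) + sm h (a₀ + pos a (fun i => (σ i : ℕ) + 1)
              (fun i => (θ i : ℕ) + 1) v) + w v)| then (1 : ℝ) else 0 with hΦ
  have hsplit := EE_split (V := Fin q) (K := Option (Fin k)) (fun _ : Fin H => 1 / (H : ℝ))
    (fun _ : Fin H => 1 / (H : ℝ)) (sg P L) Φ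
  have hlhs : 1 / (H : ℝ) ^ (2 * q) * ∑ σ : Fin q → Fin H, ∑ θ : Fin q → Fin H,
      EE (fun _ : Fin q × Option (Fin k) => sg P L) (fun ℓ => Φ σ θ ℓ) =
      EE (fun (_ : Fin q) z => rhoA k H L P z)
        (fun z => Φ (fun v => (z v).1) (fun v => (z v).2.1) (fun p => (z p.1).2.2 p.2)) := by
    have h1 : EE (fun (_ : Fin q) z => rhoA k H L P z)
        (fun z => Φ (fun v => (z v).1) (fun v => (z v).2.1) (fun p => (z p.1).2.2 p.2)) =
        EE (fun (_ : Fin q) (z : Fin H × Fin H × (Option (Fin k) → Fin (L + 2))) =>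
          (fun _ : Fin H => 1 / (H : ℝ)) z.1 * (fun _ : Fin H => 1 / (H : ℝ)) z.2.1 *
            ∏ κ, sg P L (z.2.2 κ))
        (fun z => Φ (fun v => (z v).1) (fun v => (z v).2.1) (fun p => (z p.1).2.2 p.2)) := rfl
    rw [h1, hsplit, Finset.mul_sum]
    refine Finset.sum_congr rfl fun σ _ => ?_
    rw [Finset.mul_sum]
    refine Finset.sum_congr rfl fun θ _ => ?_
    simp only [Finset.prod_const, Finset.card_univ, Fintype.card_fin]
    have h2 : (1 : ℝ) / (H : ℝ) ^ (2 * q) = (1 / (H : ℝ)) ^ q * (1 / (H : ℝ)) ^ q := by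
      rw [← pow_add, ← two_mul, div_pow, one_pow]
    rw [h2]
  have hgoal : 1 / (H : ℝ) ^ (2 * q) * ∑ σ : Fin q → Fin H, ∑ θ : Fin q → Fin H,
      EE (fun _ : Fin q × Option (Fin k) => sg P L) (fun ℓ => Φ σ θ ℓ) ≤
      ((Wn (Fin q × Option (Fin k)) S).card : ℝ) * (2 * Real.exp (-(x * T)) *
        (Real.exp (x ^ 2 / 2 * (edg q).card) +
          (edg q).card * (δ + (k + 1 : ℕ) * τ) * Real.exp (x * (edg q).card))) := by
    rw [hlhs]
    have hH0 : (0 : ℝ) < H := by exact_mod_cast hH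
    have h0 : ∀ (v : Fin q) z, 0 ≤ (fun (_ : Fin q) z => rhoA k H L P z) v z := by
      intro v z
      show 0 ≤ rhoA k H L P z
      unfold rhoA
      have := Finset.prod_nonneg (s := (Finset.univ : Finset (Option (Fin k))))
        (fun κ _ => sg_nonneg P hP L (z.2.2 κ))
      positivity
    have h1 : ∀ v : Fin q, ∑ z, (fun (_ : Fin q) z => rhoA k H L P z) v z = 1 := by
      intro v
      show ∑ z : Fin H × Fin H × (Option (Fin k) → Fin (L + 2)), rhoA k H L P z = 1
      unfold rhoA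
      rw [Fintype.sum_prod_type]
      simp only [Fintype.sum_prod_type]
      have h2 : ∑ y : Option (Fin k) → Fin (L + 2), ∏ κ, sg P L (y κ) = 1 := by
        rw [← Fintype.prod_sum (fun (_ : Option (Fin k)) t => sg P L t)]
        exact Finset.prod_eq_one fun _ _ => sg_sum P L
      simp only [← Finset.mul_sum, h2, mul_one, Finset.sum_const, Finset.card_univ,
        Fintype.card_fin, nsmul_eq_mul]
      field_simp
    have hpt : ∀ z : Fin q → Fin H × Fin H × (Option (Fin k) → Fin (L + 2)),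
        Φ (fun v => (z v).1) (fun v => (z v).2.1) (fun p => (z p.1).2.2 p.2) ≤
        ∑ w ∈ Wn (Fin q × Option (Fin k)) S,
          ind (fun v => (z v).1) (fun v => (z v).2.1) (fun p => (z p.1).2.2 p.2) w := by
      intro z
      have hnn : ∀ w ∈ Wn (Fin q × Option (Fin k)) S, (0 : ℝ) ≤
          ind (fun v => (z v).1) (fun v => (z v).2.1) (fun p => (z p.1).2.2 p.2) w := by
        intro w _
        rw [hind]
        simp only
        split_ifs <;> norm_num
      rw [hΦ]
      simp only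
      split_ifs with hex
      · obtain ⟨w, hw, hT⟩ := hex
        have := Finset.single_le_sum hnn hw
        refine le_trans ?_ this
        rw [hind]
        simp only
        rw [if_pos hT]
      · exact Finset.sum_nonneg hnn
    refine (EE_mono _ h0 _ _ hpt).trans ?_
    rw [EE_sum]
    refine (Finset.sum_le_card_nsmul _ _ _ ?_).trans (le_of_eq (nsmul_eq_mul _ _))
    intro w hw
    have hwB : ∀ v, w v ≤ S := by
      intro v
      unfold Wn at hw
      have h2 : w v ≤ ∑ v, w v :=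
        Finset.single_le_sum (fun _ _ => Nat.zero_le _) (Finset.mem_univ v)
      exact h2.trans (Finset.mem_filter.mp hw).2
    refine tail (fun (_ : Fin q) z => rhoA k H L P z) h0 h1 (edg q)
      (fun e => ({e.1, e.2} : Finset (Fin q)))
      (fun e z => R (((z e.1).1 : ℕ) + 1)
        (fun c => ((z e.1).2.2 (some c) : ℕ) +
          sm h (a₀ + (((z e.1).1 : ℕ) + 1 + a c)) + w (e.1, some c))
        (((z e.2).2.1 : ℕ) + 1)
        (((z e.2).2.2 none : ℕ) + sm h (a₀ + (((z e.2).2.1 : ℕ) + 1)) + w (e.2, none)))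
      (fun e _ z => hR _ _ _ _) ?_ ?_ (δ + (k + 1 : ℕ) * τ) (by positivity) ?_ x hx T
    · intro e _ z z' hzz
      have e1 : z e.1 = z' e.1 := hzz e.1 (by simp)
      have e2 : z e.2 = z' e.2 := hzz e.2 (by simp)
      simp only [e1, e2]
    · intro e he e' he' hne
      have h2 := (Finset.mem_filter.mp he).2
      have h3 := (Finset.mem_filter.mp he').2
      exact s11_inter e e' h2 h3 hne
    · intro e he f hf
      have h2 : e.1 < e.2 := (Finset.mem_filter.mp he).2
      have h3 := edgeCutA k q H L N B hH hN P hP hL R hR δ τ hcut hτ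
        (fun s c => sm h (a₀ + (s + a c)) + w (e.1, some c))
        (fun t => sm h (a₀ + t) + w (e.2, none))
        (fun s c => by
          have := s11_sm_le h (a₀ + (s + a c))
          have := hwB (e.1, some c)
          show sm h (a₀ + (s + a c)) + w (e.1, some c) ≤ B
          omega)
        (fun t => by
          have := s11_sm_le h (a₀ + t)
          have := hwB (e.2, none)
          show sm h (a₀ + t) + w (e.2, none) ≤ B
          omega)
        e.1 e.2 h2.ne f hf
      have h4 : (fun z : Fin q → Fin H × Fin H × (Option (Fin k) → Fin (L + 2)) =>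
          R (((z e.1).1 : ℕ) + 1)
          (fun c => ((z e.1).2.2 (some c) : ℕ) +
            sm h (a₀ + (((z e.1).1 : ℕ) + 1 + a c)) + w (e.1, some c))
          (((z e.2).2.1 : ℕ) + 1)
          (((z e.2).2.2 none : ℕ) + sm h (a₀ + (((z e.2).2.1 : ℕ) + 1)) + w (e.2, none)) *
          ∏ v ∈ ({e.1, e.2} : Finset (Fin q)), f v (z v)) =
          (fun z => R (((z e.1).1 : ℕ) + 1) (fun c => ((z e.1).2.2 (some c) : ℕ) +
            (fun s c => sm h (a₀ + (s + a c)) + w (e.1, some c)) (((z e.1).1 : ℕ) + 1) c)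
        (((z e.2).2.1 : ℕ) + 1) (((z e.2).2.2 none : ℕ) +
            (fun t => sm h (a₀ + t) + w (e.2, none)) (((z e.2).2.1 : ℕ) + 1)) *
          (f e.1 (z e.1) * f e.2 (z e.2))) := by
        funext z
        rw [Finset.prod_pair h2.ne]
        simp only [add_assoc]
      rw [h4]
      exact h3
  exact hgoal

end AS
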