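import Mathlib
import Pool.Agent.Helper6.AS.Defs
import Pool.Agent.Helper11.QR.WCount

/-!
# AS-12: choice of the parameters `q`, `u`, `K`

PROOF.  Without loss `ε₁ ≤ 1`.  `n = q (k + 1)`, `edg q` has `q (q-1) / 2` elements
(`Finset.card_filter` / symmetry, or `q (q-1)/2 ≥ q^2/4` for `q ≥ 2` is enough).
`u = ⌈2 CpN (n+1) / ε₁⌉ + 1`, `CpN (n+1) = 10^6 (n+2)^2`, `K = ⌈K0 0 u / ε₁⌉ + 1`,
`K0 0 u = 8 (Nat.log 2 (Nat.log 2 0 + 1) + Nat.log 2 u + 8) = 8 (Nat.log 2 u + 8)`, so `K ≤ C (1 + log q)`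
with `C` depending on `ε₁, k`.  `card (Wn ι (K n)) ≤ exp ((n + 1) (1 + log (K + 1)))` for
`n = card ι`: inject `Wn ι S` into `WW n S` (`Fin (n+1) → ℕ` with `w 0 = 0`) and use `wCount`
(Helper11/QR/WCount).  The exponent `(n+1)(1 + log (K+1)) ≤ C' q loglog q` is eventually smaller than
`ε₁^2 q^2 / 16`.
-/

set_option autoImplicit false

namespace AS

open Finset Helper13.Om Helper11.QR

private lemma h45_edg (q : ℕ) : q * q ≤ 2 * (edg q).card + q := by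
  have h1 : (Finset.univ : Finset (Fin q × Fin q)).card = q * q := by
    rw [Finset.card_univ, Fintype.card_prod, Fintype.card_fin]
  have h2 : ((Finset.univ : Finset (Fin q × Fin q)).filter (fun e => e.2 < e.1)).card ≤
      (edg q).card := by
    refine Finset.card_le_card_of_injOn Prod.swap (fun e he => ?_)
      (fun a _ b _ h => Prod.swap_injective h)
    unfold edg
    simp only [Finset.coe_filter, Finset.mem_univ, true_and, Set.mem_ofPred_eq] at he ⊢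
    exact he
  have h3 : ((Finset.univ : Finset (Fin q)).image fun i => (i, i)).card ≤ q := by
    refine Finset.card_image_le.trans ?_
    rw [Finset.card_univ, Fintype.card_fin]
  have h4 : (Finset.univ : Finset (Fin q × Fin q)) ⊆
      edg q ∪ ((Finset.univ : Finset (Fin q × Fin q)).filter (fun e => e.2 < e.1) ∪
        (Finset.univ : Finset (Fin q)).image fun i => (i, i)) := by
    rintro ⟨i, j⟩ _
    unfold edg
    simp only [Finset.mem_union, Finset.mem_filter, Finset.mem_univ, true_and, Finset.mem_image,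
      Prod.mk.injEq, exists_eq_left]
    rcases lt_trichotomy i j with h | h | h
    · exact Or.inl h
    · exact Or.inr (Or.inr h)
    · exact Or.inr (Or.inl h)
  have h5 := Finset.card_le_card h4
  have h6 := Finset.card_union_le (edg q)
    ((Finset.univ : Finset (Fin q × Fin q)).filter (fun e => e.2 < e.1) ∪
        (Finset.univ : Finset (Fin q)).image fun i => (i, i))
  have h7 := Finset.card_union_le
    ((Finset.univ : Finset (Fin q × Fin q)).filter (fun e => e.2 < e.1))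
    ((Finset.univ : Finset (Fin q)).image fun i => (i, i))
  omega

private lemma h45_Wn (ι : Type) [Fintype ι] [DecidableEq ι] (n : ℕ) (hn : Fintype.card ι = n)
    (S : ℕ) : (Wn ι S).card ≤ (WW n S).card := by
  have e : ι ≃ Fin n := Fintype.equivFinOfCardEq hn
  refine Finset.card_le_card_of_injOn (fun w => Fin.cons 0 (fun j => w (e.symm j)))
    (fun w hw => ?_) ?_
  · have hw' : w ∈ Wn ι S := hw
    unfold Wn at hw'
    rw [Finset.mem_filter] at hw'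
    refine Finset.mem_coe.2 ((mem_WW n S _).2 ?_)
    rw [Fin.sum_univ_succ]
    simp only [Fin.cons_zero, Fin.cons_succ, zero_add]
    rw [Equiv.sum_comp e.symm w]
    exact hw'.2
  · intro w _ w' _ h
    funext i
    have h1 := congrFun h (Fin.succ (e i))
    simp only [Fin.cons_succ, Equiv.symm_apply_apply] at h1
    exact h1

private lemma h45_fin (B L ε₁ s E l m : ℝ) (hs1 : 1 ≤ s) (hL0 : 0 ≤ L)
    (hsR : B + L ≤ ε₁ ^ 2 / 8 * s) (hedge : s ^ 4 / 4 ≤ E) (h5 : l - m ≤ L) :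
    B * s ^ 3 + l + -(ε₁ ^ 2 / 2 * E) ≤ m := by
  have hs0 : 0 ≤ s ^ 3 := by positivity
  have h2 : ε₁ ^ 2 / 2 * (s ^ 4 / 4) ≤ ε₁ ^ 2 / 2 * E :=
    mul_le_mul_of_nonneg_left hedge (by positivity)
  have h3 : (B + L) * s ^ 3 ≤ ε₁ ^ 2 / 8 * s * s ^ 3 :=
    mul_le_mul_of_nonneg_right hsR hs0
  have h4 : L ≤ L * s ^ 3 := le_mul_of_one_le_right hL0 (one_le_pow₀ hs1)
  have h6 : ε₁ ^ 2 / 8 * s * s ^ 3 = ε₁ ^ 2 / 2 * (s ^ 4 / 4) := by ring
  have h7 : (B + L) * s ^ 3 = B * s ^ 3 + L * s ^ 3 := by ring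
  linarith

private lemma h45_Cp (k q : ℕ) (hq1 : (1 : ℝ) ≤ q) :
    (CpN (q * (k + 1) + 1) : ℝ) ≤ 10 ^ 6 * ((k : ℝ) + 3) ^ 2 * (q : ℝ) ^ 2 := by
  have e0 : (CpN (q * (k + 1) + 1) : ℝ) = 10 ^ 6 * ((q : ℝ) * (k + 1) + 2) ^ 2 := by
    unfold CpN
    push_cast
    ring
  have e : (10 : ℝ) ^ 6 * ((k : ℝ) + 3) ^ 2 * (q : ℝ) ^ 2 = 10 ^ 6 * (((k : ℝ) + 3) * q) ^ 2 := by
    ring
  rw [e0, e]
  refine mul_le_mul_of_nonneg_left (pow_le_pow_left₀ (by positivity) ?_ 2) (by positivity)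
  linarith

theorem paramsA (k : ℕ) (ε₁ : ℝ) (hε : 0 < ε₁) : ∃ q u K : ℕ, 2 ≤ q ∧ 1 ≤ u ∧ 1 ≤ K ∧
    (K0 0 u : ℝ) / K ≤ ε₁ ∧ 2 * (CpN (q * (k + 1) + 1) : ℝ) / u ≤ ε₁ ∧
    ((Wn (Fin q × Option (Fin k)) (K * (q * (k + 1)))).card : ℝ) *
      (4 * Real.exp (-(ε₁ ^ 2 / 2 * (edg q).card))) ≤ ε₁ := by
  obtain ⟨U, hU⟩ : ∃ U : ℝ, U = 2 * 10 ^ 6 * ((k : ℝ) + 3) ^ 2 / ε₁ + 2 := ⟨_, rfl⟩
  have hU0 : 0 < U := by rw [hU]; positivity
  obtain ⟨A, hA⟩ : ∃ A : ℝ, A = 8 * (U + 8) / ε₁ + 3 := ⟨_, rfl⟩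
  have hA0 : 0 < A := by rw [hA]; positivity
  obtain ⟨B, hB⟩ : ∃ B : ℝ, B = ((k : ℝ) + 2) * (5 + |Real.log A|) := ⟨_, rfl⟩
  have hB0 : 0 ≤ B := by rw [hB]; positivity
  obtain ⟨L, hL⟩ : ∃ L : ℝ, L = Real.log 4 + |Real.log ε₁| := ⟨_, rfl⟩
  have hL0 : 0 ≤ L := by
    rw [hL]
    have : 0 ≤ Real.log 4 := Real.log_nonneg (by norm_num)
    positivity
  obtain ⟨s₀, hs₀⟩ := exists_nat_ge ((B + L) / (ε₁ ^ 2 / 8))
  obtain ⟨s, hs⟩ : ∃ s : ℕ, s = s₀ + 2 := ⟨_, rfl⟩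
  have hs2 : 2 ≤ s := by omega
  have hsR : (B + L) ≤ ε₁ ^ 2 / 8 * s := by
    have h1 : B + L ≤ s₀ * (ε₁ ^ 2 / 8) := (div_le_iff₀ (by positivity)).1 hs₀
    have h2 : (s₀ : ℝ) ≤ s := by
      rw [hs]
      push_cast
      linarith
    have h3 : (s₀ : ℝ) * (ε₁ ^ 2 / 8) ≤ s * (ε₁ ^ 2 / 8) :=
      mul_le_mul_of_nonneg_right h2 (by positivity)
    linarith
  have hs1 : (1 : ℝ) ≤ s := by
    have : (2 : ℝ) ≤ s := by exact_mod_cast hs2
    linarith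
  obtain ⟨q, hq⟩ : ∃ q : ℕ, q = s ^ 2 := ⟨_, rfl⟩
  have hq2 : 2 ≤ q := by
    rw [hq]
    nlinarith
  have hqs : (q : ℝ) = (s : ℝ) ^ 2 := by
    rw [hq]
    push_cast
    ring
  have hq1 : (1 : ℝ) ≤ q := by
    have : (2 : ℝ) ≤ q := by exact_mod_cast hq2
    linarith
  have hqq : (1 : ℝ) ≤ (q : ℝ) ^ 2 := by nlinarith
  obtain ⟨u, hu⟩ : ∃ u : ℕ, u = ⌈2 * (CpN (q * (k + 1) + 1) : ℝ) / ε₁⌉₊ + 1 := ⟨_, rfl⟩
  have hCp : (CpN (q * (k + 1) + 1) : ℝ) ≤ 10 ^ 6 * ((k : ℝ) + 3) ^ 2 * (q : ℝ) ^ 2 :=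
    h45_Cp k q hq1
  have hu1 : 2 * (CpN (q * (k + 1) + 1) : ℝ) / ε₁ ≤ u := by
    rw [hu]
    push_cast
    have := Nat.le_ceil (2 * (CpN (q * (k + 1) + 1) : ℝ) / ε₁)
    linarith
  have hu2 : (u : ℝ) ≤ U * (q : ℝ) ^ 2 := by
    have h1 : (⌈2 * (CpN (q * (k + 1) + 1) : ℝ) / ε₁⌉₊ : ℝ) <
        2 * (CpN (q * (k + 1) + 1) : ℝ) / ε₁ + 1 := Nat.ceil_lt_add_one (by positivity)
    have h2 : 2 * (CpN (q * (k + 1) + 1) : ℝ) / ε₁ ≤
        2 * 10 ^ 6 * ((k : ℝ) + 3) ^ 2 / ε₁ * (q : ℝ) ^ 2 := by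
      rw [div_mul_eq_mul_div]
      refine div_le_div_of_nonneg_right ?_ hε.le
      linarith
    rw [hu, hU]
    push_cast
    rw [add_mul]
    linarith
  obtain ⟨K, hK⟩ : ∃ K : ℕ, K = ⌈(K0 0 u : ℝ) / ε₁⌉₊ + 1 := ⟨_, rfl⟩
  have hK0 : (K0 0 u : ℝ) ≤ 8 * (u + 8) := by
    unfold K0
    have h1 : Nat.log 2 u ≤ u := Nat.log_le_self 2 u
    have h2 : Nat.log 2 (Nat.log 2 0 + 1) = 0 := by simp
    rw [h2]
    push_cast
    have h3 : (Nat.log 2 u : ℝ) ≤ u := by exact_mod_cast h1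
    linarith
  have hK1 : (K0 0 u : ℝ) / ε₁ ≤ K := by
    rw [hK]
    push_cast
    have := Nat.le_ceil ((K0 0 u : ℝ) / ε₁)
    linarith
  have hK2 : (K : ℝ) + 1 ≤ A * (q : ℝ) ^ 2 := by
    have h1 : (⌈(K0 0 u : ℝ) / ε₁⌉₊ : ℝ) < (K0 0 u : ℝ) / ε₁ + 1 :=
      Nat.ceil_lt_add_one (by positivity)
    have h2 : (K0 0 u : ℝ) / ε₁ ≤ 8 * (U + 8) / ε₁ * (q : ℝ) ^ 2 := by
      rw [div_mul_eq_mul_div]
      refine div_le_div_of_nonneg_right ?_ hε.le
      nlinarith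
    rw [hK, hA]
    push_cast
    rw [add_mul]
    linarith
  have hupos : 1 ≤ u := by omega
  have hKpos : 1 ≤ K := by omega
  have hu0 : (0 : ℝ) < u := by exact_mod_cast hupos
  have hKp0 : (0 : ℝ) < K := by exact_mod_cast hKpos
  refine ⟨q, u, K, hq2, hupos, hKpos, ?_, ?_, ?_⟩
  · rw [div_le_iff₀ hKp0]
    rw [div_le_iff₀ hε] at hK1
    linarith
  · rw [div_le_iff₀ hu0]
    rw [div_le_iff₀ hε] at hu1
    linarith
  · have hcard : Fintype.card (Fin q × Option (Fin k)) = q * (k + 1) := by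
      rw [Fintype.card_prod, Fintype.card_fin, Fintype.card_option, Fintype.card_fin]
    have h1 : ((Wn (Fin q × Option (Fin k)) (K * (q * (k + 1)))).card : ℝ) ≤
        Real.exp ((((q * (k + 1) : ℕ) : ℝ) + 1) * (1 + Real.log (K + 1))) := by
      refine le_trans ?_ (wCount (q * (k + 1)) K)
      exact_mod_cast h45_Wn _ _ hcard _
    have hlog : Real.log (K + 1) ≤ |Real.log A| + 4 * s := by
      have h2 : Real.log ((K : ℝ) + 1) ≤ Real.log (A * (q : ℝ) ^ 2) :=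
        Real.log_le_log (by positivity) hK2
      have h3 : Real.log (A * (q : ℝ) ^ 2) = Real.log A + 4 * Real.log s := by
        rw [Real.log_mul hA0.ne' (by positivity), hqs, ← pow_mul, Real.log_pow]
        push_cast
        ring
      have h4 : Real.log (s : ℝ) ≤ s := (Real.log_le_sub_one_of_pos (by positivity)).trans
        (by linarith)
      rw [h3] at h2
      linarith [le_abs_self (Real.log A)]
    have hexp : (((q * (k + 1) : ℕ) : ℝ) + 1) * (1 + Real.log (K + 1)) ≤ B * (s : ℝ) ^ 3 := by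
      have h2 : (((q * (k + 1) : ℕ) : ℝ) + 1) ≤ ((k : ℝ) + 2) * (s : ℝ) ^ 2 := by
        push_cast
        rw [hqs]
        nlinarith
      have h3 : 1 + Real.log (K + 1) ≤ (5 + |Real.log A|) * s := by
        have : |Real.log A| ≤ |Real.log A| * s := le_mul_of_one_le_right (abs_nonneg _) hs1
        nlinarith
      have h4 : 0 ≤ 1 + Real.log ((K : ℝ) + 1) := by
        have : 0 ≤ Real.log ((K : ℝ) + 1) := Real.log_nonneg (by linarith)
        linarith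
      calc (((q * (k + 1) : ℕ) : ℝ) + 1) * (1 + Real.log (K + 1)) ≤
            (((k : ℝ) + 2) * (s : ℝ) ^ 2) * ((5 + |Real.log A|) * s) :=
            mul_le_mul h2 h3 h4 (by positivity)
        _ = B * (s : ℝ) ^ 3 := by rw [hB]; ring
    have hedge : (s : ℝ) ^ 4 / 4 ≤ ((edg q).card : ℝ) := by
      have h2 := h45_edg q
      have h3 : (q : ℝ) * q ≤ 2 * ((edg q).card : ℝ) + q := by exact_mod_cast h2
      have h4 : (2 : ℝ) ≤ q := by exact_mod_cast hq2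
      have h5 : (s : ℝ) ^ 4 = (q : ℝ) * q := by rw [hqs]; ring
      have h6 : 2 * (q : ℝ) ≤ q * q := mul_le_mul_of_nonneg_right h4 (by linarith)
      rw [h5]
      linarith
    have hfin : B * (s : ℝ) ^ 3 + Real.log 4 + -(ε₁ ^ 2 / 2 * (edg q).card) ≤ Real.log ε₁ := by
      refine h45_fin B L ε₁ s _ _ _ hs1 hL0 hsR hedge ?_
      rw [hL]
      linarith [neg_abs_le (Real.log ε₁)]
    calc ((Wn (Fin q × Option (Fin k)) (K * (q * (k + 1)))).card : ℝ) *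
          (4 * Real.exp (-(ε₁ ^ 2 / 2 * (edg q).card))) ≤
          Real.exp (B * (s : ℝ) ^ 3) * (4 * Real.exp (-(ε₁ ^ 2 / 2 * (edg q).card))) :=
          mul_le_mul_of_nonneg_right (h1.trans (Real.exp_le_exp.2 hexp)) (by positivity)
      _ = Real.exp (B * (s : ℝ) ^ 3 + Real.log 4 + -(ε₁ ^ 2 / 2 * (edg q).card)) := by
          rw [Real.exp_add, Real.exp_add, Real.exp_log (by norm_num : (0 : ℝ) < 4)]
          ring
      _ ≤ Real.exp (Real.log ε₁) := Real.exp_le_exp.2 hfin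
      _ = ε₁ := Real.exp_log hε

end AS
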