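import Mathlib
import Pool.Agent.Helper6.AS.S04
import Pool.Agent.Helper6.AS.S11
import Pool.Agent.Helper6.AS.S12
import Pool.Agent.Helper11.QR.LawClose

/-!
# AS-13: cut small arrays are small on average

PROOF.  Without loss `ε ≤ 1`; `ε₁ = ε / 32`; `q, u, K` from `paramsA k ε₁`, `n = q (k + 1)`,
`M = (edg q).card ≥ 1`, `S = K n`, `T = ε₁ M`, `x = ε₁`.  `δ > 0` with
`2 M δ exp (ε₁ M) ≤ 1`; `H0 ≥ n^2 / ε₁`, `H0 ≥ 1`.
Given `H ≥ H0` let `D = 2 H`, `h` so large that `h ≥ D`, `h ≥ n + 2`, `4 (n+1)^2 / h ≤ ε₁`, `B = h + S`,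
`τ' = δ / (k + 1)`; `N ≥ N0`: `siteBound` (`ι = Fin q × Option (Fin k)`, card `n`), `lawClose h u 1 B τ'`
(`d = 1`), `N ≥ 1`.
(1) For `σ, θ : Fin q → Fin H` let `s i = σ i + 1`, `t i = θ i + 1`, `X m = cardFactors m`.  For every
edge `e = (i, j)`, `i < j`, the average over `(σ, θ)` of `(1/N) ∑_m R (s i) (X (m + (s i + a c))) (t j)
(X (m + t j))` is the quantity `A` in the claim (only `σ i` and `θ j` occur).  So
`M * A = (1/H^(2q)) ∑_{σ,θ} (1/N) ∑_m Zs R s t (fun v => X (m + pos a s t v))`.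
(2) `|Zs| ≤ M`, so `|Zs| ≤ T + M 1[T ≤ |Zs|]`, hence `|A| ≤ ε₁ + (1/H^(2q)) ∑_{σ,θ} prob_m (T ≤ |Zs|)`.
(3) If `pos a s t` is not injective then for some sites `v ≠ v'` `pos v = pos v'`; for fixed
`v ≠ v'` this has probability `≤ 1/H` over `(σ, θ)` (if both are left sites of the same vertex it never
happens since `a` is injective; otherwise one of the free positions is determined by the others).
So the exceptional `(σ, θ)` have density `≤ n^2 / H ≤ ε₁`.
(4) For injective `pos a s t` (`≤ 2 H = D`): `siteBound` with `G ℓ = 1[T ≤ |Zs R s t ℓ|]`,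
`Gm ℓ = 1[∃ w ∈ Wn S, T ≤ |Zs R s t (ℓ + w)|]`:
`prob_m ≤ (1/h!) ∑_{a₀ < h!} EE (Gm (ℓ + sm h (a₀ + pos ..))) + 3 ε₁`.
(5) Sum over ALL `(σ, θ)` (nonnegative terms) and `tailA` for each `a₀`:
average `≤ card Wn * (2 exp(-ε₁² M) (exp(ε₁² M / 2) + M (2 δ) exp(ε₁ M))) ≤ card Wn * 4 exp(-ε₁² M/2) ≤ ε₁`
(`exp(-ε₁² M) ≤ exp (-ε₁² M / 2)`).  Total: `|A| ≤ ε₁ + ε₁ + 3 ε₁ + ε₁ ≤ ε`.
-/

set_option autoImplicit false

namespace AS

open Finset Helper13.Om Helper11.QR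

private lemma s13_card {V : Type} [Fintype V] [DecidableEq V] (x : V) :
    Fintype.card {j // j ≠ x} = Fintype.card V - 1 := by
  rw [Fintype.card_subtype_compl, Fintype.card_subtype_eq]

private lemma s13_marg1 {V : Type} [Fintype V] [DecidableEq V] (H : ℕ) (x : V)
    (ψ : Fin H → ℝ) :
    ∑ z : V → Fin H, ψ (z x) = (H : ℝ) ^ (Fintype.card V - 1) * ∑ s, ψ s := by
  rw [← (Equiv.funSplitAt x (Fin H)).symm.sum_comp]
  have h1 : ∀ p : Fin H × ({j // j ≠ x} → Fin H),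
      ((Equiv.funSplitAt x (Fin H)).symm p) x = p.1 := by
    intro p
    simp [Equiv.funSplitAt]
  simp only [h1]
  rw [Fintype.sum_prod_type]
  simp only [Finset.sum_const, Finset.card_univ, nsmul_eq_mul]
  rw [← Finset.mul_sum]
  congr 1
  rw [Fintype.card_fun, Fintype.card_fin, s13_card]
  push_cast
  rfl

private lemma s13_marg2 {V : Type} [Fintype V] [DecidableEq V] (H : ℕ) (x x' : V) (hx : x ≠ x')
    (Φ : Fin H → Fin H → ℝ) :
    ∑ z : V → Fin H, Φ (z x) (z x') =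
      (H : ℝ) ^ (Fintype.card V - 2) * ∑ s, ∑ t, Φ s t := by
  rw [← (Equiv.funSplitAt x (Fin H)).symm.sum_comp]
  have h1 : ∀ p : Fin H × ({j // j ≠ x} → Fin H),
      ((Equiv.funSplitAt x (Fin H)).symm p) x = p.1 := by
    intro p
    simp [Equiv.funSplitAt]
  have h2 : ∀ p : Fin H × ({j // j ≠ x} → Fin H),
      ((Equiv.funSplitAt x (Fin H)).symm p) x' = p.2 ⟨x', hx.symm⟩ := by
    intro p
    simp [Equiv.funSplitAt, hx.symm]
  simp only [h1, h2]
  rw [Fintype.sum_prod_type]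
  simp only
  rw [Finset.sum_congr rfl fun s _ => s13_marg1 H (⟨x', hx.symm⟩ : {j // j ≠ x}) (Φ s)]
  rw [← Finset.mul_sum, s13_card]
  rfl

private lemma s13_avg2 (H q : ℕ) (hH : 1 ≤ H) (x x' : Fin q ⊕ Fin q) (hx : x ≠ x')
    (Φ : Fin H → Fin H → ℝ) :
    1 / (H : ℝ) ^ (2 * q) * ∑ z : Fin q ⊕ Fin q → Fin H, Φ (z x) (z x') =
      1 / (H : ℝ) ^ 2 * ∑ s, ∑ t, Φ s t := by
  rw [s13_marg2 H x x' hx Φ]
  have h1 : Fintype.card (Fin q ⊕ Fin q) = 2 * q := by
    simp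
    ring
  have h2 : 1 < Fintype.card (Fin q ⊕ Fin q) := Fintype.one_lt_card_iff.2 ⟨x, x', hx⟩
  rw [h1] at h2 ⊢
  have h3 : (H : ℝ) ^ (2 * q) = (H : ℝ) ^ (2 * q - 2) * (H : ℝ) ^ 2 := by
    rw [← pow_add]
    congr 1
    omega
  have h4 : (0 : ℝ) < H := by exact_mod_cast hH
  rw [h3]
  field_simp

private lemma s13_coll (H q : ℕ) (hH : 1 ≤ H) (x x' : Fin q ⊕ Fin q) (hx : x ≠ x')
    (b b' : ℕ) :
    1 / (H : ℝ) ^ (2 * q) * ∑ z : Fin q ⊕ Fin q → Fin H,
      (if (z x : ℕ) + 1 + b = (z x' : ℕ) + 1 + b' then (1 : ℝ) else 0) ≤ 1 / H := by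
  have h4 : (0 : ℝ) < H := by exact_mod_cast hH
  rw [s13_avg2 H q hH x x' hx
    (fun s t => if (s : ℕ) + 1 + b = (t : ℕ) + 1 + b' then (1 : ℝ) else 0)]
  have h1 : ∀ s : Fin H, ∑ t : Fin H,
      (if (s : ℕ) + 1 + b = (t : ℕ) + 1 + b' then (1 : ℝ) else 0) ≤ 1 := by
    intro s
    rw [Finset.sum_boole]
    have h2 : (Finset.univ.filter fun t : Fin H =>
        (s : ℕ) + 1 + b = (t : ℕ) + 1 + b').card ≤ 1 := by
      rw [Finset.card_le_one]
      intro t ht t' ht'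
      rw [Finset.mem_filter] at ht ht'
      apply Fin.ext
      omega
    exact_mod_cast h2
  have h2 : ∑ s : Fin H, ∑ t : Fin H,
      (if (s : ℕ) + 1 + b = (t : ℕ) + 1 + b' then (1 : ℝ) else 0) ≤ H := by
    refine (Finset.sum_le_sum fun s _ => h1 s).trans ?_
    simp
  calc 1 / (H : ℝ) ^ 2 * ∑ s : Fin H, ∑ t : Fin H,
      (if (s : ℕ) + 1 + b = (t : ℕ) + 1 + b' then (1 : ℝ) else 0) ≤ 1 / (H : ℝ) ^ 2 * H :=
        mul_le_mul_of_nonneg_left h2 (by positivity)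
    _ = 1 / H := by field_simp

private lemma s13_pair (H q : ℕ) (F : (Fin q → Fin H) → (Fin q → Fin H) → ℝ) :
    ∑ σ : Fin q → Fin H, ∑ θ : Fin q → Fin H, F σ θ =
      ∑ z : Fin q ⊕ Fin q → Fin H, F (fun i => z (Sum.inl i)) (fun i => z (Sum.inr i)) := by
  rw [← Fintype.sum_prod_type', ← (Equiv.sumArrowEquivProdArrow (Fin q) (Fin q) (Fin H)).sum_comp]
  rfl

private lemma s13_icc (H : ℕ) (f : ℕ → ℝ) :
    ∑ s ∈ Finset.Icc 1 H, f s = ∑ s : Fin H, f ((s : ℕ) + 1) := by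
  rw [← Finset.sum_range (fun s => f (s + 1))]
  rw [Finset.range_eq_Ico, Finset.sum_Ico_add' (fun s => f s) 0 H 1]
  rfl

/-- the coordinate of a site -/
private def sx {q k : ℕ} (v : Fin q × Option (Fin k)) : Fin q ⊕ Fin q :=
  v.2.elim (Sum.inr v.1) (fun _ => Sum.inl v.1)

/-- the shift of a site -/
private def sb {q k : ℕ} (a : Fin k → ℕ) (v : Fin q × Option (Fin k)) : ℕ :=
  v.2.elim 0 a

private lemma s13_pos {q k H : ℕ} (a : Fin k → ℕ) (z : Fin q ⊕ Fin q → Fin H)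
    (v : Fin q × Option (Fin k)) :
    pos a (fun i => (z (Sum.inl i) : ℕ) + 1) (fun i => (z (Sum.inr i) : ℕ) + 1) v =
      (z (sx v) : ℕ) + 1 + sb a v := by
  obtain ⟨i, c⟩ := v
  cases c with
  | none => rfl
  | some c => rfl

private lemma s13_noninj (H q k : ℕ) (hH : 1 ≤ H) (a : Fin k → ℕ) (ha : Function.Injective a) :
    1 / (H : ℝ) ^ (2 * q) * ∑ z : Fin q ⊕ Fin q → Fin H,
      (if Function.Injective (pos a (fun i => (z (Sum.inl i) : ℕ) + 1)
        (fun i => (z (Sum.inr i) : ℕ) + 1)) then (0 : ℝ) else 1) ≤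
      ((q * (k + 1) : ℕ) : ℝ) ^ 2 / H := by
  classical
  have hHr : (0 : ℝ) < H := by exact_mod_cast hH
  have h1 : ∀ z : Fin q ⊕ Fin q → Fin H,
      (if Function.Injective (pos a (fun i => (z (Sum.inl i) : ℕ) + 1)
        (fun i => (z (Sum.inr i) : ℕ) + 1)) then (0 : ℝ) else 1) ≤
      ∑ v : Fin q × Option (Fin k), ∑ v' : Fin q × Option (Fin k),
        (if v ≠ v' ∧ (z (sx v) : ℕ) + 1 + sb a v = (z (sx v') : ℕ) + 1 + sb a v'
          then (1 : ℝ) else 0) := by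
    intro z
    split_ifs with hinj
    · exact Finset.sum_nonneg fun v _ => Finset.sum_nonneg fun v' _ => by
        split_ifs <;> norm_num
    · rw [Function.Injective] at hinj
      push Not at hinj
      obtain ⟨v, v', h2, h3⟩ := hinj
      rw [s13_pos, s13_pos] at h2
      have h4 : (1 : ℝ) = (if v ≠ v' ∧ (z (sx v) : ℕ) + 1 + sb a v =
          (z (sx v') : ℕ) + 1 + sb a v' then (1 : ℝ) else 0) := by
        rw [if_pos ⟨h3, h2⟩]
      have h5 := Finset.single_le_sum (s := Finset.univ) (f := fun v' : Fin q × Option (Fin k) =>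
        (if v ≠ v' ∧ (z (sx v) : ℕ) + 1 + sb a v = (z (sx v') : ℕ) + 1 + sb a v'
          then (1 : ℝ) else 0)) (fun v' _ => by split_ifs <;> norm_num) (Finset.mem_univ v')
      have h6 := Finset.single_le_sum (s := Finset.univ) (f := fun v : Fin q × Option (Fin k) =>
        ∑ v' : Fin q × Option (Fin k),
        (if v ≠ v' ∧ (z (sx v) : ℕ) + 1 + sb a v = (z (sx v') : ℕ) + 1 + sb a v'
          then (1 : ℝ) else 0)) (fun v _ => Finset.sum_nonneg fun v' _ => by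
            split_ifs <;> norm_num) (Finset.mem_univ v)
      exact h4.le.trans (h5.trans h6)
  have h2 : ∀ v v' : Fin q × Option (Fin k), 1 / (H : ℝ) ^ (2 * q) *
      ∑ z : Fin q ⊕ Fin q → Fin H,
        (if v ≠ v' ∧ (z (sx v) : ℕ) + 1 + sb a v = (z (sx v') : ℕ) + 1 + sb a v'
          then (1 : ℝ) else 0) ≤ 1 / H := by
    intro v v'
    by_cases hv : v = v'
    · have h3 : ∀ z : Fin q ⊕ Fin q → Fin H,
          (if v ≠ v' ∧ (z (sx v) : ℕ) + 1 + sb a v = (z (sx v') : ℕ) + 1 + sb a v'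
          then (1 : ℝ) else 0) = 0 := fun z => if_neg fun h => h.1 hv
      simp only [h3, Finset.sum_const_zero, mul_zero]
      positivity
    by_cases hs : sx v = sx v'
    · have h3 : ∀ z : Fin q ⊕ Fin q → Fin H,
          (if v ≠ v' ∧ (z (sx v) : ℕ) + 1 + sb a v = (z (sx v') : ℕ) + 1 + sb a v'
          then (1 : ℝ) else 0) = 0 := by
        intro z
        refine if_neg fun h => ?_
        rw [hs] at h
        have h4 : sb a v = sb a v' := by omega
        obtain ⟨i, c⟩ := v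
        obtain ⟨i', c'⟩ := v'
        cases c with
        | none =>
          cases c' with
          | none =>
            have h5 : i = i' := Sum.inr_injective hs
            exact hv (by rw [h5])
          | some c' => exact absurd hs (by simp [sx])
        | some c =>
          cases c' with
          | none => exact absurd hs (by simp [sx])
          | some c' =>
            have h5 : i = i' := Sum.inl_injective hs
            have h6 : c = c' := ha h4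
            exact hv (by rw [h5, h6])
      simp only [h3, Finset.sum_const_zero, mul_zero]
      positivity
    · refine le_trans ?_ (s13_coll H q hH (sx v) (sx v') hs (sb a v) (sb a v'))
      refine mul_le_mul_of_nonneg_left (Finset.sum_le_sum fun z _ => ?_) (by positivity)
      split_ifs with h3 h4 h4
      · exact le_rfl
      · exact absurd h3.2 h4
      · exact zero_le_one
      · exact le_rfl
  have h3 : 1 / (H : ℝ) ^ (2 * q) * ∑ z : Fin q ⊕ Fin q → Fin H,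
      ∑ v : Fin q × Option (Fin k), ∑ v' : Fin q × Option (Fin k),
        (if v ≠ v' ∧ (z (sx v) : ℕ) + 1 + sb a v = (z (sx v') : ℕ) + 1 + sb a v'
          then (1 : ℝ) else 0) = ∑ v : Fin q × Option (Fin k), ∑ v' : Fin q × Option (Fin k),
        1 / (H : ℝ) ^ (2 * q) * ∑ z : Fin q ⊕ Fin q → Fin H,
        (if v ≠ v' ∧ (z (sx v) : ℕ) + 1 + sb a v = (z (sx v') : ℕ) + 1 + sb a v'
          then (1 : ℝ) else 0) := by
    rw [Finset.sum_comm, Finset.mul_sum]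
    refine Finset.sum_congr rfl fun v _ => ?_
    rw [Finset.sum_comm, Finset.mul_sum]
  refine (mul_le_mul_of_nonneg_left (Finset.sum_le_sum fun z _ => h1 z)
    (by positivity)).trans ?_
  rw [h3]
  refine (Finset.sum_le_sum fun v _ => Finset.sum_le_sum fun v' _ => h2 v v').trans
    (le_of_eq ?_)
  simp only [Finset.sum_const, Finset.card_univ, Fintype.card_prod, Fintype.card_fin,
    Fintype.card_option, nsmul_eq_mul]
  push_cast
  ring

private lemma s13_zs {k q : ℕ} (R : ℕ → (Fin k → ℕ) → ℕ → ℕ → ℝ)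
    (hR : ∀ s y t x, |R s y t x| ≤ 1) (s t : Fin q → ℕ) (ℓ : Fin q × Option (Fin k) → ℕ) :
    |Zs R s t ℓ| ≤ (edg q).card := by
  unfold Zs
  refine (Finset.abs_sum_le_sum_abs _ _).trans ?_
  refine (Finset.sum_le_sum fun e _ => hR _ _ _ _).trans (le_of_eq ?_)
  simp

/-- the probability that the window sum is large -/
private noncomputable def prb (k q N : ℕ) (a : Fin k → ℕ) (R : ℕ → (Fin k → ℕ) → ℕ → ℕ → ℝ)
    (T : ℝ) (s t : Fin q → ℕ) : ℝ :=
  1 / (N : ℝ) * ∑ m ∈ Finset.Icc 1 N,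
    (fun ℓ : Fin q × Option (Fin k) → ℕ => if T ≤ |Zs R s t ℓ| then (1 : ℝ) else 0)
      (fun v => ArithmeticFunction.cardFactors (m + pos a s t v))

private lemma s13_prb_le {k q N : ℕ} (hN : 1 ≤ N) (a : Fin k → ℕ)
    (R : ℕ → (Fin k → ℕ) → ℕ → ℕ → ℝ) (T : ℝ) (s t : Fin q → ℕ) :
    prb k q N a R T s t ≤ 1 := by
  have hNr : (0 : ℝ) < N := by exact_mod_cast hN
  unfold prb
  have h1 : ∑ m ∈ Finset.Icc 1 N,
      (fun ℓ : Fin q × Option (Fin k) → ℕ => if T ≤ |Zs R s t ℓ| then (1 : ℝ) else 0)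
      (fun v => ArithmeticFunction.cardFactors (m + pos a s t v)) ≤ N := by
    refine (Finset.sum_le_sum (g := fun _ => (1 : ℝ)) fun m _ => ?_).trans (le_of_eq ?_)
    · simp only
      split_ifs <;> norm_num
    · simp
  calc 1 / (N : ℝ) * _ ≤ 1 / (N : ℝ) * N := mul_le_mul_of_nonneg_left h1 (by positivity)
    _ = 1 := by field_simp

private lemma s13_mean {k q N : ℕ} (hN : 1 ≤ N) (a : Fin k → ℕ)
    (R : ℕ → (Fin k → ℕ) → ℕ → ℕ → ℝ) (hR : ∀ s y t x, |R s y t x| ≤ 1) (T : ℝ) (hT : 0 ≤ T)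
    (s t : Fin q → ℕ) :
    |1 / (N : ℝ) * ∑ m ∈ Finset.Icc 1 N,
      Zs R s t (fun v => ArithmeticFunction.cardFactors (m + pos a s t v))| ≤
      T + (edg q).card * prb k q N a R T s t := by
  have hNr : (0 : ℝ) < N := by exact_mod_cast hN
  unfold prb
  rw [abs_mul, abs_of_nonneg (by positivity : (0 : ℝ) ≤ 1 / (N : ℝ))]
  have h1 : |∑ m ∈ Finset.Icc 1 N,
      Zs R s t (fun v => ArithmeticFunction.cardFactors (m + pos a s t v))| ≤
      ∑ m ∈ Finset.Icc 1 N, (T + (edg q).card *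
      (fun ℓ : Fin q × Option (Fin k) → ℕ => if T ≤ |Zs R s t ℓ| then (1 : ℝ) else 0)
      (fun v => ArithmeticFunction.cardFactors (m + pos a s t v))) := by
    refine (Finset.abs_sum_le_sum_abs _ _).trans (Finset.sum_le_sum fun m _ => ?_)
    simp only
    split_ifs with h2
    · rw [mul_one]
      exact (s13_zs R hR s t _).trans (by linarith)
    · rw [mul_zero, add_zero]
      exact (not_le.1 h2).le
  refine (mul_le_mul_of_nonneg_left h1 (by positivity)).trans (le_of_eq ?_)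
  rw [Finset.sum_add_distrib, ← Finset.mul_sum, Finset.sum_const, Nat.card_Icc,
    Nat.add_sub_cancel, nsmul_eq_mul]
  field_simp

private lemma s13_avg {k q N H : ℕ} (hH : 1 ≤ H) (a : Fin k → ℕ)
    (R : ℕ → (Fin k → ℕ) → ℕ → ℕ → ℝ) :
    1 / (H : ℝ) ^ (2 * q) * ∑ z : Fin q ⊕ Fin q → Fin H, (1 / (N : ℝ) * ∑ m ∈ Finset.Icc 1 N,
      Zs R (fun i => (z (Sum.inl i) : ℕ) + 1) (fun i => (z (Sum.inr i) : ℕ) + 1)
        (fun v => ArithmeticFunction.cardFactors (m + pos a (fun i => (z (Sum.inl i) : ℕ) + 1)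
          (fun i => (z (Sum.inr i) : ℕ) + 1) v))) =
      ((edg q).card : ℝ) * (1 / (H : ℝ) ^ 2 * ∑ s ∈ Finset.Icc 1 H, ∑ t ∈ Finset.Icc 1 H,
        1 / (N : ℝ) * ∑ m ∈ Finset.Icc 1 N,
          R s (fun c => ArithmeticFunction.cardFactors (m + (s + a c))) t
            (ArithmeticFunction.cardFactors (m + t))) := by
  obtain ⟨Φ, hΦ⟩ : ∃ Φ : ℕ → ℕ → ℝ, Φ = fun s t => 1 / (N : ℝ) * ∑ m ∈ Finset.Icc 1 N,
          R s (fun c => ArithmeticFunction.cardFactors (m + (s + a c))) t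
            (ArithmeticFunction.cardFactors (m + t)) := ⟨_, rfl⟩
  have h1 : ∀ z : Fin q ⊕ Fin q → Fin H, 1 / (N : ℝ) * ∑ m ∈ Finset.Icc 1 N,
      Zs R (fun i => (z (Sum.inl i) : ℕ) + 1) (fun i => (z (Sum.inr i) : ℕ) + 1)
        (fun v => ArithmeticFunction.cardFactors (m + pos a (fun i => (z (Sum.inl i) : ℕ) + 1)
          (fun i => (z (Sum.inr i) : ℕ) + 1) v)) =
      ∑ e ∈ edg q, Φ ((z (Sum.inl e.1) : ℕ) + 1) ((z (Sum.inr e.2) : ℕ) + 1) := by
    intro z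
    unfold Zs
    rw [Finset.sum_comm, Finset.mul_sum, hΦ]
    rfl
  have h2 : 1 / (H : ℝ) ^ 2 * ∑ s ∈ Finset.Icc 1 H, ∑ t ∈ Finset.Icc 1 H,
        1 / (N : ℝ) * ∑ m ∈ Finset.Icc 1 N,
          R s (fun c => ArithmeticFunction.cardFactors (m + (s + a c))) t
            (ArithmeticFunction.cardFactors (m + t)) =
      1 / (H : ℝ) ^ 2 * ∑ s : Fin H, ∑ t : Fin H, Φ ((s : ℕ) + 1) ((t : ℕ) + 1) := by
    rw [s13_icc]
    congr 1
    refine Finset.sum_congr rfl fun s _ => ?_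
    rw [s13_icc, hΦ]
  rw [h2]
  simp only [h1]
  rw [Finset.sum_comm, Finset.mul_sum, ← nsmul_eq_mul, ← Finset.sum_const]
  refine Finset.sum_congr rfl fun e _ => ?_
  exact s13_avg2 H q hH (Sum.inl e.1) (Sum.inr e.2) (by simp)
    (fun s t => Φ ((s : ℕ) + 1) ((t : ℕ) + 1))

/-- the model majorant -/
private noncomputable def mdl (k q N h u L S : ℕ) (a : Fin k → ℕ)
    (R : ℕ → (Fin k → ℕ) → ℕ → ℕ → ℝ) (T : ℝ) (a₀ : ℕ) (s t : Fin q → ℕ) : ℝ :=
  EE (fun _ : Fin q × Option (Fin k) => sg (PP h (Nat.log 2 N / u)) L) (fun ℓ =>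
    if ∃ w ∈ Wn (Fin q × Option (Fin k)) S, T ≤
      |Zs R s t (fun v => (ℓ v : ℕ) + sm h (a₀ + pos a s t v) + w v)| then (1 : ℝ) else 0)

private lemma mdl_nonneg (k q N h u L S : ℕ) (a : Fin k → ℕ)
    (R : ℕ → (Fin k → ℕ) → ℕ → ℕ → ℝ) (T : ℝ) (a₀ : ℕ) (s t : Fin q → ℕ) :
    0 ≤ mdl k q N h u L S a R T a₀ s t := by
  unfold mdl EE
  refine Finset.sum_nonneg fun y _ => mul_nonneg (Finset.prod_nonneg fun v _ => ?_) ?_
  · exact sg_nonneg _ (fun p hp => ((mem_PP _ _ _).1 hp).2.1) L _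
  · beta_reduce
    split_ifs <;> norm_num

theorem cutSmall (k : ℕ) (ε : ℝ) (hε : 0 < ε) : ∃ δ : ℝ, 0 < δ ∧ ∃ H0 : ℕ, ∀ H : ℕ, H0 ≤ H →
    ∃ N0 : ℕ, ∀ N : ℕ, N0 ≤ N → ∀ a : Fin k → ℕ, Function.Injective a → (∀ c, a c ≤ H) →
    ∀ R : ℕ → (Fin k → ℕ) → ℕ → ℕ → ℝ, (∀ s y t x, |R s y t x| ≤ 1) → CutA k N H δ R →
      |1 / (H : ℝ) ^ 2 * ∑ s ∈ Finset.Icc 1 H, ∑ t ∈ Finset.Icc 1 H,
        1 / (N : ℝ) * ∑ m ∈ Finset.Icc 1 N,
          R s (fun c => ArithmeticFunction.cardFactors (m + (s + a c))) t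
            (ArithmeticFunction.cardFactors (m + t))| ≤ ε := by
  classical
  obtain ⟨ε₁, hε₁⟩ : ∃ ε₁ : ℝ, ε₁ = ε / 32 := ⟨_, rfl⟩
  have hε₁0 : 0 < ε₁ := by rw [hε₁]; positivity
  obtain ⟨q, u, K, hq, hu, hK, hp1, hp2, hp3⟩ := paramsA k ε₁ hε₁0
  obtain ⟨M, hM⟩ : ∃ M : ℕ, M = (edg q).card := ⟨_, rfl⟩
  have hM1 : 1 ≤ M := by
    rw [hM, Nat.one_le_iff_ne_zero, Finset.card_ne_zero]
    refine ⟨(⟨0, by omega⟩, ⟨1, by omega⟩), ?_⟩
    unfold edg
    simp
  have hMr : (1 : ℝ) ≤ M := by exact_mod_cast hM1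
  obtain ⟨n, hn⟩ : ∃ n : ℕ, n = q * (k + 1) := ⟨_, rfl⟩
  have hcard : Fintype.card (Fin q × Option (Fin k)) = n := by
    rw [hn]
    simp
  have hn1 : 1 ≤ n := by
    rw [hn]
    exact Nat.mul_pos (by omega) (by omega)
  obtain ⟨δ, hδ⟩ : ∃ δ : ℝ, δ = 1 / (2 * M * Real.exp (ε₁ * M)) := ⟨_, rfl⟩
  have hδ0 : 0 < δ := by rw [hδ]; positivity
  have hδ1 : (M : ℝ) * (δ + δ) * Real.exp (ε₁ * M) = 1 := by
    rw [hδ]
    field_simp
    norm_num
  obtain ⟨H0, hH0⟩ := exists_nat_ge ((n : ℝ) ^ 2 / ε₁)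
  refine ⟨δ, hδ0, H0 + 1, ?_⟩
  intro H hH
  have hH1 : 1 ≤ H := by omega
  have hHr : (0 : ℝ) < H := by exact_mod_cast hH1
  have hHn : (n : ℝ) ^ 2 / H ≤ ε₁ := by
    have h1 : (H0 : ℝ) ≤ H := by exact_mod_cast (by omega : H0 ≤ H)
    have h2 : (n : ℝ) ^ 2 / ε₁ ≤ H := hH0.trans h1
    rw [div_le_iff₀ hε₁0] at h2
    rw [div_le_iff₀ hHr]
    linarith
  obtain ⟨h, hh1, hh2, hh3⟩ : ∃ h : ℕ, n + 2 ≤ h ∧ 2 * H ≤ h ∧
      4 * ((n + 1 : ℕ) : ℝ) ^ 2 / h ≤ ε₁ := by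
    obtain ⟨h0, hh0⟩ := exists_nat_ge (4 * ((n + 1 : ℕ) : ℝ) ^ 2 / ε₁)
    refine ⟨h0 + n + 2 + 2 * H, by omega, by omega, ?_⟩
    have h1 : (h0 : ℝ) ≤ ((h0 + n + 2 + 2 * H : ℕ) : ℝ) := by
      exact_mod_cast (by omega : h0 ≤ h0 + n + 2 + 2 * H)
    have h2 := hh0.trans h1
    have h3 : (0 : ℝ) < ((h0 + n + 2 + 2 * H : ℕ) : ℝ) := by
      exact_mod_cast (by omega : 0 < h0 + n + 2 + 2 * H)
    rw [div_le_iff₀ hε₁0] at h2
    rw [div_le_iff₀ h3]
    linarith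
  obtain ⟨N1, hN1⟩ := siteBound (Fin q × Option (Fin k)) (by rw [hcard]; exact hn1) u K h (2 * H)
    hu hK (by rw [hcard]; exact hh1) hh2
  obtain ⟨N2, hN2⟩ := lawClose h u 1 (h + K * n) hu le_rfl (δ / (k + 1)) (by positivity)
  refine ⟨N1 + N2 + 1, ?_⟩
  intro N hN a ha haH R hR hcut
  have hN1' : 1 ≤ N := by omega
  have hNr : (0 : ℝ) < N := by exact_mod_cast hN1'
  obtain ⟨L, hL⟩ : ∃ L : ℕ, L = (PP h (Nat.log 2 N / u)).card := ⟨_, rfl⟩
  have hLL : (PP h (Nat.log 2 N / u)).card ≤ L + 1 := by omega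
  obtain ⟨T, hT⟩ : ∃ T : ℝ, T = ε₁ * M := ⟨_, rfl⟩
  have hT0 : 0 ≤ T := by rw [hT]; positivity
  obtain ⟨A, hA⟩ : ∃ A : ℝ, A = 1 / (H : ℝ) ^ 2 * ∑ s ∈ Finset.Icc 1 H, ∑ t ∈ Finset.Icc 1 H,
        1 / (N : ℝ) * ∑ m ∈ Finset.Icc 1 N,
          R s (fun c => ArithmeticFunction.cardFactors (m + (s + a c))) t
            (ArithmeticFunction.cardFactors (m + t)) := ⟨_, rfl⟩
  rw [← hA]
  have havg := s13_avg (q := q) (N := N) hH1 a R
  rw [← hA, ← hM] at havg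
  have hQ : (0 : ℝ) < 1 / (H : ℝ) ^ (2 * q) := by positivity
  -- the pointwise bound of the probability
  have hpt : ∀ z : Fin q ⊕ Fin q → Fin H, prb k q N a R T (fun i => (z (Sum.inl i) : ℕ) + 1)
      (fun i => (z (Sum.inr i) : ℕ) + 1) ≤
      (if Function.Injective (pos a (fun i => (z (Sum.inl i) : ℕ) + 1)
        (fun i => (z (Sum.inr i) : ℕ) + 1)) then (0 : ℝ) else 1) +
      (1 / (h.factorial : ℝ) * ∑ a₀ ∈ Finset.range h.factorial,
        mdl k q N h u L (K * n) a R T a₀ (fun i => (z (Sum.inl i) : ℕ) + 1)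
          (fun i => (z (Sum.inr i) : ℕ) + 1) + 3 * ε₁) := by
    intro z
    obtain ⟨s, hs⟩ : ∃ s : Fin q → ℕ, s = fun i => (z (Sum.inl i) : ℕ) + 1 := ⟨_, rfl⟩
    obtain ⟨t, ht⟩ : ∃ t : Fin q → ℕ, t = fun i => (z (Sum.inr i) : ℕ) + 1 := ⟨_, rfl⟩
    rw [← hs, ← ht]
    have hnn : 0 ≤ 1 / (h.factorial : ℝ) * ∑ a₀ ∈ Finset.range h.factorial,
        mdl k q N h u L (K * n) a R T a₀ s t :=
      mul_nonneg (by positivity) (Finset.sum_nonneg fun a₀ _ => mdl_nonneg _ _ _ _ _ _ _ _ _ _ _ _ _)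
    by_cases hinj : Function.Injective (pos a s t)
    · rw [if_pos hinj, zero_add]
      have hle : ∀ v, pos a s t v ≤ 2 * H := by
        rintro ⟨i, c⟩
        cases c with
        | none =>
          show t i ≤ 2 * H
          rw [ht]
          have := (z (Sum.inr i)).isLt
          simp only
          omega
        | some c =>
          show s i + a c ≤ 2 * H
          rw [hs]
          have h1 := (z (Sum.inl i)).isLt
          have h2 := haH c
          simp only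
          omega
      have h3 := hN1 N (by omega) L hLL (pos a s t) hinj hle
        (fun ℓ => if T ≤ |Zs R s t ℓ| then (1 : ℝ) else 0)
        (fun ℓ => if ∃ w ∈ Wn (Fin q × Option (Fin k)) (K * n), T ≤
          |Zs R s t (fun v => ℓ v + w v)| then (1 : ℝ) else 0)
        (fun ℓ => by split_ifs <;> norm_num)
        (fun ℓ => by split_ifs <;> norm_num)
        (fun ℓ w hw => by
          rw [hcard] at hw
          by_cases h4 : T ≤ |Zs R s t (fun i => ℓ i + w i)|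
          · rw [if_pos h4, if_pos ⟨w, hw, h4⟩]
          · rw [if_neg h4]
            split_ifs <;> norm_num)
      rw [hcard] at h3
      refine h3.trans (add_le_add (le_of_eq rfl) ?_)
      rw [← hn] at hp2
      linarith
    · rw [if_neg hinj]
      have h4 := s13_prb_le hN1' a R T s t
      linarith
  -- the average of the model
  have hmod : ∀ a₀ : ℕ, 1 / (H : ℝ) ^ (2 * q) * ∑ z : Fin q ⊕ Fin q → Fin H,
      mdl k q N h u L (K * n) a R T a₀ (fun i => (z (Sum.inl i) : ℕ) + 1)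
          (fun i => (z (Sum.inr i) : ℕ) + 1) ≤ ε₁ := by
    intro a₀
    have h1 := tailA k q H L N h a₀ (K * n) (h + K * n) hH1 hN1' (PP h (Nat.log 2 N / u))
      (fun p hp => ((mem_PP _ _ _).1 hp).2.1) hLL R hR δ (δ / (k + 1)) hδ0.le (by positivity)
      hcut (by
        intro b hb b' hb' f hf
        have h2 := hN2 N (by omega) 1 le_rfl le_rfl b hb b' hb' f hf
        rw [Nat.div_one] at h2
        exact h2) le_rfl a T ε₁ hε₁0.le
    rw [s13_pair] at h1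
    refine (le_of_eq ?_).trans (h1.trans ?_)
    · unfold mdl
      rfl
    · rw [← hM]
      have h3 : ((k + 1 : ℕ) : ℝ) * (δ / (k + 1)) = δ := by
        push_cast
        field_simp
      rw [h3, hδ1, hT]
      have h4 : (1 : ℝ) ≤ Real.exp (ε₁ ^ 2 / 2 * M) := Real.one_le_exp (by positivity)
      have h5 : 2 * Real.exp (-(ε₁ * (ε₁ * M))) * (Real.exp (ε₁ ^ 2 / 2 * M) + 1) ≤
          4 * Real.exp (-(ε₁ ^ 2 / 2 * M)) := by
        have h6 : Real.exp (-(ε₁ * (ε₁ * M))) * Real.exp (ε₁ ^ 2 / 2 * M) =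
            Real.exp (-(ε₁ ^ 2 / 2 * M)) := by
          rw [← Real.exp_add]
          congr 1
          ring
        have h7 : Real.exp (-(ε₁ * (ε₁ * M))) * 1 ≤
            Real.exp (-(ε₁ * (ε₁ * M))) * Real.exp (ε₁ ^ 2 / 2 * M) :=
          mul_le_mul_of_nonneg_left h4 (Real.exp_pos _).le
        nlinarith
      refine (mul_le_mul_of_nonneg_left h5 (Nat.cast_nonneg _)).trans ?_
      rw [← hn, ← hM] at hp3
      exact hp3
  -- the average of the probability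
  have hprob : 1 / (H : ℝ) ^ (2 * q) * ∑ z : Fin q ⊕ Fin q → Fin H,
      prb k q N a R T (fun i => (z (Sum.inl i) : ℕ) + 1)
        (fun i => (z (Sum.inr i) : ℕ) + 1) ≤ 5 * ε₁ := by
    refine (mul_le_mul_of_nonneg_left (Finset.sum_le_sum fun z _ => hpt z) hQ.le).trans ?_
    rw [Finset.sum_add_distrib, Finset.sum_add_distrib, mul_add, mul_add]
    have h1 := s13_noninj H q k hH1 a ha
    rw [← hn] at h1
    have h2 : 1 / (H : ℝ) ^ (2 * q) * ∑ _z : Fin q ⊕ Fin q → Fin H, 3 * ε₁ = 3 * ε₁ := by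
      rw [Finset.sum_const, Finset.card_univ, Fintype.card_fun, Fintype.card_fin,
        Fintype.card_sum, Fintype.card_fin, nsmul_eq_mul, ← two_mul]
      push_cast
      field_simp
    have h3 : 1 / (H : ℝ) ^ (2 * q) * ∑ z : Fin q ⊕ Fin q → Fin H,
        (1 / (h.factorial : ℝ) * ∑ a₀ ∈ Finset.range h.factorial,
        mdl k q N h u L (K * n) a R T a₀ (fun i => (z (Sum.inl i) : ℕ) + 1)
          (fun i => (z (Sum.inr i) : ℕ) + 1)) =
        1 / (h.factorial : ℝ) * ∑ a₀ ∈ Finset.range h.factorial,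
          (1 / (H : ℝ) ^ (2 * q) * ∑ z : Fin q ⊕ Fin q → Fin H,
          mdl k q N h u L (K * n) a R T a₀ (fun i => (z (Sum.inl i) : ℕ) + 1)
          (fun i => (z (Sum.inr i) : ℕ) + 1)) := by
      rw [← Finset.mul_sum, ← Finset.mul_sum, Finset.sum_comm]
      ring
    have h4 : 1 / (h.factorial : ℝ) * ∑ a₀ ∈ Finset.range h.factorial,
          (1 / (H : ℝ) ^ (2 * q) * ∑ z : Fin q ⊕ Fin q → Fin H,
          mdl k q N h u L (K * n) a R T a₀ (fun i => (z (Sum.inl i) : ℕ) + 1)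
          (fun i => (z (Sum.inr i) : ℕ) + 1)) ≤ ε₁ := by
      have h5 : (0 : ℝ) < h.factorial := by exact_mod_cast Nat.factorial_pos h
      refine (mul_le_mul_of_nonneg_left (Finset.sum_le_sum fun a₀ _ => hmod a₀)
        (by positivity)).trans (le_of_eq ?_)
      rw [Finset.sum_const, Finset.card_range, nsmul_eq_mul]
      field_simp
    rw [h3, h2]
    linarith
  -- conclusion
  have hfin : |(M : ℝ) * A| ≤ T + M * (5 * ε₁) := by
    rw [← havg, abs_mul, abs_of_pos hQ]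
    have h1 : |∑ z : Fin q ⊕ Fin q → Fin H, (1 / (N : ℝ) * ∑ m ∈ Finset.Icc 1 N,
      Zs R (fun i => (z (Sum.inl i) : ℕ) + 1) (fun i => (z (Sum.inr i) : ℕ) + 1)
        (fun v => ArithmeticFunction.cardFactors (m + pos a (fun i => (z (Sum.inl i) : ℕ) + 1)
          (fun i => (z (Sum.inr i) : ℕ) + 1) v)))| ≤
        ∑ z : Fin q ⊕ Fin q → Fin H, (T + M * prb k q N a R T
          (fun i => (z (Sum.inl i) : ℕ) + 1) (fun i => (z (Sum.inr i) : ℕ) + 1)) := by
      refine (Finset.abs_sum_le_sum_abs _ _).trans (Finset.sum_le_sum fun z _ => ?_)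
      have h2 := s13_mean hN1' a R hR T hT0 (fun i => (z (Sum.inl i) : ℕ) + 1)
        (fun i => (z (Sum.inr i) : ℕ) + 1)
      rwa [← hM] at h2
    refine (mul_le_mul_of_nonneg_left h1 hQ.le).trans ?_
    rw [Finset.sum_add_distrib, mul_add, ← Finset.mul_sum]
    have h2 : 1 / (H : ℝ) ^ (2 * q) * ∑ _z : Fin q ⊕ Fin q → Fin H, T = T := by
      rw [Finset.sum_const, Finset.card_univ, Fintype.card_fun, Fintype.card_fin,
        Fintype.card_sum, Fintype.card_fin, nsmul_eq_mul, ← two_mul]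
      push_cast
      field_simp
    rw [h2]
    have h3 := mul_le_mul_of_nonneg_left hprob (by positivity : (0 : ℝ) ≤ M)
    linarith
  have h1 : (M : ℝ) * |A| ≤ M * (6 * ε₁) := by
    rw [abs_mul, abs_of_nonneg (by positivity : (0 : ℝ) ≤ M)] at hfin
    rw [hT] at hfin
    linarith
  have h2 := le_of_mul_le_mul_left h1 (by linarith)
  rw [hε₁] at h2
  linarith

end AS
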