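import Mathlib
import Pool.Agent.Helper6.AS.Defs

/-!
# AS-14a: means written with the law `lw`

PROOF.  `lw_sum`: `mx N f = (∑_{n ∈ Icc 1 N} f (Ω n)) / N`, group by the value `x = Ω n ≤ n ≤ N`
(`Finset.sum_fiberwise_of_maps_to`; `cardFactors n ≤ n`: e.g. `2 ^ Ω n ≤ n`).
`lw_nonneg`, `lw_total` (`f = 1`).  `Ep_snoc`: unfold `Ep` (sum over `Fintype.piFinset (fun _ : Fin (k+1) =>
Icc 1 N)`), `Fin.snocEquiv` / `Fin.consPiProd`-like reindexing `m ↦ (m restricted, m last)`;
`1 / N^(k+1) = 1/N^k * 1/N`.  `Ep_lw`: induction on `k` with `Ep_snoc` and `lw_sum`, or group by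
the vector of values (`Finset.sum_fiberwise_of_maps_to`, `Finset.card_pi`-type product formula).
-/

set_option autoImplicit false

namespace AS

open Finset Helper13.Om Helper11.QR

private lemma h45_Om_le (m : ℕ) : ArithmeticFunction.cardFactors m ≤ m := by
  rcases Nat.eq_zero_or_pos m with rfl | hm
  · simp
  · have h1 : 2 ^ ArithmeticFunction.cardFactors m ≤ m := by
      rw [ArithmeticFunction.cardFactors_apply]
      conv_rhs => rw [← Nat.prod_primeFactorsList hm.ne']
      exact List.pow_card_le_prod (M := ℕ) _ _ fun p hp =>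
        (Nat.prime_of_mem_primeFactorsList hp).two_le
    exact (Nat.lt_two_pow_self).le.trans h1

theorem lw_nonneg (N x : ℕ) : 0 ≤ lw N x := by
  unfold lw
  positivity

theorem lw_sum (N : ℕ) (f : ℕ → ℝ) :
    ∑ x ∈ Finset.range (N + 1), lw N x * f x = MRP.mx N f := by
  have hmap : ∀ n ∈ Finset.Icc 1 N, MRP.Om n ∈ Finset.range (N + 1) := fun n hn => by
    rw [Finset.mem_range]
    exact Nat.lt_succ_of_le ((h45_Om_le n).trans (Finset.mem_Icc.1 hn).2)
  unfold MRP.mx
  rw [← Finset.sum_fiberwise_of_maps_to hmap, Finset.sum_div]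
  refine Finset.sum_congr rfl fun x _ => ?_
  have h1 : ∑ n ∈ (Finset.Icc 1 N).filter (fun n => MRP.Om n = x), f (MRP.Om n) =
      (((Finset.Icc 1 N).filter (fun n => ArithmeticFunction.cardFactors n = x)).card : ℝ) * f x := by
    rw [← nsmul_eq_mul]
    refine Finset.sum_eq_card_nsmul fun n hn => ?_
    rw [(Finset.mem_filter.1 hn).2]
  rw [h1]
  unfold lw
  ring

theorem lw_total (N : ℕ) (hN : 1 ≤ N) : ∑ x ∈ Finset.range (N + 1), lw N x = 1 := by
  have h := lw_sum N fun _ => 1
  simp only [mul_one] at h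
  rw [h]
  unfold MRP.mx
  have hN0 : (N : ℝ) ≠ 0 := by positivity
  simp [hN0]

theorem Ep_snoc (k N : ℕ) (G : (Fin (k + 1) → ℕ) → ℝ) :
    Ep (k + 1) N G = Ep k N (fun y => MRP.mx N (fun x => G (Fin.snoc y x))) := by
  unfold Ep MRP.mx
  have h1 : ∑ m ∈ Fintype.piFinset (fun _ : Fin (k + 1) => Finset.Icc 1 N),
      G (fun i => ArithmeticFunction.cardFactors (m i)) =
      ∑ m ∈ Fintype.piFinset (fun _ : Fin k => Finset.Icc 1 N), ∑ n ∈ Finset.Icc 1 N,
        G (Fin.snoc (fun i => ArithmeticFunction.cardFactors (m i))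
          (ArithmeticFunction.cardFactors n)) := by
    rw [← Finset.sum_product']
    refine Finset.sum_nbij' (fun m => (fun i => m i.castSucc, m (Fin.last k)))
      (fun p => Fin.snoc p.1 p.2) ?_ ?_ ?_ ?_ ?_
    · intro m hm
      rw [Fintype.mem_piFinset] at hm
      rw [Finset.mem_product, Fintype.mem_piFinset]
      exact ⟨fun i => hm _, hm _⟩
    · intro p hp
      rw [Finset.mem_product, Fintype.mem_piFinset] at hp
      rw [Fintype.mem_piFinset]
      intro i
      refine Fin.lastCases ?_ (fun j => ?_) i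
      · rw [Fin.snoc_last]
        exact hp.2
      · rw [Fin.snoc_castSucc]
        exact hp.1 j
    · intro m _
      funext i
      refine Fin.lastCases ?_ (fun j => ?_) i
      · rw [Fin.snoc_last]
      · rw [Fin.snoc_castSucc]
    · intro p _
      refine Prod.ext ?_ ?_
      · funext i
        simp only [Fin.snoc_castSucc]
      · simp only [Fin.snoc_last]
    · intro m _
      congr 1
      funext i
      refine Fin.lastCases ?_ (fun j => ?_) i
      · rw [Fin.snoc_last]
      · rw [Fin.snoc_castSucc]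
  rw [h1, Finset.mul_sum, Finset.mul_sum]
  refine Finset.sum_congr rfl fun m _ => ?_
  rw [pow_succ]
  rcases eq_or_ne (N : ℝ) 0 with h0 | h0
  · rw [h0]
    simp
  · field_simp

theorem Ep_lw (k N : ℕ) (G : (Fin k → ℕ) → ℝ) :
    Ep k N G = ∑ y ∈ Fintype.piFinset (fun _ : Fin k => Finset.range (N + 1)),
      (∏ c, lw N (y c)) * G y := by
  have hmap : ∀ m ∈ Fintype.piFinset (fun _ : Fin k => Finset.Icc 1 N),
      (fun i => ArithmeticFunction.cardFactors (m i)) ∈
        Fintype.piFinset (fun _ : Fin k => Finset.range (N + 1)) := fun m hm => by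
    rw [Fintype.mem_piFinset] at hm ⊢
    intro i
    rw [Finset.mem_range]
    exact Nat.lt_succ_of_le ((h45_Om_le _).trans (Finset.mem_Icc.1 (hm i)).2)
  unfold Ep
  rw [← Finset.sum_fiberwise_of_maps_to hmap, Finset.mul_sum]
  refine Finset.sum_congr rfl fun y _ => ?_
  have h1 : ∑ m ∈ (Fintype.piFinset (fun _ : Fin k => Finset.Icc 1 N)).filter
      (fun m => (fun i => ArithmeticFunction.cardFactors (m i)) = y),
      G (fun i => ArithmeticFunction.cardFactors (m i)) =
      (((Fintype.piFinset (fun _ : Fin k => Finset.Icc 1 N)).filter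
        (fun m => (fun i => ArithmeticFunction.cardFactors (m i)) = y)).card : ℝ) * G y := by
    rw [← nsmul_eq_mul]
    refine Finset.sum_eq_card_nsmul fun m hm => ?_
    rw [(Finset.mem_filter.1 hm).2]
  have h2 : (Fintype.piFinset (fun _ : Fin k => Finset.Icc 1 N)).filter
      (fun m => (fun i => ArithmeticFunction.cardFactors (m i)) = y) =
      Fintype.piFinset (fun c : Fin k => (Finset.Icc 1 N).filter
        (fun n => ArithmeticFunction.cardFactors n = y c)) := by
    ext m
    simp only [Finset.mem_filter, Fintype.mem_piFinset, funext_iff]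
    exact ⟨fun h c => ⟨h.1 c, h.2 c⟩, fun h => ⟨fun c => (h c).1, fun c => (h c).2⟩⟩
  rw [h1, h2, Fintype.card_piFinset]
  unfold lw
  rw [Finset.prod_div_distrib, Finset.prod_const, Finset.card_univ, Fintype.card_fin]
  push_cast
  ring

end AS
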