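import Mathlib
import Pool.Agent.Helper6.AS.S07
import Pool.Agent.Helper6.AS.S14a

/-!
# AS-14b: regularity for arrays `F s y t x`

PROOF.  `regBip δ` with `α = ℕ × (Fin k → ℕ)`, `X = Icc 1 H ×ˢ Fintype.piFinset (fun _ => range (N + 1))`,
`μ (s, y) = (1/H) ∏ c, lw N (y c)`, `β = ℕ × ℕ`, `Y = Icc 1 H ×ˢ range (N + 1)`,
`ν (t, x) = (1/H) lw N x` (total masses one: `lw_total`, `Finset.prod_univ_sum`; `H, N ≥ 1`),
`F (s, y) (t, x) = F s y t x`.  `CutA` for the rest: `Ep_snoc` and `Ep_lw`, `lw_sum` write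
`Ep (k+1) N (...)` as the double sum with these weights (`(Fin.snoc y x) c.castSucc = y c`,
`(Fin.snoc y x) (Fin.last k) = x`).
-/

set_option autoImplicit false

namespace AS

open Finset Helper13.Om Helper11.QR

private lemma h45_Ep (k N : ℕ) (A : (Fin k → ℕ) → ℕ → ℝ) :
    Ep (k + 1) N (fun ℓ => A (fun c => ℓ c.castSucc) (ℓ (Fin.last k))) =
      ∑ y ∈ Fintype.piFinset (fun _ : Fin k => Finset.range (N + 1)),
        ∑ x ∈ Finset.range (N + 1), (∏ c, lw N (y c)) * lw N x * A y x := by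
  rw [Ep_snoc, Ep_lw]
  refine Finset.sum_congr rfl fun y _ => ?_
  rw [← lw_sum, Finset.mul_sum]
  refine Finset.sum_congr rfl fun x _ => ?_
  simp only [Fin.snoc_castSucc, Fin.snoc_last]
  ring

theorem regArr (k : ℕ) (δ : ℝ) (hδ : 0 < δ) : ∃ C : ℕ, ∀ (H N : ℕ), 1 ≤ H → 1 ≤ N →
    ∀ F : ℕ → (Fin k → ℕ) → ℕ → ℕ → ℝ, (∀ s y t x, |F s y t x| ≤ 1) →
    ∃ (J : ℕ) (φ : Fin J → ℕ → (Fin k → ℕ) → ℝ) (ψ : Fin J → ℕ → ℕ → ℝ), J ≤ C ∧
      (∀ j s y, |φ j s y| ≤ 1) ∧ (∀ j t x, |ψ j t x| ≤ 1) ∧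
      (∀ s y t x, |∑ j, φ j s y * ψ j t x| ≤ 1) ∧
      CutA k N H δ (fun s y t x => F s y t x - ∑ j, φ j s y * ψ j t x) := by
  obtain ⟨C, hC⟩ := regBip δ hδ
  refine ⟨C, fun H N hH hN F hF => ?_⟩
  have hH0 : (H : ℝ) ≠ 0 := by positivity
  have hT := lw_total N hN
  have hμ : ∑ p ∈ Finset.Icc 1 H ×ˢ Fintype.piFinset (fun _ : Fin k => Finset.range (N + 1)),
      1 / (H : ℝ) * ∏ c, lw N (p.2 c) = 1 := by
    rw [Finset.sum_product]
    have h1 : ∀ s ∈ Finset.Icc 1 H,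
        ∑ y ∈ Fintype.piFinset (fun _ : Fin k => Finset.range (N + 1)),
          1 / (H : ℝ) * ∏ c, lw N (y c) = 1 / (H : ℝ) := by
      intro s _
      rw [← Finset.mul_sum, ← Finset.prod_univ_sum (fun _ : Fin k => Finset.range (N + 1))
        fun _ x => lw N x]
      rw [hT]
      simp
    rw [Finset.sum_congr rfl h1]
    simp [hH0]
  have hν : ∑ q ∈ Finset.Icc 1 H ×ˢ Finset.range (N + 1), 1 / (H : ℝ) * lw N q.2 = 1 := by
    rw [Finset.sum_product]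
    have h1 : ∀ t ∈ Finset.Icc 1 H,
        ∑ x ∈ Finset.range (N + 1), 1 / (H : ℝ) * lw N x = 1 / (H : ℝ) := by
      intro t _
      rw [← Finset.mul_sum, hT, mul_one]
    rw [Finset.sum_congr rfl h1]
    simp [hH0]
  obtain ⟨J, φ, ψ, hJ, hφ, hψ, hs, hcut⟩ := hC
    (Finset.Icc 1 H ×ˢ Fintype.piFinset (fun _ : Fin k => Finset.range (N + 1)))
    (Finset.Icc 1 H ×ˢ Finset.range (N + 1))
    (fun p => 1 / (H : ℝ) * ∏ c, lw N (p.2 c)) (fun q => 1 / (H : ℝ) * lw N q.2)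
    (fun p => mul_nonneg (by positivity) (Finset.prod_nonneg fun c _ => lw_nonneg N _))
    (fun q => mul_nonneg (by positivity) (lw_nonneg N _)) hμ hν
    (fun p q => F p.1 p.2 q.1 q.2) (fun p q => hF _ _ _ _)
  refine ⟨J, fun j s y => φ j (s, y), fun j t x => ψ j (t, x), hJ, fun j s y => hφ _ _,
    fun j t x => hψ _ _, fun s y t x => hs _ _, ?_⟩
  intro f g hf hg
  have h := hcut (fun p => f p.1 p.2) (fun q => g q.1 q.2) (fun p => hf _ _) (fun q => hg _ _)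
  convert h using 2
  rw [Finset.sum_product, Finset.mul_sum]
  refine Finset.sum_congr rfl fun s _ => ?_
  have h1 : ∀ t ∈ Finset.Icc 1 H, Ep (k + 1) N (fun ℓ =>
      (F s (fun c => ℓ c.castSucc) t (ℓ (Fin.last k)) -
        ∑ j, φ j (s, fun c => ℓ c.castSucc) * ψ j (t, ℓ (Fin.last k))) *
        (f s (fun c => ℓ c.castSucc) * g t (ℓ (Fin.last k)))) =
      ∑ y ∈ Fintype.piFinset (fun _ : Fin k => Finset.range (N + 1)),
        ∑ x ∈ Finset.range (N + 1), (∏ c, lw N (y c)) * lw N x *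
          ((F s y t x - ∑ j, φ j (s, y) * ψ j (t, x)) * (f s y * g t x)) := fun t _ =>
    h45_Ep k N (fun y x => (F s y t x - ∑ j, φ j (s, y) * ψ j (t, x)) * (f s y * g t x))
  rw [Finset.sum_congr rfl h1, Finset.mul_sum]
  simp only [Finset.sum_product, Finset.mul_sum]
  rw [Finset.sum_comm]
  refine Finset.sum_congr rfl fun y _ => Finset.sum_congr rfl fun t _ =>
    Finset.sum_congr rfl fun x _ => ?_
  field_simp

end AS
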