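import Mathlib
import Pool.Agent.Helper6.AS.S09
import Pool.Agent.Helper6.AS.S13
import Pool.Agent.Helper6.AS.S14b

/-!
# AS-14: independence of the right coordinate on average over the positions

PROOF.  Write `X m = cardFactors m`.  `δ, H1` from `cutSmall k (ε / 8)`, `C2` from `dom k (ε / 16)`,
`δ₁ = min δ (ε / (4 (C2 + 1)))`, `C` from `regArr k δ₁`, `H2` from `lln hE (ε / (4 (C + 1)))`,
`H0 = max 1 (max H1 H2)`.  `N0` the maximum of the thresholds (`dom` with `D = 2 H`).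
Let `R = F - ∑_j φ_j ψ_j`, `|R| ≤ 2`, `CutA k N H δ₁ R`.  The expression is linear in `F`.
(1) product terms: `(1/H^2) ∑_{s,t} (1/N) ∑_m φ_j s (X (m + (s + a ·))) (ψ_j t (X (m + t)) - mx N (ψ_j t)) =
(1/N) ∑_m [(1/H) ∑_s φ_j s (..)] [(1/H) ∑_t (ψ_j t (X (m+t)) - mx N (ψ_j t))]`, absolute value
`≤ (1/N) ∑_m |(1/H) ∑_t ..| ≤ ε / (4 (C+1))` by `lln`; at most `C` of them (`mx` is linear).
(2) `R`, first part: `cutSmall` for `R / 2` (`CutA` of `R/2` with `δ₁/2 ≤ δ`): `≤ 2 ε / 8`.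
(3) `R`, second part: `(1/H) ∑_s (1/N) ∑_m r s (X (m + (s + a ·)))` with
`r s y = (1/H) ∑_t mx N (R s y t)`, `|r| ≤ 2`.  For each `s` the sites `s + a c ≤ 2 H` are distinct, so by
`dom k (ε/16)` with `G = |r s ·| / 2`: `(1/N) ∑_m |r s (..)| ≤ C2 Ep k N |r s ·| + ε / 8`.  And
`(1/H) ∑_s Ep k N |r s ·| = (1/H^2) ∑_{s,t} Ep (k+1) N (R s y t x * sign (r s y))` (`Ep_snoc`)
`≤ δ₁` (`CutA` with `f s y = sign (r s y)`, `g = 1`).  So this part is `≤ C2 δ₁ + ε/8 ≤ ε/4 + ε/8`.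
Total `≤ ε/4 + ε/4 + ε/4 + ε/8 ≤ ε`.
-/

set_option autoImplicit false

namespace AS

open Finset Helper13.Om Helper11.QR

private lemma s14_mx_add (N : ℕ) (f g : ℕ → ℝ) :
    MRP.mx N (fun x => f x + g x) = MRP.mx N f + MRP.mx N g := by
  unfold MRP.mx
  rw [Finset.sum_add_distrib, add_div]

private lemma s14_mx_mul (N : ℕ) (c : ℝ) (f : ℕ → ℝ) :
    MRP.mx N (fun x => c * f x) = c * MRP.mx N f := by
  unfold MRP.mx
  rw [← Finset.mul_sum, mul_div_assoc]

private lemma s14_mx_abs (N : ℕ) (hN : 1 ≤ N) (c : ℝ) (f : ℕ → ℝ) (hf : ∀ x, |f x| ≤ c) :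
    |MRP.mx N f| ≤ c := by
  have hN0 : (0 : ℝ) < N := by exact_mod_cast hN
  unfold MRP.mx
  rw [abs_div, abs_of_pos hN0, div_le_iff₀ hN0]
  refine (Finset.abs_sum_le_sum_abs _ _).trans ?_
  refine (Finset.sum_le_sum fun n _ => hf _).trans ?_
  rw [Finset.sum_const, Nat.card_Icc, nsmul_eq_mul]
  simp [mul_comm]

private lemma s14_Ep_sum (k N : ℕ) (T : Finset ℕ) (G : ℕ → (Fin k → ℕ) → ℝ) :
    Ep k N (fun y => ∑ t ∈ T, G t y) = ∑ t ∈ T, Ep k N (G t) := by
  unfold Ep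
  rw [Finset.sum_comm, Finset.mul_sum]

private lemma s14_Ep_mul (k N : ℕ) (c : ℝ) (G : (Fin k → ℕ) → ℝ) :
    Ep k N (fun y => c * G y) = c * Ep k N G := by
  unfold Ep
  rw [← Finset.mul_sum]
  ring

/-- the average over the positions and over `m` -/
private noncomputable def av (k N H : ℕ) (a : Fin k → ℕ)
    (G : ℕ → (Fin k → ℕ) → ℕ → ℕ → ℝ) : ℝ :=
  1 / (H : ℝ) ^ 2 * ∑ s ∈ Finset.Icc 1 H, ∑ t ∈ Finset.Icc 1 H,
    1 / (N : ℝ) * ∑ m ∈ Finset.Icc 1 N,
      (G s (fun c => ArithmeticFunction.cardFactors (m + (s + a c))) t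
        (ArithmeticFunction.cardFactors (m + t)) -
      MRP.mx N (G s (fun c => ArithmeticFunction.cardFactors (m + (s + a c))) t))

private lemma av_add (k N H : ℕ) (a : Fin k → ℕ) (G G' : ℕ → (Fin k → ℕ) → ℕ → ℕ → ℝ) :
    av k N H a (fun s y t x => G s y t x + G' s y t x) = av k N H a G + av k N H a G' := by
  unfold av
  rw [← mul_add, ← Finset.sum_add_distrib]
  congr 1
  refine Finset.sum_congr rfl fun s _ => ?_
  rw [← Finset.sum_add_distrib]
  refine Finset.sum_congr rfl fun t _ => ?_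
  rw [← mul_add, ← Finset.sum_add_distrib]
  congr 1
  refine Finset.sum_congr rfl fun m _ => ?_
  rw [s14_mx_add]
  ring

private lemma av_zero (k N H : ℕ) (a : Fin k → ℕ) :
    av k N H a (fun _ _ _ _ => 0) = 0 := by
  unfold av MRP.mx
  simp

private lemma av_sum (k N H : ℕ) (a : Fin k → ℕ) {ι : Type} [DecidableEq ι] (S : Finset ι)
    (P : ι → ℕ → (Fin k → ℕ) → ℕ → ℕ → ℝ) :
    av k N H a (fun s y t x => ∑ j ∈ S, P j s y t x) = ∑ j ∈ S, av k N H a (P j) := by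
  induction S using Finset.induction_on with
  | empty => simp only [Finset.sum_empty]; exact av_zero k N H a
  | insert j S hj ih =>
    rw [Finset.sum_insert hj, ← ih, ← av_add]
    congr 1
    funext s y t x
    rw [Finset.sum_insert hj]

private lemma s14_alg (H N : ℝ) (S M : Finset ℕ) (A D : ℕ → ℕ → ℝ) :
    1 / H ^ 2 * ∑ s ∈ S, ∑ t ∈ S, 1 / N * ∑ m ∈ M, A s m * D t m =
      1 / N * ∑ m ∈ M, (1 / H * ∑ s ∈ S, A s m) * (1 / H * ∑ t ∈ S, D t m) := by
  have h1 : ∀ m ∈ M, (1 / H * ∑ s ∈ S, A s m) * (1 / H * ∑ t ∈ S, D t m) =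
      1 / H ^ 2 * ∑ s ∈ S, ∑ t ∈ S, A s m * D t m := by
    intro m _
    rw [mul_mul_mul_comm, Finset.sum_mul_sum]
    congr 1
    rw [one_div, one_div, pow_two, mul_inv]
  rw [Finset.sum_congr rfl h1, ← Finset.mul_sum, ← mul_assoc, mul_comm (1 / N), mul_assoc]
  congr 1
  rw [Finset.mul_sum]
  simp only [Finset.mul_sum]
  rw [Finset.sum_comm]
  have h2 : ∀ s ∈ S, ∑ t ∈ S, ∑ m ∈ M, 1 / N * (A s m * D t m) =
      ∑ m ∈ M, ∑ t ∈ S, 1 / N * (A s m * D t m) := fun s _ => Finset.sum_comm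
  rw [Finset.sum_comm, Finset.sum_congr rfl h2, Finset.sum_comm]

private lemma av_prod (k N H : ℕ) (hH : 1 ≤ H) (a : Fin k → ℕ) (φ : ℕ → (Fin k → ℕ) → ℝ)
    (ψ : ℕ → ℕ → ℝ) (hφ : ∀ s y, |φ s y| ≤ 1) :
    |av k N H a (fun s y t x => φ s y * ψ t x)| ≤
      1 / (N : ℝ) * ∑ n ∈ Finset.Icc 1 N,
        |1 / (H : ℝ) * ∑ t ∈ Finset.Icc 1 H,
          (ψ t (ArithmeticFunction.cardFactors (n + t)) - MRP.mx N (ψ t))| := by
  have hH0 : (0 : ℝ) < H := by exact_mod_cast hH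
  have h1 : av k N H a (fun s y t x => φ s y * ψ t x) =
      1 / (H : ℝ) ^ 2 * ∑ s ∈ Finset.Icc 1 H, ∑ t ∈ Finset.Icc 1 H,
        1 / (N : ℝ) * ∑ m ∈ Finset.Icc 1 N,
          φ s (fun c => ArithmeticFunction.cardFactors (m + (s + a c))) *
            (ψ t (ArithmeticFunction.cardFactors (m + t)) - MRP.mx N (ψ t)) := by
    unfold av
    congr 1
    refine Finset.sum_congr rfl fun s _ => Finset.sum_congr rfl fun t _ => ?_
    congr 1
    refine Finset.sum_congr rfl fun m _ => ?_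
    rw [s14_mx_mul]
    ring
  rw [h1, s14_alg (H : ℝ) (N : ℝ) (Finset.Icc 1 H) (Finset.Icc 1 N)
    (fun s m => φ s (fun c => ArithmeticFunction.cardFactors (m + (s + a c))))
    (fun t m => ψ t (ArithmeticFunction.cardFactors (m + t)) - MRP.mx N (ψ t)), abs_mul,
    abs_of_nonneg (by positivity : (0 : ℝ) ≤ 1 / (N : ℝ))]
  refine mul_le_mul_of_nonneg_left ?_ (by positivity)
  refine (Finset.abs_sum_le_sum_abs _ _).trans (Finset.sum_le_sum fun m _ => ?_)
  rw [abs_mul]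
  refine mul_le_of_le_one_left (abs_nonneg _) ?_
  rw [abs_mul, abs_of_nonneg (by positivity : (0 : ℝ) ≤ 1 / (H : ℝ)), one_div,
    inv_mul_le_iff₀ hH0]
  refine (Finset.abs_sum_le_sum_abs _ _).trans ?_
  refine (Finset.sum_le_sum fun s _ => hφ _ _).trans ?_
  rw [Finset.sum_const, Nat.card_Icc, nsmul_eq_mul]
  simp

theorem starP (hE : MRP.EXPx) (k : ℕ) (ε : ℝ) (hε : 0 < ε) : ∃ H0 : ℕ, ∀ H : ℕ, H0 ≤ H →
    ∃ N0 : ℕ, ∀ N : ℕ, N0 ≤ N → ∀ a : Fin k → ℕ, Function.Injective a → (∀ c, a c ≤ H) →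
    ∀ F : ℕ → (Fin k → ℕ) → ℕ → ℕ → ℝ, (∀ s y t x, |F s y t x| ≤ 1) →
      |1 / (H : ℝ) ^ 2 * ∑ s ∈ Finset.Icc 1 H, ∑ t ∈ Finset.Icc 1 H,
        1 / (N : ℝ) * ∑ m ∈ Finset.Icc 1 N,
          (F s (fun c => ArithmeticFunction.cardFactors (m + (s + a c))) t
            (ArithmeticFunction.cardFactors (m + t)) -
          MRP.mx N (F s (fun c => ArithmeticFunction.cardFactors (m + (s + a c))) t))| ≤ ε := by
  classical
  obtain ⟨δ, hδ, H1, hH1⟩ := cutSmall k (ε / 8) (by positivity)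
  obtain ⟨C2, hC2, hdom⟩ := dom k (ε / 16) (by positivity)
  obtain ⟨δ₁, hδ₁⟩ : ∃ δ₁, δ₁ = min δ (ε / (4 * (C2 + 1))) := ⟨_, rfl⟩
  have hδ₁0 : 0 < δ₁ := by rw [hδ₁]; exact lt_min hδ (by positivity)
  have hδ₁1 : δ₁ ≤ δ := by rw [hδ₁]; exact min_le_left _ _
  have hδ₁2 : δ₁ ≤ ε / (4 * (C2 + 1)) := by rw [hδ₁]; exact min_le_right _ _
  obtain ⟨C, hC⟩ := regArr k δ₁ hδ₁0
  obtain ⟨H2, hH2⟩ := lln hE (ε / (4 * ((C : ℝ) + 1))) (by positivity)
  refine ⟨max 1 (max H1 H2), fun H hH => ?_⟩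
  have hHone : 1 ≤ H := (le_max_left _ _).trans hH
  obtain ⟨N1, hN1⟩ := hH1 H (((le_max_left _ _).trans (le_max_right _ _)).trans hH)
  obtain ⟨N2, hN2⟩ := hH2 H (((le_max_right _ _).trans (le_max_right _ _)).trans hH)
  obtain ⟨N3, hN3⟩ := hdom (2 * H)
  refine ⟨max 1 (max N1 (max N2 N3)), fun N hN a hainj haH F hF => ?_⟩
  have hNone : 1 ≤ N := (le_max_left _ _).trans hN
  have hNa : max N1 (max N2 N3) ≤ N := (le_max_right _ _).trans hN
  have hN1' := hN1 N ((le_max_left _ _).trans hNa) a hainj haH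
  have hN2' := hN2 N (((le_max_left _ _).trans (le_max_right _ _)).trans hNa)
  have hN3' := hN3 N (((le_max_right _ _).trans (le_max_right _ _)).trans hNa)
  have hH0 : (0 : ℝ) < H := by exact_mod_cast hHone
  have hN0 : (0 : ℝ) < N := by exact_mod_cast hNone
  obtain ⟨J, φ, ψ, hJ, hφ, hψ, hs, hcut⟩ := hC H N hHone hNone F hF
  obtain ⟨R, hR⟩ : ∃ R : ℕ → (Fin k → ℕ) → ℕ → ℕ → ℝ,
    R = fun s y t x => F s y t x - ∑ j, φ j s y * ψ j t x := ⟨_, rfl⟩
  rw [← hR] at hcut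
  have hR2 : ∀ s y t x, |R s y t x| ≤ 2 := by
    intro s y t x
    rw [hR]
    refine (abs_sub _ _).trans ?_
    linarith [hF s y t x, hs s y t x]
  -- the decomposition
  have hdec : av k N H a F = av k N H a R +
      ∑ j, av k N H a (fun s y t x => φ j s y * ψ j t x) := by
    rw [← av_sum k N H a Finset.univ (fun j s y t x => φ j s y * ψ j t x), ← av_add]
    congr 1
    funext s y t x
    rw [hR]
    ring
  -- the product terms
  have hprod : |∑ j, av k N H a (fun s y t x => φ j s y * ψ j t x)| ≤ ε / 4 := by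
    refine (Finset.abs_sum_le_sum_abs _ _).trans ?_
    have h1 : ∀ j ∈ (Finset.univ : Finset (Fin J)),
        |av k N H a (fun s y t x => φ j s y * ψ j t x)| ≤ ε / (4 * ((C : ℝ) + 1)) := fun j _ =>
      (av_prod k N H hHone a (φ j) (ψ j) (hφ j)).trans (hN2' (ψ j) (hψ j))
    refine (Finset.sum_le_sum h1).trans ?_
    rw [Finset.sum_const, Finset.card_univ, Fintype.card_fin, nsmul_eq_mul]
    have h2 : (J : ℝ) ≤ (C : ℝ) + 1 := by
      have : (J : ℝ) ≤ (C : ℝ) := by exact_mod_cast hJ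
      linarith
    calc (J : ℝ) * (ε / (4 * ((C : ℝ) + 1))) ≤ ((C : ℝ) + 1) * (ε / (4 * ((C : ℝ) + 1))) :=
          mul_le_mul_of_nonneg_right h2 (by positivity)
      _ = ε / 4 := by field_simp
  -- the rest, first part
  have hfirst : |1 / (H : ℝ) ^ 2 * ∑ s ∈ Finset.Icc 1 H, ∑ t ∈ Finset.Icc 1 H,
        1 / (N : ℝ) * ∑ m ∈ Finset.Icc 1 N,
          R s (fun c => ArithmeticFunction.cardFactors (m + (s + a c))) t
            (ArithmeticFunction.cardFactors (m + t))| ≤ ε / 4 := by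
    have h1 := hN1' (fun s y t x => R s y t x / 2) (fun s y t x => by
      rw [abs_div, abs_of_pos (by norm_num : (0 : ℝ) < 2)]
      linarith [hR2 s y t x]) (fun f g hf hg => by
        have h2 := hcut (fun s y => f s y / 2) g (fun s y => by
          rw [abs_div, abs_of_pos (by norm_num : (0 : ℝ) < 2)]
          linarith [hf s y]) hg
        refine le_trans (le_of_eq ?_) (h2.trans hδ₁1)
        congr 2
        refine Finset.sum_congr rfl fun s _ => Finset.sum_congr rfl fun t _ => ?_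
        congr 1
        funext ℓ
        ring)
    have h3 : 1 / (H : ℝ) ^ 2 * ∑ s ∈ Finset.Icc 1 H, ∑ t ∈ Finset.Icc 1 H,
        1 / (N : ℝ) * ∑ m ∈ Finset.Icc 1 N,
          R s (fun c => ArithmeticFunction.cardFactors (m + (s + a c))) t
            (ArithmeticFunction.cardFactors (m + t)) =
        2 * (1 / (H : ℝ) ^ 2 * ∑ s ∈ Finset.Icc 1 H, ∑ t ∈ Finset.Icc 1 H,
        1 / (N : ℝ) * ∑ m ∈ Finset.Icc 1 N,
          R s (fun c => ArithmeticFunction.cardFactors (m + (s + a c))) t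
            (ArithmeticFunction.cardFactors (m + t)) / 2) := by
      simp only [← Finset.sum_div]
      have h4 : ∀ z : ℝ, 1 / (N : ℝ) * (z / 2) = (1 / (N : ℝ) * z) / 2 := fun z => by ring
      simp only [h4, ← Finset.sum_div]
      ring
    rw [h3, abs_mul, abs_of_pos (by norm_num : (0 : ℝ) < 2)]
    linarith
  -- the rest, second part
  obtain ⟨r, hr⟩ : ∃ r : ℕ → (Fin k → ℕ) → ℝ,
    r = fun s y => 1 / (H : ℝ) * ∑ t ∈ Finset.Icc 1 H, MRP.mx N (R s y t) := ⟨_, rfl⟩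
  have hr2 : ∀ s y, |r s y| ≤ 2 := by
    intro s y
    rw [hr]
    simp only
    rw [abs_mul, abs_of_nonneg (by positivity : (0 : ℝ) ≤ 1 / (H : ℝ)), one_div,
      inv_mul_le_iff₀ hH0]
    refine (Finset.abs_sum_le_sum_abs _ _).trans ?_
    refine (Finset.sum_le_sum fun t _ => s14_mx_abs N hNone 2 (R s y t) (hR2 s y t)).trans ?_
    rw [Finset.sum_const, Nat.card_Icc, nsmul_eq_mul]
    simp
  have hdomr : ∀ s ∈ Finset.Icc 1 H, 1 / (N : ℝ) * ∑ m ∈ Finset.Icc 1 N,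
      |r s (fun c => ArithmeticFunction.cardFactors (m + (s + a c)))| ≤
        C2 * Ep k N (fun y => |r s y|) + ε / 8 := by
    intro s hs'
    have h1 := hN3' (fun c => s + a c) (fun c c' h => hainj (by simpa using h)) (fun c => by
      have := (Finset.mem_Icc.1 hs').2
      have := haH c
      omega) (fun y => |r s y| / 2) (fun y => ⟨by positivity, by linarith [hr2 s y]⟩)
    have h2 : Ep k N (fun y => |r s y| / 2) = Ep k N (fun y => |r s y|) / 2 := by
      have := s14_Ep_mul k N (1 / 2) (fun y => |r s y|)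
      simp only [div_eq_inv_mul, mul_one] at this ⊢
      exact this
    rw [h2, ← Finset.sum_div] at h1
    have h3 : 1 / (N : ℝ) * ((∑ m ∈ Finset.Icc 1 N,
      |r s (fun c => ArithmeticFunction.cardFactors (m + (s + a c)))|) / 2) =
      (1 / (N : ℝ) * ∑ m ∈ Finset.Icc 1 N,
      |r s (fun c => ArithmeticFunction.cardFactors (m + (s + a c)))|) / 2 := by ring
    rw [h3] at h1
    linarith
  have hEp : 1 / (H : ℝ) * ∑ s ∈ Finset.Icc 1 H, Ep k N (fun y => |r s y|) ≤ δ₁ := by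
    obtain ⟨f, hf⟩ : ∃ f : ℕ → (Fin k → ℕ) → ℝ, f = fun s y => if 0 ≤ r s y then 1 else -1 :=
      ⟨_, rfl⟩
    have hf1 : ∀ s y, |f s y| ≤ 1 := by
      intro s y
      rw [hf]
      simp only
      split_ifs <;> simp
    have hfr : ∀ s y, f s y * r s y = |r s y| := by
      intro s y
      rw [hf]
      simp only
      split_ifs with h
      · rw [abs_of_nonneg h, one_mul]
      · rw [abs_of_neg (not_le.1 h)]
        ring
    have h1 := hcut f (fun _ _ => 1) hf1 (fun _ _ => by simp)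
    refine le_trans (le_of_eq ?_) ((le_abs_self _).trans h1)
    have h2 : ∀ s ∈ Finset.Icc 1 H, ∑ t ∈ Finset.Icc 1 H, Ep (k + 1) N (fun ℓ =>
        R s (fun c => ℓ c.castSucc) t (ℓ (Fin.last k)) * (f s (fun c => ℓ c.castSucc) * 1)) =
        (H : ℝ) * Ep k N (fun y => |r s y|) := by
      intro s _
      have h3 : ∀ t ∈ Finset.Icc 1 H, Ep (k + 1) N (fun ℓ =>
        R s (fun c => ℓ c.castSucc) t (ℓ (Fin.last k)) * (f s (fun c => ℓ c.castSucc) * 1)) =
        Ep k N (fun y => f s y * MRP.mx N (R s y t)) := by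
        intro t _
        rw [Ep_snoc]
        congr 1
        funext y
        rw [← s14_mx_mul]
        congr 1
        funext x
        simp only [Fin.snoc_castSucc, Fin.snoc_last]
        ring
      rw [Finset.sum_congr rfl h3, ← s14_Ep_sum, ← s14_Ep_mul]
      congr 1
      funext y
      rw [← hfr, hr, ← Finset.mul_sum]
      field_simp
    rw [Finset.sum_congr rfl h2, ← Finset.mul_sum]
    field_simp
  have hsecond : |1 / (H : ℝ) ^ 2 * ∑ s ∈ Finset.Icc 1 H, ∑ t ∈ Finset.Icc 1 H,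
        1 / (N : ℝ) * ∑ m ∈ Finset.Icc 1 N,
          MRP.mx N (R s (fun c => ArithmeticFunction.cardFactors (m + (s + a c))) t)| ≤
        ε / 4 + ε / 8 := by
    have h1 : 1 / (H : ℝ) ^ 2 * ∑ s ∈ Finset.Icc 1 H, ∑ t ∈ Finset.Icc 1 H,
        1 / (N : ℝ) * ∑ m ∈ Finset.Icc 1 N,
          MRP.mx N (R s (fun c => ArithmeticFunction.cardFactors (m + (s + a c))) t) =
        1 / (H : ℝ) * ∑ s ∈ Finset.Icc 1 H, (1 / (N : ℝ) * ∑ m ∈ Finset.Icc 1 N,
          r s (fun c => ArithmeticFunction.cardFactors (m + (s + a c)))) := by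
      have h2 : ∀ s ∈ Finset.Icc 1 H, ∑ t ∈ Finset.Icc 1 H,
        1 / (N : ℝ) * ∑ m ∈ Finset.Icc 1 N,
          MRP.mx N (R s (fun c => ArithmeticFunction.cardFactors (m + (s + a c))) t) =
          (H : ℝ) * (1 / (N : ℝ) * ∑ m ∈ Finset.Icc 1 N,
          r s (fun c => ArithmeticFunction.cardFactors (m + (s + a c)))) := by
        intro s _
        rw [← Finset.mul_sum, Finset.sum_comm, ← mul_assoc, mul_comm (H : ℝ), mul_assoc,
          Finset.mul_sum (a := (H : ℝ))]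
        congr 1
        refine Finset.sum_congr rfl fun m _ => ?_
        rw [hr]
        field_simp
      rw [Finset.sum_congr rfl h2, ← Finset.mul_sum]
      field_simp
    rw [h1, abs_mul, abs_of_nonneg (by positivity : (0 : ℝ) ≤ 1 / (H : ℝ))]
    have h3 : |∑ s ∈ Finset.Icc 1 H, (1 / (N : ℝ) * ∑ m ∈ Finset.Icc 1 N,
          r s (fun c => ArithmeticFunction.cardFactors (m + (s + a c))))| ≤
        ∑ s ∈ Finset.Icc 1 H, (C2 * Ep k N (fun y => |r s y|) + ε / 8) := by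
      refine (Finset.abs_sum_le_sum_abs _ _).trans (Finset.sum_le_sum fun s hs' => ?_)
      refine le_trans ?_ (hdomr s hs')
      rw [abs_mul, abs_of_nonneg (by positivity : (0 : ℝ) ≤ 1 / (N : ℝ))]
      exact mul_le_mul_of_nonneg_left (Finset.abs_sum_le_sum_abs _ _) (by positivity)
    refine (mul_le_mul_of_nonneg_left h3 (by positivity)).trans ?_
    rw [Finset.sum_add_distrib, ← Finset.mul_sum, Finset.sum_const, Nat.card_Icc, nsmul_eq_mul,
      mul_add]
    refine add_le_add ?_ ?_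
    · have h4 : 1 / (H : ℝ) * (C2 * ∑ s ∈ Finset.Icc 1 H, Ep k N (fun y => |r s y|)) =
        C2 * (1 / (H : ℝ) * ∑ s ∈ Finset.Icc 1 H, Ep k N (fun y => |r s y|)) := by ring
      rw [h4]
      refine (mul_le_mul_of_nonneg_left (hEp.trans hδ₁2) hC2.le).trans ?_
      rw [← mul_div_assoc, div_le_div_iff₀ (by positivity) (by norm_num)]
      nlinarith
    · simp only [Nat.add_sub_cancel]
      rw [← mul_assoc, one_div, inv_mul_cancel₀ hH0.ne', one_mul]
  have hRav : av k N H a R = 1 / (H : ℝ) ^ 2 * ∑ s ∈ Finset.Icc 1 H, ∑ t ∈ Finset.Icc 1 H,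
        1 / (N : ℝ) * ∑ m ∈ Finset.Icc 1 N,
          R s (fun c => ArithmeticFunction.cardFactors (m + (s + a c))) t
            (ArithmeticFunction.cardFactors (m + t)) -
        1 / (H : ℝ) ^ 2 * ∑ s ∈ Finset.Icc 1 H, ∑ t ∈ Finset.Icc 1 H,
        1 / (N : ℝ) * ∑ m ∈ Finset.Icc 1 N,
          MRP.mx N (R s (fun c => ArithmeticFunction.cardFactors (m + (s + a c))) t) := by
    unfold av
    simp only [Finset.sum_sub_distrib, mul_sub]
  change |av k N H a F| ≤ ε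
  rw [hdec, hRav]
  refine (abs_add_le _ _).trans ?_
  refine (add_le_add (abs_sub _ _) hprod).trans ?_
  linarith

end AS
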