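import Mathlib
import Pool.Agent.Helper6.AS.S14

/-!
# AS-15: every fixed tuple of shifts and one random shift

PROOF.  `H1` from `starP hE k (ε / 8)`, `H0 = max 1 H1`; for `H ≥ H0` use `starP` with `H' = 2 H`
(`a c ≤ H ≤ H'`).
(1) Let `J s t y x = #{m ∈ Icc 1 N : X (m + (s + a c)) = y c ∀ c, X (m + t) = x} / N` and
`L s y = #{m : X (m + (s + a c)) = y c ∀ c} / N`.  For `F s y t x = sign (J s t y x - L s y * lw N x)`:
`(1/N) ∑_m (F s (X..) t (X (m+t)) - mx N (F s (X ..) t)) = ∑_{y,x} |J s t y x - L s y * lw N x|`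
(finite sum over the box of values `< N + 3 H + 1`; `lw_sum`, fiberwise).  So
`(1/(2H)^2) ∑_{s,t ∈ Icc 1 (2H)} ∑_{y,x} |J s t - L s lw| ≤ ε/8`.
(2) For `1 ≤ s, h ≤ H`: `∑_{y,x} |jnt N a h y x - J s (s+h) y x| ≤ 2 s / N` and
`∑_y |lwv N a y - L s y| ≤ 2 s / N` (the maps `n` and `n + s`: `n + a c` against `m + s + a c`; the multisets
`{n ≤ N}` and `{m + s : m ≤ N}` differ in `2 s` elements), so
`∑_{y,x} |jnt N a h - lwv lw| ≤ ∑_{y,x} |J s (s+h) - L s lw| + 4 H / N`.
(3) Average over `s ∈ Icc 1 H`, `h ∈ Icc 1 H` (`t = s + h ≤ 2 H`, `(s,h) ↦ (s,t)` injective):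
`(1/H) ∑_h ∑_{y,x} |..| ≤ (1/H^2) ∑_{s,t ≤ 2H} ∑ |J - L lw| + 4 H / N ≤ 4 ε / 8 + 4 H / N ≤ ε`.
The `tsum` over `(Fin k → ℕ) × ℕ` has finite support (values `≤ N + H`): `tsum_eq_sum`.
-/

set_option autoImplicit false

namespace AS

open Finset Helper13.Om Helper11.QR

theorem s15_card_le (n : ℕ) : ArithmeticFunction.cardFactors n ≤ n := by
  rcases Nat.eq_zero_or_pos n with h | h
  · subst h
    simp
  · have h1 : 2 ^ (ArithmeticFunction.cardFactors n) ≤ n := by
      rw [ArithmeticFunction.cardFactors_apply]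
      have h2 : (2 : ℕ) ^ n.primeFactorsList.length ≤ n.primeFactorsList.prod := by
        refine List.pow_card_le_prod _ _ fun p hp => ?_
        exact (Nat.prime_of_mem_primeFactorsList hp).two_le
      rwa [Nat.prod_primeFactorsList (by omega)] at h2
    exact (Nat.lt_two_pow_self).le.trans h1

/-- The empirical law of a function `g` on `Icc 1 N`. -/
noncomputable def s15_em {α : Type} [DecidableEq α] (N : ℕ) (g : ℕ → α) (v : α) : ℝ :=
  (((Finset.Icc 1 N).filter (fun n => g n = v)).card : ℝ) / (N : ℝ)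

theorem s15_em_nonneg {α : Type} [DecidableEq α] (N : ℕ) (g : ℕ → α) (v : α) :
    0 ≤ s15_em N g v := by
  unfold s15_em
  positivity

theorem s15_em_sum {α : Type} [DecidableEq α] (N : ℕ) (g : ℕ → α) (S : Finset α)
    (hS : ∀ n ∈ Finset.Icc 1 N, g n ∈ S) (f : α → ℝ) :
    1 / (N : ℝ) * ∑ n ∈ Finset.Icc 1 N, f (g n) = ∑ v ∈ S, s15_em N g v * f v := by
  rw [← Finset.sum_fiberwise_of_maps_to hS, Finset.mul_sum]
  refine Finset.sum_congr rfl fun v _ => ?_
  rw [Finset.sum_congr rfl (g := fun _ => f v) (fun n hn => by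
    rw [(Finset.mem_filter.mp hn).2]), Finset.sum_const, nsmul_eq_mul]
  unfold s15_em
  ring

theorem s15_em_total {α : Type} [DecidableEq α] (N : ℕ) (g : ℕ → α) (S : Finset α) :
    ∑ v ∈ S, s15_em N g v ≤ 1 := by
  unfold s15_em
  rw [← Finset.sum_div]
  refine div_le_one_of_le₀ ?_ (by positivity)
  have h1 : ∑ v ∈ S, (((Finset.Icc 1 N).filter (fun n => g n = v)).card) ≤
      (Finset.Icc 1 N).card := by
    rw [← Finset.card_biUnion]
    · exact Finset.card_le_card (by
        intro n hn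
        rw [Finset.mem_biUnion] at hn
        obtain ⟨v, _, hv⟩ := hn
        exact (Finset.mem_filter.mp hv).1)
    · intro v _ w _ hvw
      rw [Function.onFun, Finset.disjoint_left]
      intro n hn hn'
      exact hvw ((Finset.mem_filter.mp hn).2.symm.trans (Finset.mem_filter.mp hn').2)
  rw [Nat.card_Icc, Nat.add_sub_cancel] at h1
  exact_mod_cast h1

theorem s15_fib_le {α : Type} [DecidableEq α] (T : Finset ℕ) (g : ℕ → α)
    (S : Finset α) :
    ∑ v ∈ S, ((T.filter (fun n => g n = v)).card : ℝ) ≤ T.card := by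
  have h1 : ∑ v ∈ S, ((T.filter (fun n => g n = v)).card) ≤ T.card := by
    rw [← Finset.card_biUnion]
    · exact Finset.card_le_card (by
        intro n hn
        rw [Finset.mem_biUnion] at hn
        obtain ⟨v, _, hv⟩ := hn
        exact (Finset.mem_filter.mp hv).1)
    · intro v _ w _ hvw
      rw [Function.onFun, Finset.disjoint_left]
      intro n hn hn'
      exact hvw ((Finset.mem_filter.mp hn).2.symm.trans (Finset.mem_filter.mp hn').2)
  exact_mod_cast h1

theorem s15_shift {α : Type} [DecidableEq α] (N s : ℕ) (g : ℕ → α)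
    (S : Finset α) :
    ∑ v ∈ S, |s15_em N g v - s15_em N (fun n => g (n + s)) v| ≤ 2 * s / N := by
  have key : ∀ v, |s15_em N g v - s15_em N (fun n => g (n + s)) v| ≤
      ((((Finset.Icc 1 s).filter (fun n => g n = v)).card : ℝ) +
        (((Finset.Icc (N + 1) (N + s)).filter (fun n => g n = v)).card : ℝ)) / N := by
    intro v
    have h1 : ((Finset.Icc 1 N).filter (fun n => g (n + s) = v)).card =
        ((Finset.Icc (s + 1) (N + s)).filter (fun n => g n = v)).card := by
      refine Finset.card_bij (fun n _ => n + s) ?_ ?_ ?_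
      · intro n hn
        rw [Finset.mem_filter, Finset.mem_Icc] at hn ⊢
        exact ⟨⟨by omega, by omega⟩, hn.2⟩
      · intro n _ n' _ hnn
        have : n + s = n' + s := hnn
        omega
      · intro n hn
        rw [Finset.mem_filter, Finset.mem_Icc] at hn
        refine ⟨n - s, ?_, by omega⟩
        rw [Finset.mem_filter, Finset.mem_Icc]
        refine ⟨⟨by omega, by omega⟩, ?_⟩
        rw [Nat.sub_add_cancel (by omega)]
        exact hn.2
    have h2 : ((Finset.Icc 1 N).filter (fun n => g n = v)).card +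
        ((Finset.Icc (N + 1) (N + s)).filter (fun n => g n = v)).card =
        ((Finset.Icc 1 (N + s)).filter (fun n => g n = v)).card := by
      rw [← Finset.card_union_of_disjoint, ← Finset.filter_union]
      · congr 2
        ext n
        simp only [Finset.mem_union, Finset.mem_Icc]
        omega
      · refine Finset.disjoint_filter_filter ?_
        rw [Finset.disjoint_left]
        intro n hn hn'
        rw [Finset.mem_Icc] at hn hn'
        omega
    have h3 : ((Finset.Icc 1 s).filter (fun n => g n = v)).card +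
        ((Finset.Icc (s + 1) (N + s)).filter (fun n => g n = v)).card =
        ((Finset.Icc 1 (N + s)).filter (fun n => g n = v)).card := by
      rw [← Finset.card_union_of_disjoint, ← Finset.filter_union]
      · congr 2
        ext n
        simp only [Finset.mem_union, Finset.mem_Icc]
        omega
      · refine Finset.disjoint_filter_filter ?_
        rw [Finset.disjoint_left]
        intro n hn hn'
        rw [Finset.mem_Icc] at hn hn'
        omega
    have h2' : (((Finset.Icc 1 N).filter (fun n => g n = v)).card : ℝ) +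
        (((Finset.Icc (N + 1) (N + s)).filter (fun n => g n = v)).card : ℝ) =
        (((Finset.Icc 1 s).filter (fun n => g n = v)).card : ℝ) +
        (((Finset.Icc (s + 1) (N + s)).filter (fun n => g n = v)).card : ℝ) := by
      exact_mod_cast h2.trans h3.symm
    unfold s15_em
    rw [h1, ← sub_div, abs_div, abs_of_nonneg (Nat.cast_nonneg N : (0 : ℝ) ≤ N)]
    refine div_le_div_of_nonneg_right ?_ (Nat.cast_nonneg N)
    have a1 : (0 : ℝ) ≤ (((Finset.Icc 1 s).filter (fun n => g n = v)).card : ℝ) := by positivity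
    have a2 : (0 : ℝ) ≤ (((Finset.Icc (N + 1) (N + s)).filter (fun n => g n = v)).card : ℝ) := by
      positivity
    rw [abs_le]
    constructor <;> linarith
  refine (Finset.sum_le_sum fun v _ => key v).trans ?_
  rw [← Finset.sum_div, Finset.sum_add_distrib]
  refine div_le_div_of_nonneg_right ?_ (Nat.cast_nonneg N)
  have b1 := s15_fib_le (Finset.Icc 1 s) g S
  have b2 := s15_fib_le (Finset.Icc (N + 1) (N + s)) g S
  rw [Nat.card_Icc] at b1 b2
  have b3 : ((s + 1 - 1 : ℕ) : ℝ) = s := by simp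
  have b4 : ((N + s + 1 - (N + 1) : ℕ) : ℝ) = s := by
    congr 1
    omega
  rw [b3] at b1
  rw [b4] at b2
  linarith

/-- The values of `Ω` at the sites. -/
def s15_vec {k : ℕ} (a : Fin k → ℕ) (n : ℕ) : Fin k → ℕ :=
  fun c => ArithmeticFunction.cardFactors (n + a c)

theorem s15_jnt {k : ℕ} (N : ℕ) (a : Fin k → ℕ) (t : ℕ) (y : Fin k → ℕ) (x : ℕ) :
    jnt N a t y x = s15_em N (fun n => (s15_vec a n, ArithmeticFunction.cardFactors (n + t)))
      (y, x) := by
  unfold jnt s15_em s15_vec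
  congr 2
  refine congrArg _ (Finset.filter_congr fun n _ => ?_)
  rw [Prod.mk.injEq, funext_iff]

theorem s15_lwv {k : ℕ} (N : ℕ) (a : Fin k → ℕ) (y : Fin k → ℕ) :
    lwv N a y = s15_em N (s15_vec a) y := by
  unfold lwv s15_em s15_vec
  congr 2
  refine congrArg _ (Finset.filter_congr fun n _ => ?_)
  rw [funext_iff]

theorem s15_lw (N x : ℕ) :
    lw N x = s15_em N (fun n => ArithmeticFunction.cardFactors n) x := rfl

theorem s15_mx (N R : ℕ) (hR : N < R) (f : ℕ → ℝ) :
    MRP.mx N f = ∑ x ∈ Finset.range R, lw N x * f x := by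
  have h := s15_em_sum N (fun n => ArithmeticFunction.cardFactors n) (Finset.range R)
    (fun n hn => by
      rw [Finset.mem_Icc] at hn
      rw [Finset.mem_range]
      have := s15_card_le n
      omega) f
  unfold MRP.mx
  rw [div_eq_mul_one_div, mul_comm]
  exact h

/-- The box of all values. -/
def s15_box (k R : ℕ) : Finset ((Fin k → ℕ) × ℕ) :=
  (Fintype.piFinset (fun _ : Fin k => Finset.range R)) ×ˢ Finset.range R

theorem s15_ident {k : ℕ} (N R D : ℕ) (a : Fin k → ℕ) (t : ℕ) (ha : ∀ c, a c ≤ D)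
    (ht : t ≤ D) (hR : N + D < R) (F : (Fin k → ℕ) → ℕ → ℝ) :
    1 / (N : ℝ) * ∑ m ∈ Finset.Icc 1 N,
      (F (s15_vec a m) (ArithmeticFunction.cardFactors (m + t)) - MRP.mx N (F (s15_vec a m))) =
    ∑ p ∈ s15_box k R, F p.1 p.2 * (jnt N a t p.1 p.2 - lwv N a p.1 * lw N p.2) := by
  rw [Finset.sum_sub_distrib, mul_sub]
  have hv : ∀ n ∈ Finset.Icc 1 N, s15_vec a n ∈ Fintype.piFinset
      (fun _ : Fin k => Finset.range R) := by
    intro n hn
    rw [Finset.mem_Icc] at hn
    rw [Fintype.mem_piFinset]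
    intro c
    rw [Finset.mem_range]
    have h1 := s15_card_le (n + a c)
    have h2 := ha c
    unfold s15_vec
    omega
  have e1 := s15_em_sum N (fun n => (s15_vec a n, ArithmeticFunction.cardFactors (n + t)))
    (s15_box k R) (fun n hn => by
      unfold s15_box
      rw [Finset.mem_product]
      refine ⟨hv n hn, ?_⟩
      rw [Finset.mem_Icc] at hn
      rw [Finset.mem_range]
      have h1 := s15_card_le (n + t)
      show ArithmeticFunction.cardFactors (n + t) < R
      omega) (fun p => F p.1 p.2)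
  have e2 := s15_em_sum N (s15_vec a) (Fintype.piFinset (fun _ : Fin k => Finset.range R)) hv
    (fun y => MRP.mx N (F y))
  have e1' : 1 / (N : ℝ) * ∑ m ∈ Finset.Icc 1 N,
      F (s15_vec a m) (ArithmeticFunction.cardFactors (m + t)) =
      ∑ p ∈ s15_box k R, F p.1 p.2 * jnt N a t p.1 p.2 := by
    refine e1.trans (Finset.sum_congr rfl fun p _ => ?_)
    rw [s15_jnt, mul_comm]
  have e2' : 1 / (N : ℝ) * ∑ m ∈ Finset.Icc 1 N, MRP.mx N (F (s15_vec a m)) =
      ∑ p ∈ s15_box k R, F p.1 p.2 * (lwv N a p.1 * lw N p.2) := by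
    refine e2.trans ?_
    unfold s15_box
    rw [Finset.sum_product]
    refine Finset.sum_congr rfl fun y _ => ?_
    rw [s15_mx N R (by omega), Finset.mul_sum]
    refine Finset.sum_congr rfl fun x _ => ?_
    rw [s15_lwv]
    ring
  rw [e1', e2', ← Finset.sum_sub_distrib]
  refine Finset.sum_congr rfl fun p _ => ?_
  ring

/-- The distance on the box. -/
noncomputable def s15_dist {k : ℕ} (N R : ℕ) (a : Fin k → ℕ) (t : ℕ) : ℝ :=
  ∑ p ∈ s15_box k R, |jnt N a t p.1 p.2 - lwv N a p.1 * lw N p.2|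

theorem s15_dist_nonneg {k : ℕ} (N R : ℕ) (a : Fin k → ℕ) (t : ℕ) :
    0 ≤ s15_dist N R a t := Finset.sum_nonneg fun _ _ => abs_nonneg _

theorem s15_tsum {k : ℕ} (N R D : ℕ) (a : Fin k → ℕ) (t : ℕ) (ha : ∀ c, a c ≤ D)
    (ht : t ≤ D) (hR : N + D < R) :
    ∑' p : (Fin k → ℕ) × ℕ, |jnt N a t p.1 p.2 - lwv N a p.1 * lw N p.2| =
      s15_dist N R a t := by
  unfold s15_dist
  refine tsum_eq_sum fun p hp => ?_
  unfold s15_box at hp
  rw [Finset.mem_product, not_and_or] at hp
  have hz : ∀ n ∈ Finset.Icc 1 N, ∀ d ≤ D, ArithmeticFunction.cardFactors (n + d) < R := by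
    intro n hn d hd
    rw [Finset.mem_Icc] at hn
    have h1 := s15_card_le (n + d)
    omega
  have h1 : jnt N a t p.1 p.2 = 0 := by
    unfold jnt
    rw [Finset.filter_eq_empty_iff.mpr, Finset.card_empty, Nat.cast_zero, zero_div]
    intro n hn hh
    rcases hp with hp | hp
    · apply hp
      rw [Fintype.mem_piFinset]
      intro c
      rw [Finset.mem_range, ← hh.1 c]
      exact hz n hn _ (ha c)
    · apply hp
      rw [Finset.mem_range, ← hh.2]
      exact hz n hn _ ht
  have h2 : lwv N a p.1 * lw N p.2 = 0 := by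
    rcases hp with hp | hp
    · have : lwv N a p.1 = 0 := by
        unfold lwv
        rw [Finset.filter_eq_empty_iff.mpr, Finset.card_empty, Nat.cast_zero, zero_div]
        intro n hn hh
        apply hp
        rw [Fintype.mem_piFinset]
        intro c
        rw [Finset.mem_range, ← hh c]
        exact hz n hn _ (ha c)
      rw [this, zero_mul]
    · have : lw N p.2 = 0 := by
        unfold lw
        rw [Finset.filter_eq_empty_iff.mpr, Finset.card_empty, Nat.cast_zero, zero_div]
        intro n hn hh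
        apply hp
        rw [Finset.mem_range, ← hh]
        exact hz n hn 0 (by omega)
      rw [this, mul_zero]
  rw [h1, h2, sub_zero, abs_zero]

theorem s15_move {k : ℕ} (N R : ℕ) (a : Fin k → ℕ) (h s : ℕ) :
    s15_dist N R a h ≤ s15_dist N R (fun c => s + a c) (s + h) + 4 * s / N := by
  have e1 : ∀ p : (Fin k → ℕ) × ℕ, jnt N (fun c => s + a c) (s + h) p.1 p.2 =
      s15_em N (fun n => (fun m => (s15_vec a m, ArithmeticFunction.cardFactors (m + h)))
        (n + s)) p := by
    intro p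
    rw [s15_jnt]
    congr 1
    funext n
    unfold s15_vec
    simp only [Nat.add_assoc]
  have e2 : ∀ y : Fin k → ℕ, lwv N (fun c => s + a c) y =
      s15_em N (fun n => s15_vec a (n + s)) y := by
    intro y
    rw [s15_lwv]
    congr 1
    funext n
    unfold s15_vec
    simp only [Nat.add_assoc]
  have h1 := s15_shift N s (fun m => (s15_vec a m, ArithmeticFunction.cardFactors (m + h)))
    (s15_box k R)
  have h2 := s15_shift N s (s15_vec a) (Fintype.piFinset (fun _ : Fin k => Finset.range R))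
  have h3 : ∑ p ∈ s15_box k R, |lwv N (fun c => s + a c) p.1 - lwv N a p.1| * lw N p.2 ≤
      2 * s / N := by
    unfold s15_box
    rw [Finset.sum_product]
    have h4 : ∀ y ∈ Fintype.piFinset (fun _ : Fin k => Finset.range R),
        ∑ x ∈ Finset.range R, |lwv N (fun c => s + a c) y - lwv N a y| * lw N x ≤
          |s15_em N (s15_vec a) y - s15_em N (fun n => s15_vec a (n + s)) y| := by
      intro y _
      rw [← Finset.mul_sum, e2, s15_lwv, abs_sub_comm]
      have h5 : ∑ x ∈ Finset.range R, lw N x ≤ 1 :=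
        s15_em_total N (fun n => ArithmeticFunction.cardFactors n) (Finset.range R)
      exact mul_le_of_le_one_right (abs_nonneg _) h5
    exact (Finset.sum_le_sum h4).trans h2
  have key : ∀ p : (Fin k → ℕ) × ℕ, |jnt N a h p.1 p.2 - lwv N a p.1 * lw N p.2| ≤
      |jnt N (fun c => s + a c) (s + h) p.1 p.2 - lwv N (fun c => s + a c) p.1 * lw N p.2| +
      |s15_em N (fun m => (s15_vec a m, ArithmeticFunction.cardFactors (m + h))) p -
        s15_em N (fun n => (fun m => (s15_vec a m, ArithmeticFunction.cardFactors (m + h)))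
        (n + s)) p| + |lwv N (fun c => s + a c) p.1 - lwv N a p.1| * lw N p.2 := by
    intro p
    have hl : 0 ≤ lw N p.2 := s15_em_nonneg N _ _
    rw [← e1 p]
    have e3 : s15_em N (fun m => (s15_vec a m, ArithmeticFunction.cardFactors (m + h))) p =
        jnt N a h p.1 p.2 := by rw [s15_jnt]
    rw [e3, ← abs_of_nonneg hl, ← abs_mul, abs_of_nonneg hl]
    have e4 : jnt N a h p.1 p.2 - lwv N a p.1 * lw N p.2 =
        (jnt N (fun c => s + a c) (s + h) p.1 p.2 - lwv N (fun c => s + a c) p.1 * lw N p.2) +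
        (jnt N a h p.1 p.2 - jnt N (fun c => s + a c) (s + h) p.1 p.2) +
        (lwv N (fun c => s + a c) p.1 - lwv N a p.1) * lw N p.2 := by ring
    rw [e4]
    exact (abs_add_le _ _).trans (add_le_add (abs_add_le _ _) le_rfl)
  unfold s15_dist
  refine (Finset.sum_le_sum fun p _ => key p).trans ?_
  rw [Finset.sum_add_distrib, Finset.sum_add_distrib]
  have h6 : (4 : ℝ) * s / N = 2 * s / N + 2 * s / N := by ring
  rw [h6]
  linarith

theorem star (hE : MRP.EXPx) (k : ℕ) (ε : ℝ) (hε : 0 < ε) : ∃ H0 : ℕ, ∀ H : ℕ, H0 ≤ H →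
    ∃ N0 : ℕ, ∀ N : ℕ, N0 ≤ N → ∀ a : Fin k → ℕ, Function.Injective a → (∀ c, a c ≤ H) →
      1 / (H : ℝ) * ∑ h ∈ Finset.Icc 1 H,
        ∑' p : (Fin k → ℕ) × ℕ, |jnt N a h p.1 p.2 - lwv N a p.1 * lw N p.2| ≤ ε := by
  classical
  obtain ⟨H1, hH1⟩ := starP hE k (ε / 8) (by positivity)
  refine ⟨max 1 H1, fun H hH => ?_⟩
  have hH1' : H1 ≤ 2 * H := by
    have := le_max_right 1 H1
    omega
  have hHpos : 1 ≤ H := (le_max_left 1 H1).trans hH
  have hHR : (0 : ℝ) < H := by exact_mod_cast hHpos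
  obtain ⟨N1, hN1⟩ := hH1 (2 * H) hH1'
  refine ⟨max N1 (⌈8 * (H : ℝ) / ε⌉₊ + 1), fun N hN a ha haH => ?_⟩
  have hN1' : N1 ≤ N := (le_max_left _ _).trans hN
  have hNc : ⌈8 * (H : ℝ) / ε⌉₊ + 1 ≤ N := (le_max_right _ _).trans hN
  have hNR : (0 : ℝ) < N := by
    have : 0 < N := by omega
    exact_mod_cast this
  have hN8 : 8 * (H : ℝ) / ε ≤ N := by
    have h1 := Nat.le_ceil (8 * (H : ℝ) / ε)
    have h2 : ((⌈8 * (H : ℝ) / ε⌉₊ : ℕ) : ℝ) ≤ N := by
      have : ⌈8 * (H : ℝ) / ε⌉₊ ≤ N := by omega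
      exact_mod_cast this
    linarith
  set R : ℕ := N + 3 * H + 1 with hR
  -- the sum over pairs of positions
  set E : ℕ → ℕ → ℝ := fun s t => s15_dist N R (fun c => s + a c) t with hEdef
  have hE0 : ∀ s t, 0 ≤ E s t := fun s t => s15_dist_nonneg N R _ t
  have hpair : 1 / ((2 * H : ℕ) : ℝ) ^ 2 * ∑ s ∈ Finset.Icc 1 (2 * H),
      ∑ t ∈ Finset.Icc 1 (2 * H), E s t ≤ ε / 8 := by
    have h := hN1 N hN1' a ha (fun c => (haH c).trans (by omega))
      (fun s y t x => if 0 ≤ jnt N (fun c => s + a c) t y x -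
        lwv N (fun c => s + a c) y * lw N x then 1 else -1) (by
        intro s y t x
        split_ifs <;> simp)
    refine (le_of_eq ?_).trans ((le_abs_self _).trans h)
    congr 1
    refine Finset.sum_congr rfl fun s hs => Finset.sum_congr rfl fun t ht => ?_
    rw [Finset.mem_Icc] at hs ht
    have hid := s15_ident N R (3 * H) (fun c => s + a c) t (fun c => by
      have := haH c
      omega) (by omega) (by omega) (fun y x => if 0 ≤ jnt N (fun c => s + a c) t y x -
        lwv N (fun c => s + a c) y * lw N x then 1 else -1)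
    rw [hEdef]
    refine Eq.trans ?_ hid.symm
    show s15_dist N R (fun c => s + a c) t = _
    unfold s15_dist
    refine Finset.sum_congr rfl fun p _ => ?_
    split_ifs with hp
    · rw [one_mul, abs_of_nonneg hp]
    · rw [neg_one_mul, abs_of_neg (not_le.mp hp)]
  have hpair' : ∑ s ∈ Finset.Icc 1 (2 * H), ∑ t ∈ Finset.Icc 1 (2 * H), E s t ≤
      ε / 2 * (H : ℝ) ^ 2 := by
    have h4 : ((2 * H : ℕ) : ℝ) ^ 2 = 4 * (H : ℝ) ^ 2 := by
      push_cast
      ring
    rw [h4, one_div_mul_eq_div, div_le_iff₀ (by positivity)] at hpair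
    linarith
  -- moving
  have hmove : ∀ h ∈ Finset.Icc 1 H, ∀ s ∈ Finset.Icc 1 H,
      s15_dist N R a h ≤ E s (s + h) + 4 * H / N := by
    intro h _ s hs
    rw [Finset.mem_Icc] at hs
    have h1 := s15_move N R a h s
    have h2 : (4 : ℝ) * s / N ≤ 4 * H / N := by
      have : (s : ℝ) ≤ H := by exact_mod_cast hs.2
      gcongr
    linarith
  have hsum : (H : ℝ) * ∑ h ∈ Finset.Icc 1 H, s15_dist N R a h ≤
      ∑ s ∈ Finset.Icc 1 (2 * H), ∑ t ∈ Finset.Icc 1 (2 * H), E s t +
        (H : ℝ) ^ 2 * (4 * H / N) := by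
    have h1 : (H : ℝ) * ∑ h ∈ Finset.Icc 1 H, s15_dist N R a h =
        ∑ s ∈ Finset.Icc 1 H, ∑ h ∈ Finset.Icc 1 H, s15_dist N R a h := by
      rw [Finset.sum_const, Nat.card_Icc, Nat.add_sub_cancel, nsmul_eq_mul]
    rw [h1]
    have h2 : ∑ s ∈ Finset.Icc 1 H, ∑ h ∈ Finset.Icc 1 H, s15_dist N R a h ≤
        ∑ s ∈ Finset.Icc 1 H, ∑ h ∈ Finset.Icc 1 H, (E s (s + h) + 4 * H / N) :=
      Finset.sum_le_sum fun s hs => Finset.sum_le_sum fun h hh => hmove h hh s hs
    refine h2.trans ?_
    have h3 : ∑ s ∈ Finset.Icc 1 H, ∑ h ∈ Finset.Icc 1 H, (E s (s + h) + 4 * (H : ℝ) / N) =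
        ∑ s ∈ Finset.Icc 1 H, ∑ h ∈ Finset.Icc 1 H, E s (s + h) +
          (H : ℝ) ^ 2 * (4 * H / N) := by
      rw [← Finset.sum_congr rfl fun s _ => (Finset.sum_add_distrib (s := Finset.Icc 1 H)
        (f := fun h => E s (s + h)) (g := fun _ => 4 * (H : ℝ) / N)).symm,
        Finset.sum_add_distrib]
      congr 1
      simp only [Finset.sum_const, Nat.card_Icc, Nat.add_sub_cancel, nsmul_eq_mul]
      ring
    rw [h3]
    refine add_le_add ?_ le_rfl
    have h4 : ∀ s ∈ Finset.Icc 1 H, ∑ h ∈ Finset.Icc 1 H, E s (s + h) ≤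
        ∑ t ∈ Finset.Icc 1 (2 * H), E s t := by
      intro s hs
      rw [Finset.mem_Icc] at hs
      have h5 : ∑ h ∈ Finset.Icc 1 H, E s (s + h) =
          ∑ t ∈ (Finset.Icc 1 H).image (fun h => s + h), E s t := by
        rw [Finset.sum_image]
        intro x _ y _ hxy
        have : s + x = s + y := hxy
        omega
      rw [h5]
      refine Finset.sum_le_sum_of_subset_of_nonneg ?_ fun t _ _ => hE0 s t
      intro t ht
      rw [Finset.mem_image] at ht
      obtain ⟨h, hh, rfl⟩ := ht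
      rw [Finset.mem_Icc] at hh ⊢
      omega
    refine (Finset.sum_le_sum h4).trans ?_
    refine Finset.sum_le_sum_of_subset_of_nonneg (Finset.Icc_subset_Icc_right (by omega)) ?_
    intro s _ _
    exact Finset.sum_nonneg fun t _ => hE0 s t
  have htot : ∑ h ∈ Finset.Icc 1 H, s15_dist N R a h ≤ ε * H := by
    have h1 : (H : ℝ) * ∑ h ∈ Finset.Icc 1 H, s15_dist N R a h ≤ (H : ℝ) * (ε * H) := by
      refine hsum.trans ?_
      have h2 : (4 : ℝ) * H / N ≤ ε / 2 := by
        rw [div_le_iff₀ hε] at hN8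
        rw [div_le_iff₀ hNR]
        linarith
      have h3 : (H : ℝ) ^ 2 * (4 * H / N) ≤ (H : ℝ) ^ 2 * (ε / 2) :=
        mul_le_mul_of_nonneg_left h2 (by positivity)
      nlinarith
    exact le_of_mul_le_mul_left h1 hHR
  have hfin : ∑ h ∈ Finset.Icc 1 H,
      ∑' p : (Fin k → ℕ) × ℕ, |jnt N a h p.1 p.2 - lwv N a p.1 * lw N p.2| =
      ∑ h ∈ Finset.Icc 1 H, s15_dist N R a h := by
    refine Finset.sum_congr rfl fun h hh => ?_
    rw [Finset.mem_Icc] at hh
    exact s15_tsum N R H a h haH hh.2 (by omega)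
  rw [hfin, one_div_mul_eq_div, div_le_iff₀ hHR]
  exact htot

end AS
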