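import Mathlib
import Pool.Agent.Helper6.AS.S15

/-!
# AS-17: a fixed tuple `a` and a random tuple `h`

Induction on the length `m` of the random tuple; each step is `star` for the tuple
`Fin.append a h'`.
-/

set_option autoImplicit false

namespace AS

open Finset Helper13.Om Helper11.QR

/-- All vectors of length `n` with values `< R`. -/
def PR (n R : ℕ) : Finset (Fin n → ℕ) := Fintype.piFinset (fun _ : Fin n => Finset.range R)

/-- All vectors of length `n` with values in `1, ..., H`. -/
def PI (n H : ℕ) : Finset (Fin n → ℕ) := Fintype.piFinset (fun _ : Fin n => Finset.Icc 1 H)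

theorem s17_pi_succ (n : ℕ) (T : Finset ℕ) (F : (Fin (n + 1) → ℕ) → ℝ) :
    ∑ x ∈ Fintype.piFinset (fun _ : Fin (n + 1) => T), F x =
      ∑ x ∈ Fintype.piFinset (fun _ : Fin n => T), ∑ w ∈ T, F (Fin.snoc x w) := by
  rw [← Finset.sum_product']
  refine Finset.sum_bij' (fun x _ => (Fin.init x, x (Fin.last n)))
    (fun p _ => (Fin.snoc p.1 p.2 : Fin (n + 1) → ℕ)) ?_ ?_ ?_ ?_ ?_
  · intro x hx
    rw [Fintype.mem_piFinset] at hx
    rw [Finset.mem_product]
    exact ⟨Fintype.mem_piFinset.mpr fun i => hx i.castSucc, hx (Fin.last n)⟩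
  · intro p hp
    rw [Finset.mem_product, Fintype.mem_piFinset] at hp
    rw [Fintype.mem_piFinset]
    intro i
    refine Fin.lastCases ?_ (fun j => ?_) i
    · rw [Fin.snoc_last]
      exact hp.2
    · rw [Fin.snoc_castSucc]
      exact hp.1 j
  · intro x _
    exact Fin.snoc_init_self x
  · intro p _
    show (Fin.init (Fin.snoc p.1 p.2 : Fin (n + 1) → ℕ), (Fin.snoc p.1 p.2 : Fin (n + 1) → ℕ)
      (Fin.last n)) = p
    rw [Fin.init_snoc, Fin.snoc_last]
  · intro x _
    show F x = F (Fin.snoc (Fin.init x) (x (Fin.last n)))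
    rw [Fin.snoc_init_self]

theorem s17_pi_add (k m R : ℕ) (F : (Fin (k + m) → ℕ) → ℝ) :
    ∑ z ∈ PR (k + m) R, F z = ∑ y ∈ PR k R, ∑ x ∈ PR m R, F (Fin.append y x) := by
  rw [← Finset.sum_product']
  refine Finset.sum_bij' (fun z _ => ((fun c => z (Fin.castAdd m c)), fun j => z (Fin.natAdd k j)))
    (fun p _ => Fin.append p.1 p.2) ?_ ?_ ?_ ?_ ?_
  · intro z hz
    unfold PR at hz ⊢
    rw [Fintype.mem_piFinset] at hz
    rw [Finset.mem_product]
    exact ⟨Fintype.mem_piFinset.mpr fun i => hz _, Fintype.mem_piFinset.mpr fun i => hz _⟩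
  · intro p hp
    unfold PR at hp ⊢
    rw [Finset.mem_product, Fintype.mem_piFinset, Fintype.mem_piFinset] at hp
    rw [Fintype.mem_piFinset]
    intro i
    refine Fin.addCases (fun c => ?_) (fun j => ?_) i
    · rw [Fin.append_left]
      exact hp.1 c
    · rw [Fin.append_right]
      exact hp.2 j
  · intro z _
    exact Fin.append_castAdd_natAdd
  · intro p _
    show ((fun c => Fin.append p.1 p.2 (Fin.castAdd m c)),
      fun j => Fin.append p.1 p.2 (Fin.natAdd k j)) = p
    simp only [Fin.append_left, Fin.append_right]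
  · intro z _
    show F z = F (Fin.append (fun c => z (Fin.castAdd m c)) fun j => z (Fin.natAdd k j))
    rw [Fin.append_castAdd_natAdd]

/-- The joint law of the values at `a` and at `h`, as a set count. -/
theorem s17_append {k m : ℕ} (N : ℕ) (a : Fin k → ℕ) (h : Fin m → ℕ) (y : Fin k → ℕ)
    (x : Fin m → ℕ) : lwv N (Fin.append a h) (Fin.append y x) =
      (((Finset.Icc 1 N).filter (fun n => (∀ c, ArithmeticFunction.cardFactors (n + a c) = y c) ∧
        ∀ j, ArithmeticFunction.cardFactors (n + h j) = x j)).card : ℝ) / (N : ℝ) := by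
  unfold lwv
  congr 2
  refine congrArg _ (Finset.filter_congr fun n _ => ?_)
  constructor
  · intro hh
    constructor
    · intro c
      have := hh (Fin.castAdd m c)
      rwa [Fin.append_left, Fin.append_left] at this
    · intro j
      have := hh (Fin.natAdd k j)
      rwa [Fin.append_right, Fin.append_right] at this
  · intro hh i
    refine Fin.addCases (fun c => ?_) (fun j => ?_) i
    · rw [Fin.append_left, Fin.append_left]
      exact hh.1 c
    · rw [Fin.append_right, Fin.append_right]
      exact hh.2 j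

theorem s17_snoc {k m : ℕ} (N : ℕ) (a : Fin k → ℕ) (h : Fin m → ℕ) (t : ℕ) (y : Fin k → ℕ)
    (x : Fin m → ℕ) (w : ℕ) :
    lwv N (Fin.append a (Fin.snoc h t : Fin (m + 1) → ℕ))
      (Fin.append y (Fin.snoc x w : Fin (m + 1) → ℕ)) =
      jnt N (Fin.append a h) t (Fin.append y x) w := by
  rw [s17_append]
  unfold jnt
  congr 2
  refine congrArg _ (Finset.filter_congr fun n _ => ?_)
  constructor
  · intro hh
    constructor
    · intro i
      refine Fin.addCases (fun c => ?_) (fun j => ?_) i
      · rw [Fin.append_left, Fin.append_left]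
        exact hh.1 c
      · rw [Fin.append_right, Fin.append_right]
        have := hh.2 j.castSucc
        rwa [Fin.snoc_castSucc, Fin.snoc_castSucc] at this
    · have := hh.2 (Fin.last m)
      rwa [Fin.snoc_last, Fin.snoc_last] at this
  · intro hh
    constructor
    · intro c
      have := hh.1 (Fin.castAdd m c)
      rwa [Fin.append_left, Fin.append_left] at this
    · intro i
      refine Fin.lastCases ?_ (fun j => ?_) i
      · rw [Fin.snoc_last, Fin.snoc_last]
        exact hh.2
      · rw [Fin.snoc_castSucc, Fin.snoc_castSucc]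
        have := hh.1 (Fin.natAdd k j)
        rwa [Fin.append_right, Fin.append_right] at this

/-- The distance between the joint law and the product law. -/
noncomputable def s17D {k m : ℕ} (N R : ℕ) (a : Fin k → ℕ) (h : Fin m → ℕ) : ℝ :=
  ∑ y ∈ PR k R, ∑ x ∈ PR m R,
    |lwv N (Fin.append a h) (Fin.append y x) - lwv N a y * ∏ j, lw N (x j)|

theorem s17_lw_nonneg (N x : ℕ) : 0 ≤ lw N x := s15_em_nonneg N _ _

theorem s17_lwv_nonneg {k : ℕ} (N : ℕ) (a y : Fin k → ℕ) : 0 ≤ lwv N a y := by
  rw [s15_lwv]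
  exact s15_em_nonneg N _ _

theorem s17_lw_total (N R : ℕ) : ∑ x ∈ Finset.range R, lw N x ≤ 1 :=
  s15_em_total N (fun n => ArithmeticFunction.cardFactors n) (Finset.range R)

theorem s17_lwv_total {k : ℕ} (N R : ℕ) (a : Fin k → ℕ) : ∑ y ∈ PR k R, lwv N a y ≤ 1 := by
  rw [Finset.sum_congr rfl fun y _ => s15_lwv N a y]
  exact s15_em_total N (s15_vec a) (PR k R)

theorem s17_prod_total (N R m : ℕ) : ∑ x ∈ PR m R, ∏ j, lw N (x j) ≤ 1 := by
  have h1 := Finset.prod_univ_sum (fun _ : Fin m => Finset.range R) (fun _ x => lw N x)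
  unfold PR
  rw [← h1]
  exact Finset.prod_le_one (fun _ _ => Finset.sum_nonneg fun x _ => s17_lw_nonneg N x)
    (fun _ _ => s17_lw_total N R)

theorem s17D_nonneg {k m : ℕ} (N R : ℕ) (a : Fin k → ℕ) (h : Fin m → ℕ) : 0 ≤ s17D N R a h :=
  Finset.sum_nonneg fun _ _ => Finset.sum_nonneg fun _ _ => abs_nonneg _

theorem s17D_le {k m : ℕ} (N R : ℕ) (a : Fin k → ℕ) (h : Fin m → ℕ) : s17D N R a h ≤ 2 := by
  have h1 : s17D N R a h ≤ ∑ y ∈ PR k R, ∑ x ∈ PR m R,
      (lwv N (Fin.append a h) (Fin.append y x) + lwv N a y * ∏ j, lw N (x j)) := by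
    refine Finset.sum_le_sum fun y _ => Finset.sum_le_sum fun x _ => ?_
    have a1 := s17_lwv_nonneg N (Fin.append a h) (Fin.append y x)
    have a2 : 0 ≤ lwv N a y * ∏ j, lw N (x j) :=
      mul_nonneg (s17_lwv_nonneg N a y) (Finset.prod_nonneg fun j _ => s17_lw_nonneg N _)
    rw [abs_le]
    constructor <;> linarith
  have h2 : ∑ y ∈ PR k R, ∑ x ∈ PR m R, lwv N (Fin.append a h) (Fin.append y x) ≤ 1 := by
    rw [← s17_pi_add k m R (fun z => lwv N (Fin.append a h) z)]
    exact s17_lwv_total N R _
  have h3 : ∑ y ∈ PR k R, ∑ x ∈ PR m R, lwv N a y * ∏ j, lw N (x j) ≤ 1 := by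
    have h4 : ∀ y ∈ PR k R, ∑ x ∈ PR m R, lwv N a y * ∏ j, lw N (x j) ≤ lwv N a y := by
      intro y _
      rw [← Finset.mul_sum]
      exact mul_le_of_le_one_right (s17_lwv_nonneg N a y) (s17_prod_total N R m)
    exact (Finset.sum_le_sum h4).trans (s17_lwv_total N R a)
  refine h1.trans ?_
  rw [Finset.sum_congr rfl fun y _ => Finset.sum_add_distrib, Finset.sum_add_distrib]
  linarith

theorem s17_step {k m : ℕ} (N R : ℕ) (a : Fin k → ℕ) (h : Fin m → ℕ) (t : ℕ) :
    s17D N R a (Fin.snoc h t : Fin (m + 1) → ℕ) ≤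
      s15_dist N R (Fin.append a h) t + s17D N R a h := by
  have e1 : s17D N R a (Fin.snoc h t : Fin (m + 1) → ℕ) =
      ∑ y ∈ PR k R, ∑ x ∈ PR m R, ∑ w ∈ Finset.range R,
        |jnt N (Fin.append a h) t (Fin.append y x) w -
          lwv N a y * ((∏ j, lw N (x j)) * lw N w)| := by
    unfold s17D
    refine Finset.sum_congr rfl fun y _ => ?_
    unfold PR
    rw [s17_pi_succ]
    refine Finset.sum_congr rfl fun x _ => Finset.sum_congr rfl fun w _ => ?_
    rw [s17_snoc, Fin.prod_univ_castSucc]
    simp only [Fin.snoc_castSucc, Fin.snoc_last]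
  have e2 : s15_dist N R (Fin.append a h) t =
      ∑ y ∈ PR k R, ∑ x ∈ PR m R, ∑ w ∈ Finset.range R,
        |jnt N (Fin.append a h) t (Fin.append y x) w -
          lwv N (Fin.append a h) (Fin.append y x) * lw N w| := by
    unfold s15_dist s15_box
    rw [Finset.sum_product]
    exact s17_pi_add k m R (fun z => ∑ w ∈ Finset.range R,
      |jnt N (Fin.append a h) t z w - lwv N (Fin.append a h) z * lw N w|)
  have e3 : ∑ y ∈ PR k R, ∑ x ∈ PR m R, ∑ w ∈ Finset.range R,
      |lwv N (Fin.append a h) (Fin.append y x) - lwv N a y * ∏ j, lw N (x j)| * lw N w ≤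
      s17D N R a h := by
    unfold s17D
    refine Finset.sum_le_sum fun y _ => Finset.sum_le_sum fun x _ => ?_
    rw [← Finset.mul_sum]
    exact mul_le_of_le_one_right (abs_nonneg _) (s17_lw_total N R)
  rw [e1, e2]
  refine le_trans ?_ (add_le_add le_rfl e3)
  rw [← Finset.sum_add_distrib]
  refine Finset.sum_le_sum fun y _ => ?_
  rw [← Finset.sum_add_distrib]
  refine Finset.sum_le_sum fun x _ => ?_
  rw [← Finset.sum_add_distrib]
  refine Finset.sum_le_sum fun w _ => ?_
  have hl := s17_lw_nonneg N w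
  have e4 : |lwv N (Fin.append a h) (Fin.append y x) - lwv N a y * ∏ j, lw N (x j)| * lw N w =
      |(lwv N (Fin.append a h) (Fin.append y x) - lwv N a y * ∏ j, lw N (x j)) * lw N w| := by
    rw [abs_mul, abs_of_nonneg hl]
  rw [e4]
  have e5 : jnt N (Fin.append a h) t (Fin.append y x) w -
      lwv N a y * ((∏ j, lw N (x j)) * lw N w) =
      (jnt N (Fin.append a h) t (Fin.append y x) w -
        lwv N (Fin.append a h) (Fin.append y x) * lw N w) +
      (lwv N (Fin.append a h) (Fin.append y x) - lwv N a y * ∏ j, lw N (x j)) * lw N w := by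
    ring
  rw [e5]
  exact abs_add_le _ _

theorem s17_zero {k : ℕ} (N R : ℕ) (a : Fin k → ℕ) (h : Fin 0 → ℕ) : s17D N R a h = 0 := by
  unfold s17D
  refine Finset.sum_eq_zero fun y _ => Finset.sum_eq_zero fun x _ => ?_
  rw [s17_append, Fin.prod_univ_zero, mul_one, abs_eq_zero, sub_eq_zero]
  unfold lwv
  congr 2
  refine congrArg _ (Finset.filter_congr fun n _ => ?_)
  constructor
  · exact fun hh => hh.1
  · exact fun hh => ⟨hh, fun j => j.elim0⟩

/-- The tuples `h` for which `Fin.append a h` is not injective. -/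
theorem s17_bad {k : ℕ} (m H : ℕ) (hH : 1 ≤ H) (a : Fin k → ℕ) (ha : Function.Injective a) :
    (((PI m H).filter (fun h => ¬ Function.Injective (Fin.append a h))).card : ℝ) * H ≤
      (k + m : ℝ) ^ 2 * (H : ℝ) ^ m := by
  classical
  have hcardPI : (PI m H).card = H ^ m := by
    unfold PI
    rw [Fintype.card_piFinset]
    simp
  -- for a pair of indices
  have hpair : ∀ i j : Fin (k + m), i ≠ j →
      ((PI m H).filter (fun h => Fin.append a h i = Fin.append a h j)).card * H ≤ H ^ m := by
    -- the index `j` in the second part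
    have hr : ∀ (i : Fin (k + m)) (j : Fin m), i ≠ Fin.natAdd k j →
        ((PI m H).filter (fun h => Fin.append a h i = Fin.append a h (Fin.natAdd k j))).card * H ≤
          H ^ m := by
      intro i j hij
      rw [← hcardPI]
      have h1 : ((PI m H).filter
          (fun h => Fin.append a h i = Fin.append a h (Fin.natAdd k j))).card * H =
          (((PI m H).filter (fun h => Fin.append a h i = Fin.append a h (Fin.natAdd k j))) ×ˢ
            Finset.Icc 1 H).card := by
        rw [Finset.card_product, Nat.card_Icc, Nat.add_sub_cancel]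
      rw [h1]
      refine Finset.card_le_card_of_injOn (fun p => Function.update p.1 j p.2) ?_ ?_
      · intro p hp
        rw [Finset.mem_coe, Finset.mem_product, Finset.mem_filter] at hp
        rw [Finset.mem_coe]
        have hp1 := hp.1.1
        unfold PI at hp1 ⊢
        rw [Fintype.mem_piFinset] at hp1 ⊢
        intro c
        show Function.update p.1 j p.2 c ∈ Finset.Icc 1 H
        by_cases hc : c = j
        · subst hc
          rw [Function.update_self]
          exact hp.2
        · rw [Function.update_of_ne hc]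
          exact hp1 c
      · intro p hp p' hp' hpp
        rw [Finset.mem_coe, Finset.mem_product, Finset.mem_filter] at hp hp'
        have hpp' : Function.update p.1 j p.2 = Function.update p'.1 j p'.2 := hpp
        have hj : p.2 = p'.2 := by
          have := congrFun hpp' j
          rwa [Function.update_self, Function.update_self] at this
        have ho : ∀ c, c ≠ j → p.1 c = p'.1 c := by
          intro c hc
          have := congrFun hpp' c
          rwa [Function.update_of_ne hc, Function.update_of_ne hc] at this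
        have hij' : Fin.append a p.1 i = Fin.append a p'.1 i := by
          refine Fin.addCases (motive := fun i => i ≠ Fin.natAdd k j →
            Fin.append a p.1 i = Fin.append a p'.1 i) (fun c _ => ?_) (fun c hc => ?_) i hij
          · rw [Fin.append_left, Fin.append_left]
          · rw [Fin.append_right, Fin.append_right]
            refine ho c fun hcj => hc ?_
            rw [hcj]
        have hjj : p.1 j = p'.1 j := by
          have a1 := hp.1.2
          have a2 := hp'.1.2
          rw [Fin.append_right] at a1 a2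
          rw [← a1, ← a2, hij']
        refine Prod.ext ?_ hj
        funext c
        by_cases hc : c = j
        · rw [hc]
          exact hjj
        · exact ho c hc
    intro i j hij
    refine Fin.addCases (motive := fun j => i ≠ j →
      ((PI m H).filter (fun h => Fin.append a h i = Fin.append a h j)).card * H ≤ H ^ m)
      (fun c hc => ?_) (fun c hc => hr i c hc) j hij
    refine Fin.addCases (motive := fun i => i ≠ Fin.castAdd m c →
      ((PI m H).filter (fun h => Fin.append a h i = Fin.append a h (Fin.castAdd m c))).card * H ≤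
        H ^ m) (fun d hd => ?_) (fun d hd => ?_) i hc
    · have : (PI m H).filter (fun h => Fin.append a h (Fin.castAdd m d) =
          Fin.append a h (Fin.castAdd m c)) = ∅ := by
        rw [Finset.filter_eq_empty_iff]
        intro h _ hh
        rw [Fin.append_left, Fin.append_left] at hh
        exact hd (by rw [ha hh])
      rw [this, Finset.card_empty, zero_mul]
      exact Nat.zero_le _
    · have h2 := hr (Fin.castAdd m c) d (Ne.symm hd)
      have h3 : (PI m H).filter (fun h => Fin.append a h (Fin.natAdd k d) =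
          Fin.append a h (Fin.castAdd m c)) = (PI m H).filter (fun h =>
          Fin.append a h (Fin.castAdd m c) = Fin.append a h (Fin.natAdd k d)) :=
        Finset.filter_congr fun h _ => eq_comm
      rw [h3]
      exact h2
  have hsub : (PI m H).filter (fun h => ¬ Function.Injective (Fin.append a h)) ⊆
      (Finset.univ.filter (fun p : Fin (k + m) × Fin (k + m) => p.1 ≠ p.2)).biUnion
        (fun p => (PI m H).filter (fun h => Fin.append a h p.1 = Fin.append a h p.2)) := by
    intro h hh
    rw [Finset.mem_filter] at hh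
    have h2 := hh.2
    unfold Function.Injective at h2
    push Not at h2
    obtain ⟨i, j, h3, h4⟩ := h2
    rw [Finset.mem_biUnion]
    refine ⟨(i, j), ?_, ?_⟩
    · rw [Finset.mem_filter]
      exact ⟨Finset.mem_univ _, h4⟩
    · rw [Finset.mem_filter]
      exact ⟨hh.1, h3⟩
  have hcount : ((PI m H).filter (fun h => ¬ Function.Injective (Fin.append a h))).card * H ≤
      (k + m) ^ 2 * H ^ m := by
    calc ((PI m H).filter (fun h => ¬ Function.Injective (Fin.append a h))).card * H
        ≤ (∑ p ∈ Finset.univ.filter (fun p : Fin (k + m) × Fin (k + m) => p.1 ≠ p.2),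
            ((PI m H).filter (fun h => Fin.append a h p.1 = Fin.append a h p.2)).card) * H :=
          Nat.mul_le_mul_right _ ((Finset.card_le_card hsub).trans Finset.card_biUnion_le)
      _ = ∑ p ∈ Finset.univ.filter (fun p : Fin (k + m) × Fin (k + m) => p.1 ≠ p.2),
            ((PI m H).filter (fun h => Fin.append a h p.1 = Fin.append a h p.2)).card * H := by
          rw [Finset.sum_mul]
      _ ≤ ∑ _p ∈ Finset.univ.filter (fun p : Fin (k + m) × Fin (k + m) => p.1 ≠ p.2), H ^ m := by
          refine Finset.sum_le_sum fun p hp => ?_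
          rw [Finset.mem_filter] at hp
          exact hpair p.1 p.2 hp.2
      _ ≤ (k + m) ^ 2 * H ^ m := by
          rw [Finset.sum_const, smul_eq_mul]
          refine Nat.mul_le_mul_right _ ?_
          refine (Finset.card_filter_le _ _).trans ?_
          rw [Finset.card_univ, Fintype.card_prod, Fintype.card_fin, sq]
  have := (Nat.cast_le (α := ℝ)).mpr hcount
  push_cast at this
  exact this

theorem mixedBox (hE : MRP.EXPx) (m : ℕ) : ∀ (k : ℕ) (ε : ℝ), 0 < ε → ∃ H0 : ℕ, ∀ H : ℕ,
    H0 ≤ H → ∃ N0 : ℕ, ∀ N : ℕ, N0 ≤ N → ∀ a : Fin k → ℕ, Function.Injective a →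
    (∀ c, a c ≤ H) →
      ∑ h ∈ PI m H, s17D N (N + H + 1) a h ≤ ε * (H : ℝ) ^ m := by
  classical
  induction m with
  | zero =>
    intro k ε hε
    refine ⟨0, fun H _ => ⟨0, fun N _ a _ _ => ?_⟩⟩
    rw [Finset.sum_eq_zero fun h _ => s17_zero N _ a h]
    positivity
  | succ m ih =>
    intro k ε hε
    obtain ⟨H1, hH1⟩ := star hE (k + m) (ε / 4) (by positivity)
    obtain ⟨H2, hH2⟩ := ih k (ε / 4) (by positivity)
    refine ⟨max (max H1 H2) (⌈4 * (k + m : ℝ) ^ 2 / ε⌉₊ + 1), fun H hH => ?_⟩
    have g1 : H1 ≤ H := (le_max_left H1 H2).trans ((le_max_left _ _).trans hH)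
    have g2 : H2 ≤ H := (le_max_right H1 H2).trans ((le_max_left _ _).trans hH)
    have g3 : ⌈4 * (k + m : ℝ) ^ 2 / ε⌉₊ + 1 ≤ H := (le_max_right _ _).trans hH
    have hHpos : 1 ≤ H := by omega
    have hHR : (0 : ℝ) < H := by exact_mod_cast hHpos
    have g4 : 4 * (k + m : ℝ) ^ 2 ≤ ε * H := by
      have h1 := Nat.le_ceil (4 * (k + m : ℝ) ^ 2 / ε)
      have h2 : ((⌈4 * (k + m : ℝ) ^ 2 / ε⌉₊ : ℕ) : ℝ) ≤ H := by
        have : ⌈4 * (k + m : ℝ) ^ 2 / ε⌉₊ ≤ H := by omega
        exact_mod_cast this
      have h3 := h1.trans h2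
      rw [div_le_iff₀ hε] at h3
      linarith
    obtain ⟨N1, hN1⟩ := hH1 H g1
    obtain ⟨N2, hN2⟩ := hH2 H g2
    refine ⟨max N1 N2, fun N hN a ha haH => ?_⟩
    have n1 := hN1 N ((le_max_left _ _).trans hN)
    have n2 := hN2 N ((le_max_right _ _).trans hN) a ha haH
    set R : ℕ := N + H + 1 with hR
    have e1 : ∑ h ∈ PI (m + 1) H, s17D N R a h =
        ∑ h ∈ PI m H, ∑ t ∈ Finset.Icc 1 H, s17D N R a (Fin.snoc h t : Fin (m + 1) → ℕ) := by
      unfold PI
      exact s17_pi_succ m (Finset.Icc 1 H) (fun h => s17D N R a h)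
    have hgood : ∀ h ∈ PI m H, Function.Injective (Fin.append a h) →
        ∑ t ∈ Finset.Icc 1 H, s17D N R a (Fin.snoc h t : Fin (m + 1) → ℕ) ≤
          ε / 4 * H + H * s17D N R a h := by
      intro h hh hinj
      have hb : ∀ c, Fin.append a h c ≤ H := by
        intro c
        refine Fin.addCases (fun c => ?_) (fun j => ?_) c
        · rw [Fin.append_left]
          exact haH c
        · rw [Fin.append_right]
          unfold PI at hh
          rw [Fintype.mem_piFinset] at hh
          exact (Finset.mem_Icc.mp (hh j)).2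
      have h1 := n1 (Fin.append a h) hinj hb
      have h2 : ∑ t ∈ Finset.Icc 1 H, ∑' p : (Fin (k + m) → ℕ) × ℕ,
          |jnt N (Fin.append a h) t p.1 p.2 - lwv N (Fin.append a h) p.1 * lw N p.2| =
          ∑ t ∈ Finset.Icc 1 H, s15_dist N R (Fin.append a h) t := by
        refine Finset.sum_congr rfl fun t ht => ?_
        rw [Finset.mem_Icc] at ht
        exact s15_tsum N R H _ t hb ht.2 (by omega)
      rw [h2, one_div_mul_eq_div, div_le_iff₀ hHR] at h1
      calc ∑ t ∈ Finset.Icc 1 H, s17D N R a (Fin.snoc h t : Fin (m + 1) → ℕ)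
          ≤ ∑ t ∈ Finset.Icc 1 H, (s15_dist N R (Fin.append a h) t + s17D N R a h) :=
            Finset.sum_le_sum fun t _ => s17_step N R a h t
        _ = ∑ t ∈ Finset.Icc 1 H, s15_dist N R (Fin.append a h) t + H * s17D N R a h := by
            rw [Finset.sum_add_distrib, Finset.sum_const, Nat.card_Icc, Nat.add_sub_cancel,
              nsmul_eq_mul]
        _ ≤ ε / 4 * H + H * s17D N R a h := by linarith
    have hbadh : ∀ h ∈ PI m H, ¬ Function.Injective (Fin.append a h) →
        ∑ t ∈ Finset.Icc 1 H, s17D N R a (Fin.snoc h t : Fin (m + 1) → ℕ) ≤ 2 * H := by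
      intro h _ _
      calc ∑ t ∈ Finset.Icc 1 H, s17D N R a (Fin.snoc h t : Fin (m + 1) → ℕ)
          ≤ ∑ _t ∈ Finset.Icc 1 H, (2 : ℝ) := Finset.sum_le_sum fun t _ => s17D_le N R a _
        _ = 2 * H := by
            rw [Finset.sum_const, Nat.card_Icc, Nat.add_sub_cancel, nsmul_eq_mul, mul_comm]
    rw [e1, ← Finset.sum_filter_add_sum_filter_not (PI m H)
      (fun h => Function.Injective (Fin.append a h))]
    have b1 : ∑ h ∈ (PI m H).filter (fun h => Function.Injective (Fin.append a h)),
        ∑ t ∈ Finset.Icc 1 H, s17D N R a (Fin.snoc h t : Fin (m + 1) → ℕ) ≤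
        ∑ h ∈ PI m H, (ε / 4 * H + H * s17D N R a h) := by
      refine (Finset.sum_le_sum fun h hh => hgood h (Finset.mem_filter.mp hh).1
        (Finset.mem_filter.mp hh).2).trans ?_
      refine Finset.sum_le_sum_of_subset_of_nonneg (Finset.filter_subset _ _) fun h _ _ => ?_
      have := s17D_nonneg N R a h
      positivity
    have b2 : ∑ h ∈ (PI m H).filter (fun h => ¬ Function.Injective (Fin.append a h)),
        ∑ t ∈ Finset.Icc 1 H, s17D N R a (Fin.snoc h t : Fin (m + 1) → ℕ) ≤
        (((PI m H).filter (fun h => ¬ Function.Injective (Fin.append a h))).card : ℝ) *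
          (2 * H) := by
      rw [← nsmul_eq_mul]
      exact Finset.sum_le_card_nsmul _ _ _ fun h hh => hbadh h (Finset.mem_filter.mp hh).1
        (Finset.mem_filter.mp hh).2
    have b3 := s17_bad m H hHpos a ha
    have b4 : ∑ h ∈ PI m H, (ε / 4 * H + H * s17D N R a h) =
        (H : ℝ) ^ m * (ε / 4 * H) + H * ∑ h ∈ PI m H, s17D N R a h := by
      rw [Finset.sum_add_distrib, Finset.sum_const, nsmul_eq_mul, ← Finset.mul_sum]
      congr 2
      unfold PI
      rw [Fintype.card_piFinset]
      simp
    have hHm : (0 : ℝ) < (H : ℝ) ^ m := by positivity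
    have b5 : (((PI m H).filter (fun h => ¬ Function.Injective (Fin.append a h))).card : ℝ) *
        (2 * H) ≤ ε / 2 * (H * (H : ℝ) ^ m) := by
      have c1 : (((PI m H).filter (fun h => ¬ Function.Injective (Fin.append a h))).card : ℝ) *
          (2 * H) ≤ 2 * ((k + m : ℝ) ^ 2 * (H : ℝ) ^ m) := by linarith
      have c2 : 2 * ((k + m : ℝ) ^ 2 * (H : ℝ) ^ m) ≤ ε / 2 * (H * (H : ℝ) ^ m) := by
        nlinarith
      exact c1.trans c2
    rw [b4] at b1
    have b6 : (H : ℝ) * ∑ h ∈ PI m H, s17D N R a h ≤ H * (ε / 4 * (H : ℝ) ^ m) :=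
      mul_le_mul_of_nonneg_left n2 hHR.le
    have b7 : ε * (H : ℝ) ^ (m + 1) = ε * (H * (H : ℝ) ^ m) := by
      rw [pow_succ]
      ring
    rw [b7]
    nlinarith

theorem mixed (hE : MRP.EXPx) (k m : ℕ) (ε : ℝ) (hε : 0 < ε) : ∃ H0 : ℕ, ∀ H : ℕ,
    H0 ≤ H → ∃ N0 : ℕ, ∀ N : ℕ, N0 ≤ N → ∀ a : Fin k → ℕ, Function.Injective a →
    (∀ c, a c ≤ H) →
      1 / (H : ℝ) ^ m * ∑ h ∈ Fintype.piFinset (fun _ : Fin m => Finset.Icc 1 H),
        ∑' p : (Fin k → ℕ) × (Fin m → ℕ),
          |(((Finset.Icc 1 N).filter (fun n =>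
              (∀ c, ArithmeticFunction.cardFactors (n + a c) = p.1 c) ∧
              ∀ j, ArithmeticFunction.cardFactors (n + h j) = p.2 j)).card : ℝ) / (N : ℝ) -
            lwv N a p.1 * ∏ j, lw N (p.2 j)| ≤ ε := by
  classical
  obtain ⟨H1, hH1⟩ := mixedBox hE m k ε hε
  refine ⟨max 1 H1, fun H hH => ?_⟩
  have hHpos : 1 ≤ H := (le_max_left 1 H1).trans hH
  have hHR : (0 : ℝ) < H := by exact_mod_cast hHpos
  obtain ⟨N1, hN1⟩ := hH1 H ((le_max_right 1 H1).trans hH)
  refine ⟨N1, fun N hN a ha haH => ?_⟩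
  have h1 := hN1 N hN a ha haH
  rw [one_div_mul_eq_div, div_le_iff₀ (by positivity)]
  refine le_trans (le_of_eq ?_) h1
  refine Finset.sum_congr rfl fun h hh => ?_
  have hh' : ∀ j, h j ≤ H := by
    intro j
    have hh2 := Fintype.mem_piFinset.mp hh
    exact (Finset.mem_Icc.mp (hh2 j)).2
  have hz : ∀ n ∈ Finset.Icc 1 N, ∀ d ≤ H, ArithmeticFunction.cardFactors (n + d) < N + H + 1 := by
    intro n hn d hd
    rw [Finset.mem_Icc] at hn
    have h1 := s15_card_le (n + d)
    omega
  have e1 : s17D N (N + H + 1) a h = ∑ p ∈ PR k (N + H + 1) ×ˢ PR m (N + H + 1),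
      |(((Finset.Icc 1 N).filter (fun n =>
              (∀ c, ArithmeticFunction.cardFactors (n + a c) = p.1 c) ∧
              ∀ j, ArithmeticFunction.cardFactors (n + h j) = p.2 j)).card : ℝ) / (N : ℝ) -
            lwv N a p.1 * ∏ j, lw N (p.2 j)| := by
    rw [Finset.sum_product]
    unfold s17D
    refine Finset.sum_congr rfl fun y _ => Finset.sum_congr rfl fun x _ => ?_
    rw [s17_append]
  rw [e1]
  refine tsum_eq_sum fun p hp => ?_
  rw [Finset.mem_product, not_and_or] at hp
  have a1 : (((Finset.Icc 1 N).filter (fun n =>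
      (∀ c, ArithmeticFunction.cardFactors (n + a c) = p.1 c) ∧
      ∀ j, ArithmeticFunction.cardFactors (n + h j) = p.2 j)).card : ℝ) / (N : ℝ) = 0 := by
    rw [Finset.filter_eq_empty_iff.mpr, Finset.card_empty, Nat.cast_zero, zero_div]
    intro n hn hq
    rcases hp with hp | hp
    · apply hp
      unfold PR
      rw [Fintype.mem_piFinset]
      intro c
      rw [Finset.mem_range, ← hq.1 c]
      exact hz n hn _ (haH c)
    · apply hp
      unfold PR
      rw [Fintype.mem_piFinset]
      intro c
      rw [Finset.mem_range, ← hq.2 c]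
      exact hz n hn _ (hh' c)
  have a2 : lwv N a p.1 * ∏ j, lw N (p.2 j) = 0 := by
    rcases hp with hp | hp
    · have : lwv N a p.1 = 0 := by
        unfold lwv
        rw [Finset.filter_eq_empty_iff.mpr, Finset.card_empty, Nat.cast_zero, zero_div]
        intro n hn hq
        apply hp
        unfold PR
        rw [Fintype.mem_piFinset]
        intro c
        rw [Finset.mem_range, ← hq c]
        exact hz n hn _ (haH c)
      rw [this, zero_mul]
    · have : ∏ j, lw N (p.2 j) = 0 := by
        unfold PR at hp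
        rw [Fintype.mem_piFinset] at hp
        push Not at hp
        obtain ⟨j, hj⟩ := hp
        refine Finset.prod_eq_zero (Finset.mem_univ j) ?_
        unfold lw
        rw [Finset.filter_eq_empty_iff.mpr, Finset.card_empty, Nat.cast_zero, zero_div]
        intro n hn hq
        apply hj
        rw [Finset.mem_range, ← hq]
        exact hz n hn 0 (by omega)
      rw [this, mul_zero]
  rw [a1, a2, sub_zero, abs_zero]

end AS
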