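import Mathlib
import Pool.Agent.Helper13.MRF.Final
import Pool.Agent.Helper6.AS.S17

/-! Project AS: final assembly, no hypothesis left. -/

set_option autoImplicit false

namespace AS

theorem expx_holds : MRP.EXPx :=
  MRC.expx_bridge MRP.mrchi0x_holds MRP.mrchi1x_holds MRP.lawx

/-- Law of large numbers for arbitrary functions of `Ω(n + t)`, `t ≤ H`. -/
theorem lln_holds : ∀ ε : ℝ, 0 < ε → ∃ H0 : ℕ, ∀ H : ℕ, H0 ≤ H → ∃ N0 : ℕ,
    ∀ N : ℕ, N0 ≤ N → ∀ ψ : ℕ → ℕ → ℝ, (∀ t x, |ψ t x| ≤ 1) →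
      1 / (N : ℝ) * ∑ n ∈ Finset.Icc 1 N,
        |1 / (H : ℝ) * ∑ t ∈ Finset.Icc 1 H,
          (ψ t (ArithmeticFunction.cardFactors (n + t)) - MRP.mx N (ψ t))| ≤ ε :=
  lln expx_holds

theorem mixed_holds (k m : ℕ) (ε : ℝ) (hε : 0 < ε) : ∃ H0 : ℕ, ∀ H : ℕ,
    H0 ≤ H → ∃ N0 : ℕ, ∀ N : ℕ, N0 ≤ N → ∀ a : Fin k → ℕ, Function.Injective a →
    (∀ c, a c ≤ H) →
      1 / (H : ℝ) ^ m * ∑ h ∈ Fintype.piFinset (fun _ : Fin m => Finset.Icc 1 H),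
        ∑' p : (Fin k → ℕ) × (Fin m → ℕ),
          |(((Finset.Icc 1 N).filter (fun n =>
              (∀ c, ArithmeticFunction.cardFactors (n + a c) = p.1 c) ∧
              ∀ j, ArithmeticFunction.cardFactors (n + h j) = p.2 j)).card : ℝ) / (N : ℝ) -
            lwv N a p.1 * ∏ j, lw N (p.2 j)| ≤ ε :=
  mixed expx_holds k m ε hε

end AS
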