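import Mathlib
import Pool.Agent.Helper6.AS.S15

/-!
# AS-16: all shifts random

PROOF.  Induction on `k` with `D_k h = ∑' ℓ, |lwv N h ℓ - ∏ i, lw N (ℓ i)| ≤ 2`.  `k = 0`: the sum has one
term `|1 - 1| = 0` for `N ≥ 1`.  Step: for `h ∈ [1, H]^k` injective and `h' ∈ [1, H]`,
`lwv N (Fin.snoc h h') (Fin.snoc y x) = jnt N h h' y x`, so (triangle inequality, `∑_x lw N x = 1`)
`D_{k+1} (snoc h h') ≤ ∑'_{(y,x)} |jnt N h h' y x - lwv N h y * lw N x| + D_k h`.
Average over `h' ∈ Icc 1 H` (`star hE k (ε/4)`) and over `h`: for `h` not injective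
(at most `k^2 H^(k-1)` of them) use the trivial bound `2`.  So the average for `k + 1` is at most
`ε/4 + 2 k^2 / H + (average for k) ≤ ε/4 + ε/4 + ε/2` for `H` large.
(`Fin.snocEquiv` / `Fintype.piFinset` reindexing as in `Ep_snoc`; `Summable` by finite support.)
-/

set_option autoImplicit false

namespace AS

open Finset Helper13.Om Helper11.QR

/-- The law of `φ n`, `n ≤ N`. -/
private noncomputable def law {α : Type} [DecidableEq α] (N : ℕ) (φ : ℕ → α) (x : α) : ℝ :=
  (((Finset.Icc 1 N).filter (fun n => φ n = x)).card : ℝ) / (N : ℝ)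

private theorem law_nonneg {α : Type} [DecidableEq α] (N : ℕ) (φ : ℕ → α) (x : α) :
    0 ≤ law N φ x := by
  unfold law
  positivity

private theorem law_hasSum {α : Type} [DecidableEq α] {N : ℕ} (hN : 1 ≤ N) (φ : ℕ → α) :
    HasSum (law N φ) 1 := by
  have h1 : ∑ x ∈ (Finset.Icc 1 N).image φ, law N φ x = 1 := by
    unfold law
    rw [← Finset.sum_div, ← Nat.cast_sum, ← Finset.card_eq_sum_card_image φ (Finset.Icc 1 N)]
    rw [Nat.card_Icc, Nat.add_sub_cancel]
    have : (N : ℝ) ≠ 0 := by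
      have : 0 < N := hN
      exact_mod_cast this.ne'
    exact div_self this
  rw [← h1]
  refine hasSum_sum_of_ne_finset_zero fun x hx => ?_
  unfold law
  have : (Finset.Icc 1 N).filter (fun n => φ n = x) = ∅ := by
    rw [Finset.filter_eq_empty_iff]
    intro n hn hnx
    exact hx (Finset.mem_image.2 ⟨n, hn, hnx⟩)
  rw [this]
  simp

private theorem lw_eq (N : ℕ) : lw N = law N ArithmeticFunction.cardFactors := by
  funext x
  rfl

private theorem lwv_eq {k : ℕ} (N : ℕ) (a : Fin k → ℕ) :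
    lwv N a = law N (fun n (c : Fin k) => ArithmeticFunction.cardFactors (n + a c)) := by
  funext y
  unfold lwv law
  congr 3
  ext n
  rw [Finset.mem_filter, Finset.mem_filter]
  exact and_congr_right fun _ => funext_iff.symm

private theorem jnt_eq {k : ℕ} (N : ℕ) (a : Fin k → ℕ) (t : ℕ) (p : (Fin k → ℕ) × ℕ) :
    jnt N a t p.1 p.2 = law N (fun n => ((fun c : Fin k => ArithmeticFunction.cardFactors (n + a c)),
      ArithmeticFunction.cardFactors (n + t))) p := by
  unfold jnt law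
  congr 3
  ext n
  rw [Finset.mem_filter, Finset.mem_filter]
  refine and_congr_right fun _ => ?_
  constructor
  · rintro ⟨h1, h2⟩
    exact Prod.ext (funext h1) h2
  · intro h
    exact ⟨fun c => congrFun (congrArg Prod.fst h) c, congrArg Prod.snd h⟩

/-- The equivalence which appends the last coordinate. -/
private def eqv (k : ℕ) : ((Fin k → ℕ) × ℕ) ≃ (Fin (k + 1) → ℕ) where
  toFun p := Fin.snoc p.1 p.2
  invFun g := (Fin.init g, g (Fin.last k))
  left_inv p := by
    simp
  right_inv g := by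
    simp

private theorem lwv_snoc {k : ℕ} (N : ℕ) (a : Fin k → ℕ) (t : ℕ) (p : (Fin k → ℕ) × ℕ) :
    lwv N (Fin.snoc a t : Fin (k + 1) → ℕ) (eqv k p) = jnt N a t p.1 p.2 := by
  unfold lwv jnt eqv
  congr 3
  ext n
  rw [Finset.mem_filter, Finset.mem_filter]
  refine and_congr_right fun _ => ?_
  simp only [Equiv.coe_fn_mk]
  rw [Fin.forall_fin_succ']
  simp only [Fin.snoc_castSucc, Fin.snoc_last]

private theorem prod_snoc {k : ℕ} (N : ℕ) (p : (Fin k → ℕ) × ℕ) :
    ∏ i, lw N ((eqv k p) i) = (∏ i, lw N (p.1 i)) * lw N p.2 := by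
  rw [Fin.prod_univ_castSucc]
  unfold eqv
  simp only [Equiv.coe_fn_mk, Fin.snoc_castSucc, Fin.snoc_last]

private theorem prod_summable (N k : ℕ) : Summable (fun y : Fin k → ℕ => ∏ i, lw N (y i)) := by
  refine summable_of_ne_finset_zero
    (s := Fintype.piFinset fun _ => (Finset.Icc 1 N).image ArithmeticFunction.cardFactors)
    fun y hy => ?_
  rw [Fintype.mem_piFinset] at hy
  push Not at hy
  obtain ⟨i, hi⟩ := hy
  refine Finset.prod_eq_zero (Finset.mem_univ i) ?_
  rw [lw_eq]
  unfold law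
  have : (Finset.Icc 1 N).filter (fun n => ArithmeticFunction.cardFactors n = y i) = ∅ := by
    rw [Finset.filter_eq_empty_iff]
    intro n hn hnx
    exact hi (Finset.mem_image.2 ⟨n, hn, hnx⟩)
  rw [this]
  simp

/-- The total variation distance. -/
private noncomputable def DD {k : ℕ} (N : ℕ) (h : Fin k → ℕ) : ℝ :=
  ∑' ℓ : Fin k → ℕ, |lwv N h ℓ - ∏ i, lw N (ℓ i)|

private noncomputable def AA {k : ℕ} (N : ℕ) (h : Fin k → ℕ) (t : ℕ) : ℝ :=
  ∑' p : (Fin k → ℕ) × ℕ, |jnt N h t p.1 p.2 - lwv N h p.1 * lw N p.2|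

private theorem mul_hasSum {k N : ℕ} (hN : 1 ≤ N) (h : Fin k → ℕ) :
    HasSum (fun p : (Fin k → ℕ) × ℕ => lwv N h p.1 * lw N p.2) 1 := by
  have h1 := (law_hasSum hN (fun n (c : Fin k) => ArithmeticFunction.cardFactors (n + h c)))
  have h2 := law_hasSum hN ArithmeticFunction.cardFactors
  have h3 := HasSum.mul h1 h2 (Summable.mul_of_nonneg h1.summable h2.summable
    (fun _ => law_nonneg _ _ _) (fun _ => law_nonneg _ _ _))
  rw [mul_one] at h3
  rw [lwv_eq, lw_eq]
  exact h3

private theorem jnt_hasSum {k N : ℕ} (hN : 1 ≤ N) (h : Fin k → ℕ) (t : ℕ) :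
    HasSum (fun p : (Fin k → ℕ) × ℕ => jnt N h t p.1 p.2) 1 := by
  simp_rw [jnt_eq]
  exact law_hasSum hN _

private theorem AA_summable {k N : ℕ} (hN : 1 ≤ N) (h : Fin k → ℕ) (t : ℕ) :
    Summable (fun p : (Fin k → ℕ) × ℕ => |jnt N h t p.1 p.2 - lwv N h p.1 * lw N p.2|) :=
  ((jnt_hasSum hN h t).summable.sub (mul_hasSum hN h).summable).abs

private theorem AA_le {k N : ℕ} (hN : 1 ≤ N) (h : Fin k → ℕ) (t : ℕ) : AA N h t ≤ 2 := by
  have h1 := (jnt_hasSum hN h t).add (mul_hasSum hN h)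
  have h2 : AA N h t ≤ 1 + 1 := by
    refine hasSum_le (fun p => ?_) (AA_summable hN h t).hasSum h1
    have n1 : 0 ≤ jnt N h t p.1 p.2 := by
      rw [jnt_eq]
      exact law_nonneg _ _ _
    have n2 : 0 ≤ lwv N h p.1 * lw N p.2 := by
      rw [lwv_eq, lw_eq]
      exact mul_nonneg (law_nonneg _ _ _) (law_nonneg _ _ _)
    rw [abs_le]
    constructor <;> linarith
  linarith

private theorem DD_snoc_le {k N : ℕ} (hN : 1 ≤ N) (h : Fin k → ℕ) (t : ℕ) :
    DD N (Fin.snoc h t : Fin (k + 1) → ℕ) ≤ AA N h t + DD N h := by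
  have e1 : DD N (Fin.snoc h t : Fin (k + 1) → ℕ) =
      ∑' p : (Fin k → ℕ) × ℕ, |jnt N h t p.1 p.2 - (∏ i, lw N (p.1 i)) * lw N p.2| := by
    unfold DD
    rw [← (eqv k).tsum_eq]
    refine tsum_congr fun p => ?_
    rw [lwv_snoc, prod_snoc]
  have hD : Summable (fun y : Fin k → ℕ => |lwv N h y - ∏ i, lw N (y i)|) := by
    have h1 := (law_hasSum hN (fun n (c : Fin k) => ArithmeticFunction.cardFactors (n + h c)))
    rw [← lwv_eq] at h1
    exact (h1.summable.sub (prod_summable N k)).abs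
  have hlw : HasSum (lw N) 1 := by
    rw [lw_eq]
    exact law_hasSum hN _
  have hlw0 : ∀ x, 0 ≤ lw N x := by
    intro x
    rw [lw_eq]
    exact law_nonneg _ _ _
  have h2 : HasSum (fun p : (Fin k → ℕ) × ℕ => |lwv N h p.1 - ∏ i, lw N (p.1 i)| * lw N p.2)
      (DD N h) := by
    have h3 := HasSum.mul hD.hasSum hlw (Summable.mul_of_nonneg hD hlw.summable
      (fun _ => abs_nonneg _) (fun x => hlw0 x))
    rw [mul_one] at h3
    exact h3
  have h4 := (AA_summable hN h t).hasSum.add h2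
  have h5 : ∀ p : (Fin k → ℕ) × ℕ, |jnt N h t p.1 p.2 - (∏ i, lw N (p.1 i)) * lw N p.2| ≤
      |jnt N h t p.1 p.2 - lwv N h p.1 * lw N p.2| +
        |lwv N h p.1 - ∏ i, lw N (p.1 i)| * lw N p.2 := by
    intro p
    have e2 : jnt N h t p.1 p.2 - (∏ i, lw N (p.1 i)) * lw N p.2 =
        (jnt N h t p.1 p.2 - lwv N h p.1 * lw N p.2) +
          (lwv N h p.1 - ∏ i, lw N (p.1 i)) * lw N p.2 := by ring
    rw [e2]
    refine (abs_add_le _ _).trans (add_le_add le_rfl ?_)
    rw [abs_mul, abs_of_nonneg (hlw0 p.2)]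
  have h6 : Summable (fun p : (Fin k → ℕ) × ℕ =>
      |jnt N h t p.1 p.2 - (∏ i, lw N (p.1 i)) * lw N p.2|) :=
    Summable.of_nonneg_of_le (fun _ => abs_nonneg _) h5 h4.summable
  rw [e1]
  exact hasSum_le h5 h6.hasSum h4

private theorem sum_snoc {k : ℕ} (s : Finset ℕ) (F : (Fin (k + 1) → ℕ) → ℝ) :
    ∑ g ∈ Fintype.piFinset (fun _ : Fin (k + 1) => s), F g =
      ∑ h ∈ Fintype.piFinset (fun _ : Fin k => s), ∑ t ∈ s, F (Fin.snoc h t) := by
  rw [← Finset.sum_product']
  symm
  refine Finset.sum_nbij' (fun p => (Fin.snoc p.1 p.2 : Fin (k + 1) → ℕ))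
    (fun g => (Fin.init g, g (Fin.last k))) ?_ ?_ ?_ ?_ ?_
  · intro p hp
    rw [Finset.mem_product, Fintype.mem_piFinset] at hp
    rw [Fintype.mem_piFinset, Fin.forall_fin_succ']
    simp only [Fin.snoc_castSucc, Fin.snoc_last]
    exact ⟨hp.1, hp.2⟩
  · intro g hg
    rw [Fintype.mem_piFinset] at hg
    rw [Finset.mem_product, Fintype.mem_piFinset]
    exact ⟨fun i => hg _, hg _⟩
  · intro p _
    simp
  · intro g _
    simp
  · intro p _
    rfl

open Classical in
private noncomputable def ni (k H : ℕ) : ℝ :=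
  ∑ h ∈ Fintype.piFinset (fun _ : Fin k => Finset.Icc 1 H),
    if Function.Injective h then 0 else (1 : ℝ)

private theorem card_pi (k H : ℕ) :
    (((Fintype.piFinset (fun _ : Fin k => Finset.Icc 1 H)).card : ℕ) : ℝ) = (H : ℝ) ^ k := by
  rw [Fintype.card_piFinset]
  simp

open Classical in
private theorem ni_le (k H : ℕ) : (H : ℝ) * ni k H ≤ (k : ℝ) ^ 2 * (H : ℝ) ^ k := by
  induction k with
  | zero =>
    unfold ni
    have : ∀ h ∈ Fintype.piFinset (fun _ : Fin 0 => Finset.Icc 1 H),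
        (if Function.Injective h then 0 else (1 : ℝ)) = 0 := by
      intro h _
      rw [if_pos]
      intro i
      exact i.elim0
    rw [Finset.sum_eq_zero this]
    simp
  | succ k ih =>
    have hH : (0 : ℝ) ≤ H := Nat.cast_nonneg H
    have h1 : ni (k + 1) H ≤ ni k H * H + (H : ℝ) ^ k * k := by
      unfold ni
      rw [sum_snoc, ← card_pi k H, Finset.sum_mul, Finset.card_eq_sum_ones, Nat.cast_sum,
        Finset.sum_mul, ← Finset.sum_add_distrib]
      refine Finset.sum_le_sum fun h _ => ?_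
      by_cases hi : Function.Injective h
      · rw [if_pos hi, zero_mul, zero_add, Nat.cast_one, one_mul]
        have h2 : ∀ t ∈ Finset.Icc 1 H,
            (if Function.Injective (Fin.snoc h t : Fin (k + 1) → ℕ) then 0 else (1 : ℝ)) ≤
              if t ∈ Finset.univ.image h then 1 else 0 := by
          intro t _
          by_cases ht : t ∈ Finset.univ.image h
          · rw [if_pos ht]
            split_ifs <;> norm_num
          · rw [if_neg ht, if_pos]
            intro a b hab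
            induction a using Fin.lastCases with
            | last =>
              induction b using Fin.lastCases with
              | last => rfl
              | cast b =>
                rw [Fin.snoc_last, Fin.snoc_castSucc] at hab
                exact absurd (Finset.mem_image.2 ⟨b, Finset.mem_univ _, hab.symm⟩) ht
            | cast a =>
              induction b using Fin.lastCases with
              | last =>
                rw [Fin.snoc_last, Fin.snoc_castSucc] at hab
                exact absurd (Finset.mem_image.2 ⟨a, Finset.mem_univ _, hab⟩) ht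
              | cast b =>
                rw [Fin.snoc_castSucc, Fin.snoc_castSucc] at hab
                rw [hi hab]
        refine (Finset.sum_le_sum h2).trans ?_
        rw [Finset.sum_ite_mem, Finset.sum_const, nsmul_eq_mul, mul_one]
        have h3 : (Finset.Icc 1 H ∩ Finset.univ.image h).card ≤ k := by
          refine (Finset.card_le_card Finset.inter_subset_right).trans ?_
          refine Finset.card_image_le.trans ?_
          simp
        exact_mod_cast h3
      · rw [if_neg hi, one_mul]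
        have h2 : ∑ t ∈ Finset.Icc 1 H,
            (if Function.Injective (Fin.snoc h t : Fin (k + 1) → ℕ) then 0 else (1 : ℝ)) ≤ H := by
          calc ∑ t ∈ Finset.Icc 1 H,
                (if Function.Injective (Fin.snoc h t : Fin (k + 1) → ℕ) then 0 else (1 : ℝ))
              ≤ ∑ t ∈ Finset.Icc 1 H, (1 : ℝ) := by
                refine Finset.sum_le_sum fun t _ => ?_
                split_ifs <;> norm_num
            _ = H := by simp
        have h3 : (0 : ℝ) ≤ ((1 : ℕ) : ℝ) * k := by positivity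
        linarith
    calc (H : ℝ) * ni (k + 1) H ≤ H * (ni k H * H + (H : ℝ) ^ k * k) :=
          mul_le_mul_of_nonneg_left h1 hH
      _ = (H * ni k H) * H + (H : ℝ) ^ (k + 1) * k := by ring
      _ ≤ ((k : ℝ) ^ 2 * (H : ℝ) ^ k) * H + (H : ℝ) ^ (k + 1) * k := by
          have := mul_le_mul_of_nonneg_right ih hH
          linarith
      _ = ((k : ℝ) ^ 2 + k) * (H : ℝ) ^ (k + 1) := by ring
      _ ≤ (((k + 1 : ℕ) : ℝ)) ^ 2 * (H : ℝ) ^ (k + 1) := by
          refine mul_le_mul_of_nonneg_right ?_ (by positivity)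
          push_cast
          have : (0 : ℝ) ≤ k := Nat.cast_nonneg k
          nlinarith

theorem allShifts (hE : MRP.EXPx) : ∀ (k : ℕ) (ε : ℝ), 0 < ε → ∃ H0 : ℕ, ∀ H : ℕ, H0 ≤ H →
    ∃ N0 : ℕ, ∀ N : ℕ, N0 ≤ N →
      1 / (H : ℝ) ^ k * ∑ h ∈ Fintype.piFinset (fun _ : Fin k => Finset.Icc 1 H),
        ∑' ℓ : Fin k → ℕ, |lwv N h ℓ - ∏ i, lw N (ℓ i)| ≤ ε := by
  intro k
  induction k with
  | zero =>
    intro ε hε
    refine ⟨0, fun H _ => ⟨1, fun N hN => ?_⟩⟩
    have hN0 : (N : ℝ) ≠ 0 := by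
      have : 0 < N := hN
      exact_mod_cast this.ne'
    have h1 : ∀ h : Fin 0 → ℕ, ∑' ℓ : Fin 0 → ℕ, |lwv N h ℓ - ∏ i, lw N (ℓ i)| = 0 := by
      intro h
      have h2 : ∀ ℓ : Fin 0 → ℕ, |lwv N h ℓ - ∏ i, lw N (ℓ i)| = 0 := by
        intro ℓ
        have h3 : lwv N h ℓ = 1 := by
          unfold lwv
          rw [Finset.filter_true_of_mem (fun n _ c => c.elim0), Nat.card_Icc, Nat.add_sub_cancel]
          exact div_self hN0
        rw [h3, Fin.prod_univ_zero, sub_self, abs_zero]
      simp_rw [h2]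
      exact tsum_zero
    rw [Finset.sum_eq_zero (fun h _ => h1 h), mul_zero]
    exact hε.le
  | succ k ih =>
    intro ε hε
    obtain ⟨H1, h1⟩ := star hE k (ε / 4) (by positivity)
    obtain ⟨H2, h2⟩ := ih (ε / 2) (by positivity)
    obtain ⟨H3, h3⟩ := exists_nat_ge (8 * (k : ℝ) ^ 2 / ε)
    refine ⟨max (max H1 H2) (max H3 1), fun H hH => ?_⟩
    have hH1 : H1 ≤ H := le_trans (le_trans (le_max_left _ _) (le_max_left _ _)) hH
    have hH2 : H2 ≤ H := le_trans (le_trans (le_max_right _ _) (le_max_left _ _)) hH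
    have hH3 : H3 ≤ H := le_trans (le_trans (le_max_left _ _) (le_max_right _ _)) hH
    have hH4 : 1 ≤ H := le_trans (le_trans (le_max_right _ _) (le_max_right _ _)) hH
    obtain ⟨N1, n1⟩ := h1 H hH1
    obtain ⟨N2, n2⟩ := h2 H hH2
    refine ⟨max (max N1 N2) 1, fun N hN => ?_⟩
    have hN1 : N1 ≤ N := le_trans (le_trans (le_max_left _ _) (le_max_left _ _)) hN
    have hN2 : N2 ≤ N := le_trans (le_trans (le_max_right _ _) (le_max_left _ _)) hN
    have hN3 : 1 ≤ N := le_trans (le_max_right _ _) hN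
    have hHr : (0 : ℝ) < H := by exact_mod_cast (show 0 < H from hH4)
    set S := Fintype.piFinset (fun _ : Fin k => Finset.Icc 1 H) with hS
    have hIH : 1 / (H : ℝ) ^ k * ∑ h ∈ S, DD N h ≤ ε / 2 := n2 N hN2
    have hgoal : 1 / (H : ℝ) ^ (k + 1) * ∑ h ∈ Fintype.piFinset (fun _ : Fin (k + 1) =>
        Finset.Icc 1 H), DD N h ≤ ε := by
      rw [sum_snoc]
      classical
      have hA : ∀ h ∈ S, ∑ t ∈ Finset.Icc 1 H, AA N h t ≤
          H * (ε / 4) + 2 * H * (if Function.Injective h then 0 else (1 : ℝ)) := by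
        intro h hh
        by_cases hi : Function.Injective h
        · rw [if_pos hi, mul_zero, add_zero]
          have h4 := n1 N hN1 h hi (fun c => by
            rw [hS, Fintype.mem_piFinset] at hh
            exact (Finset.mem_Icc.1 (hh c)).2)
          have h5 : 1 / (H : ℝ) * ∑ t ∈ Finset.Icc 1 H, AA N h t ≤ ε / 4 := h4
          rw [one_div_mul_eq_div, div_le_iff₀ hHr] at h5
          linarith
        · rw [if_neg hi, mul_one]
          have h4 : ∑ t ∈ Finset.Icc 1 H, AA N h t ≤ ∑ t ∈ Finset.Icc 1 H, (2 : ℝ) :=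
            Finset.sum_le_sum fun t _ => AA_le hN3 h t
          have h5 : ∑ t ∈ Finset.Icc 1 H, (2 : ℝ) = 2 * H := by
            rw [Finset.sum_const, nsmul_eq_mul, Nat.card_Icc, Nat.add_sub_cancel]
            ring
          have h6 : 0 ≤ H * (ε / 4) := by positivity
          linarith
      have hsum : ∑ h ∈ S, ∑ t ∈ Finset.Icc 1 H, DD N (Fin.snoc h t : Fin (k + 1) → ℕ) ≤
          (H : ℝ) ^ k * (H * (ε / 4)) + 2 * H * ni k H + H * ∑ h ∈ S, DD N h := by
        calc ∑ h ∈ S, ∑ t ∈ Finset.Icc 1 H, DD N (Fin.snoc h t : Fin (k + 1) → ℕ)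
            ≤ ∑ h ∈ S, ((H * (ε / 4) + 2 * H * (if Function.Injective h then 0 else (1 : ℝ))) +
              H * DD N h) := by
              refine Finset.sum_le_sum fun h hh => ?_
              have h4 : ∑ t ∈ Finset.Icc 1 H, DD N (Fin.snoc h t : Fin (k + 1) → ℕ) ≤
                  ∑ t ∈ Finset.Icc 1 H, (AA N h t + DD N h) :=
                Finset.sum_le_sum fun t _ => DD_snoc_le hN3 h t
              rw [Finset.sum_add_distrib, Finset.sum_const, nsmul_eq_mul, Nat.card_Icc,
                Nat.add_sub_cancel] at h4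
              exact h4.trans (add_le_add (hA h hh) le_rfl)
          _ = (H : ℝ) ^ k * (H * (ε / 4)) + 2 * H * ni k H + H * ∑ h ∈ S, DD N h := by
              rw [Finset.sum_add_distrib, Finset.sum_add_distrib, Finset.sum_const, nsmul_eq_mul,
                hS, card_pi, ← Finset.mul_sum, ← Finset.mul_sum]
              rfl
      have hni := ni_le k H
      have hk : 2 * ((k : ℝ) ^ 2 / H) ≤ ε / 4 := by
        have h4 : 8 * (k : ℝ) ^ 2 / ε ≤ H := h3.trans (by exact_mod_cast hH3)
        rw [div_le_iff₀ hε] at h4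
        have h5 : (k : ℝ) ^ 2 / H * H = (k : ℝ) ^ 2 := div_mul_cancel₀ _ hHr.ne'
        have h6 : 8 * ((k : ℝ) ^ 2 / H) * H ≤ ε * H := by nlinarith
        have h7 : 8 * ((k : ℝ) ^ 2 / H) ≤ ε := le_of_mul_le_mul_right h6 hHr
        linarith
      have hni2 : ni k H ≤ ((k : ℝ) ^ 2 / H) * (H : ℝ) ^ k := by
        rw [div_mul_eq_mul_div, le_div_iff₀ hHr]
        linarith
      have hpk : (0 : ℝ) < (H : ℝ) ^ k := by positivity
      have hIH2 : ∑ h ∈ S, DD N h ≤ (ε / 2) * (H : ℝ) ^ k := by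
        rw [one_div_mul_eq_div, div_le_iff₀ hpk] at hIH
        exact hIH
      rw [one_div_mul_eq_div, div_le_iff₀ (by positivity)]
      refine hsum.trans ?_
      have h8 : 2 * H * ni k H ≤ (ε / 4) * (H : ℝ) ^ (k + 1) := by
        calc 2 * H * ni k H ≤ 2 * H * (((k : ℝ) ^ 2 / H) * (H : ℝ) ^ k) :=
              mul_le_mul_of_nonneg_left hni2 (by positivity)
          _ = (2 * ((k : ℝ) ^ 2 / H)) * (H : ℝ) ^ (k + 1) := by ring
          _ ≤ (ε / 4) * (H : ℝ) ^ (k + 1) := mul_le_mul_of_nonneg_right hk (by positivity)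
      have h9 : (H : ℝ) * ∑ h ∈ S, DD N h ≤ (ε / 2) * (H : ℝ) ^ (k + 1) := by
        calc (H : ℝ) * ∑ h ∈ S, DD N h ≤ H * ((ε / 2) * (H : ℝ) ^ k) :=
              mul_le_mul_of_nonneg_left hIH2 hHr.le
          _ = _ := by ring
      have h10 : (H : ℝ) ^ k * (H * (ε / 4)) = (ε / 4) * (H : ℝ) ^ (k + 1) := by ring
      rw [h10]
      linarith
    exact hgoal

end AS
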